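import Pool.Agent.Lib.CBT.Defs

/-!
# CBT.Path : one piece moves, the rest stays

`conn_path`: the data of `h2 : Conn (X \ E) h h` are labels `l` and paths `p`; on `X \ E` we only use that
`h x = p (l x) 0` takes finitely many values on Baire measurable classes and `x ↦ x + h x` is injective
on `X \ E` (time 0).  New labels: `Option κ`, `none` on `E`, `some (l x)` off `E`; paths: `d` for `none`,
constant `fun _ => p i 0` for `some i`.  Injectivity at time `t`: two points of `E`: common translation;
two points off `E`: `h2` at time 0; mixed: `sep`.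
-/

set_option autoImplicit false

namespace Pool.Agent.CBT

open Set Metric

theorem conn_path {X E : Set E3} (hE : BaireMeasurableSet E) {h : E3 → E3} (h2 : Conn (X \ E) h h)
    (d : ℝ → E3) (hd : Continuous d)
    (sep : ∀ t ∈ Icc (0 : ℝ) 1, ∀ x ∈ X ∩ E, ∀ y ∈ X \ E, x + d t ≠ y + h y) :
    Conn X (pw E (cst (d 0)) h) (pw E (cst (d 1)) h) := by
  classical
  obtain ⟨κ, hfin, l, p, hl, hp, hx, hinj⟩ := h2
  let l' : E3 → Option κ := fun x => if x ∈ E then none else some (l x)
  let p' : Option κ → ℝ → E3 := fun o => match o with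
    | none => d
    | some i => fun _ => p i 0
  have hlE : ∀ x, x ∈ E → l' x = none := fun x hx => if_pos hx
  have hlE' : ∀ x, x ∉ E → l' x = some (l x) := fun x hx => if_neg hx
  refine ⟨Option κ, inferInstance, l', p', ?_, ?_, ?_, ?_⟩
  · rintro (_ | i)
    · have : l' ⁻¹' {none} = E := by
        ext x
        by_cases hxE : x ∈ E
        · simp [hlE x hxE, hxE]
        · simp [hlE' x hxE, hxE]
      rw [this]; exact hE
    · have : l' ⁻¹' {some i} = l ⁻¹' {i} \ E := by
        ext x
        by_cases hxE : x ∈ E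
        · simp [hlE x hxE, hxE]
        · simp [hlE' x hxE, hxE]
      rw [this]; exact (hl i).diff hE
  · rintro (_ | i)
    · exact hd
    · exact continuous_const
  · intro x hxX
    by_cases hxE : x ∈ E
    · rw [hlE x hxE]
      simp [p', pw, cst, hxE]
    · rw [hlE' x hxE]
      have := (hx x ⟨hxX, hxE⟩).1
      simp [p', pw, hxE, this]
  · intro t ht x hxX y hyX hxy
    simp only at hxy
    by_cases hxE : x ∈ E <;> by_cases hyE : y ∈ E
    · rw [hlE x hxE, hlE y hyE] at hxy
      exact add_right_cancel hxy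
    · rw [hlE x hxE, hlE' y hyE] at hxy
      have h1 := (hx y ⟨hyX, hyE⟩).1
      exact absurd (by rw [← h1]; exact hxy) (sep t ht x ⟨hxX, hxE⟩ y ⟨hyX, hyE⟩)
    · rw [hlE' x hxE, hlE y hyE] at hxy
      have h1 := (hx x ⟨hxX, hxE⟩).1
      exact absurd (by rw [← h1]; exact hxy.symm) (sep t ht y ⟨hyX, hyE⟩ x ⟨hxX, hxE⟩)
    · rw [hlE' x hxE, hlE' y hyE] at hxy
      exact hinj 0 ⟨le_rfl, zero_le_one⟩ ⟨hxX, hxE⟩ ⟨hyX, hyE⟩ hxy

end Pool.Agent.CBT
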