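import Pool.Agent.Lib.CBT.Conn
import Pool.Agent.Lib.CBT.Path

/-!
# CBT.Base : the base criterion for `Sep`

* `conn_change`: the piece `E` is parked at `C` (`‖C‖ > 2R`), the rest at `0`; move it to `C'`.  Choose `w` with
  `⟨w,C⟩ = ⟨w,C'⟩ = 0`, `‖w‖ > 2R` (dimension three; e.g. a nonzero element of the orthogonal complement of the span of
  `C, C'`, rescaled) and use `conn_path` on the three segments `C → C + w → C' + w → C'`: every vector `D` on them has
  `‖D‖ > 2R` (Pythagoras), and `x + D = y` with `‖x‖, ‖y‖ ≤ R` would give `‖D‖ ≤ 2R`.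
* `sep_of_path`: `conn_path` with `h = cst 0`, then `conn_change` from `d 1` to `C`; take `L > 2R` in `Sep`.
* `sep_of_dir`: the straight path `t ↦ (t T) • u` with `T` large.
-/

set_option autoImplicit false

namespace Pool.Agent.CBT

open Set Metric

namespace BaseAux

theorem conn_far_path {X E : Set E3} (hE : BaireMeasurableSet E) (R : ℝ) (hR : ∀ x ∈ X, ‖x‖ ≤ R)
    (d : ℝ → E3) (hd : Continuous d) (h : ∀ t ∈ Icc (0 : ℝ) 1, 2 * R < ‖d t‖) :
    Conn X (pw E (cst (d 0)) (cst 0)) (pw E (cst (d 1)) (cst 0)) := by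
  refine conn_path hE (conn_cst _ 0 0) d hd ?_
  intro t ht x hx y hy hxy
  have h1 : d t = y - x := by
    have h2 : y + cst 0 y = y := add_zero y
    rw [h2] at hxy
    rw [← hxy]
    abel
  have h2 : ‖d t‖ ≤ 2 * R := by
    rw [h1]
    have h3 := norm_sub_le y x
    have h4 := hR x hx.1
    have h5 := hR y hy.1
    linarith
  exact absurd h2 (not_le.mpr (h t ht))

theorem exists_perp (C C' : E3) (M : ℝ) : ∃ w : E3, inner ℝ C w = 0 ∧ inner ℝ C' w = 0 ∧ M < ‖w‖ := by
  set K : Submodule ℝ E3 := Submodule.span ℝ {C, C'} with hK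
  have hfr : Module.finrank ℝ K ≤ 2 := by
    classical
    have h1 := finrank_span_finset_le_card (R := ℝ) ({C, C'} : Finset E3)
    rw [Finset.coe_insert, Finset.coe_singleton] at h1
    have h2 : Module.finrank ℝ K ≤ ({C, C'} : Finset E3).card := h1
    exact h2.trans Finset.card_le_two
  have hne : Kᗮ ≠ ⊥ := by
    intro h
    have h1 : K = ⊤ := (Submodule.orthogonal_eq_bot_iff (K := K)).mp h
    rw [h1, finrank_top, finrank_euclideanSpace, Fintype.card_fin] at hfr
    omega
  obtain ⟨w, hw, hw0⟩ := Submodule.exists_mem_ne_zero_of_ne_bot hne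
  have hC : C ∈ K := Submodule.subset_span (by simp)
  have hC' : C' ∈ K := Submodule.subset_span (by simp)
  have h1 : inner ℝ C w = 0 := (Submodule.mem_orthogonal K w).mp hw C hC
  have h2 : inner ℝ C' w = 0 := (Submodule.mem_orthogonal K w).mp hw C' hC'
  have hn : 0 < ‖w‖ := norm_pos_iff.mpr hw0
  refine ⟨((|M| + 1) / ‖w‖) • w, ?_, ?_, ?_⟩
  · rw [inner_smul_right, h1, mul_zero]
  · rw [inner_smul_right, h2, mul_zero]
  · rw [norm_smul, Real.norm_eq_abs, abs_div, abs_norm, abs_of_nonneg (by positivity : 0 ≤ |M| + 1),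
      div_mul_cancel₀ _ hn.ne']
    have := le_abs_self M
    linarith

theorem norm_le_add_perp (a w : E3) (h : inner ℝ a w = 0) : ‖a‖ ≤ ‖a + w‖ := by
  have h1 := norm_add_sq_eq_norm_sq_add_norm_sq_of_inner_eq_zero a w h
  nlinarith [norm_nonneg a, norm_nonneg (a + w), norm_nonneg w]

theorem norm_le_add_perp' (a w : E3) (h : inner ℝ a w = 0) : ‖w‖ ≤ ‖a + w‖ := by
  have h1 := norm_add_sq_eq_norm_sq_add_norm_sq_of_inner_eq_zero a w h
  nlinarith [norm_nonneg a, norm_nonneg (a + w), norm_nonneg w]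

end BaseAux

open BaseAux

theorem conn_change {X E : Set E3} (hE : BaireMeasurableSet E) (R : ℝ) (hR : ∀ x ∈ X, ‖x‖ ≤ R)
    (C C' : E3) (hC : 2 * R < ‖C‖) (hC' : 2 * R < ‖C'‖) :
    Conn X (pw E (cst C) (cst 0)) (pw E (cst C') (cst 0)) := by
  obtain ⟨w, hw1, hw2, hw3⟩ := exists_perp C C' (2 * R)
  have s1 : Conn X (pw E (cst C) (cst 0)) (pw E (cst (C + w)) (cst 0)) := by
    have h := conn_far_path hE R hR (fun t : ℝ => C + t • w) (by fun_prop) ?_
    · simpa using h
    · intro t _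
      refine lt_of_lt_of_le hC (norm_le_add_perp C (t • w) ?_)
      rw [inner_smul_right, hw1, mul_zero]
  have s2 : Conn X (pw E (cst (C + w)) (cst 0)) (pw E (cst (C' + w)) (cst 0)) := by
    have h := conn_far_path hE R hR (fun t : ℝ => ((1 - t) • C + t • C') + w) (by fun_prop) ?_
    · simpa using h
    · intro t _
      refine lt_of_lt_of_le hw3 (norm_le_add_perp' _ w ?_)
      rw [inner_add_left, inner_smul_left, inner_smul_left, hw1, hw2, mul_zero, mul_zero, add_zero]
  have s3 : Conn X (pw E (cst C') (cst 0)) (pw E (cst (C' + w)) (cst 0)) := by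
    have h := conn_far_path hE R hR (fun t : ℝ => C' + t • w) (by fun_prop) ?_
    · simpa using h
    · intro t _
      refine lt_of_lt_of_le hC' (norm_le_add_perp C' (t • w) ?_)
      rw [inner_smul_right, hw2, mul_zero]
  exact (s1.trans s2).trans s3.symm

theorem sep_of_path {X E : Set E3} (hE : BaireMeasurableSet E) (R : ℝ) (hR : ∀ x ∈ X, ‖x‖ ≤ R)
    (d : ℝ → E3) (hd : Continuous d) (h0 : d 0 = 0) (h1 : 2 * R < ‖d 1‖)
    (sep : ∀ t ∈ Icc (0 : ℝ) 1, ∀ x ∈ X ∩ E, ∀ y ∈ X \ E, x + d t ≠ y) : Sep X E := by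
  refine ⟨2 * R + 1, fun C hC => ?_⟩
  have h2 : Conn X (pw E (cst (d 0)) (cst 0)) (pw E (cst (d 1)) (cst 0)) := by
    refine conn_path hE (conn_cst _ 0 0) d hd ?_
    intro t ht x hx y hy hxy
    have h3 : y + cst 0 y = y := add_zero y
    rw [h3] at hxy
    exact sep t ht x hx y hy hxy
  have h3 := h2.trans (conn_change hE R hR (d 1) C h1 (by linarith))
  refine h3.congr ?_ (fun x _ => rfl)
  intro x _
  rw [h0]
  unfold pw
  split_ifs <;> rfl

theorem sep_of_dir {X E : Set E3} (hX : Bornology.IsBounded X) (hE : BaireMeasurableSet E) {u : E3}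
    (hu : u ≠ 0) (sep : ∀ t : ℝ, 0 < t → ∀ x ∈ X ∩ E, ∀ y ∈ X \ E, x + t • u ≠ y) : Sep X E := by
  obtain ⟨R, hR⟩ := hX.exists_norm_le
  have hn : 0 < ‖u‖ := norm_pos_iff.mpr hu
  set T : ℝ := (|2 * R| + 1) / ‖u‖ with hT
  have hT0 : 0 < T := by positivity
  refine sep_of_path hE R hR (fun t : ℝ => (t * T) • u) (by fun_prop) (by simp) ?_ ?_
  · show 2 * R < ‖((1 : ℝ) * T) • u‖
    rw [one_mul, norm_smul, Real.norm_eq_abs, abs_of_pos hT0, hT, div_mul_cancel₀ _ hn.ne']
    have := le_abs_self (2 * R)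
    linarith
  · intro t ht x hx y hy
    rcases eq_or_lt_of_le ht.1 with h | h
    · subst h
      simp only [zero_mul, zero_smul, add_zero]
      rintro rfl
      exact hy.2 hx.2
    · exact sep (t * T) (mul_pos h hT0) x hx y hy

end Pool.Agent.CBT
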