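import Pool.Agent.Lib.CBT.Far
import Pool.Agent.Lib.CBT.Base

/-!
# CBT.Algebra : `Sep` is a Boolean algebra, locality

* `mono`, `congr`: `Conn.mono`, `Conn.congr`.
* `exists_bm`: take `C` with `‖C‖ ≥ L`, `C ≠ 0`; on `X` membership in `E` means `p (l x) 1 = C`; let `E'` be the (finite)
  union of the label classes with `p i 1 = C`.
* `compl`: `Conn X 0 (E ↦ -C)`; add the common translation from `0` to `C` (`Conn.add _ 0 C`), `Conn.congr`.
* `inter`: let `R` bound `X`, `e` a unit vector, `L1, L2` large (`> 2R`, and beyond the thresholds of the two hypotheses).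
  By `exists_bm` we may replace `E` (and `F` on `X ∩ E`) by Baire measurable sets.
  Configurations (value on `E ∩ F` / on `E \ F` / off `E`):
  c0 = (0/0/0), c1 = (L1 e / L1 e / 0), c2 = ((L1+L2) e / L1 e / 0), c3 = ((L1+L2) e / 0 / 0), c4 = (C / 0 / 0).
  c0 → c1: hypothesis `h`.  c1 → c2: `conn_far` with the moving part `X ∩ E` (`h'` translated by `L1 e`, functional `-e`,
  the part `X \ E` rests at `0`).  c2 → c3: `conn_far` with moving part `X \ (E ∩ F)`: reverse of `h` restricted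
  (`Conn.symm`, `Conn.mono`), functional `e`, resting part `X ∩ E ∩ F` at `(L1+L2) e`.  c3 → c4: `conn_change`.
  (`L` of the conclusion: `2R + 1`.)
* `union`: de Morgan.
* `sep_local`: on `X` the set `E` is the finite union of the sets `S i ∩ E`, each of them is `Sep X` by `inter`.
* `sep_of_det`: finite Boolean combination of the sets `P i`: on `X`, `E` is the union over the finitely many patterns
  `σ : ι → Prop` (or `ι → Bool`) realised by a point of `X ∩ E` of the sets `⋂ i, (P i or its complement)`.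
* `sep_univ`/`sep_empty`: `conn_cst`.
-/

set_option autoImplicit false

namespace Pool.Agent.CBT

open Set Metric

theorem Sep.mono {X X' E : Set E3} (h : Sep X E) (hX : X' ⊆ X) : Sep X' E := by
  obtain ⟨L, hL⟩ := h
  exact ⟨L, fun C hC => (hL C hC).mono hX⟩

theorem Sep.congr {X E E' : Set E3} (h : Sep X E) (hE : ∀ x ∈ X, x ∈ E ↔ x ∈ E') : Sep X E' := by
  obtain ⟨L, hL⟩ := h
  refine ⟨L, fun C hC => (hL C hC).congr (fun _ _ => rfl) fun x hx => ?_⟩
  by_cases hx' : x ∈ E
  · simp [pw, hx', (hE x hx).1 hx']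
  · have : x ∉ E' := fun h => hx' ((hE x hx).2 h)
    simp [pw, hx', this]

theorem Sep.exists_bm {X E : Set E3} (h : Sep X E) :
    ∃ E' : Set E3, BaireMeasurableSet E' ∧ ∀ x ∈ X, x ∈ E ↔ x ∈ E' := by
  obtain ⟨L, hL⟩ := h
  have hn : ‖(EuclideanSpace.single (0 : Fin 3) (|L| + 1) : E3)‖ = |L| + 1 := by
    rw [PiLp.norm_single, Real.norm_eq_abs, abs_of_pos (by positivity)]
  have hne : (EuclideanSpace.single (0 : Fin 3) (|L| + 1) : E3) ≠ 0 := by
    intro h0
    rw [h0, norm_zero] at hn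
    have := abs_nonneg L
    linarith
  obtain ⟨κ, hκ, l, p, hl, hp, hX, hinj⟩ := hL (EuclideanSpace.single (0 : Fin 3) (|L| + 1))
    (by rw [hn]; have := le_abs_self L; linarith)
  refine ⟨⋃ i ∈ {i : κ | p i 1 = EuclideanSpace.single (0 : Fin 3) (|L| + 1)}, l ⁻¹' {i},
    BaireMeasurableSet.biUnion (Set.to_countable _) fun i _ => hl i, fun x hx => ?_⟩
  have h1 := (hX x hx).2
  simp only [mem_ofPred_eq, mem_iUnion, mem_preimage, mem_singleton_iff, exists_prop]
  constructor
  · intro hxE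
    refine ⟨l x, ?_, rfl⟩
    rw [h1]
    simp [pw, hxE, cst]
  · rintro ⟨i, hi, rfl⟩
    by_contra hxE
    rw [h1] at hi
    simp only [pw, hxE, cst, if_false] at hi
    exact hne hi.symm

theorem sep_empty (X : Set E3) : Sep X ∅ := by
  refine ⟨0, fun C _ => (conn_cst X 0 0).congr (fun _ _ => rfl) fun x _ => ?_⟩
  simp [pw]

theorem Sep.compl {X E : Set E3} (h : Sep X E) : Sep X Eᶜ := by
  obtain ⟨L, hL⟩ := h
  refine ⟨L, fun C hC => ((hL (-C) (by rwa [norm_neg])).add 0 C).congr (fun x _ => by simp [cst])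
    fun x _ => ?_⟩
  by_cases hx : x ∈ E
  · simp [pw, hx, cst]
  · simp [pw, hx, cst]

theorem inner_single (x : E3) : inner ℝ (EuclideanSpace.single (0 : Fin 3) (1 : ℝ)) x = x 0 := by
  simp [EuclideanSpace.inner_single_left]

theorem Sep.inter {X E F : Set E3} (hX : Bornology.IsBounded X) (h : Sep X E) (h' : Sep (X ∩ E) F) :
    Sep X (E ∩ F) := by
  obtain ⟨E0, hE0, hEE⟩ := h.exists_bm
  obtain ⟨F0, hF0, hFF⟩ := h'.exists_bm
  suffices Sep X (E0 ∩ F0) by
    refine this.congr fun x hx => ?_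
    constructor
    · rintro ⟨h1, h2⟩
      have h3 := (hEE x hx).2 h1
      exact ⟨h3, (hFF x ⟨hx, h3⟩).2 h2⟩
    · rintro ⟨h1, h2⟩
      exact ⟨(hEE x hx).1 h1, (hFF x ⟨hx, h1⟩).1 h2⟩
  have h0 : Sep X E0 := h.congr hEE
  have h0' : Sep (X ∩ E0) F0 := by
    have h1 : Sep (X ∩ E0) F := h'.mono fun x hx => ⟨hx.1, (hEE x hx.1).2 hx.2⟩
    exact h1.congr fun x hx => hFF x ⟨hx.1, (hEE x hx.1).2 hx.2⟩
  obtain ⟨R, hR⟩ : ∃ R : ℝ, ∀ x ∈ X, ‖x‖ ≤ R := by
    obtain ⟨R, hR⟩ := hX.exists_norm_le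
    exact ⟨R, hR⟩
  obtain ⟨L1, hL1⟩ := h0
  obtain ⟨L2, hL2⟩ := h0'
  set e : E3 := EuclideanSpace.single (0 : Fin 3) (1 : ℝ) with he
  have hen : ‖e‖ = 1 := by rw [he, PiLp.norm_single, norm_one]
  have he0 : e ≠ 0 := by
    intro h1
    rw [h1, norm_zero] at hen
    exact zero_ne_one hen
  set l : ℝ := |L1| + |L2| + 2 * |R| + 1 with hl
  have hlpos : 0 < l := by positivity
  have hlR : 2 * R < l := by
    have := le_abs_self R
    have := abs_nonneg L1
    have := abs_nonneg L2
    linarith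
  have hle : ‖l • e‖ = l := by rw [norm_smul, hen, Real.norm_eq_abs, abs_of_pos hlpos, mul_one]
  have h2le : ‖(2 * l) • e‖ = 2 * l := by
    rw [norm_smul, hen, Real.norm_eq_abs, abs_of_pos (by positivity), mul_one]
  have hl1 : L1 ≤ ‖l • e‖ := by
    rw [hle]
    have := le_abs_self L1
    have := abs_nonneg R
    have := abs_nonneg L2
    linarith
  have hl2 : L2 ≤ ‖l • e‖ := by
    rw [hle]
    have := le_abs_self L2
    have := abs_nonneg R
    have := abs_nonneg L1
    linarith
  have hin : ∀ x ∈ X, |inner ℝ e x| ≤ R := by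
    intro x hx
    calc |inner ℝ e x| ≤ ‖e‖ * ‖x‖ := abs_real_inner_le_norm e x
      _ ≤ R := by rw [hen, one_mul]; exact hR x hx
  have hee : inner ℝ e e = 1 := by rw [real_inner_self_eq_norm_sq, hen]; norm_num
  -- the four moves
  have c1 : Conn X (cst 0) (pw E0 (cst (l • e)) (cst 0)) := hL1 _ hl1
  have c2 : Conn X (pw E0 (cst (l • e)) (cst 0))
      (pw E0 (pw F0 (cst ((2 * l) • e)) (cst (l • e))) (cst 0)) := by
    have hm : Conn (X ∩ E0) (cst (l • e)) (pw F0 (cst ((2 * l) • e)) (cst (l • e))) := by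
      refine ((hL2 _ hl2).add (l • e) (l • e)).congr (fun x _ => by simp [cst]) fun x _ => ?_
      by_cases hx : x ∈ F0
      · simp only [pw, hx, cst, if_true]
        rw [← two_smul ℝ (l • e), smul_smul]
      · simp [pw, hx, cst]
    refine conn_far hX hE0 (e := -e) (neg_ne_zero.2 he0) (R - l) hm (conn_cst _ 0 0) ?_ ?_ ?_
    · intro x hx
      have h1 := abs_le.1 (hin x hx.1)
      simp only [cst, inner_neg_left, inner_add_right, inner_smul_right, hee]
      linarith [h1.1]
    · intro x hx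
      have h1 := abs_le.1 (hin x hx.1)
      by_cases hxF : x ∈ F0
      · simp only [pw, hxF, if_true, cst, inner_neg_left, inner_add_right, inner_smul_right, hee]
        linarith [h1.1]
      · simp only [pw, hxF, if_false, cst, inner_neg_left, inner_add_right, inner_smul_right, hee]
        linarith [h1.1]
    · intro x hx
      have h1 := abs_le.1 (hin x hx.1)
      simp only [cst, inner_neg_left, add_zero]
      linarith [h1.2]
  have c3 : Conn X (pw (E0 ∩ F0)ᶜ (pw E0 (cst (l • e)) (cst 0)) (cst ((2 * l) • e)))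
      (pw (E0 ∩ F0)ᶜ (cst 0) (cst ((2 * l) • e))) := by
    refine conn_far hX (hE0.inter hF0).compl (e := e) he0 (l + R) (c1.symm.mono inter_subset_left)
      (conn_cst _ _ _) ?_ ?_ ?_
    · intro x hx
      have h1 := abs_le.1 (hin x hx.1)
      by_cases hxE : x ∈ E0
      · simp only [pw, hxE, if_true, cst, inner_add_right, inner_smul_right, hee]
        linarith [h1.2]
      · simp only [pw, hxE, if_false, cst, inner_add_right, inner_zero_right]
        linarith [h1.2]
    · intro x hx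
      have h1 := abs_le.1 (hin x hx.1)
      simp only [cst, inner_add_right, inner_zero_right]
      linarith [h1.2]
    · intro x hx
      have h1 := abs_le.1 (hin x hx.1)
      simp only [cst, inner_add_right, inner_smul_right, hee]
      linarith [h1.1]
  refine ⟨2 * R + 1, fun C hC => ?_⟩
  have c4 : Conn X (pw (E0 ∩ F0) (cst ((2 * l) • e)) (cst 0)) (pw (E0 ∩ F0) (cst C) (cst 0)) :=
    conn_change (hE0.inter hF0) R hR _ _ (by rw [h2le]; linarith) (by linarith)
  have c3' : Conn X (pw E0 (pw F0 (cst ((2 * l) • e)) (cst (l • e))) (cst 0))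
      (pw (E0 ∩ F0) (cst ((2 * l) • e)) (cst 0)) := by
    refine c3.congr (fun x _ => ?_) fun x _ => ?_
    · by_cases h1 : x ∈ E0 <;> by_cases h2 : x ∈ F0 <;> simp [pw, h1, h2, cst]
    · by_cases h1 : x ∈ E0 <;> by_cases h2 : x ∈ F0 <;> simp [pw, h1, h2, cst]
  exact ((c1.trans c2).trans c3').trans c4

theorem Sep.union {X E F : Set E3} (hX : Bornology.IsBounded X) (h : Sep X E) (h' : Sep X F) :
    Sep X (E ∪ F) := by
  have h1 := (h.compl.inter hX (h'.compl.mono inter_subset_left)).compl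
  rwa [← compl_union, compl_compl] at h1

theorem sep_iUnion {ι : Type} [Finite ι] {X : Set E3} (hX : Bornology.IsBounded X) (S : ι → Set E3)
    (hS : ∀ i, Sep X (S i)) : Sep X (⋃ i, S i) := by
  classical
  have key : ∀ s : Finset ι, Sep X (⋃ i ∈ s, S i) := by
    intro s
    induction s using Finset.induction_on with
    | empty => simpa using sep_empty X
    | insert a s _ ih =>
      rw [Finset.set_biUnion_insert]
      exact (hS a).union hX ih
  cases nonempty_fintype ι
  have := key Finset.univ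
  simpa using this

theorem sep_local {ι : Type} [Finite ι] {X E : Set E3} (hX : Bornology.IsBounded X) (S : ι → Set E3)
    (hS : ∀ i, Sep X (S i)) (hcov : X ⊆ ⋃ i, S i) (h : ∀ i, Sep (X ∩ S i) E) : Sep X E := by
  have h1 : Sep X (⋃ i, S i ∩ E) := sep_iUnion hX _ fun i => (hS i).inter hX (h i)
  refine h1.congr fun x hx => ?_
  rw [← iUnion_inter]
  exact ⟨fun h2 => h2.2, fun h2 => ⟨hcov hx, h2⟩⟩

theorem sep_of_det {ι : Type} [Finite ι] {X E : Set E3} (hX : Bornology.IsBounded X) (P : ι → Set E3)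
    (hP : ∀ i, Sep X (P i)) (h : ∀ x ∈ X, ∀ y ∈ X, (∀ i, x ∈ P i ↔ y ∈ P i) → (x ∈ E ↔ y ∈ E)) :
    Sep X E := by
  classical
  -- the cells of the patterns
  have hQ : ∀ (i : ι) (s : Prop), Sep X {x | ¬ (x ∈ P i ↔ s)} := by
    intro i s
    by_cases hs : s
    · refine (hP i).compl.congr fun x _ => ?_
      simp [hs]
    · refine (hP i).congr fun x _ => ?_
      simp [hs]
  have hT : ∀ σ : ι → Prop, Sep X {x | ∀ i, (x ∈ P i ↔ σ i)} := by
    intro σ
    refine (sep_iUnion hX _ fun i => hQ i (σ i)).compl.congr fun x _ => ?_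
    simp
  have hU : Sep X (⋃ σ : ι → Prop, if (∃ x ∈ X, x ∈ E ∧ ∀ i, (x ∈ P i ↔ σ i)) then
      {x | ∀ i, (x ∈ P i ↔ σ i)} else ∅) := by
    refine sep_iUnion hX _ fun σ => ?_
    split_ifs
    · exact hT σ
    · exact sep_empty X
  refine hU.congr fun x hx => ?_
  simp only [mem_iUnion]
  constructor
  · rintro ⟨σ, hσ⟩
    split_ifs at hσ with hc
    · obtain ⟨y, hy, hyE, hyσ⟩ := hc
      exact (h y hy x hx fun i => (hyσ i).trans (hσ i).symm).1 hyE
    · exact absurd hσ (Set.notMem_empty x)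
  · intro hxE
    refine ⟨fun i => x ∈ P i, ?_⟩
    rw [if_pos ⟨x, hx, hxE, fun i => Iff.rfl⟩]
    exact fun i => Iff.rfl

end Pool.Agent.CBT
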