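import Pool.Agent.Lib.CBT.Defs

/-!
# CBT.Cay : elementary facts on the Cayley rotations

`cay w = 1 + 2/(1+‖w‖²) (K + K²)`, `K = skew w`, `K³ = -‖w‖² K`, `Kᵀ = -K`.  Everything is a rational identity in the three
coordinates (`EuclideanSpace.norm_sq_eq`, `Fin.sum_univ_three`, `Matrix` entries, `field_simp; ring`).
The determinant is 1: direct computation, or orthogonal and `det (cay w) ≠ -1` by continuity.
-/

set_option autoImplicit false

namespace Pool.Agent.CBT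

open Set Metric

namespace CayAux

theorem nsq (w : E3) : ‖w‖ ^ 2 = w 0 ^ 2 + w 1 ^ 2 + w 2 ^ 2 := by
  rw [EuclideanSpace.norm_sq_eq, Fin.sum_univ_three]
  simp only [Real.norm_eq_abs, sq_abs]

theorem cay_eq (w : E3) : cay w = !![
    1 + 2 / (1 + ‖w‖ ^ 2) * (-(w 1 ^ 2 + w 2 ^ 2)),
    2 / (1 + ‖w‖ ^ 2) * (-w 2 + w 0 * w 1),
    2 / (1 + ‖w‖ ^ 2) * (w 1 + w 0 * w 2);
    2 / (1 + ‖w‖ ^ 2) * (w 2 + w 0 * w 1),
    1 + 2 / (1 + ‖w‖ ^ 2) * (-(w 0 ^ 2 + w 2 ^ 2)),
    2 / (1 + ‖w‖ ^ 2) * (-w 0 + w 1 * w 2);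
    2 / (1 + ‖w‖ ^ 2) * (-w 1 + w 0 * w 2),
    2 / (1 + ‖w‖ ^ 2) * (w 0 + w 1 * w 2),
    1 + 2 / (1 + ‖w‖ ^ 2) * (-(w 0 ^ 2 + w 1 ^ 2))] := by
  unfold cay skew
  ext i j
  fin_cases i <;> fin_cases j <;>
    simp [Matrix.mul_apply, Fin.sum_univ_three] <;> ring_nf <;> simp

theorem app (A : Matrix (Fin 3) (Fin 3) ℝ) (x : E3) (i : Fin 3) :
    Matrix.toEuclideanLin A x i = A i 0 * x 0 + A i 1 * x 1 + A i 2 * x 2 := by
  rw [Matrix.toEuclideanLin_apply]
  simp [Matrix.mulVec, dotProduct, Fin.sum_univ_three]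

end CayAux

open CayAux

theorem cay_mem (w : E3) : cay w ∈ Matrix.specialOrthogonalGroup (Fin 3) ℝ := by
  rw [Matrix.mem_specialOrthogonalGroup_iff, Matrix.mem_orthogonalGroup_iff]
  have hpos : (1 + (w 0 ^ 2 + w 1 ^ 2 + w 2 ^ 2) : ℝ) ≠ 0 := by positivity
  constructor
  · rw [cay_eq, nsq]
    ext i j
    fin_cases i <;> fin_cases j <;>
      simp [Matrix.mul_apply, Fin.sum_univ_three, Matrix.star_apply] <;> field_simp <;> ring
  · rw [cay_eq, nsq, Matrix.det_fin_three]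
    simp
    field_simp
    ring

theorem cay_zero : cay 0 = 1 := by
  rw [cay_eq, nsq]
  ext i j
  fin_cases i <;> fin_cases j <;> simp

theorem cay_neg_mul (w : E3) : cay (-w) * cay w = 1 := by
  have hpos : (1 + (w 0 ^ 2 + w 1 ^ 2 + w 2 ^ 2) : ℝ) ≠ 0 := by positivity
  rw [cay_eq, cay_eq, norm_neg, nsq]
  ext i j
  fin_cases i <;> fin_cases j <;>
    simp [Matrix.mul_apply, Fin.sum_univ_three] <;> field_simp <;> ring

theorem continuous_cay : Continuous cay := by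
  have h : ∀ w : E3, (1 + ‖w‖ ^ 2 : ℝ) ≠ 0 := fun w => by positivity
  have hc : Continuous fun w : E3 => 2 / (1 + ‖w‖ ^ 2) := by
    exact Continuous.div continuous_const (by fun_prop) h
  have hs : Continuous fun w : E3 => skew w := by
    unfold skew
    refine continuous_matrix fun i j => ?_
    fin_cases i <;> fin_cases j <;> simp <;> fun_prop
  unfold cay
  exact continuous_const.add (hc.smul (hs.add (hs.mul hs)))

theorem norm_cay (w x : E3) : ‖Matrix.toEuclideanLin (cay w) x‖ = ‖x‖ := by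
  have hpos : (1 + (w 0 ^ 2 + w 1 ^ 2 + w 2 ^ 2) : ℝ) ≠ 0 := by positivity
  have h : ‖Matrix.toEuclideanLin (cay w) x‖ ^ 2 = ‖x‖ ^ 2 := by
    rw [nsq, nsq x, app, app, app, cay_eq, nsq]
    simp
    field_simp
    ring
  exact (sq_eq_sq₀ (norm_nonneg _) (norm_nonneg _)).mp h

/-- small parameter, small displacement -/
theorem norm_cay_sub (w x : E3) : ‖Matrix.toEuclideanLin (cay w) x - x‖ ≤ 4 * ‖w‖ * ‖x‖ := by
  have hpos : (1 + (w 0 ^ 2 + w 1 ^ 2 + w 2 ^ 2) : ℝ) ≠ 0 := by positivity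
  have h : ‖Matrix.toEuclideanLin (cay w) x - x‖ ^ 2 * (1 + ‖w‖ ^ 2) =
      4 * (‖w‖ ^ 2 * ‖x‖ ^ 2 - (w 0 * x 0 + w 1 * x 1 + w 2 * x 2) ^ 2) := by
    rw [nsq (Matrix.toEuclideanLin (cay w) x - x)]
    simp only [PiLp.sub_apply]
    rw [app, app, app, cay_eq, nsq w, nsq x]
    simp
    field_simp
    ring
  have h1 : ‖Matrix.toEuclideanLin (cay w) x - x‖ ^ 2 ≤ (4 * ‖w‖ * ‖x‖) ^ 2 := by
    have h2 : ‖Matrix.toEuclideanLin (cay w) x - x‖ ^ 2 ≤
        ‖Matrix.toEuclideanLin (cay w) x - x‖ ^ 2 * (1 + ‖w‖ ^ 2) := by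
      nlinarith [sq_nonneg ‖w‖, sq_nonneg ‖Matrix.toEuclideanLin (cay w) x - x‖,
        mul_nonneg (sq_nonneg ‖Matrix.toEuclideanLin (cay w) x - x‖) (sq_nonneg ‖w‖)]
    rw [h] at h2
    nlinarith [sq_nonneg (w 0 * x 0 + w 1 * x 1 + w 2 * x 2),
      mul_nonneg (sq_nonneg ‖w‖) (sq_nonneg ‖x‖)]
  exact (sq_le_sq₀ (norm_nonneg _) (by positivity)).mp h1

/-- the motion as an element of the isometry group -/
theorem exists_iso (w u : E3) : ∃ g : Iso, ∀ x, g x = mot w u x := by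
  have hA : Function.LeftInverse (Matrix.toEuclideanLin (cay (-w))) (Matrix.toEuclideanLin (cay w)) := by
    intro x
    have := cay_neg_mul w
    calc Matrix.toEuclideanLin (cay (-w)) (Matrix.toEuclideanLin (cay w) x)
        = Matrix.toEuclideanLin (cay (-w) * cay w) x := by
          simp [Matrix.toEuclideanLin_apply]
      _ = x := by rw [this]; simp
  have hB : Function.RightInverse (Matrix.toEuclideanLin (cay (-w))) (Matrix.toEuclideanLin (cay w)) := by
    intro x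
    have := cay_neg_mul (-w)
    rw [neg_neg] at this
    calc Matrix.toEuclideanLin (cay w) (Matrix.toEuclideanLin (cay (-w)) x)
        = Matrix.toEuclideanLin (cay w * cay (-w)) x := by
          simp [Matrix.toEuclideanLin_apply]
      _ = x := by rw [this]; simp
  let e : E3 ≃ₗᵢ[ℝ] E3 :=
    { toLinearEquiv :=
        { (Matrix.toEuclideanLin (cay w)) with
          invFun := Matrix.toEuclideanLin (cay (-w))
          left_inv := hA
          right_inv := hB }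
      norm_map' := fun x => norm_cay w x }
  refine ⟨e.toAffineIsometryEquiv.trans (AffineIsometryEquiv.vaddConst ℝ u), fun x => ?_⟩
  show e x + u = mot w u x
  rfl

end Pool.Agent.CBT
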