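import Pool.Agent.Lib.CBT.Explode
import Pool.Agent.Lib.CBT.Cay

/-!
# CBT.Assemble : from an equidecomposition in the algebra `Expl` to the frozen statement

`g i = mot (ω i) (τ i)`.  Let `e0 = EuclideanSpace.single 0 1`.  By `explode` (twice) choose one `lam`, larger than both
thresholds and than `2 R0 + 1` with `R0 = 1 + max ‖τ i‖`, so that
`Conn (closedBall 0 1) 0 f` with `f x = lam (i+1) e0` on `U i` and `Conn (tgt) 0 f'` with `f' y = lam (i+1) e0` on `g i '' U i`.
Let `l, p` (labels in `κ`) and `l', p'` (labels in `κ'`) be the data.  Pieces: indexed by `(i, a, b) : Fin m × κ × κ'`,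
`A (i,a,b) = U i ∩ {x | l x = a} ∩ {x | l' (g i x) = b}`; reindex by `Fin m'`.
Baire property: `U i` is Baire measurable relative to the ball (`Sep.exists_bm` for `Expl (U i)`), `closedBall` is closed,
`g i` is a homeomorphism (`BaireMeasurableSet.preimage`); then `BaireMeasurableSet.residualEq_isOpen` gives the open set, and
`A =ᵇ U` means that `symmDiff A U` is meagre.
Motion of the piece `(i,a,b)`, with the clamps `φ₁ t = min (3t) 1`, `φ₂ t = max 0 (min (3t-1) 1)`, `φ₃ t = max 0 (3t-2)`: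
`R t = cay (φ₂ t • ω i)`, `τ t = p a (φ₁ t) + φ₂ t • τ i + (p' b (1 - φ₃ t) - p' b 1)`.
At `t ≤ 1/3`: `x + p a (3t)`; at `1/3 ≤ t ≤ 2/3`: `cay (s ω i) x + s τ i + lam (i+1) e0`, in the ball of radius `R0` about
`lam (i+1) e0`, and for the same `i` it is an injective map; at `t ≥ 2/3`: `g i x + p' b (3 - 3t)` since
`p' b 1 = lam (i+1) e0` on the piece.  At `t = 1`: `g i x + p' b 0 = g i x`.
Empty pieces are harmless for disjointness and unions; `R 0 = cay 0 = 1`, `τ 0 = p a 0 + 0`: for an EMPTY piece `p a 0` may be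
nonzero, so for empty pieces use the identity motion (case distinction), or replace `p a` by `p a - p a 0`.
-/

set_option autoImplicit false

namespace Pool.Agent.CBT

open Set Metric


namespace AssembleAux

/-- reduction to an arbitrary finite index type -/
theorem concl_of_finite {v : E3} {ι : Type} [Finite ι] (A : ι → Set E3)
    (R : ι → ℝ → Matrix (Fin 3) (Fin 3) ℝ) (τ : ι → ℝ → E3)
    (h1 : (⋃ i, A i) = closedBall 0 1)
    (h2 : Pairwise (fun i j => Disjoint (A i) (A j)))
    (h3 : ∀ i, BaireMeasurableSet (A i))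
    (h4 : ∀ i, Continuous (R i) ∧ Continuous (τ i))
    (h5 : ∀ i t, R i t ∈ Matrix.specialOrthogonalGroup (Fin 3) ℝ)
    (h6 : ∀ i, R i 0 = 1 ∧ τ i 0 = 0)
    (h7 : ∀ t ∈ Icc (0 : ℝ) 1, ∀ i, ∀ x ∈ A i, ∀ j, ∀ y ∈ A j,
      Matrix.toEuclideanLin (R i t) x + τ i t = Matrix.toEuclideanLin (R j t) y + τ j t → x = y)
    (h8 : (⋃ i, (fun x => Matrix.toEuclideanLin (R i 1) x + τ i 1) '' A i)
        = closedBall 0 1 ∪ closedBall v 1) : Concl v := by
  obtain ⟨n, ⟨e⟩⟩ := Finite.exists_equiv_fin ι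
  refine ⟨n, fun i => A (e.symm i), fun i => R (e.symm i), fun i => τ (e.symm i), ?_, ?_, ?_, ?_,
    ?_, ?_, ?_, ?_⟩
  · rw [← h1]
    exact e.symm.surjective.iUnion_comp A
  · intro i j hij
    exact h2 (fun h => hij (e.symm.injective h))
  · intro i
    obtain ⟨u, hu, hAu⟩ := (h3 (e.symm i)).residualEq_isOpen
    refine ⟨u, hu, ?_⟩
    unfold IsMeagre
    filter_upwards [hAu] with x hx
    have hx' : (x ∈ A (e.symm i)) = (x ∈ u) := hx
    rw [mem_compl_iff, Set.mem_symmDiff, hx']
    tauto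
  · intro i
    exact ⟨(h4 _).1.continuousOn, (h4 _).2.continuousOn⟩
  · intro i t _
    exact h5 _ t
  · intro i
    exact h6 _
  · intro t ht i j hij
    rw [Set.disjoint_left]
    rintro z ⟨x, hx, rfl⟩ ⟨y, hy, hxy⟩
    have hxy' := h7 t ht _ x hx _ y hy hxy.symm
    rw [hxy'] at hx
    exact Set.disjoint_left.1 (h2 (fun h => hij (e.symm.injective h))) hx hy
  · rw [← h8]
    exact e.symm.surjective.iUnion_comp
      (fun i => (fun x => Matrix.toEuclideanLin (R i 1) x + τ i 1) '' A i)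

/-- the parking vectors -/
noncomputable def pk (lam : ℝ) (i : ℕ) : E3 := EuclideanSpace.single (0 : Fin 3) (lam * ((i : ℕ) + 1 : ℝ))

theorem norm_pk_sub (lam : ℝ) (hlam : 0 ≤ lam) {i j : ℕ} (hij : i ≠ j) :
    lam ≤ ‖pk lam i - pk lam j‖ := by
  have h : pk lam i - pk lam j = EuclideanSpace.single (0 : Fin 3) (lam * ((i : ℝ) - j)) := by
    unfold pk
    ext k
    simp only [PiLp.sub_apply, PiLp.single_apply]
    split_ifs
    · ring
    · ring
  rw [h, PiLp.norm_single, Real.norm_eq_abs, abs_mul, abs_of_nonneg hlam]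
  have h1 : (1 : ℝ) ≤ |(i : ℝ) - j| := by
    have h2 : (1 : ℤ) ≤ |(i : ℤ) - j| := by
      apply Int.one_le_abs
      omega
    exact_mod_cast h2
  nlinarith

open Classical in
/-- the parked configuration of a disjoint family -/
noncomputable def fpk {m : ℕ} (U : Fin m → Set E3) (lam : ℝ) : E3 → E3 := fun x =>
  if h : ∃ i, x ∈ U i then pk lam h.choose else 0

theorem fpk_eq {m : ℕ} (U : Fin m → Set E3) (hd : Pairwise (fun i j => Disjoint (U i) (U j)))
    (lam : ℝ) (i : Fin m) (x : E3) (hx : x ∈ U i) : fpk U lam x = pk lam i := by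
  have h : ∃ i, x ∈ U i := ⟨i, hx⟩
  unfold fpk
  rw [dif_pos h]
  have h2 : h.choose = i := by
    by_contra hne
    exact Set.disjoint_left.1 (hd hne) h.choose_spec hx
  rw [h2]

theorem mot_inj (w u : E3) : Function.Injective (mot w u) := by
  intro x y h
  unfold mot at h
  have h1 : Matrix.toEuclideanLin (cay w) x = Matrix.toEuclideanLin (cay w) y := by
    simpa using h
  have h2 : Matrix.toEuclideanLin (cay w) (x - y) = 0 := by rw [map_sub, h1, sub_self]
  have h3 := norm_cay w (x - y)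
  rw [h2, norm_zero] at h3
  exact sub_eq_zero.1 (norm_eq_zero.1 h3.symm)

theorem mot_preimage (w u : E3) {s : Set E3} (hs : BaireMeasurableSet s) :
    BaireMeasurableSet (mot w u ⁻¹' s) := by
  obtain ⟨g, hg⟩ := exists_iso w u
  have h1 : mot w u = g := by
    funext x; exact (hg x).symm
  rw [h1]
  exact hs.preimage g.continuous g.toHomeomorph.isOpenMap

end AssembleAux

open AssembleAux in
theorem assemble (v : E3) {m : ℕ} (ω τ : Fin m → E3) (U : Fin m → Set E3)
    (hU : (⋃ i, U i) = closedBall 0 1) (hd : Pairwise (fun i j => Disjoint (U i) (U j)))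
    (hV : (⋃ i, mot (ω i) (τ i) '' U i) = closedBall 0 1 ∪ closedBall v 1)
    (hd' : Pairwise (fun i j => Disjoint (mot (ω i) (τ i) '' U i) (mot (ω j) (τ j) '' U j)))
    (eU : ∀ i, Expl (U i)) (eV : ∀ i, Expl (mot (ω i) (τ i) '' U i)) : Concl v := by
  have hbU : Bornology.IsBounded (⋃ i, U i) := by
    rw [hU]; exact isBounded_closedBall
  have hbV : Bornology.IsBounded (⋃ i, mot (ω i) (τ i) '' U i) := by
    rw [hV]; exact isBounded_closedBall.union isBounded_closedBall
  obtain ⟨L1, hL1⟩ := explode U hd eU hbU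
  obtain ⟨L2, hL2⟩ := explode (fun i => mot (ω i) (τ i) '' U i) hd' eV hbV
  obtain ⟨R0, hR0⟩ : ∃ R0 : ℝ, R0 = 1 + ∑ i, ‖τ i‖ := ⟨_, rfl⟩
  have hR0i : ∀ i, 1 + ‖τ i‖ ≤ R0 := by
    intro i
    rw [hR0]
    have := Finset.single_le_sum (f := fun k => ‖τ k‖) (fun _ _ => norm_nonneg _)
      (Finset.mem_univ i)
    linarith
  have hR0n : 0 ≤ R0 := by
    rw [hR0]
    have : 0 ≤ ∑ i, ‖τ i‖ := Finset.sum_nonneg (fun _ _ => norm_nonneg _)
    linarith
  obtain ⟨lam, hlam⟩ : ∃ lam : ℝ, lam = max (max L1 L2) (2 * R0 + 1) := ⟨_, rfl⟩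
  have hlam1 : L1 ≤ lam := by rw [hlam]; exact le_trans (le_max_left _ _) (le_max_left _ _)
  have hlam2 : L2 ≤ lam := by rw [hlam]; exact le_trans (le_max_right _ _) (le_max_left _ _)
  have hlam3 : 2 * R0 + 1 ≤ lam := by rw [hlam]; exact le_max_right _ _
  have hlam0 : 0 ≤ lam := by linarith
  obtain ⟨κ, hκ, l, p, hl, hp, hpx, hinj⟩ := hL1 lam hlam1 (fpk U lam)
    (fun i x hx => fpk_eq U hd lam i x hx)
  obtain ⟨κ', hκ', l', p', hl', hp', hpx', hinj'⟩ := hL2 lam hlam2
    (fpk (fun i => mot (ω i) (τ i) '' U i) lam)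
    (fun i x hx => fpk_eq (fun i => mot (ω i) (τ i) '' U i) hd' lam i x hx)
  -- Baire property of the parts
  have hUb : ∀ i, BaireMeasurableSet (U i) := by
    intro i
    obtain ⟨E', hE', hEE⟩ := (eU i (closedBall 0 1) isBounded_closedBall).exists_bm
    have h1 : U i = closedBall 0 1 ∩ E' := by
      ext x
      constructor
      · intro hx
        have hx1 : x ∈ closedBall (0 : E3) 1 := by
          rw [← hU]; exact mem_iUnion.2 ⟨i, hx⟩
        exact ⟨hx1, (hEE x hx1).1 hx⟩
      · rintro ⟨hx1, hx2⟩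
        exact (hEE x hx1).2 hx2
    rw [h1]
    exact (isClosed_closedBall.isOpen_compl.baireMeasurableSet.of_compl).inter hE'
  -- the clamps
  obtain ⟨φ1, hφ1⟩ : ∃ φ : ℝ → ℝ, φ = fun t => min (3 * t) 1 := ⟨_, rfl⟩
  obtain ⟨φ2, hφ2⟩ : ∃ φ : ℝ → ℝ, φ = fun t => max 0 (min (3 * t - 1) 1) := ⟨_, rfl⟩
  obtain ⟨φ3, hφ3⟩ : ∃ φ : ℝ → ℝ, φ = fun t => max 0 (3 * t - 2) := ⟨_, rfl⟩
  have c1 : Continuous φ1 := by rw [hφ1]; fun_prop
  have c2 : Continuous φ2 := by rw [hφ2]; fun_prop
  have c3 : Continuous φ3 := by rw [hφ3]; fun_prop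
  have e10 : φ1 0 = 0 := by rw [hφ1]; norm_num
  have e20 : φ2 0 = 0 := by rw [hφ2]; norm_num
  have e30 : φ3 0 = 0 := by rw [hφ3]; norm_num
  have e11 : φ1 1 = 1 := by rw [hφ1]; norm_num
  have e21 : φ2 1 = 1 := by rw [hφ2]; norm_num
  have e31 : φ3 1 = 1 := by rw [hφ3]; norm_num
  -- facts on the points
  have hball : ∀ i, ∀ x ∈ U i, x ∈ ⋃ i, U i := fun i x hx => mem_iUnion.2 ⟨i, hx⟩
  have hball' : ∀ i, ∀ x ∈ U i, mot (ω i) (τ i) x ∈ ⋃ i, mot (ω i) (τ i) '' U i :=
    fun i x hx => mem_iUnion.2 ⟨i, mem_image_of_mem _ hx⟩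
  have hq0 : ∀ i, ∀ x ∈ U i, p (l x) 0 = 0 := fun i x hx => (hpx x (hball i x hx)).1
  have hq1 : ∀ i : Fin m, ∀ x ∈ U i, p (l x) 1 = pk lam i := fun i x hx => by
    rw [(hpx x (hball i x hx)).2, fpk_eq U hd lam i x hx]
  have hq0' : ∀ i, ∀ x ∈ U i, p' (l' (mot (ω i) (τ i) x)) 0 = 0 :=
    fun i x hx => (hpx' _ (hball' i x hx)).1
  have hq1' : ∀ i : Fin m, ∀ x ∈ U i, p' (l' (mot (ω i) (τ i) x)) 1 = pk lam i :=
    fun i x hx => by
      rw [(hpx' _ (hball' i x hx)).2]
      exact fpk_eq (fun i => mot (ω i) (τ i) '' U i) hd' lam i _ (mem_image_of_mem _ hx)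
  have hnorm : ∀ i, ∀ x ∈ U i, ‖x‖ ≤ 1 := by
    intro i x hx
    have h1 := hball i x hx
    rw [hU] at h1
    simpa using h1
  refine concl_of_finite (ι := Fin m × κ × κ')
    (fun a => U a.1 ∩ (l ⁻¹' {a.2.1} ∩ mot (ω a.1) (τ a.1) ⁻¹' (l' ⁻¹' {a.2.2})))
    (fun a t => cay (φ2 t • ω a.1))
    (fun a t => (p a.2.1 (φ1 t) - p a.2.1 0) + φ2 t • τ a.1 +
      (p' a.2.2 (1 - φ3 t) - p' a.2.2 1)) ?_ ?_ ?_ ?_ ?_ ?_ ?_ ?_
  · rw [← hU]
    ext x
    simp only [mem_iUnion]
    constructor
    · rintro ⟨a, ha⟩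
      exact ⟨a.1, ha.1⟩
    · rintro ⟨i, hi⟩
      exact ⟨(i, l x, l' (mot (ω i) (τ i) x)), hi, rfl, rfl⟩
  · intro a b hab
    rw [Set.disjoint_left]
    rintro x ⟨hx1, hx2, hx3⟩ ⟨hy1, hy2, hy3⟩
    have h1 : a.1 = b.1 := by
      by_contra hne
      exact Set.disjoint_left.1 (hd hne) hx1 hy1
    have h2 : a.2.1 = b.2.1 := by
      have hx2' : l x = a.2.1 := hx2
      have hy2' : l x = b.2.1 := hy2
      rw [← hx2', hy2']
    have h3 : a.2.2 = b.2.2 := by
      have hx3' : l' (mot (ω a.1) (τ a.1) x) = a.2.2 := hx3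
      have hy3' : l' (mot (ω b.1) (τ b.1) x) = b.2.2 := hy3
      rw [← hx3', ← hy3', h1]
    exact hab (Prod.ext h1 (Prod.ext h2 h3))
  · intro a
    exact (hUb _).inter ((hl _).inter (mot_preimage _ _ (hl' _)))
  · intro a
    constructor
    · exact continuous_cay.comp (c2.smul continuous_const)
    · exact (((hp _).comp c1).sub continuous_const).add (c2.smul continuous_const) |>.add
        (((hp' _).comp (continuous_const.sub c3)).sub continuous_const)
  · intro a t
    exact cay_mem _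
  · intro a
    constructor
    · simp only [e20, zero_smul]
      exact cay_zero
    · simp only [e10, e20, e30, zero_smul, sub_zero, sub_self, add_zero]
  · rintro t ⟨ht0, ht1⟩ ⟨i, a, b⟩ x ⟨hx1, hx2, hx3⟩ ⟨j, a', b'⟩ y ⟨hy1, hy2, hy3⟩ hxy
    have hx2' : l x = a := hx2
    have hy2' : l y = a' := hy2
    have hx3' : l' (mot (ω i) (τ i) x) = b := hx3
    have hy3' : l' (mot (ω j) (τ j) y) = b' := hy3
    simp only at hx1 hy1 hxy
    subst hx2' hy2' hx3' hy3'
    rw [hq0 i x hx1, hq0 j y hy1, hq1' i x hx1, hq1' j y hy1] at hxy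
    rcases le_total t (1 / 3) with ht | ht
    · -- first phase
      have f1 : φ1 t = 3 * t := by rw [hφ1]; exact min_eq_left (by linarith)
      have f2 : φ2 t = 0 := by
        rw [hφ2]; exact max_eq_left (le_trans (min_le_left _ _) (by linarith))
      have f3 : φ3 t = 0 := by rw [hφ3]; exact max_eq_left (by linarith)
      rw [f1, f2, f3, zero_smul, zero_smul, zero_smul, zero_smul, cay_zero] at hxy
      have h1 : ∀ z : E3, Matrix.toEuclideanLin (1 : Matrix (Fin 3) (Fin 3) ℝ) z = z := by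
        intro z; simp
      rw [h1, h1] at hxy
      simp only [sub_zero, add_zero] at hxy
      rw [hq1' i x hx1, hq1' j y hy1] at hxy
      simp only [sub_self, add_zero] at hxy
      exact hinj (3 * t) ⟨by linarith, by linarith⟩ (hball i x hx1) (hball j y hy1) hxy
    · rcases le_total t (2 / 3) with ht' | ht'
      · have f1 : φ1 t = 1 := by rw [hφ1]; exact min_eq_right (by linarith)
        have f2 : φ2 t = 3 * t - 1 := by
          rw [hφ2]
          show max 0 (min (3 * t - 1) 1) = 3 * t - 1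
          rw [min_eq_left (by linarith), max_eq_right (by linarith)]
        have f3 : φ3 t = 0 := by rw [hφ3]; exact max_eq_left (by linarith)
        rw [f1, f2, f3, hq1 i x hx1, hq1 j y hy1] at hxy
        simp only [sub_zero] at hxy
        rw [hq1' i x hx1, hq1' j y hy1] at hxy
        simp only [sub_self, add_zero] at hxy
        by_cases hij : i = j
        · subst hij
          have h1 := mot_inj ((3 * t - 1) • ω i) (pk lam i + (3 * t - 1) • τ i)
          exact h1 hxy
        · exfalso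
          have hne : (i : ℕ) ≠ j := fun h => hij (Fin.ext h)
          have h1 := norm_pk_sub lam hlam0 hne
          have h2 : pk lam i - pk lam j =
              (Matrix.toEuclideanLin (cay ((3 * t - 1) • ω j)) y + (3 * t - 1) • τ j) -
              (Matrix.toEuclideanLin (cay ((3 * t - 1) • ω i)) x + (3 * t - 1) • τ i) := by
            have h3 := hxy
            have h4 : pk lam i = Matrix.toEuclideanLin (cay ((3 * t - 1) • ω j)) y +
                (pk lam j + (3 * t - 1) • τ j) - (Matrix.toEuclideanLin (cay ((3 * t - 1) • ω i)) x +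
                (3 * t - 1) • τ i) := by
              rw [← h3]; abel
            rw [h4]; abel
          have hb : ∀ k, ∀ z ∈ U k, ‖Matrix.toEuclideanLin (cay ((3 * t - 1) • ω k)) z +
              (3 * t - 1) • τ k‖ ≤ R0 := by
            intro k z hz
            refine le_trans (norm_add_le _ _) ?_
            rw [norm_cay, norm_smul, Real.norm_eq_abs, abs_of_nonneg (by linarith)]
            have h5 := hnorm k z hz
            have h6 := hR0i k
            have h7 : (3 * t - 1) * ‖τ k‖ ≤ 1 * ‖τ k‖ :=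
              mul_le_mul_of_nonneg_right (by linarith) (norm_nonneg _)
            linarith
          rw [h2] at h1
          have h8 := norm_sub_le (Matrix.toEuclideanLin (cay ((3 * t - 1) • ω j)) y +
            (3 * t - 1) • τ j) (Matrix.toEuclideanLin (cay ((3 * t - 1) • ω i)) x +
            (3 * t - 1) • τ i)
          have h9 := hb i x hx1
          have h10 := hb j y hy1
          linarith
      · have f1 : φ1 t = 1 := by rw [hφ1]; exact min_eq_right (by linarith)
        have f2 : φ2 t = 1 := by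
          rw [hφ2]
          show max 0 (min (3 * t - 1) 1) = 1
          rw [min_eq_right (by linarith), max_eq_right (by linarith)]
        have f3 : φ3 t = 3 * t - 2 := by rw [hφ3]; exact max_eq_right (by linarith)
        rw [f1, f2, f3, one_smul, one_smul, one_smul, one_smul, hq1 i x hx1, hq1 j y hy1] at hxy
        have h1 : mot (ω i) (τ i) x + p' (l' (mot (ω i) (τ i) x)) (1 - (3 * t - 2)) =
            mot (ω j) (τ j) y + p' (l' (mot (ω j) (τ j) y)) (1 - (3 * t - 2)) := by
          have hl1 : mot (ω i) (τ i) x + p' (l' (mot (ω i) (τ i) x)) (1 - (3 * t - 2)) =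
              Matrix.toEuclideanLin (cay (ω i)) x + (pk lam i - 0 + τ i +
              (p' (l' (mot (ω i) (τ i) x)) (1 - (3 * t - 2)) - pk lam i)) := by
            unfold mot; abel
          have hl2 : mot (ω j) (τ j) y + p' (l' (mot (ω j) (τ j) y)) (1 - (3 * t - 2)) =
              Matrix.toEuclideanLin (cay (ω j)) y + (pk lam j - 0 + τ j +
              (p' (l' (mot (ω j) (τ j) y)) (1 - (3 * t - 2)) - pk lam j)) := by
            unfold mot; abel
          rw [hl1, hl2]
          exact hxy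
        have h2 : mot (ω i) (τ i) x = mot (ω j) (τ j) y :=
          hinj' (1 - (3 * t - 2)) ⟨by linarith, by linarith⟩ (hball' i x hx1) (hball' j y hy1) h1
        have h3 : i = j := by
          by_contra hne
          exact Set.disjoint_left.1 (hd' hne) (mem_image_of_mem _ hx1)
            (h2 ▸ mem_image_of_mem _ hy1)
        subst h3
        exact mot_inj _ _ h2
  · rw [← hV]
    have hfin : ∀ i, ∀ x ∈ U i, Matrix.toEuclideanLin (cay (φ2 1 • ω i)) x +
        ((p (l x) (φ1 1) - p (l x) 0) + φ2 1 • τ i +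
        (p' (l' (mot (ω i) (τ i) x)) (1 - φ3 1) - p' (l' (mot (ω i) (τ i) x)) 1)) =
        mot (ω i) (τ i) x := by
      intro i x hx
      rw [e11, e21, e31, one_smul, one_smul, sub_self, hq1 i x hx, hq0 i x hx, hq0' i x hx,
        hq1' i x hx]
      unfold mot
      abel
    ext z
    simp only [mem_iUnion]
    constructor
    · rintro ⟨⟨i, a, b⟩, x, ⟨hx1, hx2, hx3⟩, rfl⟩
      have hx2' : l x = a := hx2
      have hx3' : l' (mot (ω i) (τ i) x) = b := hx3
      subst hx2' hx3'
      exact ⟨i, x, hx1, (hfin i x hx1).symm⟩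
    · rintro ⟨i, x, hx, rfl⟩
      exact ⟨(i, l x, l' (mot (ω i) (τ i) x)), x, ⟨hx, rfl, rfl⟩, hfin i x hx⟩

end Pool.Agent.CBT
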