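import Pool.Agent.Lib.CBT.BDefs
import Pool.Agent.Lib.CBT.Cay

/-!
# CBT.BAn : analyticity in the parameter

The entries of `cay w` are rational functions of the coordinates of `w` with denominator `1 + ‖w‖^2 > 0`
(`EuclideanSpace.norm_sq_eq`, `Fin.sum_univ_three`), so each entry `p ↦ cay (p.1 i) a b` is analytic on the whole space
(`AnalyticOnNhd` of continuous linear maps, sums, products, `AnalyticOnNhd.div` or `.inv`).  Then induction on the list for
`lR`, `lT` (finite sums of products).  `analytic_powDet`: determinants, traces and axial vectors are polynomials in the entries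
(`Matrix.det_fin_three`, `Matrix.trace_fin_three`, `Fin.sum_univ_three`); `p.2.2` is a continuous linear function of `p`.
-/

set_option autoImplicit false

namespace Pool.Agent.CBT

open Matrix Set

variable {m : ℕ}

namespace BAnAux

/-- the function is analytic at `q` -/
abbrev An (q : Par m) (f : Par m → ℝ) : Prop := AnalyticAt ℝ f q

theorem coord1 (q : Par m) (i : Fin m) (c : Fin 3) : An q (fun p => p.1 i c) :=
  ((EuclideanSpace.proj c : E3 →L[ℝ] ℝ).comp
    ((ContinuousLinearMap.proj (R := ℝ) (φ := fun _ : Fin m => E3) i).comp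
      (ContinuousLinearMap.fst ℝ (Fin m → E3) ((Fin m → E3) × E3)))).analyticAt q

theorem coord2 (q : Par m) (i : Fin m) (c : Fin 3) : An q (fun p => p.2.1 i c) :=
  ((EuclideanSpace.proj c : E3 →L[ℝ] ℝ).comp
    ((ContinuousLinearMap.proj (R := ℝ) (φ := fun _ : Fin m => E3) i).comp
      ((ContinuousLinearMap.fst ℝ (Fin m → E3) E3).comp
        (ContinuousLinearMap.snd ℝ (Fin m → E3) ((Fin m → E3) × E3))))).analyticAt q

theorem coord3 (q : Par m) (c : Fin 3) : An q (fun p => p.2.2 c) :=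
  ((EuclideanSpace.proj c : E3 →L[ℝ] ℝ).comp
      ((ContinuousLinearMap.snd ℝ (Fin m → E3) E3).comp
        (ContinuousLinearMap.snd ℝ (Fin m → E3) ((Fin m → E3) × E3)))).analyticAt q

theorem cay_an {q : Par m} {f : Par m → E3} (hf : ∀ c, An q (fun p => f p c)) (a b : Fin 3) :
    An q (fun p => cay (f p) a b) := by
  have h0 := hf 0
  have h1 := hf 1
  have h2 := hf 2
  have hd : AnalyticAt ℝ (fun p => 2 / (1 + ((f p) 0 ^ 2 + (f p) 1 ^ 2 + (f p) 2 ^ 2))) q := by
    refine AnalyticAt.div analyticAt_const ?_ (by positivity)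
    exact analyticAt_const.add (((h0.pow 2).add (h1.pow 2)).add (h2.pow 2))
  have h3 := (h1.pow 2).add (h2.pow 2)
  have h4 := (h0.pow 2).add (h2.pow 2)
  have h5 := (h0.pow 2).add (h1.pow 2)
  have e : (fun p => cay (f p) a b) = fun p => (!![
    1 + 2 / (1 + ((f p) 0 ^ 2 + (f p) 1 ^ 2 + (f p) 2 ^ 2)) * (-((f p) 1 ^ 2 + (f p) 2 ^ 2)),
    2 / (1 + ((f p) 0 ^ 2 + (f p) 1 ^ 2 + (f p) 2 ^ 2)) * (-(f p) 2 + (f p) 0 * (f p) 1),
    2 / (1 + ((f p) 0 ^ 2 + (f p) 1 ^ 2 + (f p) 2 ^ 2)) * ((f p) 1 + (f p) 0 * (f p) 2);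
    2 / (1 + ((f p) 0 ^ 2 + (f p) 1 ^ 2 + (f p) 2 ^ 2)) * ((f p) 2 + (f p) 0 * (f p) 1),
    1 + 2 / (1 + ((f p) 0 ^ 2 + (f p) 1 ^ 2 + (f p) 2 ^ 2)) * (-((f p) 0 ^ 2 + (f p) 2 ^ 2)),
    2 / (1 + ((f p) 0 ^ 2 + (f p) 1 ^ 2 + (f p) 2 ^ 2)) * (-(f p) 0 + (f p) 1 * (f p) 2);
    2 / (1 + ((f p) 0 ^ 2 + (f p) 1 ^ 2 + (f p) 2 ^ 2)) * (-(f p) 1 + (f p) 0 * (f p) 2),
    2 / (1 + ((f p) 0 ^ 2 + (f p) 1 ^ 2 + (f p) 2 ^ 2)) * ((f p) 0 + (f p) 1 * (f p) 2),
    1 + 2 / (1 + ((f p) 0 ^ 2 + (f p) 1 ^ 2 + (f p) 2 ^ 2)) * (-((f p) 0 ^ 2 + (f p) 1 ^ 2))] :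
      Matrix (Fin 3) (Fin 3) ℝ) a b := by
    funext p
    rw [CayAux.cay_eq, CayAux.nsq]
  rw [e]
  fin_cases a <;> fin_cases b
  · exact analyticAt_const.add (hd.mul h3.neg)
  · exact hd.mul (h2.neg.add (h0.mul h1))
  · exact hd.mul (h1.add (h0.mul h2))
  · exact hd.mul (h2.add (h0.mul h1))
  · exact analyticAt_const.add (hd.mul h4.neg)
  · exact hd.mul (h0.neg.add (h1.mul h2))
  · exact hd.mul (h1.neg.add (h0.mul h2))
  · exact hd.mul (h0.add (h1.mul h2))
  · exact analyticAt_const.add (hd.mul h5.neg)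

theorem mul_an {q : Par m} {M N : Par m → M3} (hM : ∀ a b, An q (fun p => M p a b))
    (hN : ∀ a b, An q (fun p => N p a b)) (a b : Fin 3) : An q (fun p => (M p * N p) a b) := by
  simp only [Matrix.mul_apply, Fin.sum_univ_three]
  exact (((hM a 0).mul (hN 0 b)).add ((hM a 1).mul (hN 1 b))).add ((hM a 2).mul (hN 2 b))

theorem dot_an {q : Par m} {u v : Par m → V3} (hu : ∀ a, An q (fun p => u p a))
    (hv : ∀ a, An q (fun p => v p a)) : An q (fun p => u p ⬝ᵥ v p) := by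
  simp only [dotProduct, Fin.sum_univ_three]
  exact (((hu 0).mul (hv 0)).add ((hu 1).mul (hv 1))).add ((hu 2).mul (hv 2))

theorem mulVec_an {q : Par m} {M : Par m → M3} {v : Par m → V3}
    (hM : ∀ a b, An q (fun p => M p a b)) (hv : ∀ a, An q (fun p => v p a)) (a : Fin 3) :
    An q (fun p => (M p *ᵥ v p) a) :=
  dot_an (u := fun p => M p a) (fun b => hM a b) hv

theorem det3_eq (x y z : V3) : det3 x y z = x 0 * (y 1 * z 2 - y 2 * z 1) +
    x 1 * (y 2 * z 0 - y 0 * z 2) + x 2 * (y 0 * z 1 - y 1 * z 0) := by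
  simp [det3, cross_apply, dotProduct, Fin.sum_univ_three]

theorem det3_an {q : Par m} {x y z : Par m → V3} (hx : ∀ a, An q (fun p => x p a))
    (hy : ∀ a, An q (fun p => y p a)) (hz : ∀ a, An q (fun p => z p a)) :
    An q (fun p => det3 (x p) (y p) (z p)) := by
  simp only [det3_eq]
  exact (((hx 0).mul (((hy 1).mul (hz 2)).sub ((hy 2).mul (hz 1)))).add
    ((hx 1).mul (((hy 2).mul (hz 0)).sub ((hy 0).mul (hz 2))))).add
    ((hx 2).mul (((hy 0).mul (hz 1)).sub ((hy 1).mul (hz 0))))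

theorem axl_an {q : Par m} {M : Par m → M3} (hM : ∀ a b, An q (fun p => M p a b)) (a : Fin 3) :
    An q (fun p => axl (M p) a) := by
  fin_cases a
  · exact (hM 2 1).sub (hM 1 2)
  · exact (hM 0 2).sub (hM 2 0)
  · exact (hM 1 0).sub (hM 0 1)

theorem letR_an (q : Par m) (l : Fin m × Bool) (a b : Fin 3) :
    An q (fun p => letR p l a b) := by
  obtain ⟨i, e⟩ := l
  cases e
  · have h := cay_an (q := q) (f := fun p => -(p.1 i)) (fun c => (coord1 q i c).neg) a b
    simpa [letR] using h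
  · have h := cay_an (q := q) (f := fun p => p.1 i) (fun c => coord1 q i c) a b
    simpa [letR] using h

theorem letT_an (q : Par m) (l : Fin m × Bool) (a : Fin 3) :
    An q (fun p => letT p l a) := by
  obtain ⟨i, e⟩ := l
  cases e
  · have h := (mulVec_an (q := q) (letR_an q (i, false)) (v := fun p => (p.2.1 i).ofLp)
      (fun c => coord2 q i c) a).neg
    have e : (fun p : Par m => letT p (i, false) a) =
        fun p => -((letR p (i, false) *ᵥ (p.2.1 i).ofLp) a) := by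
      funext p
      simp [letT]
    rw [e]
    exact h
  · simpa [letT] using coord2 q i a

theorem lR_an (q : Par m) (L : List (Fin m × Bool)) (a b : Fin 3) :
    An q (fun p => lR p L a b) := by
  induction L generalizing a b with
  | nil => exact analyticAt_const
  | cons l L ih => exact mul_an (letR_an q l) ih a b

theorem lT_an (q : Par m) (L : List (Fin m × Bool)) (a : Fin 3) :
    An q (fun p => lT p L a) := by
  induction L generalizing a with
  | nil => exact analyticAt_const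
  | cons l L ih => exact (mulVec_an (letR_an q l) ih a).add (letT_an q l a)

theorem wR_an (q : Par m) (w : FreeGroup (Fin m)) (a b : Fin 3) :
    An q (fun p => wR p w a b) := lR_an q _ a b

theorem wT_an (q : Par m) (w : FreeGroup (Fin m)) (a : Fin 3) :
    An q (fun p => wT p w a) := lT_an q _ a

theorem rn_an (q : Par m) (w : FreeGroup (Fin m)) (a : Fin 3) :
    An q (fun p => (wR p w *ᵥ p.2.2.ofLp) a) := mulVec_an (wR_an q w) (fun c => coord3 q c) a

end BAnAux

open BAnAux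

theorem analytic_wR (w : FreeGroup (Fin m)) (i j : Fin 3) :
    AnalyticOnNhd ℝ (fun p : Par m => wR p w i j) univ := by
  exact fun q _ => wR_an q w i j

theorem analytic_wT (w : FreeGroup (Fin m)) (i : Fin 3) :
    AnalyticOnNhd ℝ (fun p : Par m => wT p w i) univ := by
  exact fun q _ => wT_an q w i

theorem analytic_n (i : Fin 3) : AnalyticOnNhd ℝ (fun p : Par m => p.2.2.ofLp i) univ := by
  exact fun q _ => coord3 q i

theorem analytic_f3 (a b : FreeGroup (Fin m)) : AnalyticOnNhd ℝ (fun p : Par m =>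
    det3 p.2.2.ofLp (wR p a *ᵥ p.2.2.ofLp) (wR p b *ᵥ p.2.2.ofLp)) univ := by
  exact fun q _ => det3_an (fun c => coord3 q c) (rn_an q a) (rn_an q b)

theorem analytic_f4 (a b c : FreeGroup (Fin m)) : AnalyticOnNhd ℝ (fun p : Par m =>
    det3 (wR p a *ᵥ p.2.2.ofLp - p.2.2.ofLp) (wR p b *ᵥ p.2.2.ofLp - p.2.2.ofLp)
      (wR p c *ᵥ p.2.2.ofLp - p.2.2.ofLp)) univ := by
  exact fun q _ => det3_an (fun i => (rn_an q a i).sub (coord3 q i))
    (fun i => (rn_an q b i).sub (coord3 q i)) (fun i => (rn_an q c i).sub (coord3 q i))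

theorem analytic_f5 (w : FreeGroup (Fin m)) :
    AnalyticOnNhd ℝ (fun p : Par m => axl (wR p w) ⬝ᵥ wT p w) univ := by
  exact fun q _ => dot_an (axl_an (wR_an q w)) (wT_an q w)

theorem analytic_f6 (w : FreeGroup (Fin m)) :
    AnalyticOnNhd ℝ (fun p : Par m => axl (wR p w) ⬝ᵥ p.2.2.ofLp) univ := by
  exact fun q _ => dot_an (axl_an (wR_an q w)) (fun c => coord3 q c)

theorem analytic_powDet (w : FreeGroup (Fin m)) (k : Fin 3 → ℤ) :
    AnalyticOnNhd ℝ (fun p : Par m => powDet p w k) univ := by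
  intro q _
  have h1 : ∀ i : Fin 3, An q (fun p => (wR p (w ^ k i)).trace - 3) := by
    intro i
    simp only [Matrix.trace_fin_three]
    exact (((wR_an q _ 0 0).add (wR_an q _ 1 1)).add (wR_an q _ 2 2)).sub analyticAt_const
  have h2 : ∀ i : Fin 3, An q (fun p => axl (wR p (w ^ k i)) ⬝ᵥ axl (wR p w)) :=
    fun i => dot_an (axl_an (wR_an q _)) (axl_an (wR_an q _))
  have h0 : ∀ i : Fin 3, An q (fun _ => (k i : ℝ)) := fun i => analyticAt_const
  have e : (fun p : Par m => powDet p w k) = fun p =>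
      (k 0 : ℝ) * ((wR p (w ^ k 1)).trace - 3) * (axl (wR p (w ^ k 2)) ⬝ᵥ axl (wR p w))
      - (k 0 : ℝ) * (axl (wR p (w ^ k 1)) ⬝ᵥ axl (wR p w)) * ((wR p (w ^ k 2)).trace - 3)
      - ((wR p (w ^ k 0)).trace - 3) * (k 1 : ℝ) * (axl (wR p (w ^ k 2)) ⬝ᵥ axl (wR p w))
      + ((wR p (w ^ k 0)).trace - 3) * (axl (wR p (w ^ k 1)) ⬝ᵥ axl (wR p w)) * (k 2 : ℝ)
      + (axl (wR p (w ^ k 0)) ⬝ᵥ axl (wR p w)) * (k 1 : ℝ) * ((wR p (w ^ k 2)).trace - 3)
      - (axl (wR p (w ^ k 0)) ⬝ᵥ axl (wR p w)) * ((wR p (w ^ k 1)).trace - 3) * (k 2 : ℝ) := by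
    funext p
    unfold powDet
    rw [Matrix.det_fin_three]
    rfl
  rw [e]
  exact ((((((h0 0).mul (h1 1)).mul (h2 2)).sub (((h0 0).mul (h2 1)).mul (h1 2))).sub
    (((h1 0).mul (h0 1)).mul (h2 2))).add (((h1 0).mul (h2 1)).mul (h0 2))).add
    (((h2 0).mul (h0 1)).mul (h1 2)) |>.sub (((h2 0).mul (h1 1)).mul (h0 2))

/-- the squared distance of `wR p w` from the identity -/
theorem analytic_dist (w : FreeGroup (Fin m)) :
    AnalyticOnNhd ℝ (fun p : Par m => ∑ i, ∑ j, (wR p w i j - (1 : M3) i j) ^ 2) univ := by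
  intro q _
  have h : ∀ i j : Fin 3, An q (fun p => (wR p w i j - (1 : M3) i j) ^ 2) :=
    fun i j => ((wR_an q w i j).sub analyticAt_const).pow 2
  simp only [Fin.sum_univ_three]
  exact ((((h 0 0).add (h 0 1)).add (h 0 2)).add (((h 1 0).add (h 1 1)).add (h 1 2))).add
    (((h 2 0).add (h 2 1)).add (h 2 2))

end Pool.Agent.CBT
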