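import Mathlib

/-!
# CBT.BBaire : countably many analytic functions have a common non-zero

For each `i` the set `{p | F i p ≠ 0}` is open (continuity) and dense: if it missed an open ball, `F i` would vanish near the
centre of the ball, so everywhere by the identity theorem
(`AnalyticOnNhd.eqOn_zero_of_preconnected_of_eventuallyEq_zero`, `isPreconnected_univ`), contradicting `hne`.  Baire category
theorem (`dense_iInter_of_isOpen`; a finite dimensional or complete normed space is a Baire space; `ι` countable).
-/

set_option autoImplicit false

namespace Pool.Agent.CBT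

open Set

theorem exists_generic {E : Type*} [NormedAddCommGroup E] [NormedSpace ℝ E] [CompleteSpace E]
    {ι : Type*} [Countable ι] (F : ι → E → ℝ) (hF : ∀ i, AnalyticOnNhd ℝ (F i) univ)
    (hne : ∀ i, ∃ p, F i p ≠ 0) {U : Set E} (hU : IsOpen U) (hUne : U.Nonempty) :
    ∃ p ∈ U, ∀ i, F i p ≠ 0 := by
  have hd : Dense (⋂ i, {p | F i p ≠ 0}) := by
    apply dense_iInter_of_isOpen
    · intro i
      have hc : Continuous (F i) := by
        rw [← continuousOn_univ]
        exact (hF i).continuousOn
      exact isOpen_ne_fun hc continuous_const
    · intro i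
      rw [dense_iff_inter_open]
      intro V hV hVne
      by_contra hcon
      obtain ⟨p, hp⟩ := hVne
      have h0 : ∀ q ∈ V, F i q = 0 := by
        intro q hq
        by_contra hne0
        exact hcon ⟨q, hq, hne0⟩
      have hev : F i =ᶠ[nhds p] 0 := by
        filter_upwards [hV.mem_nhds hp] with q hq
        exact h0 q hq
      have h1 := (hF i).eqOn_zero_of_preconnected_of_eventuallyEq_zero isPreconnected_univ
        (mem_univ p) hev
      obtain ⟨q, hq⟩ := hne i
      exact hq (h1 (mem_univ q))
  obtain ⟨p, hpU, hp⟩ := hd.inter_open_nonempty U hU hUne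
  exact ⟨p, hpU, fun i => mem_iInter.1 hp i⟩

end Pool.Agent.CBT
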