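import Pool.Agent.Lib.CBT.BRot

/-!
# CBT.BC3 : three normals are independent for some direction

Suppose `det3 n (A n) (B n) = 0` for all `n`.  Let `a` be the axis of `A` (`exists_axis`).  The linear coefficient of the
cubic polynomial obtained for `n = a + e m` vanishes: `det3 a (A m - m) (B a) = 0`, so `A` fixes `B a ⨯₃ a`, which is
orthogonal to `a`; hence `B a ⨯₃ a = 0` (`fixed_unique`) and `B a = ± a`.  The sign is `+`, because otherwise `B * B`
fixes `a` and the axis of `B`.  So `A = rot a c s`, `B = rot a c' s'`, and `n = a + u` with `u` orthogonal to `a` gives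
`(c - 1) s' = (c' - 1) s`, hence `A = B`.
-/

set_option autoImplicit false

namespace Pool.Agent.CBT

open Matrix

namespace BC3Aux

theorem det3_apply (x y z : V3) : det3 x y z = x 0 * (y 1 * z 2 - y 2 * z 1) +
    x 1 * (y 2 * z 0 - y 0 * z 2) + x 2 * (y 0 * z 1 - y 1 * z 0) := by
  simp [det3, cross_apply, dotProduct, Fin.sum_univ_three]

theorem dot_apply (x y : V3) : x ⬝ᵥ y = x 0 * y 0 + x 1 * y 1 + x 2 * y 2 := by
  simp [dotProduct, Fin.sum_univ_three]

theorem lin_coeff (x y z x' y' z' : V3)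
    (h : ∀ e : ℝ, det3 (x + e • x') (y + e • y') (z + e • z') = 0) :
    det3 x' y z + det3 x y' z + det3 x y z' = 0 := by
  have h0 := h 0
  have h1 := h 1
  have hm := h (-1)
  have h2 := h 2
  simp only [det3_apply, Pi.add_apply, Pi.smul_apply, smul_eq_mul] at h0 h1 hm h2 ⊢
  linear_combination (1 / 6) * (6 * h1 - 2 * hm - h2 - 3 * h0)

theorem det3_cyc (x y z : V3) : det3 x y z = y ⬝ᵥ (z ⨯₃ x) := by
  rw [det3_apply]
  simp [cross_apply, dotProduct, Fin.sum_univ_three]
  ring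

theorem det3_basis (a u v : V3) (c s c' s' : ℝ) :
    det3 (a + u) (a + (c • u + s • v)) (a + (c' • u + s' • v)) =
      ((c - 1) * s' - (c' - 1) * s) * det3 a u v := by
  simp only [det3_apply, Pi.add_apply, Pi.smul_apply, smul_eq_mul]
  ring

theorem det3_cross (a u : V3) : det3 a u (a ⨯₃ u) = (a ⬝ᵥ a) * (u ⬝ᵥ u) - (a ⬝ᵥ u) ^ 2 := by
  rw [det3_apply, dot_apply, dot_apply, dot_apply]
  simp only [cross_apply, Matrix.cons_val_zero, Matrix.cons_val_one, Matrix.cons_val]
  ring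

theorem cross_cross_self (a u : V3) : a ⨯₃ (a ⨯₃ u) = (a ⬝ᵥ u) • a - (a ⬝ᵥ a) • u := by
  rw [dot_apply, dot_apply]
  ext i
  fin_cases i
  · simp [cross_apply]
    ring
  · simp [cross_apply]
    ring
  · simp [cross_apply]
    ring

theorem rot_mulVec_orth {a u : V3} (ha : a ⬝ᵥ a = 1) (hu : a ⬝ᵥ u = 0) (c s : ℝ) :
    rot a c s *ᵥ u = c • u + s • (a ⨯₃ u) := by
  unfold rot
  rw [Matrix.add_mulVec, Matrix.add_mulVec, Matrix.smul_mulVec, Matrix.smul_mulVec,
    ← Matrix.mulVec_mulVec, sk_mulVec, sk_mulVec, cross_cross_self, ha, hu, Matrix.one_mulVec]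
  ext i
  simp only [Pi.add_apply, Pi.smul_apply, Pi.sub_apply, smul_eq_mul]
  ring

theorem dot_self_eq_zero {w : V3} (h : w ⬝ᵥ w = 0) : w = 0 := by
  rw [dot_apply] at h
  have h0 : w 0 = 0 := by nlinarith [mul_self_nonneg (w 0), mul_self_nonneg (w 1), mul_self_nonneg (w 2)]
  have h1 : w 1 = 0 := by nlinarith [mul_self_nonneg (w 0), mul_self_nonneg (w 1), mul_self_nonneg (w 2)]
  have h2 : w 2 = 0 := by nlinarith [mul_self_nonneg (w 0), mul_self_nonneg (w 1), mul_self_nonneg (w 2)]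
  ext i
  fin_cases i
  · exact h0
  · exact h1
  · exact h2

/-- a vector orthogonal to all `A m - m` is fixed by the rotation `A` -/
theorem fixed_of_orth {A : M3} (hA : A ∈ SO3) {q : V3} (h : ∀ m : V3, (A *ᵥ m - m) ⬝ᵥ q = 0) :
    A *ᵥ q = q := by
  have h1 : ∀ m : V3, (A *ᵥ m) ⬝ᵥ (A *ᵥ q - q) = 0 := by
    intro m
    rw [dotProduct_sub, so3_dot hA, ← sub_dotProduct, ← neg_sub (A *ᵥ m) m, neg_dotProduct, h m,
      neg_zero]
  have h2 := h1 (Aᵀ *ᵥ (A *ᵥ q - q))
  rw [Matrix.mulVec_mulVec, so3_mul_transpose hA, Matrix.one_mulVec] at h2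
  exact sub_eq_zero.1 (dot_self_eq_zero h2)

end BC3Aux

open BC3Aux in
theorem bc3 {A B : M3} (hA : A ∈ SO3) (hB : B ∈ SO3) (hA1 : A ≠ 1) (hB1 : B ≠ 1) (hAB : A ≠ B)
    (hBB : B * B ≠ 1) : ∃ n : V3, det3 n (A *ᵥ n) (B *ᵥ n) ≠ 0 := by
  by_contra hcon
  push Not at hcon
  obtain ⟨a, ha, hAa⟩ := exists_axis hA
  -- first order condition
  have hlin : ∀ m : V3, (A *ᵥ m - m) ⬝ᵥ ((B *ᵥ a) ⨯₃ a) = 0 := by
    intro m
    have h1 := lin_coeff a a (B *ᵥ a) m (A *ᵥ m) (B *ᵥ m) (fun e => by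
      have h2 := hcon (a + e • m)
      rw [Matrix.mulVec_add, Matrix.mulVec_smul, hAa, Matrix.mulVec_add, Matrix.mulVec_smul] at h2
      exact h2)
    rw [← det3_cyc]
    simp only [det3_apply, Pi.sub_apply] at h1 ⊢
    linear_combination h1
  have hq := fixed_of_orth hA hlin
  have hcr : a ⨯₃ ((B *ᵥ a) ⨯₃ a) = 0 := by
    by_contra h
    exact hA1 (fixed_unique hA hAa hq h)
  have hBa1 : (B *ᵥ a) ⬝ᵥ (B *ᵥ a) = 1 := by rw [so3_dot hB, ha]
  have hcr2 : a ⨯₃ (B *ᵥ a) = 0 := by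
    have h1 : a ⨯₃ (a ⨯₃ (B *ᵥ a)) = 0 := by
      rw [← cross_anticomm (B *ᵥ a) a, map_neg, hcr, neg_zero]
    have h2 := cross_cross_self a (a ⨯₃ (B *ᵥ a))
    rw [h1, map_zero, dot_self_cross, zero_smul, ha, one_smul, zero_sub, eq_comm, neg_eq_zero] at h2
    exact h2
  rcases eq_or_neg_of_cross ha hBa1 hcr2 with hBa | hBa
  · -- common axis
    obtain ⟨c, s, hcs, hAr⟩ := exists_rot hA ha hAa
    obtain ⟨c', s', hcs', hBr⟩ := exists_rot hB ha hBa
    obtain ⟨u, hu, hau⟩ := exists_orth ha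
    have hAu : A *ᵥ u = c • u + s • (a ⨯₃ u) := by rw [hAr]; exact rot_mulVec_orth ha hau c s
    have hBu : B *ᵥ u = c' • u + s' • (a ⨯₃ u) := by rw [hBr]; exact rot_mulVec_orth ha hau c' s'
    have h1 := hcon (a + u)
    rw [Matrix.mulVec_add, Matrix.mulVec_add, hAa, hBa, hAu, hBu, det3_basis, det3_cross, ha, hu,
      hau] at h1
    have h2 : (c - 1) * s' - (c' - 1) * s = 0 := by linarith
    have hc1 : c ≠ 1 := by
      intro h
      rw [h] at hcs
      have hs : s = 0 := by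
        have : s ^ 2 = 0 := by linarith
        exact pow_eq_zero_iff (two_ne_zero) |>.1 this
      apply hA1
      rw [hAr, h, hs, rot_one_zero]
    have hc1' : c' ≠ 1 := by
      intro h
      rw [h] at hcs'
      have hs : s' = 0 := by
        have : s' ^ 2 = 0 := by linarith
        exact pow_eq_zero_iff (two_ne_zero) |>.1 this
      apply hB1
      rw [hBr, h, hs, rot_one_zero]
    have hne1 : c - 1 ≠ 0 := sub_ne_zero.2 hc1
    have hne2 : c' - 1 ≠ 0 := sub_ne_zero.2 hc1'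
    have h3 : (c - 1) * (c' - 1) * (c - c') = 0 := by
      have h4 : ((c - 1) * s') ^ 2 = ((c' - 1) * s) ^ 2 := by
        rw [sub_eq_zero.1 h2]
      have hs2 : s ^ 2 = 1 - c ^ 2 := by linarith
      have hs2' : s' ^ 2 = 1 - c' ^ 2 := by linarith
      rw [mul_pow, mul_pow, hs2, hs2'] at h4
      linear_combination (-1 / 2) * h4
    have h5 : c = c' := by
      rcases mul_eq_zero.1 h3 with h | h
      · rcases mul_eq_zero.1 h with h | h
        · exact absurd h hne1
        · exact absurd h hne2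
      · exact sub_eq_zero.1 h
    have h6 : s = s' := by
      rw [← h5] at h2
      have h7 : (c - 1) * (s' - s) = 0 := by linear_combination h2
      rcases mul_eq_zero.1 h7 with h | h
      · exact absurd h hne1
      · exact (sub_eq_zero.1 h).symm
    apply hAB
    rw [hAr, hBr, h5, h6]
  · -- opposite direction
    obtain ⟨b, hb, hBb⟩ := exists_axis hB
    have hBB2 : B * B ∈ SO3 := SO3.mul_mem hB hB
    have e1 : (B * B) *ᵥ a = a := by
      rw [← Matrix.mulVec_mulVec, hBa, Matrix.mulVec_neg, hBa, neg_neg]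
    have e2 : (B * B) *ᵥ b = b := by
      rw [← Matrix.mulVec_mulVec, hBb, hBb]
    have h1 : a ⨯₃ b = 0 := by
      by_contra h
      exact hBB (fixed_unique hBB2 e1 e2 h)
    have h2 : B *ᵥ a = a := by
      rcases eq_or_neg_of_cross ha hb h1 with h | h
      · rw [h] at hBb; exact hBb
      · rw [h, Matrix.mulVec_neg, neg_inj] at hBb; exact hBb
    rw [h2] at hBa
    have h3 : a = 0 := by
      ext i
      have := congrFun hBa i
      rw [Pi.neg_apply] at this
      rw [Pi.zero_apply]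
      linarith
    rw [h3, dotProduct_zero] at ha
    exact zero_ne_one ha

end Pool.Agent.CBT
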