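import Pool.Agent.Lib.CBT.BC4a

/-!
# CBT.BC4 : four words which do not commute

`F` is a group without elements of order two, `r` a faithful representation by rotations.  Suppose the determinant vanishes for
all `n`.  Let `x, y, z` be axes (unit fixed vectors) of `r a, r b, r c`.  By `bc4a` (three times, the determinant is alternating):
(1) `r b x = x` or `r c x = x` or `r b x = r c x`;  (2) `r a y = y` or `r c y = y` or `r a y = r c y`;
(3) `r a z = z` or `r b z = z` or `r a z = r b z`.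
Fact: if `g, h ≠ 1` and `r g, r h` fix a common unit vector then `g, h` commute (`exists_rot`, `rot_mul`, faithful); and if `r g`
fixes unit vectors `x, x'` then `x' = ± x` (`fixed_unique`, `eq_or_neg_of_cross`).  Commuting is then transitive for elements
`≠ 1` (commuting elements have the same axis up to sign: `r h x` is fixed by `r g`, so `r h x = ± x`; if `- x` then `h * h` fixes `x`
and is `≠ 1`, so the axis of `h`, fixed by `h * h`, is `± x`, contradiction).
Case I: two of the elements commute, e.g. `a` and `b` (same axis `x`): then (3) says that `c` has the axis `x` as well, or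
`r (b⁻¹ a) z = z` with `b⁻¹ a ≠ 1`, again with axis `x`: all three commute.
Case II: no two commute.  Then `r b x = r c x`, `r a y = r c y`, `r a z = r b z`, so `u = b⁻¹ c` commutes with `a`,
`P = a⁻¹ b` commutes with `c`, `a⁻¹ c = P u` commutes with `b`.  `b = a P`, `c = a P u`.  The relations
`P (a P u) = (a P u) P` and `(P u)(a P) = (a P)(P u)`, `u a = a u` give `P u P⁻¹ u⁻¹ = u P u⁻¹ P⁻¹`, so the commutator
`k = u P u⁻¹ P⁻¹` satisfies `k * k = 1`, `k = 1`, so `P` and `u` commute, then `P a P u = a P u P = a P P u` gives `P a = a P`,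
so `b = a P` commutes with `a`: contradiction.
-/

set_option autoImplicit false

namespace Pool.Agent.CBT

open Matrix

private theorem bc4_eq_of_map {F : Type*} [Group F] (r : F →* M3)
    (hinj : ∀ g : F, g ≠ 1 → r g ≠ 1) {g h : F} (h1 : r g = r h) : g = h := by
  by_contra hne
  have h2 : g * h⁻¹ ≠ 1 := fun h3 => hne (mul_inv_eq_one.mp h3)
  apply hinj _ h2
  rw [map_mul, h1, ← map_mul, mul_inv_cancel, map_one]

private theorem bc4_comm_of_fix {F : Type*} [Group F] (r : F →* M3)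
    (hr : ∀ g, r g ∈ SO3) (hinj : ∀ g : F, g ≠ 1 → r g ≠ 1) {g h : F} {x : V3}
    (hx : x ⬝ᵥ x = 1) (hg : r g *ᵥ x = x) (hh : r h *ᵥ x = x) : Commute g h := by
  obtain ⟨c, s, -, e1⟩ := exists_rot (hr g) hx hg
  obtain ⟨c', s', -, e2⟩ := exists_rot (hr h) hx hh
  apply bc4_eq_of_map r hinj
  rw [map_mul, map_mul, e1, e2, rot_mul hx, rot_mul hx]
  congr 1 <;> ring

private theorem bc4_fix_of_comm {F : Type*} [Group F] (hF : ∀ g : F, g * g = 1 → g = 1)
    (r : F →* M3) (hr : ∀ g, r g ∈ SO3) (hinj : ∀ g : F, g ≠ 1 → r g ≠ 1) {g h : F}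
    (hg1 : g ≠ 1) (hh1 : h ≠ 1) (hc : Commute g h) {x : V3}
    (hx : x ⬝ᵥ x = 1) (hg : r g *ᵥ x = x) : r h *ᵥ x = x := by
  have h1 : r g *ᵥ (r h *ᵥ x) = r h *ᵥ x := by
    rw [Matrix.mulVec_mulVec, ← map_mul, hc.eq, map_mul, ← Matrix.mulVec_mulVec, hg]
  have h2 : (r h *ᵥ x) ⬝ᵥ (r h *ᵥ x) = 1 := by rw [so3_dot (hr h), hx]
  have h3 : x ⨯₃ (r h *ᵥ x) = 0 := by
    by_contra hne
    exact hinj g hg1 (fixed_unique (hr g) hg h1 hne)
  rcases eq_or_neg_of_cross hx h2 h3 with h4 | h4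
  · exact h4
  · exfalso
    have h5 : r (h * h) *ᵥ x = x := by
      rw [map_mul, ← Matrix.mulVec_mulVec, h4, Matrix.mulVec_neg, h4, neg_neg]
    obtain ⟨w, hw, hw'⟩ := exists_axis (hr h)
    have h6 : r (h * h) *ᵥ w = w := by
      rw [map_mul, ← Matrix.mulVec_mulVec, hw', hw']
    have h7 : x ⨯₃ w = 0 := by
      by_contra hne
      exact hinj (h * h) (fun h8 => hh1 (hF h h8)) (fixed_unique (hr _) h5 h6 hne)
    have h9 : r h *ᵥ x = x := by
      rcases eq_or_neg_of_cross hx hw h7 with h8 | h8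
      · rw [← h8]; exact hw'
      · have : x = -w := by rw [h8, neg_neg]
        rw [this, Matrix.mulVec_neg, hw']
    have h10 : x = -x := by rw [← h4, h9]
    have h11 : x ⬝ᵥ x = -(x ⬝ᵥ x) := by
      rw [← dotProduct_neg, ← h10]
    rw [hx] at h11
    norm_num at h11

private theorem bc4_comm_trans {F : Type*} [Group F] (hF : ∀ g : F, g * g = 1 → g = 1)
    (r : F →* M3) (hr : ∀ g, r g ∈ SO3) (hinj : ∀ g : F, g ≠ 1 → r g ≠ 1) {g h k : F}
    (hg1 : g ≠ 1) (hh1 : h ≠ 1) (hk1 : k ≠ 1) (h1 : Commute g h) (h2 : Commute h k) :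
    Commute g k := by
  obtain ⟨x, hx, hgx⟩ := exists_axis (hr g)
  have hhx := bc4_fix_of_comm hF r hr hinj hg1 hh1 h1 hx hgx
  have hkx := bc4_fix_of_comm hF r hr hinj hh1 hk1 h2 hx hhx
  exact bc4_comm_of_fix r hr hinj hx hgx hkx

private theorem bc4_inv_fix {F : Type*} [Group F] (r : F →* M3) {p q : F} {z : V3}
    (h : r p *ᵥ z = r q *ᵥ z) : r (q⁻¹ * p) *ᵥ z = z := by
  rw [map_mul, ← Matrix.mulVec_mulVec, h, Matrix.mulVec_mulVec, ← map_mul, inv_mul_cancel,
    map_one, Matrix.one_mulVec]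

private theorem bc4_caseI {F : Type*} [Group F] (hF : ∀ g : F, g * g = 1 → g = 1)
    (r : F →* M3) (hr : ∀ g, r g ∈ SO3) (hinj : ∀ g : F, g ≠ 1 → r g ≠ 1) {p q s : F}
    (hp1 : p ≠ 1) (hq1 : q ≠ 1) (hs1 : s ≠ 1) (hpq : p ≠ q) (hc : Commute p q) {z : V3}
    (hz : z ⬝ᵥ z = 1) (hsz : r s *ᵥ z = z)
    (h : r p *ᵥ z = z ∨ r q *ᵥ z = z ∨ r p *ᵥ z = r q *ᵥ z) : Commute p s ∧ Commute q s := by
  rcases h with h | h | h
  · have h1 := bc4_comm_of_fix r hr hinj hz h hsz
    exact ⟨h1, bc4_comm_trans hF r hr hinj hq1 hp1 hs1 hc.symm h1⟩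
  · have h1 := bc4_comm_of_fix r hr hinj hz h hsz
    exact ⟨bc4_comm_trans hF r hr hinj hp1 hq1 hs1 hc h1, h1⟩
  · have h0 : q⁻¹ * p ≠ 1 := fun h2 => hpq (inv_mul_eq_one.mp h2).symm
    have h1 := bc4_comm_of_fix r hr hinj hz (bc4_inv_fix r h) hsz
    have h2 : Commute p (q⁻¹ * p) := (hc.inv_right).mul_right (Commute.refl p)
    have h3 : Commute q (q⁻¹ * p) := ((Commute.refl q).inv_right).mul_right hc.symm
    exact ⟨bc4_comm_trans hF r hr hinj hp1 h0 hs1 h2 h1,
      bc4_comm_trans hF r hr hinj hq1 h0 hs1 h3 h1⟩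

private theorem bc4_group {F : Type*} [Group F] (hF : ∀ g : F, g * g = 1 → g = 1) {a b c : F}
    (h1 : Commute (c⁻¹ * b) a) (h2 : Commute (c⁻¹ * a) b) (h3 : Commute (b⁻¹ * a) c) :
    Commute a b := by
  obtain ⟨P, hP⟩ : ∃ P : F, b = a * P := ⟨a⁻¹ * b, by group⟩
  obtain ⟨u, hu⟩ : ∃ u : F, c = a * P * u := ⟨(a * P)⁻¹ * c, by group⟩
  subst hP
  subst hu
  have e1 : Commute a u := by
    have h : (a * P * u)⁻¹ * (a * P) = u⁻¹ := by group
    rw [h] at h1
    have h' := h1.inv_left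
    rw [inv_inv] at h'
    exact h'.symm
  have e2 : P * u * (a * P) = a * P * (P * u) := by
    have h : (a * P * u)⁻¹ * a = (P * u)⁻¹ := by group
    rw [h] at h2
    have := h2.inv_left
    rw [inv_inv] at this
    exact this.eq
  have e3 : P * (a * P * u) = a * P * u * P := by
    have h : (a * P)⁻¹ * a = P⁻¹ := by group
    rw [h] at h3
    have := h3.inv_left
    rw [inv_inv] at this
    exact this.eq
  have k1 : P * a = a * P * u * P * u⁻¹ * P⁻¹ := by
    have : P * (a * P * u) * (u⁻¹ * P⁻¹) = a * P * u * P * (u⁻¹ * P⁻¹) := by rw [e3]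
    calc P * a = P * (a * P * u) * (u⁻¹ * P⁻¹) := by group
      _ = a * P * u * P * (u⁻¹ * P⁻¹) := this
      _ = a * P * u * P * u⁻¹ * P⁻¹ := by group
  have k2 : P * a = a * P * P * u * P⁻¹ * u⁻¹ := by
    have e2' : P * a * u * P = a * P * (P * u) := by
      rw [← e2]
      have := e1.eq
      calc P * a * u * P = P * (a * u) * P := by group
        _ = P * (u * a) * P := by rw [this]
        _ = P * u * (a * P) := by group
    calc P * a = P * a * u * P * (P⁻¹ * u⁻¹) := by group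
      _ = a * P * (P * u) * (P⁻¹ * u⁻¹) := by rw [e2']
      _ = a * P * P * u * P⁻¹ * u⁻¹ := by group
  have k3 : u * P * u⁻¹ * P⁻¹ = P * u * P⁻¹ * u⁻¹ := by
    have h : a * P * u * P * u⁻¹ * P⁻¹ = a * P * P * u * P⁻¹ * u⁻¹ := k1.symm.trans k2
    have : (a * P) * (u * P * u⁻¹ * P⁻¹) = (a * P) * (P * u * P⁻¹ * u⁻¹) := by
      calc (a * P) * (u * P * u⁻¹ * P⁻¹) = a * P * u * P * u⁻¹ * P⁻¹ := by group
        _ = a * P * P * u * P⁻¹ * u⁻¹ := h
        _ = (a * P) * (P * u * P⁻¹ * u⁻¹) := by group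
    exact mul_left_cancel this
  have k4 : u * P * u⁻¹ * P⁻¹ = 1 := by
    apply hF
    nth_rewrite 2 [k3]
    group
  have k5 : u * P = P * u := by
    calc u * P = (u * P * u⁻¹ * P⁻¹) * (P * u) := by group
      _ = P * u := by rw [k4, one_mul]
  have k6 : P * a = a * P := by
    rw [k1]
    calc a * P * u * P * u⁻¹ * P⁻¹ = a * P * (u * P) * u⁻¹ * P⁻¹ := by group
      _ = a * P * (P * u) * u⁻¹ * P⁻¹ := by rw [k5]
      _ = a * P := by group
  change a * (a * P) = a * P * a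
  rw [mul_assoc a P a, k6]

private theorem bc4_det3_swap (x y z : V3) : det3 y x z = -det3 x y z := by
  unfold det3
  simp only [cross_apply, dotProduct, Fin.sum_univ_three, Matrix.cons_val_zero,
    Matrix.cons_val_one, Matrix.cons_val]
  ring

private theorem bc4_det3_swap' (x y z : V3) : det3 z x y = det3 x y z := by
  unfold det3
  simp only [cross_apply, dotProduct, Fin.sum_univ_three, Matrix.cons_val_zero,
    Matrix.cons_val_one, Matrix.cons_val]
  ring

theorem bc4 {F : Type*} [Group F] (hF : ∀ g : F, g * g = 1 → g = 1) (r : F →* M3)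
    (hr : ∀ g, r g ∈ SO3) (hinj : ∀ g : F, g ≠ 1 → r g ≠ 1) {a b c : F} (ha : a ≠ 1) (hb : b ≠ 1)
    (hc : c ≠ 1) (hab : a ≠ b) (hac : a ≠ c) (hbc : b ≠ c)
    (hcom : ¬ (Commute a b ∧ Commute a c ∧ Commute b c)) :
    ∃ n : V3, det3 (r a *ᵥ n - n) (r b *ᵥ n - n) (r c *ᵥ n - n) ≠ 0 := by
  by_contra hcon
  push Not at hcon
  obtain ⟨x, hx, hax⟩ := exists_axis (hr a)
  obtain ⟨y, hy, hby⟩ := exists_axis (hr b)
  obtain ⟨z, hz, hcz⟩ := exists_axis (hr c)
  have h1 := bc4a (hr a) (hr b) (hr c) (hinj a ha) hx hax hcon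
  have h2 := bc4a (hr b) (hr a) (hr c) (hinj b hb) hy hby (fun n => by
    rw [bc4_det3_swap, hcon n, neg_zero])
  have h3 := bc4a (hr c) (hr a) (hr b) (hinj c hc) hz hcz (fun n => by
    rw [bc4_det3_swap', hcon n])
  by_cases k1 : Commute a b
  · obtain ⟨k2, k3⟩ := bc4_caseI hF r hr hinj ha hb hc hab k1 hz hcz h3
    exact hcom ⟨k1, k2, k3⟩
  by_cases k2 : Commute a c
  · obtain ⟨k3, k4⟩ := bc4_caseI hF r hr hinj ha hc hb hac k2 hy hby h2
    exact hcom ⟨k3, k2, k4.symm⟩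
  by_cases k3 : Commute b c
  · obtain ⟨k4, k5⟩ := bc4_caseI hF r hr hinj hb hc ha hbc k3 hx hax h1
    exact hcom ⟨k4.symm, k5.symm, k3⟩
  have e1 : r b *ᵥ x = r c *ᵥ x := by
    rcases h1 with h | h | h
    · exact absurd (bc4_comm_of_fix r hr hinj hx hax h) k1
    · exact absurd (bc4_comm_of_fix r hr hinj hx hax h) k2
    · exact h
  have e2 : r a *ᵥ y = r c *ᵥ y := by
    rcases h2 with h | h | h
    · exact absurd (bc4_comm_of_fix r hr hinj hy h hby) k1
    · exact absurd (bc4_comm_of_fix r hr hinj hy hby h) k3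
    · exact h
  have e3 : r a *ᵥ z = r b *ᵥ z := by
    rcases h3 with h | h | h
    · exact absurd (bc4_comm_of_fix r hr hinj hz h hcz) k2
    · exact absurd (bc4_comm_of_fix r hr hinj hz h hcz) k3
    · exact h
  exact k1 (bc4_group hF
    (bc4_comm_of_fix r hr hinj hx (bc4_inv_fix r e1) hax)
    (bc4_comm_of_fix r hr hinj hy (bc4_inv_fix r e2) hby)
    (bc4_comm_of_fix r hr hinj hz (bc4_inv_fix r e3) hcz))

end Pool.Agent.CBT
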