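import Pool.Agent.Lib.CBT.BRot

/-!
# CBT.BC4a : first order condition for four coplanar points

`det3 (A n - n) (B n - n) (C n - n) = 0` for all `n`, `A a = a`.  For `n = a + e m` the linear coefficient in `e` is
`det3 (A m - m) (B a - a) (C a - a)` (cubic polynomial in `e` without constant term, vanishing at `1, -1, 2`).  Put
`q = (B a - a) ⨯₃ (C a - a)`: `(A m - m) ⬝ q = 0` for all `m`, so `Aᵀ q = q`, `A q = q`, so `a ⨯₃ q = 0` (`fixed_unique`, `A ≠ 1`):
`q = t a`.  If `t ≠ 0`: `B a - a` is orthogonal to `q`, so `(B a) ⬝ a = 1`, so `B a = a` (unit vectors), `q = 0`, contradiction.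
So `q = 0`: `B a - a` and `C a - a` are linearly dependent.  If `B a ≠ a`, then `C a - a = t (B a - a)`; from
`1 = (C a)·(C a) = 1 + 2 t (a · (B a - a)) + t² |B a - a|²` and `|B a - a|² = - 2 a · (B a - a)` one gets `t = 0` or `t = 1`.
-/

set_option autoImplicit false

namespace Pool.Agent.CBT

open Matrix

namespace BC4aAux

theorem dot3 (x y : V3) : x ⬝ᵥ y = x 0 * y 0 + x 1 * y 1 + x 2 * y 2 := by
  simp [dotProduct, Fin.sum_univ_three]

theorem det3_lin (x y y' z z' : V3) (e : ℝ) :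
    det3 (e • x) (y + e • y') (z + e • z') = e * det3 x y z +
      e ^ 2 * (det3 x y' z + det3 x y z') + e ^ 3 * det3 x y' z' := by
  simp only [det3, dot3, cross_apply, Pi.add_apply, Pi.smul_apply, smul_eq_mul, cons_val_zero,
    cons_val_one, cons_val]
  ring

/-- `b ⨯ (b ⨯ c) = (b · c) b - (b · b) c` -/
theorem cross_cross (b c : V3) (h : b ⨯₃ c = 0) : (b ⬝ᵥ b) • c = (b ⬝ᵥ c) • b := by
  have h0 := congrFun h 0
  have h1 := congrFun h 1
  have h2 := congrFun h 2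
  simp only [cross_apply, cons_val_zero, cons_val_one, cons_val, Pi.zero_apply] at h0 h1 h2
  funext i
  simp only [dot3, Pi.smul_apply, smul_eq_mul]
  fin_cases i <;> simp only [Fin.zero_eta, Fin.mk_one, Fin.reduceFinMk] <;> [linear_combination
    b 2 * h1 - b 1 * h2; linear_combination b 0 * h2 - b 2 * h0; linear_combination
    b 1 * h0 - b 0 * h1]

theorem dot_pos {b : V3} (h : b ≠ 0) : b ⬝ᵥ b ≠ 0 := by
  intro h0
  exact h (dotProduct_self_eq_zero.1 h0)

end BC4aAux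

open BC4aAux

theorem bc4a {A B C : M3} (hA : A ∈ SO3) (hB : B ∈ SO3) (hC : C ∈ SO3) (hA1 : A ≠ 1) {a : V3}
    (ha : a ⬝ᵥ a = 1) (hAa : A *ᵥ a = a)
    (h : ∀ n : V3, det3 (A *ᵥ n - n) (B *ᵥ n - n) (C *ᵥ n - n) = 0) :
    B *ᵥ a = a ∨ C *ᵥ a = a ∨ B *ᵥ a = C *ᵥ a := by
  obtain ⟨b, hb⟩ : ∃ b : V3, b = B *ᵥ a - a := ⟨_, rfl⟩
  obtain ⟨c, hc⟩ : ∃ c : V3, c = C *ᵥ a - a := ⟨_, rfl⟩
  have hBa : B *ᵥ a = a + b := by rw [hb]; abel
  have hCa : C *ᵥ a = a + c := by rw [hc]; abel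
  -- first order condition
  have h1 : ∀ m : V3, det3 (A *ᵥ m - m) b c = 0 := by
    intro m
    have key : ∀ e : ℝ, e * det3 (A *ᵥ m - m) b c +
        e ^ 2 * (det3 (A *ᵥ m - m) (B *ᵥ m - m) c + det3 (A *ᵥ m - m) b (C *ᵥ m - m)) +
        e ^ 3 * det3 (A *ᵥ m - m) (B *ᵥ m - m) (C *ᵥ m - m) = 0 := by
      intro e
      have h2 := h (a + e • m)
      have e1 : A *ᵥ (a + e • m) - (a + e • m) = e • (A *ᵥ m - m) := by
        rw [mulVec_add, mulVec_smul, hAa]
        module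
      have e2 : B *ᵥ (a + e • m) - (a + e • m) = b + e • (B *ᵥ m - m) := by
        rw [mulVec_add, mulVec_smul, hBa]
        module
      have e3 : C *ᵥ (a + e • m) - (a + e • m) = c + e • (C *ᵥ m - m) := by
        rw [mulVec_add, mulVec_smul, hCa]
        module
      rw [e1, e2, e3, det3_lin] at h2
      exact h2
    have k1 := key 1
    have k2 := key (-1)
    have k3 := key 2
    linarith
  obtain ⟨q, hq⟩ : ∃ q : V3, q = b ⨯₃ c := ⟨_, rfl⟩
  have h2 : Aᵀ *ᵥ q = q := by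
    have h3 : ∀ m : V3, m ⬝ᵥ (Aᵀ *ᵥ q - q) = 0 := by
      intro m
      have h4 := h1 m
      unfold det3 at h4
      rw [← hq, sub_dotProduct, sub_eq_zero] at h4
      rw [dotProduct_sub, sub_eq_zero, ← h4, dotProduct_mulVec, vecMul_transpose]
    exact sub_eq_zero.1 (dotProduct_self_eq_zero.1 (h3 _))
  have h3 : A *ᵥ q = q := by
    have h4 : A *ᵥ (Aᵀ *ᵥ q) = q := by
      rw [mulVec_mulVec, so3_mul_transpose hA, one_mulVec]
    rwa [h2] at h4
  have h4 : a ⨯₃ q = 0 := by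
    by_contra h5
    exact hA1 (fixed_unique hA hAa h3 h5)
  have h5 : q = (a ⬝ᵥ q) • a := by
    have := cross_cross a q h4
    rwa [ha, one_smul] at this
  -- norms
  have hB1 : 2 * (a ⬝ᵥ b) + b ⬝ᵥ b = 0 := by
    have h6 := so3_dot hB a a
    rw [hBa, ha, add_dotProduct, dotProduct_add, dotProduct_add, ha, dotProduct_comm b a] at h6
    linarith
  have hC1 : 2 * (a ⬝ᵥ c) + c ⬝ᵥ c = 0 := by
    have h6 := so3_dot hC a a
    rw [hCa, ha, add_dotProduct, dotProduct_add, dotProduct_add, ha, dotProduct_comm c a] at h6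
    linarith
  by_cases hb0 : b = 0
  · left
    rw [hBa, hb0, add_zero]
  right
  have hbb : b ⬝ᵥ b ≠ 0 := dot_pos hb0
  have hq0 : q = 0 := by
    by_cases ht : a ⬝ᵥ q = 0
    · rw [h5, ht, zero_smul]
    · exfalso
      have h6 : b ⬝ᵥ q = 0 := by rw [hq]; exact dot_self_cross b c
      rw [h5, dotProduct_smul, smul_eq_mul, mul_eq_zero] at h6
      rcases h6 with h6 | h6
      · exact ht h6
      · rw [dotProduct_comm] at h6
        rw [h6, mul_zero, zero_add] at hB1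
        exact hbb hB1
  have h6 : (b ⬝ᵥ b) • c = (b ⬝ᵥ c) • b := cross_cross b c (hq ▸ hq0)
  obtain ⟨t, ht⟩ : ∃ t : ℝ, c = t • b := by
    refine ⟨(b ⬝ᵥ b)⁻¹ * (b ⬝ᵥ c), ?_⟩
    rw [mul_smul, ← h6, smul_smul, inv_mul_cancel₀ hbb, one_smul]
  rw [ht, dotProduct_smul, dotProduct_smul, smul_dotProduct] at hC1
  simp only [smul_eq_mul] at hC1
  have h7 : t * (t - 1) * (b ⬝ᵥ b) = 0 := by
    linear_combination hC1 - t * hB1
  rcases mul_eq_zero.1 h7 with h8 | h8
  · rcases mul_eq_zero.1 h8 with h9 | h9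
    · left
      rw [hCa, ht, h9, zero_smul, add_zero]
    · right
      have h10 : t = 1 := by linarith
      rw [hBa, hCa, ht, h10, one_smul]
  · exact absurd h8 hbb

end Pool.Agent.CBT
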