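import Mathlib

/-!
# CBT.BCyc : commuting elements of a free group are powers of one element

The subgroup generated by three pairwise commuting elements is commutative and free (Nielsen-Schreier);
a free group on a set with two distinct elements is not commutative, so the subgroup is free on at
most one generator, hence cyclic.
-/

set_option autoImplicit false

namespace Pool.Agent.CBT

/-- In a commutative free group there is at most one generator. -/
theorem subsingleton_of_comm {X : Type*} (h : ∀ u v : FreeGroup X, u * v = v * u) :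
    Subsingleton X := by
  classical
  refine ⟨fun x y => ?_⟩
  by_contra hxy
  set f : X → Equiv.Perm (Fin 3) := fun z => if z = x then Equiv.swap 0 1 else Equiv.swap 1 2 with hf
  have h1 := congrArg (FreeGroup.lift f) (h (FreeGroup.of x) (FreeGroup.of y))
  rw [map_mul, map_mul, FreeGroup.lift_apply_of, FreeGroup.lift_apply_of] at h1
  have hx : f x = Equiv.swap 0 1 := by simp [hf]
  have hy : f y = Equiv.swap 1 2 := by simp [hf, Ne.symm hxy]
  rw [hx, hy] at h1
  revert h1
  decide

/-- A commutative free group is cyclic. -/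
theorem exists_gen_of_comm {X : Type*} (h : ∀ u v : FreeGroup X, u * v = v * u) :
    ∃ w : FreeGroup X, ∀ g : FreeGroup X, ∃ k : ℤ, g = w ^ k := by
  have hs := subsingleton_of_comm h
  rcases isEmpty_or_nonempty X with hX | ⟨⟨x⟩⟩
  · refine ⟨1, fun g => ⟨0, ?_⟩⟩
    have hg : g ∈ Subgroup.closure (Set.range (FreeGroup.of (α := X))) := by
      rw [FreeGroup.closure_range_of]
      exact Subgroup.mem_top g
    rw [Set.range_eq_empty, Subgroup.closure_empty, Subgroup.mem_bot] at hg
    rw [hg, zpow_zero]
  · refine ⟨FreeGroup.of x, fun g => ?_⟩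
    have hg : g ∈ Subgroup.closure (Set.range (FreeGroup.of (α := X))) := by
      rw [FreeGroup.closure_range_of]
      exact Subgroup.mem_top g
    have hle : Subgroup.closure (Set.range (FreeGroup.of (α := X))) ≤
        Subgroup.zpowers (FreeGroup.of x) := by
      rw [Subgroup.closure_le]
      rintro _ ⟨y, rfl⟩
      rw [Subsingleton.elim y x]
      exact Subgroup.mem_zpowers _
    obtain ⟨k, hk⟩ := Subgroup.mem_zpowers_iff.1 (hle hg)
    exact ⟨k, hk.symm⟩

theorem exists_root {m : ℕ} {a b c : FreeGroup (Fin m)} (hab : Commute a b) (hac : Commute a c)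
    (hbc : Commute b c) :
    ∃ (w : FreeGroup (Fin m)) (k : Fin 3 → ℤ), a = w ^ k 0 ∧ b = w ^ k 1 ∧ c = w ^ k 2 := by
  set S : Set (FreeGroup (Fin m)) := {a, b, c} with hS
  have hcomm : ∀ x ∈ S, ∀ y ∈ S, x * y = y * x := by
    intro x hx y hy
    simp only [hS, Set.mem_insert_iff, Set.mem_singleton_iff] at hx hy
    rcases hx with rfl | rfl | rfl <;> rcases hy with rfl | rfl | rfl <;>
      first
        | rfl
        | exact hab.eq
        | exact hab.symm.eq
        | exact hac.eq
        | exact hac.symm.eq
        | exact hbc.eq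
        | exact hbc.symm.eq
  have hc : ∀ u v : Subgroup.closure S, u * v = v * u :=
    fun u v => (Subgroup.closureCommGroupOfComm hcomm).mul_comm u v
  let e := IsFreeGroup.toFreeGroup (Subgroup.closure S)
  obtain ⟨w, hw⟩ := exists_gen_of_comm (X := IsFreeGroup.Generators (Subgroup.closure S)) (fun u v => by
    have h1 := congrArg e (hc (e.symm u) (e.symm v))
    rw [map_mul, map_mul, e.apply_symm_apply, e.apply_symm_apply] at h1
    exact h1)
  have key : ∀ x ∈ S, ∃ k : ℤ, x = ((e.symm w : Subgroup.closure S) : FreeGroup (Fin m)) ^ k := by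
    intro x hx
    obtain ⟨k, hk⟩ := hw (e ⟨x, Subgroup.subset_closure hx⟩)
    refine ⟨k, ?_⟩
    have h1 := congrArg e.symm hk
    rw [e.symm_apply_apply, map_zpow] at h1
    have h2 := congrArg Subtype.val h1
    rw [Subgroup.coe_zpow] at h2
    exact h2
  obtain ⟨k0, h0⟩ := key a (by simp [hS])
  obtain ⟨k1, h1⟩ := key b (by simp [hS])
  obtain ⟨k2, h2⟩ := key c (by simp [hS])
  exact ⟨_, ![k0, k1, k2], h0, h1, h2⟩

theorem free_sq {m : ℕ} (g : FreeGroup (Fin m)) (h : g * g = 1) : g = 1 := by
  have h1 : g ^ 2 = 1 := by rw [pow_two]; exact h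
  exact (pow_eq_one_iff_left (two_ne_zero)).1 h1

end Pool.Agent.CBT
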