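import Pool.Agent.Lib.CBT.Defs

/-!
# CBT.BDefs : definitions for PART B (the generic free group)

Vectors `V3 = Fin 3 → ℝ`, matrices `M3`.  A parameter `p : Par m` consists of the Cayley vectors `p.1 i`, the
translations `p.2.1 i` and the vector `p.2.2`.  `wR p w`, `wT p w`: rotation and translation part of the word `w`.
-/

set_option autoImplicit false

namespace Pool.Agent.CBT

open Matrix

/-- vectors -/
abbrev V3 := Fin 3 → ℝ

/-- matrices -/
abbrev M3 := Matrix (Fin 3) (Fin 3) ℝ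

/-- the rotation group, as a submonoid of the matrices -/
abbrev SO3 : Submonoid M3 := Matrix.specialOrthogonalGroup (Fin 3) ℝ

/-- cross product matrix: `sk a *ᵥ x = a ⨯₃ x` -/
def sk (a : V3) : M3 := !![0, -a 2, a 1; a 2, 0, -a 0; -a 1, a 0, 0]

/-- determinant of three vectors -/
def det3 (x y z : V3) : ℝ := x ⬝ᵥ (y ⨯₃ z)

/-- axial vector -/
def axl (A : M3) : V3 := ![A 2 1 - A 1 2, A 0 2 - A 2 0, A 1 0 - A 0 1]

/-- rotation about the unit vector `a` with cosine `c` and sine `s` -/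
def rot (a : V3) (c s : ℝ) : M3 := 1 + s • sk a + (1 - c) • (sk a * sk a)

/-- parameters: Cayley vectors, translations, direction -/
abbrev Par (m : ℕ) := (Fin m → E3) × (Fin m → E3) × E3

variable {m : ℕ}

/-- rotation part of a letter -/
noncomputable def letR (p : Par m) (l : Fin m × Bool) : M3 :=
  cay (if l.2 then p.1 l.1 else -(p.1 l.1))

/-- translation part of a letter -/
noncomputable def letT (p : Par m) (l : Fin m × Bool) : V3 :=
  if l.2 then (p.2.1 l.1).ofLp else -(letR p l *ᵥ (p.2.1 l.1).ofLp)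

/-- rotation part of a list of letters -/
noncomputable def lR (p : Par m) : List (Fin m × Bool) → M3
  | [] => 1
  | l :: L => letR p l * lR p L

/-- translation part of a list of letters -/
noncomputable def lT (p : Par m) : List (Fin m × Bool) → V3
  | [] => 0
  | l :: L => letR p l *ᵥ lT p L + letT p l

/-- rotation part of a word -/
noncomputable def wR (p : Par m) (w : FreeGroup (Fin m)) : M3 := lR p w.toWord

/-- translation part of a word -/
noncomputable def wT (p : Par m) (w : FreeGroup (Fin m)) : V3 := lT p w.toWord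

/-- the determinant that excludes four points `w^k x` (`k = 0, k 0, k 1, k 2`) in one plane -/
noncomputable def powDet (p : Par m) (w : FreeGroup (Fin m)) (k : Fin 3 → ℤ) : ℝ :=
  Matrix.det (Matrix.of fun i : Fin 3 =>
    ![(k i : ℝ), (wR p (w ^ k i)).trace - 3, axl (wR p (w ^ k i)) ⬝ᵥ axl (wR p w)])

/-- A generic parameter. -/
structure Gen (p : Par m) : Prop where
  f3 : ∀ a b : FreeGroup (Fin m), a ≠ 1 → b ≠ 1 → a ≠ b →
    det3 p.2.2.ofLp (wR p a *ᵥ p.2.2.ofLp) (wR p b *ᵥ p.2.2.ofLp) ≠ 0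
  f4 : ∀ a b c : FreeGroup (Fin m), a ≠ 1 → b ≠ 1 → c ≠ 1 → a ≠ b → a ≠ c → b ≠ c →
    ¬ (Commute a b ∧ Commute a c ∧ Commute b c) →
    det3 (wR p a *ᵥ p.2.2.ofLp - p.2.2.ofLp) (wR p b *ᵥ p.2.2.ofLp - p.2.2.ofLp)
      (wR p c *ᵥ p.2.2.ofLp - p.2.2.ofLp) ≠ 0
  f5 : ∀ w : FreeGroup (Fin m), w ≠ 1 → axl (wR p w) ⬝ᵥ wT p w ≠ 0
  f6 : ∀ w : FreeGroup (Fin m), w ≠ 1 → axl (wR p w) ⬝ᵥ p.2.2.ofLp ≠ 0
  f7 : ∀ (w : FreeGroup (Fin m)) (k : Fin 3 → ℤ), w ≠ 1 → Function.Injective k → (∀ i, k i ≠ 0) →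
    powDet p w k ≠ 0

end Pool.Agent.CBT
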