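import Pool.Agent.Lib.CBT.BPow

/-!
# CBT.BEmpty : four points `w^k x` of a screw motion are not in one plane `⟨n, ·⟩ = c`

`wR p w = rot a (cos θ) (sin θ)` (`exists_axis`, `exists_rot`, and `θ = Complex.arg` or `Real.arccos`), `sin θ ≠ 0` since
`axl (wR p w) = 2 sin θ a ≠ 0`.  Let `J = sk a`, `R = wR p w`, `t = wT p w`.  There is `o` with `t = o - R o + β a`, `β = a ⬝ t`:
`1 - R = - sin θ J - (1 - cos θ) J²` is invertible on the plane orthogonal to `a` (explicit: `o = (1/2) (t' + (sin θ / (1 - cos θ)) J t')`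
with `t' = t - β a`, check it).  Claim, for all `k : ℤ`: `wT p (w ^ k) = o - wR p (w ^ k) *ᵥ o + (k β) • a` (induction on `k` with `wT_mul`,
`wR_mul`; for the step down use `w ^ k = w ^ (k-1) * w`; note `wR p w *ᵥ a = a`).  Hence
`n ⬝ (wR (w^k) x + wT (w^k) - x) = n ⬝ (rot a (cos kθ) (sin kθ) (x - o) - (x - o)) + k β (n ⬝ a)
 = sin (kθ) (n ⬝ J y) + (1 - cos (kθ)) (n ⬝ J² y) + k β (n ⬝ a)` with `y = x - o`.
If this vanishes for `k = k 0, k 1, k 2`, the vector `(β (n ⬝ a), - n ⬝ J² y, n ⬝ J y)` is in the kernel of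
`[k i, cos - 1, sin]`; its first entry is not zero (`h5`, `h6` say `2 sin θ (a ⬝ t) ≠ 0`, `2 sin θ (a ⬝ n) ≠ 0`), so the determinant is
zero, contradicting `h7` by `powDet_rot`.
-/

set_option autoImplicit false

namespace Pool.Agent.CBT

open Matrix

private theorem BEmpty_theta {c s : ℝ} (h : c ^ 2 + s ^ 2 = 1) :
    ∃ θ : ℝ, c = Real.cos θ ∧ s = Real.sin θ := by
  have hc1 : -1 ≤ c := by nlinarith [sq_nonneg s, sq_nonneg (c - 1), sq_nonneg (c + 1)]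
  have hc2 : c ≤ 1 := by nlinarith [sq_nonneg s, sq_nonneg (c - 1), sq_nonneg (c + 1)]
  have h1 : 1 - c ^ 2 = s ^ 2 := by linarith
  rcases le_total 0 s with hs | hs
  · refine ⟨Real.arccos c, (Real.cos_arccos hc1 hc2).symm, ?_⟩
    rw [Real.sin_arccos, h1, Real.sqrt_sq hs]
  · refine ⟨-Real.arccos c, ?_, ?_⟩
    · rw [Real.cos_neg, Real.cos_arccos hc1 hc2]
    · rw [Real.sin_neg, Real.sin_arccos, h1, Real.sqrt_sq_eq_abs, abs_of_nonpos hs, neg_neg]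

private theorem BEmpty_rot_mulVec (a x : V3) (c s : ℝ) :
    rot a c s *ᵥ x = x + s • (a ⨯₃ x) + (1 - c) • (a ⨯₃ (a ⨯₃ x)) := by
  unfold rot
  rw [Matrix.add_mulVec, Matrix.add_mulVec, Matrix.one_mulVec, Matrix.smul_mulVec,
    Matrix.smul_mulVec, ← Matrix.mulVec_mulVec, sk_mulVec, sk_mulVec]

private theorem BEmpty_cross_cross {a y : V3} (ha : a ⬝ᵥ a = 1) (hy : a ⬝ᵥ y = 0) :
    a ⨯₃ (a ⨯₃ y) = -y := by
  have h := ha
  have h' := hy
  simp only [dotProduct, Fin.sum_univ_three] at h h'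
  funext i
  fin_cases i
  · simp [cross_apply]
    linear_combination (a 0) * h' - (y 0) * h
  · simp [cross_apply]
    linear_combination (a 1) * h' - (y 1) * h
  · simp [cross_apply]
    linear_combination (a 2) * h' - (y 2) * h

private theorem BEmpty_center {a t : V3} (ha : a ⬝ᵥ a = 1) {c s : ℝ} (h : c ^ 2 + s ^ 2 = 1)
    (hc : c ≠ 1) : ∃ o : V3, t = o - rot a c s *ᵥ o + (a ⬝ᵥ t) • a := by
  set t' : V3 := t - (a ⬝ᵥ t) • a with ht'
  have hat : a ⬝ᵥ t' = 0 := by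
    rw [ht', dotProduct_sub, dotProduct_smul, ha, smul_eq_mul, mul_one, sub_self]
  have hJ2 : a ⨯₃ (a ⨯₃ t') = -t' := BEmpty_cross_cross ha hat
  have hc' : (1 - c) ≠ 0 := sub_ne_zero.2 (Ne.symm hc)
  refine ⟨(1 / 2 : ℝ) • (t' + (s / (1 - c)) • (a ⨯₃ t')), ?_⟩
  have e1 : a ⨯₃ ((1 / 2 : ℝ) • (t' + (s / (1 - c)) • (a ⨯₃ t')))
      = (1 / 2 : ℝ) • ((a ⨯₃ t') - (s / (1 - c)) • t') := by
    rw [map_smul, map_add, map_smul, hJ2, smul_neg, ← sub_eq_add_neg]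
  have e2 : a ⨯₃ (a ⨯₃ ((1 / 2 : ℝ) • (t' + (s / (1 - c)) • (a ⨯₃ t'))))
      = (1 / 2 : ℝ) • (-t' - (s / (1 - c)) • (a ⨯₃ t')) := by
    rw [e1, map_smul, map_sub, map_smul, hJ2]
  rw [BEmpty_rot_mulVec, e2, e1]
  have ht : t = t' + (a ⬝ᵥ t) • a := by rw [ht', sub_add_cancel]
  have hcoef : s * (s / (1 - c)) + (1 - c) = 2 := by
    field_simp
    nlinarith
  have key : t' = (1 / 2 : ℝ) • (t' + (s / (1 - c)) • (a ⨯₃ t'))
      - ((1 / 2 : ℝ) • (t' + (s / (1 - c)) • (a ⨯₃ t'))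
        + s • ((1 / 2 : ℝ) • ((a ⨯₃ t') - (s / (1 - c)) • t'))
        + (1 - c) • ((1 / 2 : ℝ) • (-t' - (s / (1 - c)) • (a ⨯₃ t')))) := by
    funext i
    simp only [Pi.sub_apply, Pi.add_apply, Pi.smul_apply, Pi.neg_apply, smul_eq_mul]
    have h1 : (1 - c) * (s / (1 - c)) = s := by field_simp
    linear_combination (-(1 / 2 : ℝ)) * (t' i) * hcoef - (1 / 2 : ℝ) * ((a ⨯₃ t') i) * h1
  conv_lhs => rw [ht, key]

private theorem BEmpty_wT {m : ℕ} {p : Par m} {w : FreeGroup (Fin m)} {a o : V3} {β θ : ℝ}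
    (ha : a ⬝ᵥ a = 1) (hR : wR p w = rot a (Real.cos θ) (Real.sin θ))
    (ht : wT p w = o - wR p w *ᵥ o + β • a) (k : ℤ) :
    wT p (w ^ k) = o - wR p (w ^ k) *ᵥ o + ((k : ℝ) * β) • a := by
  have hfix : ∀ k : ℤ, wR p (w ^ k) *ᵥ a = a := by
    intro k
    rw [wR_zpow_rot ha hR k]
    exact rot_mulVec_self _ _ _
  have hstep : ∀ k : ℤ, wT p (w ^ (k + 1)) = wR p (w ^ k) *ᵥ (o - wR p w *ᵥ o + β • a)
      + wT p (w ^ k) := by
    intro k
    rw [_root_.zpow_add_one, wT_mul, ← ht]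
  have hstepR : ∀ k : ℤ, wR p (w ^ (k + 1)) *ᵥ o = wR p (w ^ k) *ᵥ (wR p w *ᵥ o) := by
    intro k
    rw [_root_.zpow_add_one, wR_mul, Matrix.mulVec_mulVec]
  have hexp : ∀ k : ℤ, wR p (w ^ k) *ᵥ (o - wR p w *ᵥ o + β • a)
      = wR p (w ^ k) *ᵥ o - wR p (w ^ (k + 1)) *ᵥ o + β • a := by
    intro k
    rw [Matrix.mulVec_add, Matrix.mulVec_sub, Matrix.mulVec_smul, hfix, ← hstepR]
  induction k using Int.induction_on with
  | zero =>
    rw [zpow_zero, wT_one, wR_one, Matrix.one_mulVec, sub_self, Int.cast_zero, zero_mul, zero_smul,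
      add_zero]
  | succ i ih =>
    rw [hstep, hexp, ih]
    funext j
    simp only [Pi.sub_apply, Pi.add_apply, Pi.smul_apply, smul_eq_mul]
    push_cast
    ring
  | pred i ih =>
    have h1 := hstep (-(i : ℤ) - 1)
    rw [hexp] at h1
    have h2 : (-(i : ℤ) - 1 + 1) = -(i : ℤ) := by ring
    rw [h2, ih] at h1
    have h3 : wT p (w ^ (-(i : ℤ) - 1)) = (o - wR p (w ^ (-(i : ℤ))) *ᵥ o + (((-(i : ℤ) : ℤ) : ℝ) * β) • a)
        - (wR p (w ^ (-(i : ℤ) - 1)) *ᵥ o - wR p (w ^ (-(i : ℤ))) *ᵥ o + β • a) := by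
      rw [h1]; abel
    rw [h3]
    funext j
    simp only [Pi.sub_apply, Pi.add_apply, Pi.smul_apply, smul_eq_mul]
    push_cast
    ring

theorem screw_empty {m : ℕ} {p : Par m} {w : FreeGroup (Fin m)} {k : Fin 3 → ℤ} {n : V3}
    (h5 : axl (wR p w) ⬝ᵥ wT p w ≠ 0) (h6 : axl (wR p w) ⬝ᵥ n ≠ 0) (h7 : powDet p w k ≠ 0)
    (x : V3) (hx : ∀ i, n ⬝ᵥ (wR p (w ^ k i) *ᵥ x + wT p (w ^ k i)) = n ⬝ᵥ x) : False := by
  obtain ⟨a, ha, hAa⟩ := exists_axis (wR_mem p w)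
  obtain ⟨c, s, hcs, hR⟩ := exists_rot (wR_mem p w) ha hAa
  obtain ⟨θ, hcθ, hsθ⟩ := BEmpty_theta hcs
  have hax : axl (wR p w) = (2 * s) • a := by rw [hR, axl_rot]
  rw [hax, smul_dotProduct, smul_eq_mul] at h5 h6
  have hs : s ≠ 0 := by
    rintro rfl
    exact h5 (by ring)
  have hat : a ⬝ᵥ wT p w ≠ 0 := right_ne_zero_of_mul h5
  have han : a ⬝ᵥ n ≠ 0 := right_ne_zero_of_mul h6
  have hc : c ≠ 1 := by
    rintro rfl
    apply hs
    have : s ^ 2 = 0 := by linarith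
    exact pow_eq_zero_iff two_ne_zero |>.1 this
  obtain ⟨o, ho⟩ := BEmpty_center (t := wT p w) ha hcs hc
  rw [← hR] at ho
  have hR' : wR p w = rot a (Real.cos θ) (Real.sin θ) := by rw [hR, hcθ, hsθ]
  have hT := fun j => BEmpty_wT ha hR' ho j
  apply h7
  rw [powDet_rot ha hR' k]
  have hdet : Matrix.det (Matrix.of fun i : Fin 3 =>
      ![(k i : ℝ), Real.cos (k i * θ) - 1, Real.sin (k i * θ)]) = 0 := by
    rw [← Matrix.exists_mulVec_eq_zero_iff]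
    refine ⟨![(a ⬝ᵥ wT p w) * (a ⬝ᵥ n), -(n ⬝ᵥ (a ⨯₃ (a ⨯₃ (x - o)))), n ⬝ᵥ (a ⨯₃ (x - o))],
      ?_, ?_⟩
    · intro h
      have := congrFun h 0
      simp only [Matrix.cons_val_zero, Pi.zero_apply] at this
      exact mul_ne_zero hat han this
    · funext i
      have h1 := hx i
      rw [hT] at h1
      have e1 : wR p (w ^ k i) *ᵥ x + (o - wR p (w ^ k i) *ᵥ o
          + ((k i : ℝ) * (a ⬝ᵥ wT p w)) • a)
          = wR p (w ^ k i) *ᵥ (x - o) + o + ((k i : ℝ) * (a ⬝ᵥ wT p w)) • a := by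
        rw [Matrix.mulVec_sub]
        abel
      rw [e1, wR_zpow_rot ha hR' (k i), BEmpty_rot_mulVec] at h1
      simp only [dotProduct_add, dotProduct_smul, smul_eq_mul, dotProduct_sub] at h1
      rw [dotProduct_comm n a] at h1
      simp only [Matrix.mulVec, dotProduct, Fin.sum_univ_three, Matrix.of_apply,
        Matrix.cons_val_zero, Matrix.cons_val_one, Matrix.cons_val_two, Matrix.head_cons,
        Matrix.tail_cons, Pi.zero_apply]
      simp only [dotProduct, Fin.sum_univ_three] at h1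
      linear_combination h1
  rw [hdet, mul_zero]

end Pool.Agent.CBT
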