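import Pool.Agent.Lib.CBT.BDefs
import Pool.Agent.Lib.CBT.Cay

/-!
# CBT.BWord : the affine action of words

* `exists_rho`: `mot (p.1 i) (p.2.1 i)` is an element `g i` of `Iso` (`exists_iso`); `ρ = FreeGroup.lift g`.  First show by
  induction on the list `L` that `(ρ (FreeGroup.mk L) x).ofLp = lR p L *ᵥ x.ofLp + lT p L`
  (`FreeGroup.lift_mk`, letters: `mot ω τ x = cay ω x + τ` and its inverse `cay (-ω) (x - τ)`, `cay_neg_mul`; the coordinates of
  `Matrix.toEuclideanLin M x` are `M *ᵥ x.ofLp`).  Then use `FreeGroup.mk_toWord`.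
* `wR_mul, wT_mul`: from `exists_rho`: two affine maps that agree everywhere have the same linear and constant parts
  (`Matrix.ext_of_mulVec_single` or evaluation at `0` and at basis vectors).
* `wR_mem`: products of elements of `SO3` (`cay_mem`).
* `wR_congr`: induction on the list.
-/

set_option autoImplicit false

namespace Pool.Agent.CBT

open Matrix

variable {m : ℕ}

namespace BWordAux

theorem app_ofLp (A : M3) (x : E3) : (Matrix.toEuclideanLin A x).ofLp = A *ᵥ x.ofLp := rfl

theorem mot_ofLp (w u x : E3) : (mot w u x).ofLp = cay w *ᵥ x.ofLp + u.ofLp := rfl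

/-- the letters -/
theorem letter (p : Par m) (g : Fin m → Iso) (hg : ∀ i x, g i x = mot (p.1 i) (p.2.1 i) x)
    (l : Fin m × Bool) (x : E3) :
    ((cond l.2 (g l.1) (g l.1)⁻¹ : Iso) x).ofLp = letR p l *ᵥ x.ofLp + letT p l := by
  obtain ⟨i, e⟩ := l
  cases e
  · have h1 : ((g i)⁻¹ x : E3).ofLp = cay (-(p.1 i)) *ᵥ x.ofLp +
        -(cay (-(p.1 i)) *ᵥ (p.2.1 i).ofLp) := by
      set y : E3 := (g i)⁻¹ x with hy
      have h2 : g i y = x := by
        rw [hy]
        show g i ((g i).symm x) = x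
        exact (g i).apply_symm_apply x
      have h3 : x.ofLp = cay (p.1 i) *ᵥ y.ofLp + (p.2.1 i).ofLp := by
        rw [← h2, hg, mot_ofLp]
      rw [h3, mulVec_add, mulVec_mulVec, cay_neg_mul, one_mulVec]
      abel
    simpa [letR, letT] using h1
  · have h1 : (g i x : E3).ofLp = cay (p.1 i) *ᵥ x.ofLp + (p.2.1 i).ofLp := by
      rw [hg, mot_ofLp]
    simpa [letR, letT] using h1

theorem list_act (p : Par m) (g : Fin m → Iso) (hg : ∀ i x, g i x = mot (p.1 i) (p.2.1 i) x)
    (L : List (Fin m × Bool)) (x : E3) :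
    ((FreeGroup.lift g (FreeGroup.mk L) : Iso) x).ofLp = lR p L *ᵥ x.ofLp + lT p L := by
  rw [FreeGroup.lift_mk]
  induction L with
  | nil =>
    simp only [List.map_nil, List.prod_nil, lR, lT, one_mulVec, add_zero]
    rfl
  | cons l L ih =>
    simp only [List.map_cons, List.prod_cons, lR, lT]
    have h1 : ((cond l.2 (g l.1) (g l.1)⁻¹ *
        (List.map (fun x => cond x.2 (g x.1) (g x.1)⁻¹) L).prod : Iso) x) =
        (cond l.2 (g l.1) (g l.1)⁻¹ : Iso)
          ((List.map (fun x => cond x.2 (g x.1) (g x.1)⁻¹) L).prod x) := rfl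
    rw [h1, letter p g hg, ih, mulVec_add, mulVec_mulVec, add_assoc]

theorem affine_ext {A B : M3} {a b : V3} (h : ∀ x : V3, A *ᵥ x + a = B *ᵥ x + b) :
    A = B ∧ a = b := by
  have h0 : a = b := by
    have := h 0
    simpa using this
  subst h0
  refine ⟨?_, rfl⟩
  apply Matrix.ext_of_mulVec_single
  intro i
  exact add_right_cancel (h _)

theorem letR_congr {p q : Par m} (h : p.1 = q.1) (l : Fin m × Bool) : letR p l = letR q l := by
  unfold letR; rw [h]

theorem letT_congr {p q : Par m} (h : p.1 = q.1) (h' : p.2.1 = q.2.1) (l : Fin m × Bool) :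
    letT p l = letT q l := by
  unfold letT; rw [h', letR_congr h]

theorem lR_congr {p q : Par m} (h : p.1 = q.1) (L : List (Fin m × Bool)) : lR p L = lR q L := by
  induction L with
  | nil => rfl
  | cons l L ih => simp only [lR, ih, letR_congr h]

theorem lT_congr {p q : Par m} (h : p.1 = q.1) (h' : p.2.1 = q.2.1) (L : List (Fin m × Bool)) :
    lT p L = lT q L := by
  induction L with
  | nil => rfl
  | cons l L ih => simp only [lT, ih, letR_congr h, letT_congr h h']

end BWordAux

open BWordAux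

theorem exists_rho (p : Par m) : ∃ ρ : FreeGroup (Fin m) →* Iso,
    (∀ i x, ρ (FreeGroup.of i) x = mot (p.1 i) (p.2.1 i) x) ∧
    ∀ w x, (ρ w x).ofLp = wR p w *ᵥ x.ofLp + wT p w := by
  have hg : ∀ i, ∃ g : Iso, ∀ x, g x = mot (p.1 i) (p.2.1 i) x := fun i => exists_iso _ _
  choose g hg using hg
  refine ⟨FreeGroup.lift g, fun i x => ?_, fun w x => ?_⟩
  · rw [FreeGroup.lift_apply_of, hg]
  · have := list_act p g hg w.toWord x
    rw [FreeGroup.mk_toWord] at this
    exact this

theorem wR_mem (p : Par m) (w : FreeGroup (Fin m)) : wR p w ∈ SO3 := by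
  have h : ∀ L : List (Fin m × Bool), lR p L ∈ SO3 := by
    intro L
    induction L with
    | nil => exact SO3.one_mem
    | cons l L ih => exact SO3.mul_mem (cay_mem _) ih
  exact h _

theorem wR_one (p : Par m) : wR p 1 = 1 := by
  unfold wR
  rw [FreeGroup.toWord_one]
  rfl

theorem wT_one (p : Par m) : wT p 1 = 0 := by
  unfold wT
  rw [FreeGroup.toWord_one]
  rfl

theorem wR_mul (p : Par m) (v w : FreeGroup (Fin m)) : wR p (v * w) = wR p v * wR p w := by
  obtain ⟨ρ, _, hρ⟩ := exists_rho p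
  refine (affine_ext (a := wT p (v * w)) (b := wR p v *ᵥ wT p w + wT p v) fun x => ?_).1
  have h1 := hρ (v * w) (WithLp.toLp 2 x)
  have h2 : (ρ (v * w) (WithLp.toLp 2 x)).ofLp = (ρ v (ρ w (WithLp.toLp 2 x))).ofLp := by
    rw [map_mul]; rfl
  rw [h2, hρ, hρ, mulVec_add, mulVec_mulVec] at h1
  rw [← add_assoc]
  exact h1.symm

theorem wT_mul (p : Par m) (v w : FreeGroup (Fin m)) :
    wT p (v * w) = wR p v *ᵥ wT p w + wT p v := by
  obtain ⟨ρ, _, hρ⟩ := exists_rho p
  refine (affine_ext (A := wR p (v * w)) (B := wR p v * wR p w) fun x => ?_).2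
  have h1 := hρ (v * w) (WithLp.toLp 2 x)
  have h2 : (ρ (v * w) (WithLp.toLp 2 x)).ofLp = (ρ v (ρ w (WithLp.toLp 2 x))).ofLp := by
    rw [map_mul]; rfl
  rw [h2, hρ, hρ, mulVec_add, mulVec_mulVec] at h1
  rw [← add_assoc]
  exact h1.symm

theorem wR_congr {p q : Par m} (h : p.1 = q.1) (w : FreeGroup (Fin m)) : wR p w = wR q w := by
  exact lR_congr h _

theorem wT_congr {p q : Par m} (h : p.1 = q.1) (h' : p.2.1 = q.2.1) (w : FreeGroup (Fin m)) :
    wT p w = wT q w := by
  exact lT_congr h h' _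

end Pool.Agent.CBT
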