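import Pool.Agent.Lib.CBT.BAn
import Pool.Agent.Lib.CBT.BBaire
import Pool.Agent.Lib.CBT.BWord

/-!
# CBT.BFree : a faithful representation

`exists_wR_ne`: Cayley vectors `t • e_i`, `e_i = (c_i, s_i, 0)` pairwise non parallel unit vectors, `t` real.  The matrix
`(1 + t²) • cay (± t e)` is a polynomial in `t`; at `t = √-1` it is `2 z z̄ᵀ` with `z = (-s, c, ± √-1)`.  For a reduced word the product
of these rank one matrices is nonzero, since `z̄_a ⬝ z_b ≠ 0` unless `b = a⁻¹`.  If the rotation of the word were the identity for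
all real `t` the product of the numerators would be `(1 + t²)^l • 1`, which vanishes at `√-1`.
`exists_faithful`: `exists_generic` for the functions `analytic_dist`.
-/

set_option autoImplicit false

namespace Pool.Agent.CBT

open Matrix Polynomial

variable {m : ℕ}

/-- cross product matrix over any ring -/
private def skr {R : Type*} [Ring R] (a : Fin 3 → R) : Matrix (Fin 3) (Fin 3) R :=
  !![0, -a 2, a 1; a 2, 0, -a 0; -a 1, a 0, 0]

/-- the axes, in the horizontal plane -/
private noncomputable def ax (c s : Fin m → ℝ) (i : Fin m) : E3 := !₂[c i, s i, 0]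

/-- letter matrix with polynomial entries -/
private noncomputable def numP (c s : Fin m → ℝ) (l : Fin m × Bool) :
    Matrix (Fin 3) (Fin 3) ℂ[X] :=
  let e : Fin 3 → ℂ[X] := ![Polynomial.C (c l.1 : ℂ), Polynomial.C (s l.1 : ℂ), 0]
  let σ : ℂ[X] := if l.2 then X else -X
  (1 + X ^ 2 : ℂ[X]) • 1 + (2 : ℂ[X]) • (σ • skr e + (X ^ 2 : ℂ[X]) • (skr e * skr e))

/-- eigenvector -/
private noncomputable def zv (c s : Fin m → ℝ) (l : Fin m × Bool) : Fin 3 → ℂ :=
  ![-(s l.1 : ℂ), (c l.1 : ℂ), if l.2 then Complex.I else -Complex.I]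

/-- the conjugate eigenvector -/
private noncomputable def zb (c s : Fin m → ℝ) (l : Fin m × Bool) : Fin 3 → ℂ :=
  ![-(s l.1 : ℂ), (c l.1 : ℂ), if l.2 then -Complex.I else Complex.I]

private theorem numP_I (c s : Fin m → ℝ) (hcs : ∀ i, c i ^ 2 + s i ^ 2 = 1) (l : Fin m × Bool) :
    (Polynomial.evalRingHom Complex.I).mapMatrix (numP c s l) =
      (2 : ℂ) • Matrix.vecMulVec (zv c s l) (zb c s l) := by
  have h : (c l.1 : ℂ) ^ 2 + (s l.1 : ℂ) ^ 2 = 1 := by exact_mod_cast hcs l.1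
  obtain ⟨i, b⟩ := l
  simp only at h
  ext j k
  fin_cases j <;> fin_cases k <;> cases b <;>
    simp [numP, skr, zv, zb, Matrix.vecMulVec] <;> ring_nf <;> exact h

private theorem numP_real (c s : Fin m → ℝ) (hcs : ∀ i, c i ^ 2 + s i ^ 2 = 1)
    (l : Fin m × Bool) (t : ℝ) :
    (Polynomial.evalRingHom (t : ℂ)).mapMatrix (numP c s l) =
      ((1 + t ^ 2 : ℝ) : ℂ) • (Complex.ofRealHom.mapMatrix
        (cay (if l.2 then t • ax c s l.1 else -(t • ax c s l.1)))) := by
  obtain ⟨i, b⟩ := l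
  have hden : ‖t • ax c s i‖ ^ 2 = t ^ 2 := by
    rw [EuclideanSpace.norm_sq_eq]
    simp only [Real.norm_eq_abs, sq_abs, Fin.sum_univ_three]
    simp [ax]
    linear_combination t ^ 2 * hcs i
  have hden' : ‖-(t • ax c s i)‖ ^ 2 = t ^ 2 := by
    rw [norm_neg, hden]
  have hpos : (1 + t ^ 2 : ℝ) ≠ 0 := by positivity
  cases b
  · have key : (1 + t ^ 2 : ℝ) • cay (-(t • ax c s i)) = (1 + t ^ 2 : ℝ) • 1 +
        (2 : ℝ) • (skew (-(t • ax c s i)) + skew (-(t • ax c s i)) * skew (-(t • ax c s i))) := by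
      rw [cay, hden', smul_add, smul_smul]
      congr 2
      field_simp
    have key2 : ((1 + t ^ 2 : ℝ) : ℂ) • (Complex.ofRealHom.mapMatrix (cay (-(t • ax c s i)))) =
        Complex.ofRealHom.mapMatrix ((1 + t ^ 2 : ℝ) • cay (-(t • ax c s i))) := by
      ext j k; simp
    simp only [Bool.false_eq_true, if_false]
    rw [key2, key]
    ext j k
    fin_cases j <;> fin_cases k <;> simp [numP, skr, skew, ax] <;> ring
  · have key : (1 + t ^ 2 : ℝ) • cay (t • ax c s i) = (1 + t ^ 2 : ℝ) • 1 +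
        (2 : ℝ) • (skew (t • ax c s i) + skew (t • ax c s i) * skew (t • ax c s i)) := by
      rw [cay, hden, smul_add, smul_smul]
      congr 2
      field_simp
    have key2 : ((1 + t ^ 2 : ℝ) : ℂ) • (Complex.ofRealHom.mapMatrix (cay (t • ax c s i))) =
        Complex.ofRealHom.mapMatrix ((1 + t ^ 2 : ℝ) • cay (t • ax c s i)) := by
      ext j k; simp
    simp only [if_true]
    rw [key2, key]
    ext j k
    fin_cases j <;> fin_cases k <;> simp [numP, skr, skew, ax] <;> ring

private theorem dot_ne (c s : Fin m → ℝ) (h1 : ∀ i j, c i * c j + s i * s j ≠ -1)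
    (h2 : ∀ i j, i ≠ j → c i * c j + s i * s j ≠ 1) (a b : Fin m × Bool)
    (hab : a.1 = b.1 → a.2 = b.2) : zb c s a ⬝ᵥ zv c s b ≠ 0 := by
  obtain ⟨i, x⟩ := a
  obtain ⟨j, y⟩ := b
  simp only at hab
  have e : ∀ z : ℝ, (c i * c j + s i * s j ≠ z) → (c i : ℂ) * c j + s i * s j ≠ z := by
    intro z hz h
    exact hz (by exact_mod_cast h)
  have H1 := e _ (h1 i j)
  have hval : zb c s (i, x) ⬝ᵥ zv c s (j, y) =
      (c i : ℂ) * c j + s i * s j + (if x = y then 1 else -1) := by
    cases x <;> cases y <;> simp [zb, zv, dotProduct, Fin.sum_univ_three] <;> ring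
  rw [hval]
  by_cases hxy : x = y
  · rw [if_pos hxy]
    intro h
    apply H1
    push_cast
    linear_combination h
  · rw [if_neg hxy]
    have hij : i ≠ j := fun h => hxy (hab h)
    have H2 := e _ (h2 i j hij)
    intro h
    apply H2
    push_cast
    linear_combination h

/-- the value at `I` of the product over a reduced word -/
private theorem prod_I (c s : Fin m → ℝ) (hcs : ∀ i, c i ^ 2 + s i ^ 2 = 1)
    (h1 : ∀ i j, c i * c j + s i * s j ≠ -1)
    (h2 : ∀ i j, i ≠ j → c i * c j + s i * s j ≠ 1) (a : Fin m × Bool)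
    (L : List (Fin m × Bool)) (hL : FreeGroup.IsReduced (a :: L)) :
    ∃ μ : ℂ, μ ≠ 0 ∧ ∃ b : Fin m × Bool,
      (((a :: L).map fun l => (Polynomial.evalRingHom Complex.I).mapMatrix (numP c s l)).prod) =
        μ • Matrix.vecMulVec (zv c s a) (zb c s b) := by
  induction L generalizing a with
  | nil =>
    refine ⟨2, two_ne_zero, a, ?_⟩
    simp only [List.map_cons, List.map_nil, List.prod_cons, List.prod_nil, mul_one]
    exact numP_I c s hcs a
  | cons d L ih =>
    rw [FreeGroup.isReduced_cons_cons] at hL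
    obtain ⟨μ, hμ, b, hb⟩ := ih d hL.2
    have hdot := dot_ne c s h1 h2 a d hL.1
    refine ⟨2 * μ * (zb c s a ⬝ᵥ zv c s d), ?_, b, ?_⟩
    · exact mul_ne_zero (mul_ne_zero two_ne_zero hμ) hdot
    · rw [List.map_cons, List.prod_cons, hb, numP_I c s hcs a, Matrix.smul_mul, Matrix.mul_smul,
        Matrix.vecMulVec_mul_vecMulVec, smul_smul, Matrix.vecMulVec_smul, smul_smul]

private theorem exists_ne_one (c s : Fin m → ℝ) (hcs : ∀ i, c i ^ 2 + s i ^ 2 = 1)
    (h1 : ∀ i j, c i * c j + s i * s j ≠ -1)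
    (h2 : ∀ i j, i ≠ j → c i * c j + s i * s j ≠ 1)
    (L : List (Fin m × Bool)) (hL : FreeGroup.IsReduced L) (hne : L ≠ []) :
    ∃ t : ℝ, (L.map fun l => cay (if l.2 then t • ax c s l.1 else -(t • ax c s l.1))).prod ≠ 1 := by
  by_contra hcon
  push Not at hcon
  obtain ⟨a, L', rfl⟩ := List.exists_cons_of_ne_nil hne
  set n := (a :: L').length with hn
  set P : Matrix (Fin 3) (Fin 3) ℂ[X] := ((a :: L').map (numP c s)).prod with hP
  have hprod : ∀ z : ℂ, (Polynomial.evalRingHom z).mapMatrix P =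
      ((a :: L').map fun l => (Polynomial.evalRingHom z).mapMatrix (numP c s l)).prod := by
    intro z
    rw [hP, map_list_prod, List.map_map]
    rfl
  have hreal : ∀ t : ℝ, (Polynomial.evalRingHom (t : ℂ)).mapMatrix P =
      ((1 + t ^ 2 : ℝ) : ℂ) ^ n • (1 : Matrix (Fin 3) (Fin 3) ℂ) := by
    intro t
    rw [hprod]
    have h3 : ∀ K : List (Fin m × Bool),
        (K.map fun l => (Polynomial.evalRingHom (t : ℂ)).mapMatrix (numP c s l)).prod =
        ((1 + t ^ 2 : ℝ) : ℂ) ^ K.length • Complex.ofRealHom.mapMatrix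
          (K.map fun l => cay (if l.2 then t • ax c s l.1 else -(t • ax c s l.1))).prod := by
      intro K
      induction K with
      | nil => simp
      | cons d K ih =>
        rw [List.map_cons, List.prod_cons, ih, numP_real c s hcs d t, List.map_cons,
          List.prod_cons, map_mul, Matrix.smul_mul, Matrix.mul_smul, smul_smul, List.length_cons]
        congr 1
        exact (pow_succ' _ _).symm
    rw [h3, hcon t, map_one]
  -- polynomial identity
  have hpoly : P = ((1 + X ^ 2 : ℂ[X]) ^ n) • (1 : Matrix (Fin 3) (Fin 3) ℂ[X]) := by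
    ext1 i j
    apply Polynomial.eq_of_infinite_eval_eq
    apply Set.Infinite.mono (s := Set.range (fun t : ℝ => (t : ℂ)))
    · rintro _ ⟨t, rfl⟩
      have h4 := congrFun (congrFun (hreal t) i) j
      simp only [RingHom.mapMatrix_apply, Matrix.map_apply, Polynomial.coe_evalRingHom,
        Matrix.smul_apply, smul_eq_mul] at h4
      show Polynomial.eval (t : ℂ) (P i j) = Polynomial.eval (t : ℂ)
        ((((1 + X ^ 2 : ℂ[X]) ^ n) • (1 : Matrix (Fin 3) (Fin 3) ℂ[X])) i j)
      rw [h4, Matrix.smul_apply, smul_eq_mul, Matrix.one_apply, Matrix.one_apply]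
      split_ifs <;> simp
    · exact Set.infinite_range_of_injective Complex.ofReal_injective
  have h5 := congrArg (Polynomial.evalRingHom Complex.I).mapMatrix hpoly
  obtain ⟨μ, hμ, b, hb⟩ := prod_I c s hcs h1 h2 a L' hL
  rw [hprod, hb] at h5
  have h6 := congrFun (congrFun h5 2) 2
  have hn0 : n ≠ 0 := by simp [hn]
  simp [zv, zb, hn0] at h6
  obtain ⟨i, x⟩ := a
  obtain ⟨j, y⟩ := b
  cases x <;> cases y <;> simp [hμ] at h6

/-- explicit axes -/
private theorem exists_axes (m : ℕ) : ∃ c s : Fin m → ℝ, (∀ i, c i ^ 2 + s i ^ 2 = 1) ∧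
    (∀ i j, c i * c j + s i * s j ≠ -1) ∧ (∀ i j, i ≠ j → c i * c j + s i * s j ≠ 1) := by
  refine ⟨fun k => (1 - (k : ℝ) ^ 2) / (1 + (k : ℝ) ^ 2), fun k => 2 * (k : ℝ) / (1 + (k : ℝ) ^ 2),
    ?_, ?_, ?_⟩
  · intro i
    field_simp
    ring
  · intro i j h
    have hi : (0 : ℝ) < 1 + (i : ℝ) ^ 2 := by positivity
    have hj : (0 : ℝ) < 1 + (j : ℝ) ^ 2 := by positivity
    field_simp at h
    have h0 : (0 : ℝ) ≤ (i : ℝ) * (j : ℝ) := by positivity
    nlinarith [sq_nonneg ((i : ℝ) * (j : ℝ) + 1)]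
  · intro i j hij h
    field_simp at h
    have h3 : ((i : ℝ) - (j : ℝ)) ^ 2 = 0 := by nlinarith
    have h4 : (i : ℝ) = (j : ℝ) := by
      have := pow_eq_zero_iff (n := 2) (by norm_num) |>.mp h3
      linarith
    apply hij
    apply Fin.ext
    exact_mod_cast h4

theorem exists_wR_ne {m : ℕ} (w : FreeGroup (Fin m)) (hw : w ≠ 1) : ∃ p : Par m, wR p w ≠ 1 := by
  obtain ⟨c, s, hcs, h1, h2⟩ := exists_axes m
  have hne : w.toWord ≠ [] := fun h => hw (FreeGroup.toWord_eq_nil_iff.mp h)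
  obtain ⟨t, ht⟩ := exists_ne_one c s hcs h1 h2 w.toWord FreeGroup.isReduced_toWord hne
  refine ⟨(fun i => t • ax c s i, 0, 0), ?_⟩
  have key : ∀ L : List (Fin m × Bool), lR ((fun i => t • ax c s i, 0, 0) : Par m) L =
      (L.map fun l => cay (if l.2 then t • ax c s l.1 else -(t • ax c s l.1))).prod := by
    intro L
    induction L with
    | nil => rfl
    | cons l L ih =>
      rw [lR, ih, List.map_cons, List.prod_cons]
      rfl
  unfold wR
  rw [key]
  exact ht

theorem exists_faithful (m : ℕ) : ∃ p : Par m, ∀ w : FreeGroup (Fin m), w ≠ 1 → wR p w ≠ 1 := by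
  have hne : ∀ w : {w : FreeGroup (Fin m) // w ≠ 1}, ∃ p : Par m,
      ∑ i, ∑ j, (wR p w.1 i j - (1 : M3) i j) ^ 2 ≠ 0 := by
    rintro ⟨w, hw⟩
    obtain ⟨p, hp⟩ := exists_wR_ne w hw
    refine ⟨p, fun h => hp ?_⟩
    ext i j
    have h3 := (Finset.sum_eq_zero_iff_of_nonneg fun i _ => Finset.sum_nonneg fun j _ =>
      sq_nonneg _).mp h i (Finset.mem_univ i)
    have h4 := (Finset.sum_eq_zero_iff_of_nonneg fun j _ => sq_nonneg _).mp h3 j
      (Finset.mem_univ j)
    have h5 := pow_eq_zero_iff (n := 2) (by norm_num) |>.mp h4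
    exact sub_eq_zero.mp h5
  obtain ⟨p, -, hp⟩ := exists_generic
    (fun (w : {w : FreeGroup (Fin m) // w ≠ 1}) (p : Par m) =>
      ∑ i, ∑ j, (wR p w.1 i j - (1 : M3) i j) ^ 2)
    (fun w => analytic_dist w.1) hne isOpen_univ Set.univ_nonempty
  refine ⟨p, fun w hw h => hp ⟨w, hw⟩ ?_⟩
  simp [h]

end Pool.Agent.CBT
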