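import Pool.Agent.Lib.CBT.BEmpty
import Pool.Agent.Lib.CBT.BCyc

/-!
# CBT.BGP : generic parameters give `GP`

`n = p.2.2`, `u = ‖n‖⁻¹ • n` (`n ≠ 0` by `f3` or by `f6`; hypothesis `hn`).
* linear parts: `(ρ w).linearIsometryEquiv x = wR p w x` (difference `ρ w x - ρ w 0`), `(ρ w).linearIsometryEquiv.symm =
  (ρ w⁻¹).linearIsometryEquiv`.
* `g2`: for injective `w : Fin 3 → _` the vectors `wR p (w i)⁻¹ n`; if `∑ c_i wR p (w i)⁻¹ n = 0`, multiply by `wR p (w 0)`:
  `c_0 n + c_1 wR p (w 0 (w 1)⁻¹) n + c_2 wR p (w 0 (w 2)⁻¹) n = 0`; `det3 ≠ 0` (`f3`) gives `c = 0`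
  (`det3` of a dependent triple is zero; or Matrix.det / linearIndependent_rows).  Scaling by `‖n‖⁻¹` is harmless.
* `g1`: let `w : Fin 4 → _` be injective, `a_i = w i * (w 0)⁻¹`, `i = 1,2,3`: distinct and `≠ 1`.  For `x` in the set, `y = ρ (w 0) x`
  satisfies `⟨n, ρ a_i y⟩ = ⟨n, y⟩`.  If the `a_i` commute pairwise: `exists_root`, `screw_empty` (the root is `≠ 1`, the exponents are
  distinct and nonzero): the set is empty.  Otherwise for two points `y, y'`: `⟨n, wR a_i (y - y')⟩ = ⟨n, y - y'⟩`, so `y - y'` is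
  orthogonal to `wR (a_i)⁻¹ n - n` (transpose), `i = 1,2,3`; `f4` for `a_i⁻¹` gives `y = y'`.
-/

set_option autoImplicit false

namespace Pool.Agent.CBT

open Matrix

namespace BGPAux

theorem dual3 {x y z d : V3} (h : det3 x y z ≠ 0) (hx : x ⬝ᵥ d = 0) (hy : y ⬝ᵥ d = 0)
    (hz : z ⬝ᵥ d = 0) : d = 0 := by
  unfold det3 at h
  rw [triple_product_eq_det] at h
  refine eq_zero_of_mulVec_eq_zero h ?_
  ext i
  fin_cases i
  · exact hx
  · exact hy
  · exact hz

theorem lin3 {x y z c : V3} (h : det3 x y z ≠ 0) (hc : c 0 • x + c 1 • y + c 2 • z = 0) :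
    c = 0 := by
  unfold det3 at h
  rw [triple_product_eq_det] at h
  have h' : ((Matrix.of ![x, y, z] : M3)ᵀ).det ≠ 0 := by
    rw [det_transpose]
    exact h
  refine eq_zero_of_mulVec_eq_zero h' ?_
  ext i
  have h1 := congrFun hc i
  simp only [Pi.add_apply, Pi.smul_apply, smul_eq_mul, Pi.zero_apply] at h1
  have h3 : ((Matrix.of ![x, y, z] : M3)ᵀ *ᵥ c) i = ∑ j, (![x, y, z] j) i * c j := rfl
  rw [h3, Fin.sum_univ_three]
  simp only [Matrix.cons_val_zero, Matrix.cons_val_one, Matrix.cons_val, Pi.zero_apply]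
  linarith

theorem inner_eq (x y : E3) : inner ℝ x y = x.ofLp ⬝ᵥ y.ofLp := by
  rw [PiLp.inner_apply]
  simp only [dotProduct]
  refine Finset.sum_congr rfl fun i _ => ?_
  simp [mul_comm]

theorem wR_inv {m : ℕ} (p : Par m) (w : FreeGroup (Fin m)) : wR p w⁻¹ = (wR p w)ᵀ := by
  have h1 : wR p w⁻¹ * wR p w = 1 := by rw [← wR_mul, inv_mul_cancel, wR_one]
  have h2 := so3_mul_transpose (wR_mem p w)
  calc wR p w⁻¹ = wR p w⁻¹ * (wR p w * (wR p w)ᵀ) := by rw [h2, mul_one]
    _ = (wR p w⁻¹ * wR p w) * (wR p w)ᵀ := by rw [mul_assoc]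
    _ = (wR p w)ᵀ := by rw [h1, one_mul]

theorem linear_apply {m : ℕ} {p : Par m} {ρ : FreeGroup (Fin m) →* Iso}
    (hρ : ∀ w x, (ρ w x).ofLp = wR p w *ᵥ x.ofLp + wT p w) (w : FreeGroup (Fin m)) (z : E3) :
    ((ρ w).linearIsometryEquiv z).ofLp = wR p w *ᵥ z.ofLp := by
  have h1 : ρ w (z +ᵥ (0 : E3)) = (ρ w).linearIsometryEquiv z +ᵥ ρ w 0 :=
    (ρ w).map_vadd 0 z
  have h2 := congrArg (fun q : E3 => q.ofLp) h1
  simp only [vadd_eq_add, add_zero, WithLp.ofLp_add] at h2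
  rw [hρ, hρ] at h2
  simp only [WithLp.ofLp_zero, mulVec_zero, zero_add] at h2
  exact (add_right_cancel h2).symm

theorem linear_symm_apply {m : ℕ} {p : Par m} {ρ : FreeGroup (Fin m) →* Iso}
    (hρ : ∀ w x, (ρ w x).ofLp = wR p w *ᵥ x.ofLp + wT p w) (w : FreeGroup (Fin m)) (z : E3) :
    ((ρ w).linearIsometryEquiv.symm z).ofLp = (wR p w)ᵀ *ᵥ z.ofLp := by
  have h1 := linear_apply hρ w ((ρ w).linearIsometryEquiv.symm z)
  rw [LinearIsometryEquiv.apply_symm_apply] at h1
  rw [h1, mulVec_mulVec, so3_transpose_mul (wR_mem p w), one_mulVec]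

end BGPAux

open BGPAux

theorem gp_of_gen {m : ℕ} {p : Par m} (h : Gen p) (hn : p.2.2 ≠ 0) {ρ : FreeGroup (Fin m) →* Iso}
    (hρ : ∀ w x, (ρ w x).ofLp = wR p w *ᵥ x.ofLp + wT p w) : GP ρ (‖p.2.2‖⁻¹ • p.2.2) := by
  have hr : ‖p.2.2‖⁻¹ ≠ 0 := inv_ne_zero (norm_ne_zero_iff.2 hn)
  set r : ℝ := ‖p.2.2‖⁻¹ with hrdef
  refine ⟨?_, ?_, ?_⟩
  · rw [norm_smul, hrdef, norm_inv, norm_norm, inv_mul_cancel₀ (norm_ne_zero_iff.2 hn)]
  · intro w hw
    have hmul : ∀ i x, ρ (w i * (w 0)⁻¹) (ρ (w 0) x) = ρ (w i) x := by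
      intro i x
      have : ρ (w i) = ρ (w i * (w 0)⁻¹) * ρ (w 0) := by
        rw [← map_mul, inv_mul_cancel_right]
      rw [this]
      rfl
    have key : ∀ x : E3, (∀ i j, inner ℝ (r • p.2.2) (ρ (w i) x) =
        inner ℝ (r • p.2.2) (ρ (w j) x)) → ∀ i,
        p.2.2.ofLp ⬝ᵥ (wR p (w i * (w 0)⁻¹) *ᵥ (ρ (w 0) x).ofLp + wT p (w i * (w 0)⁻¹)) =
          p.2.2.ofLp ⬝ᵥ (ρ (w 0) x).ofLp := by
      intro x hx i
      have h1 := hx i 0
      rw [inner_smul_left, inner_smul_left] at h1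
      have h2 := mul_left_cancel₀ (by simpa using hr) h1
      rw [inner_eq, inner_eq, ← hmul i x, hρ] at h2
      exact h2
    set a : FreeGroup (Fin m) := w 1 * (w 0)⁻¹ with ha
    set b : FreeGroup (Fin m) := w 2 * (w 0)⁻¹ with hb
    set c : FreeGroup (Fin m) := w 3 * (w 0)⁻¹ with hc
    have hne1 : ∀ i : Fin 4, i ≠ 0 → w i * (w 0)⁻¹ ≠ 1 := by
      intro i hi h1
      exact hi (hw (mul_inv_eq_one.1 h1))
    have hne : ∀ i j : Fin 4, i ≠ j → w i * (w 0)⁻¹ ≠ w j * (w 0)⁻¹ := by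
      intro i j hij h1
      exact hij (hw (mul_right_cancel h1))
    have ha1 : a ≠ 1 := hne1 1 (by decide)
    have hb1 : b ≠ 1 := hne1 2 (by decide)
    have hc1 : c ≠ 1 := hne1 3 (by decide)
    have hab : a ≠ b := hne 1 2 (by decide)
    have hac : a ≠ c := hne 1 3 (by decide)
    have hbc : b ≠ c := hne 2 3 (by decide)
    intro x hx x' hx'
    rw [Set.mem_ofPred_eq] at hx hx'
    have kx := key x hx
    have kx' := key x' hx'
    by_cases hcomm : Commute a b ∧ Commute a c ∧ Commute b c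
    · exfalso
      obtain ⟨v, k, hka, hkb, hkc⟩ := exists_root hcomm.1 hcomm.2.1 hcomm.2.2
      have hv : v ≠ 1 := by
        intro h1
        rw [h1, _root_.one_zpow] at hka
        exact ha1 hka
      have hk0 : ∀ i, k i ≠ 0 := by
        intro i hi
        fin_cases i
        · apply ha1
          rw [hka]
          have : k 0 = 0 := hi
          rw [this, zpow_zero]
        · apply hb1
          rw [hkb]
          have : k 1 = 0 := hi
          rw [this, zpow_zero]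
        · apply hc1
          rw [hkc]
          have : k 2 = 0 := hi
          rw [this, zpow_zero]
      have hk01 : k 0 ≠ k 1 := fun e => hab (by rw [hka, hkb, e])
      have hk02 : k 0 ≠ k 2 := fun e => hac (by rw [hka, hkc, e])
      have hk12 : k 1 ≠ k 2 := fun e => hbc (by rw [hkb, hkc, e])
      have hkinj : Function.Injective k := by
        intro i j hij
        fin_cases i <;> fin_cases j
        · rfl
        · exact absurd hij hk01
        · exact absurd hij hk02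
        · exact absurd hij.symm hk01
        · rfl
        · exact absurd hij hk12
        · exact absurd hij.symm hk02
        · exact absurd hij.symm hk12
        · rfl
      refine screw_empty (h.f5 v hv) (h.f6 v hv) (h.f7 v k hv hkinj hk0) (ρ (w 0) x).ofLp ?_
      intro i
      fin_cases i
      · have := kx 1
        rw [← ha, hka] at this
        exact this
      · have := kx 2
        rw [← hb, hkb] at this
        exact this
      · have := kx 3
        rw [← hc, hkc] at this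
        exact this
    · have hcomm' : ¬ (Commute a⁻¹ b⁻¹ ∧ Commute a⁻¹ c⁻¹ ∧ Commute b⁻¹ c⁻¹) := by
        rw [Commute.inv_inv_iff, Commute.inv_inv_iff, Commute.inv_inv_iff]
        exact hcomm
      have hdet := h.f4 a⁻¹ b⁻¹ c⁻¹ (inv_ne_one.2 ha1) (inv_ne_one.2 hb1) (inv_ne_one.2 hc1)
        (fun e => hab (inv_injective e)) (fun e => hac (inv_injective e))
        (fun e => hbc (inv_injective e)) hcomm'
      have hd : ∀ i, (wR p (w i * (w 0)⁻¹)⁻¹ *ᵥ p.2.2.ofLp - p.2.2.ofLp) ⬝ᵥ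
          ((ρ (w 0) x).ofLp - (ρ (w 0) x').ofLp) = 0 := by
        intro i
        have e1 := kx i
        have e2 := kx' i
        rw [dotProduct_add] at e1 e2
        rw [wR_inv, sub_dotProduct, mulVec_transpose, ← dotProduct_mulVec, mulVec_sub,
          dotProduct_sub, dotProduct_sub]
        linarith
      have hzero := dual3 hdet (hd 1) (hd 2) (hd 3)
      have h1 : ρ (w 0) x = ρ (w 0) x' := by
        apply WithLp.ofLp_injective
        exact sub_eq_zero.1 hzero
      exact (ρ (w 0)).injective h1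
  · intro w hw
    rw [Fintype.linearIndependent_iff]
    intro c hc
    have ha1 : w 0 * (w 1)⁻¹ ≠ 1 := fun e => absurd (hw (mul_inv_eq_one.1 e)) (by decide)
    have hb1 : w 0 * (w 2)⁻¹ ≠ 1 := fun e => absurd (hw (mul_inv_eq_one.1 e)) (by decide)
    have hab : w 0 * (w 1)⁻¹ ≠ w 0 * (w 2)⁻¹ := fun e =>
      absurd (hw (inv_injective (mul_left_cancel e))) (by decide)
    have hdet := h.f3 _ _ ha1 hb1 hab
    rw [Fin.sum_univ_three] at hc
    have h1 := congrArg (fun q : E3 => wR p (w 0) *ᵥ q.ofLp) hc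
    simp only [WithLp.ofLp_add, WithLp.ofLp_smul, WithLp.ofLp_zero, linear_symm_apply hρ,
      mulVec_add, mulVec_smul, mulVec_zero, mulVec_mulVec] at h1
    rw [← wR_inv, ← wR_inv, ← wR_inv, ← wR_mul, ← wR_mul, ← wR_mul, mul_inv_cancel, wR_one,
      one_mulVec] at h1
    have h2 : r • (c 0 • p.2.2.ofLp + c 1 • (wR p (w 0 * (w 1)⁻¹) *ᵥ p.2.2.ofLp) +
        c 2 • (wR p (w 0 * (w 2)⁻¹) *ᵥ p.2.2.ofLp)) = 0 := by
      rw [← h1]
      module
    have h3 := (smul_eq_zero.1 h2).resolve_left hr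
    have h4 := lin3 hdet h3
    intro i
    exact congrFun h4 i

end Pool.Agent.CBT
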