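import Mathlib

/-!
# CBT.BRolle : the determinant of `k, cos kθ - 1, sin kθ` is not identically zero

Proof in this file: the determinant is the trigonometric polynomial
`F θ = ∑ j, a j * sin (b j * θ)` with six terms.  It is real analytic; if it vanishes on an interval it
vanishes on `ℝ`, and then its fifth derivative at `0`, the number `∑ j, a j * (b j)^5 =
10 k0 k1 k2 (k1 - k0) (k2 - k0) (k2 - k1)` up to sign, is zero, which is impossible.
-/

set_option autoImplicit false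

namespace Pool.Agent.CBT

namespace BRolleAux

open Real

theorem diff_sin {n : ℕ} (a b : Fin n → ℝ) (h : ∀ θ : ℝ, ∑ j, a j * sin (b j * θ) = 0) :
    ∀ θ : ℝ, ∑ j, (a j * b j) * cos (b j * θ) = 0 := by
  intro θ
  have h1 : HasDerivAt (fun θ : ℝ => ∑ j, a j * sin (b j * θ)) (∑ j, (a j * b j) * cos (b j * θ)) θ := by
    apply HasDerivAt.fun_sum
    intro j _
    have h2 : HasDerivAt (fun θ : ℝ => b j * θ) (b j) θ := by
      simpa using (hasDerivAt_id θ).const_mul (b j)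
    have h3 := (h2.sin).const_mul (a j)
    have h4 : a j * (cos (b j * θ) * b j) = a j * b j * cos (b j * θ) := by ring
    rw [h4] at h3
    exact h3
  have h4 : (fun θ : ℝ => ∑ j, a j * sin (b j * θ)) = fun _ => 0 := by
    funext x; exact h x
  rw [h4] at h1
  exact h1.unique (hasDerivAt_const θ 0)

theorem diff_cos {n : ℕ} (a b : Fin n → ℝ) (h : ∀ θ : ℝ, ∑ j, a j * cos (b j * θ) = 0) :
    ∀ θ : ℝ, ∑ j, (a j * b j) * sin (b j * θ) = 0 := by
  intro θ
  have h1 : HasDerivAt (fun θ : ℝ => ∑ j, a j * cos (b j * θ)) (∑ j, -((a j * b j) * sin (b j * θ))) θ := by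
    apply HasDerivAt.fun_sum
    intro j _
    have h2 : HasDerivAt (fun θ : ℝ => b j * θ) (b j) θ := by
      simpa using (hasDerivAt_id θ).const_mul (b j)
    have h3 := (h2.cos).const_mul (a j)
    have h4 : a j * (-sin (b j * θ) * b j) = -(a j * b j * sin (b j * θ)) := by ring
    rw [h4] at h3
    exact h3
  have h4 : (fun θ : ℝ => ∑ j, a j * cos (b j * θ)) = fun _ => 0 := by
    funext x; exact h x
  rw [h4] at h1
  have h5 := h1.unique (hasDerivAt_const θ 0)
  rw [Finset.sum_neg_distrib, neg_eq_zero] at h5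
  exact h5

theorem fifth {n : ℕ} (a b : Fin n → ℝ) (h : ∀ θ : ℝ, ∑ j, a j * sin (b j * θ) = 0) :
    ∑ j, a j * b j ^ 5 = 0 := by
  have h5 := diff_sin _ _ (diff_cos _ _ (diff_sin _ _ (diff_cos _ _ (diff_sin a b h)))) 0
  simp only [mul_zero, cos_zero, mul_one] at h5
  rw [← h5]
  refine Finset.sum_congr rfl fun j _ => ?_
  ring

theorem analytic_sum {n : ℕ} (a b : Fin n → ℝ) :
    AnalyticOnNhd ℝ (fun θ : ℝ => ∑ j, a j * sin (b j * θ)) Set.univ := by
  intro θ _
  apply Finset.analyticAt_fun_sum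
  intro j _
  refine analyticAt_const.mul ?_
  exact (Real.analyticAt_sin).comp (analyticAt_const.mul analyticAt_id)

/-- coefficients -/
def ca (k : Fin 3 → ℝ) : Fin 6 → ℝ :=
  ![k 2 - k 1, k 0 - k 2, k 1 - k 0, k 0, -k 1, k 2]

/-- frequencies -/
def cb (k : Fin 3 → ℝ) : Fin 6 → ℝ :=
  ![k 0, k 1, k 2, k 2 - k 1, k 2 - k 0, k 1 - k 0]

theorem det_eq (k : Fin 3 → ℝ) (θ : ℝ) : Matrix.det (Matrix.of fun i : Fin 3 =>
      ![k i, cos (k i * θ) - 1, sin (k i * θ)]) = ∑ j, ca k j * sin (cb k j * θ) := by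
  rw [Matrix.det_fin_three, Fin.sum_univ_six]
  simp [ca, cb, sub_mul, sin_sub]
  ring

end BRolleAux

open BRolleAux in
theorem exists_theta (k : Fin 3 → ℤ) (hk : Function.Injective k) (hk0 : ∀ i, k i ≠ 0) {α β : ℝ}
    (h : α < β) : ∃ θ ∈ Set.Ioo α β, Matrix.det (Matrix.of fun i : Fin 3 =>
      ![(k i : ℝ), Real.cos (k i * θ) - 1, Real.sin (k i * θ)]) ≠ 0 := by
  by_contra hcon
  push Not at hcon
  obtain ⟨K, hK⟩ : ∃ K : Fin 3 → ℝ, K = fun i => (k i : ℝ) := ⟨_, rfl⟩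
  have h1 : ∀ θ ∈ Set.Ioo α β, ∑ j, ca K j * Real.sin (cb K j * θ) = 0 := by
    intro θ hθ
    rw [← det_eq, ← hcon θ hθ, hK]
  have h2 : (fun θ : ℝ => ∑ j, ca K j * Real.sin (cb K j * θ)) = fun _ => 0 := by
    refine (analytic_sum (ca K) (cb K)).eq_of_eventuallyEq (g := fun _ => 0) analyticOnNhd_const
      (z₀ := (α + β) / 2) ?_
    filter_upwards [isOpen_Ioo.mem_nhds (show (α + β) / 2 ∈ Set.Ioo α β from
      ⟨by linarith, by linarith⟩)] with θ hθ
    exact h1 θ hθ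
  have h3 := fifth (ca K) (cb K) (fun θ => congrFun h2 θ)
  rw [Fin.sum_univ_six] at h3
  simp [ca, cb] at h3
  have h4 : 10 * K 0 * K 1 * K 2 * (K 1 - K 0) * (K 2 - K 0) * (K 2 - K 1) = 0 := by
    rw [← h3]; ring
  have hne : ∀ i, K i ≠ 0 := by
    intro i; rw [hK]; exact Int.cast_ne_zero.2 (hk0 i)
  have hne2 : ∀ i j, i ≠ j → K i - K j ≠ 0 := by
    intro i j hij
    rw [hK]
    exact sub_ne_zero.2 (fun h => hij (hk (Int.cast_injective h)))
  have h5 : 10 * K 0 * K 1 * K 2 * (K 1 - K 0) * (K 2 - K 0) * (K 2 - K 1) ≠ 0 := by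
    refine mul_ne_zero (mul_ne_zero (mul_ne_zero (mul_ne_zero (mul_ne_zero (mul_ne_zero ?_
      (hne 0)) (hne 1)) (hne 2)) (hne2 _ _ (by decide))) (hne2 _ _ (by decide)))
      (hne2 _ _ (by decide))
    norm_num
  exact h5 h4

end Pool.Agent.CBT
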