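import Pool.Agent.Lib.CBT.BDefs

/-!
# CBT.BRot : facts on rotations of three space

* `Matrix.mem_specialOrthogonalGroup_iff`, `Matrix.mem_orthogonalGroup_iff` give `A * Aᵀ = 1`, `Aᵀ * A = 1`, `det A = 1`.
* `so3_cross`: the polynomial identity `(A x) ⨯₃ (A y) = (adjugate A)ᵀ *ᵥ (x ⨯₃ y)` (entrywise `ring`, `Matrix.adjugate_fin_three`) and
  `adjugate A = Aᵀ` for `A` in `SO3` (`adjugate A * A = det A • 1`).
* `exists_axis`: `det (A - 1) = det (A - A Aᵀ) = det A * det (1 - Aᵀ) = det (1 - A) = - det (A - 1)`, so `det (A - 1) = 0`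
  (`Matrix.exists_mulVec_eq_zero_iff`); normalise.
* `exists_rot`: `a` the axis, `u` a unit vector orthogonal to `a`, `v = a ⨯₃ u`; `A u` is orthogonal to `a` and of norm one:
  `A u = c u + s v`, `c² + s² = 1`; `A v = (A a) ⨯₃ (A u) = a ⨯₃ (A u) = c v - s u`; `rot a c s` takes the same values on the basis
  `a, u, v` (or check `A x = rot a c s x` for `x = (x·a) a + (x·u) u + (x·v) v`).
* `sk a *ᵥ x = a ⨯₃ x`, `sk a ^ 3 = - sk a` for unit `a`: entrywise, using `a 0 ^ 2 + a 1 ^ 2 + a 2 ^ 2 = 1`.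
* `rot_mul`: from `sk a ^ 3 = - sk a`.
* `fixed_unique`: if `A a = a`, `A b = b` and `a ⨯₃ b ≠ 0` then `A (a ⨯₃ b) = a ⨯₃ b` and `a, b, a ⨯₃ b` is a basis, so `A = 1`.
-/

set_option autoImplicit false

namespace Pool.Agent.CBT

open Matrix

theorem so3_mul_transpose {A : M3} (hA : A ∈ SO3) : A * Aᵀ = 1 :=
  (mem_orthogonalGroup_iff _ _).1 (mem_specialOrthogonalGroup_iff.1 hA).1

theorem so3_transpose_mul {A : M3} (hA : A ∈ SO3) : Aᵀ * A = 1 :=
  (mem_orthogonalGroup_iff' _ _).1 (mem_specialOrthogonalGroup_iff.1 hA).1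

theorem so3_transpose_mem {A : M3} (hA : A ∈ SO3) : Aᵀ ∈ SO3 := by
  refine mem_specialOrthogonalGroup_iff.2 ⟨(mem_orthogonalGroup_iff _ _).2 ?_, ?_⟩
  · rw [transpose_transpose]
    exact so3_transpose_mul hA
  · rw [det_transpose]
    exact (mem_specialOrthogonalGroup_iff.1 hA).2

theorem so3_dot {A : M3} (hA : A ∈ SO3) (x y : V3) : (A *ᵥ x) ⬝ᵥ (A *ᵥ y) = x ⬝ᵥ y := by
  rw [dotProduct_mulVec, ← mulVec_transpose, mulVec_mulVec, so3_transpose_mul hA, one_mulVec]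

theorem so3_cross {A : M3} (hA : A ∈ SO3) (x y : V3) :
    (A *ᵥ x) ⨯₃ (A *ᵥ y) = A *ᵥ (x ⨯₃ y) := by
  have hadj : A.adjugate = Aᵀ := by
    have h1 : A * A.adjugate = 1 := by
      rw [mul_adjugate, (mem_specialOrthogonalGroup_iff.1 hA).2, one_smul]
    calc A.adjugate = (Aᵀ * A) * A.adjugate := by rw [so3_transpose_mul hA, one_mul]
      _ = Aᵀ * (A * A.adjugate) := by rw [mul_assoc]
      _ = Aᵀ := by rw [h1, mul_one]
  have h2 : (A *ᵥ x) ⨯₃ (A *ᵥ y) = (A.adjugate)ᵀ *ᵥ (x ⨯₃ y) := by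
    rw [adjugate_fin_three]
    ext i
    fin_cases i <;>
    · simp [cross_apply, mulVec, dotProduct, Fin.sum_univ_three]
      ring
  rw [h2, hadj, transpose_transpose]

theorem so3_det3 {A : M3} (hA : A ∈ SO3) (x y z : V3) :
    det3 (A *ᵥ x) (A *ᵥ y) (A *ᵥ z) = det3 x y z := by
  unfold det3
  rw [so3_cross hA, so3_dot hA]

theorem sk_mulVec (a x : V3) : sk a *ᵥ x = a ⨯₃ x := by
  ext i
  fin_cases i <;>
  · simp [sk, cross_apply, mulVec, dotProduct, Fin.sum_univ_three]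
    ring

theorem so3_sk {A : M3} (hA : A ∈ SO3) (v : V3) : A * sk v = sk (A *ᵥ v) * A := by
  apply mulVec_injective
  funext x
  rw [← mulVec_mulVec, ← mulVec_mulVec, sk_mulVec, sk_mulVec, so3_cross hA]

namespace BRotAux

theorem dot_comm3 (x y : V3) : x ⬝ᵥ y = y ⬝ᵥ x := dotProduct_comm x y

theorem dot_self_pos {x : V3} (hx : x ≠ 0) : 0 < x ⬝ᵥ x := by
  have h0 : 0 ≤ x ⬝ᵥ x := by
    simp only [dotProduct, Fin.sum_univ_three]
    nlinarith [mul_self_nonneg (x 0), mul_self_nonneg (x 1), mul_self_nonneg (x 2)]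
  refine lt_of_le_of_ne h0 fun h => hx ?_
  simp only [dotProduct, Fin.sum_univ_three] at h
  have h1 := mul_self_nonneg (x 0)
  have h2 := mul_self_nonneg (x 1)
  have h3 := mul_self_nonneg (x 2)
  ext i
  fin_cases i
  · show x 0 = 0
    exact mul_self_eq_zero.1 (by linarith)
  · show x 1 = 0
    exact mul_self_eq_zero.1 (by linarith)
  · show x 2 = 0
    exact mul_self_eq_zero.1 (by linarith)

theorem normalise {x : V3} (hx : x ≠ 0) : ∃ r : ℝ, r ≠ 0 ∧ (r • x) ⬝ᵥ (r • x) = 1 := by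
  have h := dot_self_pos hx
  refine ⟨(Real.sqrt (x ⬝ᵥ x))⁻¹, inv_ne_zero (Real.sqrt_pos.2 h).ne', ?_⟩
  rw [smul_dotProduct, dotProduct_smul, smul_eq_mul, smul_eq_mul, ← mul_assoc, ← mul_inv,
    Real.mul_self_sqrt h.le, inv_mul_cancel₀ h.ne']

/-- the double cross product -/
theorem cross_cross_left (a x : V3) : a ⨯₃ (a ⨯₃ x) = (a ⬝ᵥ x) • a - (a ⬝ᵥ a) • x := by
  ext i
  fin_cases i <;>
  · simp [cross_apply, dotProduct, Fin.sum_univ_three]
    ring

/-- expansion in an orthonormal basis -/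
theorem expand {a u : V3} (ha : a ⬝ᵥ a = 1) (hu : u ⬝ᵥ u = 1) (hau : a ⬝ᵥ u = 0) (x : V3) :
    x = (a ⬝ᵥ x) • a + (u ⬝ᵥ x) • u + ((a ⨯₃ u) ⬝ᵥ x) • (a ⨯₃ u) := by
  set v : V3 := a ⨯₃ u with hv
  have hav : a ⬝ᵥ v = 0 := dot_self_cross a u
  have huv : u ⬝ᵥ v = 0 := dot_cross_self a u
  have hvv : v ⬝ᵥ v = 1 := by
    rw [hv, cross_dot_cross, ha, hu, hau]
    ring
  let Qm : M3 := Matrix.of ![a, u, v]
  have h1 : Qm * Qmᵀ = 1 := by
    ext i j
    have hij : (Qm * Qmᵀ) i j = (![a, u, v] i) ⬝ᵥ (![a, u, v] j) := rfl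
    rw [hij]
    fin_cases i <;> fin_cases j <;> simp [ha, hu, hvv, hau, hav, huv, dot_comm3 u a,
      dot_comm3 v a, dot_comm3 v u]
  have h2 : Qmᵀ * Qm = 1 := mul_eq_one_comm.1 h1
  have h3 : x = Qmᵀ *ᵥ (Qm *ᵥ x) := by
    rw [mulVec_mulVec, h2, one_mulVec]
  conv_lhs => rw [h3]
  ext i
  have h4 : (Qmᵀ *ᵥ (Qm *ᵥ x)) i = ∑ j, (![a, u, v] j) i * ((![a, u, v] j) ⬝ᵥ x) := rfl
  rw [h4, Fin.sum_univ_three]
  simp only [Pi.add_apply, Pi.smul_apply, smul_eq_mul]
  simp only [Matrix.cons_val_zero, Matrix.cons_val_one, Matrix.cons_val]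
  ring

theorem sk_cube {a : V3} (ha : a ⬝ᵥ a = 1) : sk a * sk a * sk a = -sk a := by
  apply mulVec_injective
  funext x
  rw [← mulVec_mulVec, ← mulVec_mulVec, sk_mulVec, sk_mulVec, sk_mulVec, neg_mulVec, sk_mulVec,
    cross_cross_left, dot_self_cross, ha, zero_smul, one_smul, zero_sub]

theorem rot_mulVec (a : V3) (c s : ℝ) (x : V3) :
    rot a c s *ᵥ x = x + s • (a ⨯₃ x) + (1 - c) • (a ⨯₃ (a ⨯₃ x)) := by
  unfold rot
  rw [add_mulVec, add_mulVec, one_mulVec, smul_mulVec, smul_mulVec, ← mulVec_mulVec,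
    sk_mulVec, sk_mulVec]

end BRotAux

open BRotAux

theorem exists_axis {A : M3} (hA : A ∈ SO3) : ∃ a : V3, a ⬝ᵥ a = 1 ∧ A *ᵥ a = a := by
  have hdet : A.det = 1 := (mem_specialOrthogonalGroup_iff.1 hA).2
  have h0 : (A - 1).det = 0 := by
    have h1 : A - 1 = A * (1 - Aᵀ) := by
      rw [mul_sub, mul_one, so3_mul_transpose hA]
    have h2 : (1 - Aᵀ) = (1 - A)ᵀ := by
      rw [transpose_sub, transpose_one]
    have h3 : (1 - A) = -(A - 1) := (neg_sub A 1).symm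
    have h4 : (A - 1).det = -(A - 1).det := by
      conv_lhs => rw [h1, det_mul, hdet, one_mul, h2, det_transpose, h3, det_neg]
      simp only [Fintype.card_fin]
      ring
    linarith
  obtain ⟨v, hv0, hv⟩ := exists_mulVec_eq_zero_iff.2 h0
  obtain ⟨r, hr, hrv⟩ := normalise hv0
  refine ⟨r • v, hrv, ?_⟩
  rw [sub_mulVec, one_mulVec, sub_eq_zero] at hv
  rw [mulVec_smul, hv]

/-- a unit vector orthogonal to a given unit vector -/
theorem exists_orth {a : V3} (ha : a ⬝ᵥ a = 1) : ∃ u : V3, u ⬝ᵥ u = 1 ∧ a ⬝ᵥ u = 0 := by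
  by_cases h : a 0 = 0 ∧ a 1 = 0
  · refine ⟨![1, 0, 0], ?_, ?_⟩
    · simp [dotProduct, Fin.sum_univ_three]
    · simp [dotProduct, Fin.sum_univ_three, h.1]
  · have hw : (![-a 1, a 0, 0] : V3) ≠ 0 := by
      intro h0
      apply h
      have h1 := congrFun h0 0
      have h2 := congrFun h0 1
      simp at h1 h2
      exact ⟨h2, h1⟩
    obtain ⟨r, hr, hrw⟩ := normalise hw
    refine ⟨r • ![-a 1, a 0, 0], hrw, ?_⟩
    rw [dotProduct_smul]
    simp [dotProduct, Fin.sum_univ_three]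
    right
    ring

/-- every rotation fixing the unit vector `a` is a rotation about `a` -/
theorem exists_rot {A : M3} (hA : A ∈ SO3) {a : V3} (ha : a ⬝ᵥ a = 1) (hAa : A *ᵥ a = a) :
    ∃ c s : ℝ, c ^ 2 + s ^ 2 = 1 ∧ A = rot a c s := by
  obtain ⟨u, hu, hau⟩ := exists_orth ha
  set v : V3 := a ⨯₃ u with hv
  have hav : a ⬝ᵥ v = 0 := dot_self_cross a u
  have huv : u ⬝ᵥ v = 0 := dot_cross_self a u
  have hvv : v ⬝ᵥ v = 1 := by
    rw [hv, cross_dot_cross, ha, hu, hau]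
    ring
  set c : ℝ := u ⬝ᵥ (A *ᵥ u) with hc
  set s : ℝ := v ⬝ᵥ (A *ᵥ u) with hs
  have hAu : A *ᵥ u = c • u + s • v := by
    have h1 := expand ha hu hau (A *ᵥ u)
    have h2 : a ⬝ᵥ (A *ᵥ u) = 0 := by
      have := so3_dot hA a u
      rw [hAa, hau] at this
      exact this
    rw [h2, zero_smul, zero_add] at h1
    exact h1
  have hav' : a ⨯₃ v = -u := by
    rw [hv, cross_cross_left, hau, ha, zero_smul, one_smul, zero_sub]
  have hAv : A *ᵥ v = c • v - s • u := by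
    rw [hv, ← so3_cross hA, hAa, hAu, map_add, map_smul, map_smul, ← hv, hav']
    rw [smul_neg, sub_eq_add_neg]
  refine ⟨c, s, ?_, ?_⟩
  · have h1 := so3_dot hA u u
    rw [hAu, hu, add_dotProduct, dotProduct_add, dotProduct_add] at h1
    simp only [smul_dotProduct, dotProduct_smul, smul_eq_mul, hu, hvv, huv, dot_comm3 v u] at h1
    linarith
  · have hra : rot a c s *ᵥ a = a := by
      rw [rot_mulVec, cross_self]
      simp
    have hru : rot a c s *ᵥ u = A *ᵥ u := by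
      rw [rot_mulVec, ← hv, hav', hAu]
      module
    have hrv : rot a c s *ᵥ v = A *ᵥ v := by
      rw [rot_mulVec, hav', hAv, map_neg, ← hv]
      module
    apply mulVec_injective
    funext x
    rw [expand ha hu hau x, ← hv]
    simp only [mulVec_add, mulVec_smul]
    rw [hAa, hra, hru, hrv]

theorem rot_mulVec_self (a : V3) (c s : ℝ) : rot a c s *ᵥ a = a := by
  rw [rot_mulVec, cross_self]
  simp

theorem rot_mul {a : V3} (ha : a ⬝ᵥ a = 1) (c s c' s' : ℝ) :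
    rot a c s * rot a c' s' = rot a (c * c' - s * s') (s * c' + c * s') := by
  have h3 := sk_cube ha
  have h4 : sk a * sk a * sk a * sk a = -(sk a * sk a) := by
    rw [h3, neg_mul]
  unfold rot
  set k := sk a with hk
  have h1 : (1 + s • k + (1 - c) • (k * k)) * (1 + s' • k + (1 - c') • (k * k)) =
      1 + (s + s') • k + ((1 - c) + (1 - c') + s * s') • (k * k) +
        (s * (1 - c') + s' * (1 - c)) • (k * k * k) +
        ((1 - c) * (1 - c')) • (k * k * k * k) := by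
    simp only [add_mul, mul_add, smul_mul_assoc, mul_smul_comm, one_mul, mul_one, smul_smul,
      ← mul_assoc]
    module
  rw [h1, h4, h3]
  module

theorem rot_one_zero (a : V3) : rot a 1 0 = 1 := by
  simp [rot]

theorem rot_inj {a : V3} (ha : a ⬝ᵥ a = 1) {c s c' s' : ℝ} (h : rot a c s = rot a c' s') :
    c = c' ∧ s = s' := by
  obtain ⟨u, hu, hau⟩ := exists_orth ha
  set v : V3 := a ⨯₃ u with hv
  have huv : u ⬝ᵥ v = 0 := dot_cross_self a u
  have hvv : v ⬝ᵥ v = 1 := by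
    rw [hv, cross_dot_cross, ha, hu, hau]
    ring
  have hav' : a ⨯₃ v = -u := by
    rw [hv, cross_cross_left, hau, ha, zero_smul, one_smul, zero_sub]
  have key : ∀ c s : ℝ, rot a c s *ᵥ u = c • u + s • v := by
    intro c s
    rw [rot_mulVec, ← hv, hav']
    module
  have h1 : c • u + s • v = c' • u + s' • v := by
    rw [← key, ← key, h]
  have h2 := congrArg (fun z => u ⬝ᵥ z) h1
  have h3 := congrArg (fun z => v ⬝ᵥ z) h1
  simp only [dotProduct_add, dotProduct_smul, smul_eq_mul, hu, hvv, huv, dot_comm3 v u] at h2 h3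
  constructor <;> linarith

theorem axl_rot (a : V3) (c s : ℝ) : axl (rot a c s) = (2 * s) • a := by
  ext i
  fin_cases i <;>
  · simp [axl, rot, sk, Matrix.mul_apply, Fin.sum_univ_three, Matrix.one_apply]
    ring

theorem trace_rot {a : V3} (ha : a ⬝ᵥ a = 1) (c s : ℝ) : (rot a c s).trace = 1 + 2 * c := by
  simp only [dotProduct, Fin.sum_univ_three] at ha
  simp [rot, sk, Matrix.mul_apply, Fin.sum_univ_three, Matrix.one_apply, Matrix.trace]
  linear_combination (-2 * (1 - c)) * ha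

/-- unit vectors with zero cross product are equal up to sign -/
theorem eq_or_neg_of_cross {a b : V3} (ha : a ⬝ᵥ a = 1) (hb : b ⬝ᵥ b = 1) (h : a ⨯₃ b = 0) :
    b = a ∨ b = -a := by
  have h1 : b = (a ⬝ᵥ b) • a := by
    have := cross_cross_left a b
    rw [h, map_zero, ha, one_smul] at this
    exact (sub_eq_zero.1 this.symm).symm
  set r := a ⬝ᵥ b with hr
  have h2 : r * r = 1 := by
    have h3 := hb
    rw [h1, smul_dotProduct, dotProduct_smul, ha, smul_eq_mul, smul_eq_mul, mul_one] at h3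
    exact h3
  rcases mul_self_eq_one_iff.1 h2 with h4 | h4
  · left
    rw [h1, h4, one_smul]
  · right
    rw [h1, h4, neg_smul, one_smul]

theorem fixed_unique {A : M3} (hA : A ∈ SO3) {a b : V3} (ha : A *ᵥ a = a) (hb : A *ᵥ b = b)
    (hab : a ⨯₃ b ≠ 0) : A = 1 := by
  have ha0 : a ≠ 0 := by
    intro h
    apply hab
    rw [h]
    simp
  obtain ⟨r, hr, hra⟩ := normalise ha0
  have hra' : A *ᵥ (r • a) = r • a := by rw [mulVec_smul, ha]
  obtain ⟨c, s, hcs, hAr⟩ := exists_rot hA hra hra'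
  set e : V3 := r • a with he
  set w : V3 := e ⨯₃ b with hw
  have hw0 : w ≠ 0 := by
    rw [hw, he, LinearMap.map_smul₂]
    exact smul_ne_zero hr hab
  have hew : e ⬝ᵥ w = 0 := dot_self_cross e b
  have hww := dot_self_pos hw0
  have h1 : s • w + (1 - c) • (e ⨯₃ w) = 0 := by
    have h2 := hb
    rw [hAr, rot_mulVec, ← hw, add_assoc] at h2
    exact add_eq_left.1 h2
  have h2 := congrArg (fun z => w ⬝ᵥ z) h1
  have h3 := congrArg (fun z => (e ⨯₃ w) ⬝ᵥ z) h1
  have h4 : (e ⨯₃ w) ⬝ᵥ (e ⨯₃ w) = w ⬝ᵥ w := by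
    rw [cross_dot_cross, hra, hew]
    ring
  have h5 : w ⬝ᵥ (e ⨯₃ w) = 0 := dot_cross_self e w
  simp only [dotProduct_add, dotProduct_smul, smul_eq_mul, dotProduct_zero, h4, h5,
    dot_comm3 (e ⨯₃ w) w, mul_zero, add_zero, zero_add] at h2 h3
  have h6 : s = 0 := (mul_eq_zero.1 h2).resolve_right hww.ne'
  have h7 : 1 - c = 0 := (mul_eq_zero.1 h3).resolve_right hww.ne'
  have h8 : c = 1 := by linarith
  rw [hAr, h6, h8, rot_one_zero]

end Pool.Agent.CBT
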