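import Pool.Agent.Lib.CBT.BFree
import Pool.Agent.Lib.CBT.BRot
import Pool.Agent.Lib.CBT.BRolle

/-!
# CBT.BPow : the determinant of powers does not vanish identically

* `wR_zpow_rot`: if `wR p w = rot a (cos θ) (sin θ)` then `wR p (w ^ k) = rot a (cos kθ) (sin kθ)` (induction with `wR_mul`, `rot_mul`,
  `rot_one_zero`; the inverse: `rot a c s * rot a c (-s) = 1`).
* `powDet_rot`: then `powDet p w k = det [k i, 2 (cos (k i θ) - 1), (2 sin (k i θ)) (2 sin θ)] = 8 sin θ * det [k i, cos - 1, sin]`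
  (`trace_rot`, `axl_rot`).
* `exists_powDet`: `p0` with `wR p0 w ≠ 1` (`exists_wR_ne`); the trace `T t` of `wR (t ω, ·, ·) w` is continuous in `t` (entries of `wR`
  are analytic in `p`), `T 0 = 3`, `T 1 < 3` (`-1 ≤ c < 1` as the rotation is not the identity).  Choose `α < β` in `(0, π)` with
  `1 + 2 cos θ ∈ (T 1, 3)` for `θ ∈ (α, β)`, `θ` from `exists_theta` (`sin θ ≠ 0`), `t ∈ [0,1]` with `T t = 1 + 2 cos θ`
  (intermediate value theorem).  There `wR p w = rot a c s` with `c = cos θ`, `s = ± sin θ = sin (± θ)`.  Replacing `θ` by `-θ`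
  changes the determinant only by a sign.
-/

set_option autoImplicit false

namespace Pool.Agent.CBT

open Matrix

variable {m : ℕ}

theorem wR_zpow_rot {p : Par m} {w : FreeGroup (Fin m)} {a : V3} (ha : a ⬝ᵥ a = 1) {θ : ℝ}
    (h : wR p w = rot a (Real.cos θ) (Real.sin θ)) (k : ℤ) :
    wR p (w ^ k) = rot a (Real.cos (k * θ)) (Real.sin (k * θ)) := by
  have hinv : wR p w⁻¹ = rot a (Real.cos θ) (-Real.sin θ) := by
    have h1 : wR p w⁻¹ * wR p w = 1 := by
      rw [← wR_mul, inv_mul_cancel, wR_one]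
    have h2 : wR p w * rot a (Real.cos θ) (-Real.sin θ) = 1 := by
      rw [h, rot_mul ha]
      have e1 : Real.cos θ * Real.cos θ - Real.sin θ * -Real.sin θ = 1 := by
        have := Real.sin_sq_add_cos_sq θ
        nlinarith
      have e2 : Real.sin θ * Real.cos θ + Real.cos θ * -Real.sin θ = 0 := by ring
      rw [e1, e2, rot_one_zero]
    exact left_inv_eq_right_inv h1 h2
  induction k using Int.induction_on with
  | zero =>
    simp only [Int.cast_zero, zero_mul, Real.cos_zero, Real.sin_zero, zpow_zero]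
    rw [wR_one, rot_one_zero]
  | succ n ih =>
    rw [_root_.zpow_add_one, wR_mul, ih, h, rot_mul ha]
    have e : ((n : ℤ) + 1 : ℤ) * θ = ((n : ℤ) : ℝ) * θ + θ := by push_cast; ring
    rw [e, Real.cos_add, Real.sin_add]
  | pred n ih =>
    rw [_root_.zpow_sub_one, wR_mul, ih, hinv, rot_mul ha]
    have e : ((-(n : ℤ) - 1 : ℤ) : ℝ) * θ = ((-(n : ℤ) : ℤ) : ℝ) * θ - θ := by push_cast; ring
    rw [e, Real.cos_sub, Real.sin_sub]
    congr 1
    · ring
    · ring

theorem powDet_rot {p : Par m} {w : FreeGroup (Fin m)} {a : V3} (ha : a ⬝ᵥ a = 1) {θ : ℝ}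
    (h : wR p w = rot a (Real.cos θ) (Real.sin θ)) (k : Fin 3 → ℤ) :
    powDet p w k = 8 * Real.sin θ * Matrix.det (Matrix.of fun i : Fin 3 =>
      ![(k i : ℝ), Real.cos (k i * θ) - 1, Real.sin (k i * θ)]) := by
  unfold powDet
  have h1 : ∀ i, (wR p (w ^ k i)).trace - 3 = 2 * (Real.cos (k i * θ) - 1) := by
    intro i
    rw [wR_zpow_rot ha h, trace_rot ha]; ring
  have h2 : ∀ i, axl (wR p (w ^ k i)) ⬝ᵥ axl (wR p w) =
      4 * Real.sin θ * Real.sin (k i * θ) := by
    intro i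
    rw [wR_zpow_rot ha h, h, axl_rot, axl_rot, smul_dotProduct, dotProduct_smul, ha]
    simp only [smul_eq_mul]
    ring
  have h3 : (Matrix.of fun i : Fin 3 =>
      ![(k i : ℝ), (wR p (w ^ k i)).trace - 3, axl (wR p (w ^ k i)) ⬝ᵥ axl (wR p w)]) =
      Matrix.of fun i : Fin 3 => ![(k i : ℝ), 2 * (Real.cos (k i * θ) - 1),
        4 * Real.sin θ * Real.sin (k i * θ)] := by
    congr 1
    funext i
    rw [h1, h2]
  rw [h3, Matrix.det_fin_three, Matrix.det_fin_three]
  simp only [Matrix.of_apply, Matrix.cons_val_zero, Matrix.cons_val_one, Matrix.cons_val]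
  ring

namespace BPowAux

theorem lR_zero (p : Par m) (hp : p.1 = 0) (L : List (Fin m × Bool)) : lR p L = 1 := by
  induction L with
  | nil => rfl
  | cons l L ih =>
    have h1 : letR p l = 1 := by
      unfold letR
      rw [hp]
      split_ifs
      · exact cay_zero
      · simp only [Pi.zero_apply, neg_zero]; exact cay_zero
    show letR p l * lR p L = 1
    rw [h1, ih, one_mul]

theorem exists_rot' {A : M3} (hA : A ∈ SO3) : ∃ (a : V3) (c s : ℝ), a ⬝ᵥ a = 1 ∧
    c ^ 2 + s ^ 2 = 1 ∧ A = rot a c s := by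
  obtain ⟨a, ha, hAa⟩ := exists_axis hA
  obtain ⟨c, s, hcs, h⟩ := exists_rot hA ha hAa
  exact ⟨a, c, s, ha, hcs, h⟩

end BPowAux

open BPowAux in
theorem exists_powDet (w : FreeGroup (Fin m)) (hw : w ≠ 1) (k : Fin 3 → ℤ)
    (hk : Function.Injective k) (hk0 : ∀ i, k i ≠ 0) : ∃ p : Par m, powDet p w k ≠ 0 := by
  obtain ⟨p0, hp0⟩ := exists_wR_ne w hw
  obtain ⟨a0, c0, s0, ha0, hcs0, hr0⟩ := exists_rot' (wR_mem p0 w)
  have hc0 : c0 < 1 := by
    have h1 : c0 ≤ 1 := by nlinarith [sq_nonneg s0, sq_nonneg (c0 - 1)]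
    rcases h1.lt_or_eq with h | h
    · exact h
    · exfalso
      have h2 : s0 = 0 := by
        have : s0 ^ 2 = 0 := by rw [h] at hcs0; linarith
        exact pow_eq_zero_iff (two_ne_zero) |>.1 this
      rw [h, h2, rot_one_zero] at hr0
      exact hp0 hr0
  have hc0' : -1 ≤ c0 := by nlinarith [sq_nonneg s0, sq_nonneg (c0 + 1)]
  obtain ⟨θ, ⟨hθ0, hθ1⟩, hθ⟩ := exists_theta k hk hk0 (Real.arccos_pos.2 hc0)
  have hθπ : θ < Real.pi := lt_of_lt_of_le hθ1 (Real.arccos_le_pi _)
  have hsin : 0 < Real.sin θ := Real.sin_pos_of_pos_of_lt_pi hθ0 hθπ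
  have hcos : c0 ≤ Real.cos θ := by
    have h1 := Real.cos_le_cos_of_nonneg_of_le_pi hθ0.le (Real.arccos_le_pi _) hθ1.le
    rwa [Real.cos_arccos hc0' hc0.le] at h1
  -- the path
  obtain ⟨P, hP⟩ : ∃ P : ℝ → Par m, P = fun t => (t • p0.1, p0.2.1, p0.2.2) := ⟨_, rfl⟩
  have hPc : Continuous P := by rw [hP]; fun_prop
  have hT : Continuous fun t : ℝ => (wR (P t) w).trace := by
    have h1 : ∀ i j, Continuous fun t : ℝ => wR (P t) w i j := fun i j => by
      have h2 := (analytic_wR w i j (m := m)).continuousOn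
      rw [continuousOn_univ] at h2
      exact h2.comp hPc
    have h3 : (fun t : ℝ => (wR (P t) w).trace) =
        fun t => wR (P t) w 0 0 + wR (P t) w 1 1 + wR (P t) w 2 2 := by
      funext t
      rw [Matrix.trace_fin_three]
    rw [h3]
    exact ((h1 0 0).add (h1 1 1)).add (h1 2 2)
  have hT0 : (wR (P 0) w).trace = 3 := by
    have h1 : wR (P 0) w = 1 := by
      unfold wR
      apply lR_zero
      rw [hP]
      simp
    rw [h1]
    simp
  have hT1 : (wR (P 1) w).trace = 1 + 2 * c0 := by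
    have h1 : P 1 = p0 := by
      rw [hP]
      simp
    rw [h1, hr0, trace_rot ha0]
  obtain ⟨t, ht, hTt⟩ : (1 + 2 * Real.cos θ) ∈ (fun t : ℝ => (wR (P t) w).trace) '' Set.Icc 0 1 := by
    apply intermediate_value_Icc' zero_le_one hT.continuousOn
    rw [hT0, hT1]
    constructor
    · linarith
    · linarith [Real.cos_le_one θ]
  simp only at hTt
  obtain ⟨a, c, s, ha, hcs, hr⟩ := exists_rot' (wR_mem (P t) w)
  have hc : c = Real.cos θ := by
    rw [hr, trace_rot ha] at hTt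
    linarith
  refine ⟨P t, ?_⟩
  have hs : s = Real.sin θ ∨ s = -Real.sin θ := by
    have h1 : s ^ 2 = Real.sin θ ^ 2 := by
      have := Real.sin_sq_add_cos_sq θ
      rw [hc] at hcs
      linarith
    exact sq_eq_sq_iff_eq_or_eq_neg.1 h1
  rcases hs with hs | hs
  · rw [hc, hs] at hr
    rw [powDet_rot ha hr]
    exact mul_ne_zero (mul_ne_zero (by norm_num) hsin.ne') hθ
  · have hr' : wR (P t) w = rot a (Real.cos (-θ)) (Real.sin (-θ)) := by
      rw [Real.cos_neg, Real.sin_neg, ← hc, ← hs]; exact hr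
    rw [powDet_rot ha hr']
    refine mul_ne_zero (mul_ne_zero (by norm_num) ?_) ?_
    · rw [Real.sin_neg]; exact neg_ne_zero.2 hsin.ne'
    · intro h0
      apply hθ
      rw [Matrix.det_fin_three] at h0 ⊢
      simp only [Matrix.of_apply, Matrix.cons_val_zero, Matrix.cons_val_one, Matrix.cons_val,
        mul_neg, Real.cos_neg, Real.sin_neg] at h0 ⊢
      linarith

end Pool.Agent.CBT
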