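import Pool.Agent.Lib.CBT.BFree
import Pool.Agent.Lib.CBT.BRot

/-!
# CBT.BTr : some parameter has nonzero pitch

Fix a parameter `p0` with `wR p0 w ≠ 1` (`exists_wR_ne`), `ω = p0.1`.  Path `p t = (t ω_i, τ_i(t), 0)` with
`τ_i(t) = (2/(1 + t² |ω_i|²)) ω_i`.
* `cay_deriv`: `d/dt cay (t v) = sk ((2/(1+t²|v|²)) v) * cay (t v)` (entrywise rational identity; `HasDerivAt` for each entry or for
  the matrix valued function; with `K = sk v`, `K³ = -|v|² K`).  For `cay (-(t v))`: `d/dt = - sk (..) * cay (-(t v))`, and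
  `sk τ` commutes with `cay (-(t v))`, so it equals `sk (-(cay (-(t v)) *ᵥ τ)) * cay (-(t v))` because `cay (-(t v)) v = v`.
* induction on the list: `d/dt lR (p t) L = sk (lT (p t) L) * lR (p t) L`: derivative of a product
  `(sk τ) R R' + R (sk t') R' = sk (R t' + τ) (R R')` (`so3_sk`).
* trace: `(sk t * A).trace = - (axl A ⬝ᵥ t)` (entrywise).  If `axl (wR p w) ⬝ᵥ wT p w = 0` for all `p` then the trace of
  `wR (p t) w` has derivative zero, so it is constant: `3` at `t = 0` (`cay 0 = 1`), hence trace `3` at `t = 1`: but a rotation with trace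
  `3` is the identity (`exists_axis`, `exists_rot`, `trace_rot`: `c = 1`, `s = 0`), contradiction.
-/

set_option autoImplicit false

namespace Pool.Agent.CBT

open Matrix

/-- the path of parameters -/
noncomputable def ppath {m : ℕ} (p : Par m) (t : ℝ) : Par m :=
  (fun i => t • p.1 i, fun i => (2 / (1 + t ^ 2 * ‖p.1 i‖ ^ 2)) • p.1 i, 0)

theorem skew_smul (s : ℝ) (v : E3) : skew (s • v) = s • skew v := by
  ext i j
  fin_cases i <;> fin_cases j <;> simp [skew]

theorem skew_eq_sk (v : E3) : skew v = sk v.ofLp := rfl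

theorem sk_add (a b : V3) : sk (a + b) = sk a + sk b := by
  ext i j
  fin_cases i <;> fin_cases j <;> simp [sk] <;> ring

theorem sk_smul (s : ℝ) (a : V3) : sk (s • a) = s • sk a := by
  ext i j
  fin_cases i <;> fin_cases j <;> simp [sk]

theorem norm_sq_eq3 (v : E3) : ‖v‖ ^ 2 = v 0 ^ 2 + v 1 ^ 2 + v 2 ^ 2 := by
  rw [EuclideanSpace.norm_sq_eq, Fin.sum_univ_three]
  simp

theorem skew_cube (v : E3) : skew v * skew v * skew v = -(‖v‖ ^ 2 • skew v) := by
  rw [norm_sq_eq3]
  ext i j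
  fin_cases i <;> fin_cases j <;> simp [skew, Matrix.mul_apply, Fin.sum_univ_three] <;> ring

theorem cay_smul_eq (s : ℝ) (v : E3) : cay (s • v) =
    1 + (2 / (1 + s ^ 2 * ‖v‖ ^ 2)) • (s • skew v + s ^ 2 • (skew v * skew v)) := by
  unfold cay
  rw [skew_smul, norm_smul, mul_pow, Real.norm_eq_abs, sq_abs, smul_mul_smul_comm, pow_two s]

theorem cay_smul_apply (s : ℝ) (v : E3) (i j : Fin 3) : cay (s • v) i j =
    (1 : M3) i j + (2 / (1 + s ^ 2 * ‖v‖ ^ 2)) * (s * skew v i j + s ^ 2 * (skew v * skew v) i j) := by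
  rw [cay_smul_eq]
  simp only [Matrix.add_apply, Matrix.smul_apply, smul_eq_mul]

theorem hasDerivAt_cay (v : E3) (t : ℝ) (i j : Fin 3) :
    HasDerivAt (fun s : ℝ => cay (s • v) i j)
      ((sk ((2 / (1 + t ^ 2 * ‖v‖ ^ 2)) • v.ofLp) * cay (t • v)) i j) t := by
  have hpos : 0 < 1 + t ^ 2 * ‖v‖ ^ 2 := by positivity
  have e1 : (sk ((2 / (1 + t ^ 2 * ‖v‖ ^ 2)) • v.ofLp) * cay (t • v)) i j =
      (2 / (1 + t ^ 2 * ‖v‖ ^ 2) - (2 / (1 + t ^ 2 * ‖v‖ ^ 2)) ^ 2 * t ^ 2 * ‖v‖ ^ 2) * skew v i j +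
        (2 / (1 + t ^ 2 * ‖v‖ ^ 2)) ^ 2 * t * (skew v * skew v) i j := by
    set c := 2 / (1 + t ^ 2 * ‖v‖ ^ 2) with hc
    have : sk (c • v.ofLp) * cay (t • v) =
        (c - c ^ 2 * t ^ 2 * ‖v‖ ^ 2) • skew v + (c ^ 2 * t) • (skew v * skew v) := by
      rw [cay_smul_eq, ← hc, sk_smul, ← skew_eq_sk]
      simp only [mul_add, mul_one, smul_mul_assoc, mul_smul_comm, smul_add, smul_smul,
        ← mul_assoc]
      rw [skew_cube]
      module
    rw [this]
    simp [Matrix.add_apply, Matrix.smul_apply]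
  rw [e1]
  have h1 : HasDerivAt (fun s : ℝ => 1 + s ^ 2 * ‖v‖ ^ 2) (2 * t * ‖v‖ ^ 2) t := by
    have := ((hasDerivAt_pow 2 t).mul_const (‖v‖ ^ 2)).const_add 1
    simpa using this
  have h2 : HasDerivAt (fun s : ℝ => 2 / (1 + s ^ 2 * ‖v‖ ^ 2))
      (-(2 * (2 * t * ‖v‖ ^ 2)) / (1 + t ^ 2 * ‖v‖ ^ 2) ^ 2) t := by
    have := (hasDerivAt_const t (2 : ℝ)).fun_div h1 hpos.ne'
    simpa using this
  have h3 : HasDerivAt (fun s : ℝ => s * skew v i j + s ^ 2 * (skew v * skew v) i j)
      (skew v i j + 2 * t * (skew v * skew v) i j) t := by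
    have := ((hasDerivAt_id t).mul_const (skew v i j)).fun_add
      ((hasDerivAt_pow 2 t).mul_const ((skew v * skew v) i j))
    simpa using this
  have h4 := (h2.mul h3).const_add ((1 : M3) i j)
  refine (h4.congr_deriv ?_).congr_of_eventuallyEq (Filter.Eventually.of_forall fun s => ?_)
  · field_simp
    ring
  · exact cay_smul_apply s v i j

theorem cay_smul_mulVec (s : ℝ) (v : E3) : cay (s • v) *ᵥ v.ofLp = v.ofLp := by
  have h0 : skew v *ᵥ v.ofLp = 0 := by
    rw [skew_eq_sk, sk_mulVec]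
    simp
  rw [cay_smul_eq, Matrix.add_mulVec, Matrix.one_mulVec, Matrix.smul_mulVec, Matrix.add_mulVec,
    Matrix.smul_mulVec, Matrix.smul_mulVec, ← Matrix.mulVec_mulVec, h0]
  simp

theorem letR_mem {m : ℕ} (p : Par m) (l : Fin m × Bool) : letR p l ∈ SO3 := cay_mem _

theorem hasDerivAt_letR {m : ℕ} (p : Par m) (l : Fin m × Bool) (t : ℝ) (i j : Fin 3) :
    HasDerivAt (fun s : ℝ => letR (ppath p s) l i j)
      ((sk (letT (ppath p t) l) * letR (ppath p t) l) i j) t := by
  obtain ⟨k, b⟩ := l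
  cases b
  · -- inverse letter
    have e1 : ∀ s : ℝ, letR (ppath p s) (k, false) = cay ((-s) • p.1 k) := by
      intro s
      simp [letR, ppath]
    have e2 : letT (ppath p t) (k, false) = -((2 / (1 + t ^ 2 * ‖p.1 k‖ ^ 2)) • (p.1 k).ofLp) := by
      have : letT (ppath p t) (k, false) =
          -(letR (ppath p t) (k, false) *ᵥ ((2 / (1 + t ^ 2 * ‖p.1 k‖ ^ 2)) • (p.1 k).ofLp)) := by
        simp [letT, ppath]
      rw [this, e1, Matrix.mulVec_smul, cay_smul_mulVec]
    have h1 := (hasDerivAt_cay (p.1 k) (-t) i j).scomp t (hasDerivAt_neg t)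
    refine (h1.congr_deriv ?_).congr_of_eventuallyEq (Filter.Eventually.of_forall fun s => ?_)
    · rw [e1, e2, show -((2 / (1 + t ^ 2 * ‖p.1 k‖ ^ 2)) • (p.1 k).ofLp) =
        (-1 : ℝ) • ((2 / (1 + t ^ 2 * ‖p.1 k‖ ^ 2)) • (p.1 k).ofLp) by simp, sk_smul (-1 : ℝ)]
      simp
    · simp [Function.comp, e1]
  · have e1 : ∀ s : ℝ, letR (ppath p s) (k, true) = cay (s • p.1 k) := by
      intro s
      simp [letR, ppath]
    have e2 : letT (ppath p t) (k, true) = (2 / (1 + t ^ 2 * ‖p.1 k‖ ^ 2)) • (p.1 k).ofLp := by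
      simp [letT, ppath]
    have h1 := hasDerivAt_cay (p.1 k) t i j
    refine (h1.congr_deriv ?_).congr_of_eventuallyEq (Filter.Eventually.of_forall fun s => ?_)
    · rw [e1, e2]
    · simp [e1]

theorem hasDerivAt_lR {m : ℕ} (p : Par m) (L : List (Fin m × Bool)) (t : ℝ) (i j : Fin 3) :
    HasDerivAt (fun s : ℝ => lR (ppath p s) L i j)
      ((sk (lT (ppath p t) L) * lR (ppath p t) L) i j) t := by
  induction L generalizing i j with
  | nil =>
    have h0 : sk (0 : V3) = 0 := by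
      ext i j
      fin_cases i <;> fin_cases j <;> simp [sk]
    simp only [lR, lT, h0, zero_mul, Matrix.zero_apply]
    exact hasDerivAt_const t _
  | cons l L ih =>
    simp only [lR, lT]
    have h1 : HasDerivAt (fun s : ℝ => ∑ k, letR (ppath p s) l i k * lR (ppath p s) L k j)
        (∑ k, ((sk (letT (ppath p t) l) * letR (ppath p t) l) i k * lR (ppath p t) L k j +
          letR (ppath p t) l i k * (sk (lT (ppath p t) L) * lR (ppath p t) L) k j)) t :=
      HasDerivAt.fun_sum fun k _ => (hasDerivAt_letR p l t i k).mul (ih k j)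
    refine (h1.congr_deriv ?_).congr_of_eventuallyEq (Filter.Eventually.of_forall fun s => ?_)
    · rw [Finset.sum_add_distrib, ← Matrix.mul_apply, ← Matrix.mul_apply, ← Matrix.add_apply]
      rw [sk_add, add_mul, ← mul_assoc, ← mul_assoc, so3_sk (letR_mem _ _), ← mul_assoc, add_comm]
    · simp [Matrix.mul_apply]

theorem trace_sk_mul (v : V3) (A : M3) : (sk v * A).trace = -(axl A ⬝ᵥ v) := by
  rw [Matrix.trace_fin_three, Matrix.mul_apply, Matrix.mul_apply, Matrix.mul_apply]
  simp only [Fin.sum_univ_three, sk, axl, dotProduct, Matrix.of_apply, Matrix.cons_val]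
  ring

theorem trace_eq_three {A : M3} (hA : A ∈ SO3) (h : A.trace = 3) : A = 1 := by
  obtain ⟨a, ha, haA⟩ := exists_axis hA
  obtain ⟨c, s, hcs, hrot⟩ := exists_rot hA ha haA
  rw [hrot, trace_rot ha] at h
  have hc : c = 1 := by linarith
  have hs : s = 0 := by
    rw [hc] at hcs
    have : s ^ 2 = 0 := by linarith
    exact pow_eq_zero_iff (two_ne_zero) |>.1 this
  rw [hrot, hc, hs, rot_one_zero]

theorem exists_pitch {m : ℕ} (w : FreeGroup (Fin m)) (hw : w ≠ 1) :
    ∃ p : Par m, axl (wR p w) ⬝ᵥ wT p w ≠ 0 := by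
  by_contra hcon
  push Not at hcon
  obtain ⟨p, hp⟩ := exists_wR_ne w hw
  have hd : ∀ t : ℝ, HasDerivAt (fun s : ℝ => (wR (ppath p s) w).trace) 0 t := by
    intro t
    have h1 : HasDerivAt (fun s : ℝ => ∑ i, lR (ppath p s) w.toWord i i)
        (∑ i, (sk (lT (ppath p t) w.toWord) * lR (ppath p t) w.toWord) i i) t :=
      HasDerivAt.fun_sum fun i _ => hasDerivAt_lR p w.toWord t i i
    have h2 : (∑ i, (sk (lT (ppath p t) w.toWord) * lR (ppath p t) w.toWord) i i) = 0 := by
      have h3 := trace_sk_mul (lT (ppath p t) w.toWord) (lR (ppath p t) w.toWord)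
      have h4 := hcon (ppath p t)
      unfold wR wT at h4
      rw [h4, neg_zero] at h3
      exact h3
    rw [h2] at h1
    exact h1
  have hconst : (wR (ppath p 1) w).trace = (wR (ppath p 0) w).trace := by
    have := is_const_of_deriv_eq_zero (f := fun s : ℝ => (wR (ppath p s) w).trace)
      (fun t => (hd t).differentiableAt) (fun t => (hd t).deriv) 1 0
    exact this
  have h0 : wR (ppath p 0) w = 1 := by
    unfold wR
    have : ∀ L : List (Fin m × Bool), lR (ppath p 0) L = 1 := by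
      intro L
      induction L with
      | nil => rfl
      | cons l L ih =>
        rw [lR, ih, mul_one]
        obtain ⟨k, b⟩ := l
        cases b <;> simp [letR, ppath, cay_zero]
    exact this _
  have h1 : wR (ppath p 1) w = wR p w := wR_congr (by
    funext i
    simp [ppath]) w
  rw [h1, h0] at hconst
  apply hp
  apply trace_eq_three (wR_mem p w)
  rw [hconst]
  simp [Matrix.trace_one]

end Pool.Agent.CBT
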