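import Pool.Agent.Lib.CBT.BC3
import Pool.Agent.Lib.CBT.BC4
import Pool.Agent.Lib.CBT.BCyc
import Pool.Agent.Lib.CBT.BTr
import Pool.Agent.Lib.CBT.BPow

/-!
# CBT.BGen : generic parameters are dense

`exists_generic` for the countable family of the functions of `Gen` (index type: a sum/sigma of countable types, functions with
side conditions are replaced by the constant `1` when the side condition fails, or index by subtypes).  Each function is nonzero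
somewhere:
* f3: faithful `p0` (`exists_faithful`), `bc3` for `A = wR p0 a`, `B = wR p0 b` (`A = B` iff `wR p0 (a⁻¹ b) = 1`; `B * B = wR p0 (b * b)`,
  `free_sq`), `p = (p0.1, p0.2.1, n)`, `wR_congr`.
* f4: `bc4` with `r = wR p0` as a monoid homomorphism (`wR_one`, `wR_mul`), `free_sq`.
* f5: `exists_pitch`.  f6: `n = axl (wR p0 w)`, nonzero because `wR p0 w = rot a c s` with `s ≠ 0` (otherwise `c = ±1` and
  `wR p0 (w * w) = 1`), `axl_rot`.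
* f7: `exists_powDet`.
-/

set_option autoImplicit false

namespace Pool.Agent.CBT

open Matrix

namespace BGenAux

variable {m : ℕ}

theorem countable_free (m : ℕ) : Countable (FreeGroup (Fin m)) :=
  Function.Injective.countable (FreeGroup.toWord_injective (α := Fin m))

/-- the parameter with the same motions and another direction -/
def setN (p : Par m) (n : V3) : Par m := (p.1, p.2.1, WithLp.toLp 2 n)

theorem wR_setN (p : Par m) (n : V3) (w : FreeGroup (Fin m)) : wR (setN p n) w = wR p w :=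
  wR_congr (p := setN p n) (q := p) rfl w

theorem wR_inj {p : Par m} (hp : ∀ w : FreeGroup (Fin m), w ≠ 1 → wR p w ≠ 1)
    {a b : FreeGroup (Fin m)} (hab : a ≠ b) : wR p a ≠ wR p b := by
  intro h
  have h1 : a⁻¹ * b ≠ 1 := by
    intro h2
    exact hab (inv_mul_eq_one.1 h2)
  apply hp _ h1
  rw [wR_mul, ← h, ← wR_mul, inv_mul_cancel, wR_one]

theorem wR_sq {p : Par m} (hp : ∀ w : FreeGroup (Fin m), w ≠ 1 → wR p w ≠ 1)
    {b : FreeGroup (Fin m)} (hb : b ≠ 1) : wR p b * wR p b ≠ 1 := by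
  rw [← wR_mul]
  exact hp _ fun h => hb (free_sq b h)

theorem ex3 {a b : FreeGroup (Fin m)} (ha : a ≠ 1) (hb : b ≠ 1) (hab : a ≠ b) :
    ∃ p : Par m, det3 p.2.2.ofLp (wR p a *ᵥ p.2.2.ofLp) (wR p b *ᵥ p.2.2.ofLp) ≠ 0 := by
  obtain ⟨p0, hp0⟩ := exists_faithful m
  obtain ⟨n, hn⟩ := bc3 (wR_mem p0 a) (wR_mem p0 b) (hp0 a ha) (hp0 b hb) (wR_inj hp0 hab)
    (wR_sq hp0 hb)
  refine ⟨setN p0 n, ?_⟩
  rw [wR_setN, wR_setN]
  exact hn

theorem ex4 {a b c : FreeGroup (Fin m)} (ha : a ≠ 1) (hb : b ≠ 1) (hc : c ≠ 1) (hab : a ≠ b)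
    (hac : a ≠ c) (hbc : b ≠ c) (hcom : ¬ (Commute a b ∧ Commute a c ∧ Commute b c)) :
    ∃ p : Par m, det3 (wR p a *ᵥ p.2.2.ofLp - p.2.2.ofLp) (wR p b *ᵥ p.2.2.ofLp - p.2.2.ofLp)
      (wR p c *ᵥ p.2.2.ofLp - p.2.2.ofLp) ≠ 0 := by
  obtain ⟨p0, hp0⟩ := exists_faithful m
  let r : FreeGroup (Fin m) →* M3 :=
    { toFun := wR p0
      map_one' := wR_one p0
      map_mul' := wR_mul p0 }
  obtain ⟨n, hn⟩ := bc4 free_sq r (fun g => wR_mem p0 g) hp0 ha hb hc hab hac hbc hcom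
  refine ⟨setN p0 n, ?_⟩
  rw [wR_setN, wR_setN, wR_setN]
  exact hn

theorem ex6 {w : FreeGroup (Fin m)} (hw : w ≠ 1) :
    ∃ p : Par m, axl (wR p w) ⬝ᵥ p.2.2.ofLp ≠ 0 := by
  obtain ⟨p0, hp0⟩ := exists_faithful m
  refine ⟨setN p0 (axl (wR p0 w)), ?_⟩
  rw [wR_setN]
  show axl (wR p0 w) ⬝ᵥ axl (wR p0 w) ≠ 0
  obtain ⟨a, ha, hAa⟩ := exists_axis (wR_mem p0 w)
  obtain ⟨c, s, hcs, hA⟩ := exists_rot (wR_mem p0 w) ha hAa
  have hs : s ≠ 0 := by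
    rintro rfl
    apply wR_sq hp0 hw
    rw [hA, rot_mul ha]
    have h1 : c * c - 0 * 0 = 1 := by nlinarith
    have h2 : 0 * c + c * 0 = (0 : ℝ) := by ring
    rw [h1, h2, rot_one_zero]
  rw [hA, axl_rot, smul_dotProduct, dotProduct_smul, ha]
  simp only [smul_eq_mul, mul_one]
  positivity

/-- index type of the third condition -/
abbrev I3 (m : ℕ) := {x : FreeGroup (Fin m) × FreeGroup (Fin m) // x.1 ≠ 1 ∧ x.2 ≠ 1 ∧ x.1 ≠ x.2}

/-- index type of the fourth condition -/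
abbrev I4 (m : ℕ) := {x : FreeGroup (Fin m) × FreeGroup (Fin m) × FreeGroup (Fin m) //
  x.1 ≠ 1 ∧ x.2.1 ≠ 1 ∧ x.2.2 ≠ 1 ∧ x.1 ≠ x.2.1 ∧ x.1 ≠ x.2.2 ∧ x.2.1 ≠ x.2.2 ∧
    ¬ (Commute x.1 x.2.1 ∧ Commute x.1 x.2.2 ∧ Commute x.2.1 x.2.2)}

/-- index type of the fifth and sixth condition -/
abbrev I5 (m : ℕ) := {w : FreeGroup (Fin m) // w ≠ 1}

/-- index type of the seventh condition -/
abbrev I7 (m : ℕ) := {x : FreeGroup (Fin m) × (Fin 3 → ℤ) //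
  x.1 ≠ 1 ∧ Function.Injective x.2 ∧ ∀ i, x.2 i ≠ 0}

/-- the family of functions -/
noncomputable def fam (m : ℕ) : (I3 m ⊕ I4 m) ⊕ ((I5 m ⊕ I5 m) ⊕ I7 m) → Par m → ℝ :=
  Sum.elim (Sum.elim
    (fun x p => det3 p.2.2.ofLp (wR p x.1.1 *ᵥ p.2.2.ofLp) (wR p x.1.2 *ᵥ p.2.2.ofLp))
    (fun x p => det3 (wR p x.1.1 *ᵥ p.2.2.ofLp - p.2.2.ofLp)
      (wR p x.1.2.1 *ᵥ p.2.2.ofLp - p.2.2.ofLp) (wR p x.1.2.2 *ᵥ p.2.2.ofLp - p.2.2.ofLp)))
    (Sum.elim (Sum.elim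
      (fun x p => axl (wR p x.1) ⬝ᵥ wT p x.1)
      (fun x p => axl (wR p x.1) ⬝ᵥ p.2.2.ofLp))
      (fun x p => powDet p x.1.1 x.1.2))

end BGenAux

open BGenAux in
theorem exists_gen {m : ℕ} {U : Set (Par m)} (hU : IsOpen U) (hne : U.Nonempty) :
    ∃ p ∈ U, Gen p := by
  have := countable_free m
  have hF : ∀ i, AnalyticOnNhd ℝ (fam m i) Set.univ := by
    rintro ((x | x) | ((x | x) | x))
    · exact analytic_f3 x.1.1 x.1.2
    · exact analytic_f4 x.1.1 x.1.2.1 x.1.2.2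
    · exact analytic_f5 x.1
    · exact analytic_f6 x.1
    · exact analytic_powDet x.1.1 x.1.2
  have hN : ∀ i, ∃ p, fam m i p ≠ 0 := by
    rintro ((⟨x, h1, h2, h3⟩ | ⟨x, h1, h2, h3, h4, h5, h6, h7⟩) | ((x | x) | ⟨x, h1, h2, h3⟩))
    · exact ex3 h1 h2 h3
    · exact ex4 h1 h2 h3 h4 h5 h6 h7
    · exact exists_pitch x.1 x.2
    · exact ex6 x.2
    · exact exists_powDet x.1 h1 x.2 h2 h3
  obtain ⟨p, hpU, hp⟩ := exists_generic (fam m) hF hN hU hne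
  refine ⟨p, hpU, ⟨?_, ?_, ?_, ?_, ?_⟩⟩
  · intro a b ha hb hab
    exact hp (Sum.inl (Sum.inl ⟨(a, b), ha, hb, hab⟩))
  · intro a b c ha hb hc hab hac hbc hcom
    exact hp (Sum.inl (Sum.inr ⟨(a, b, c), ha, hb, hc, hab, hac, hbc, hcom⟩))
  · intro w hw
    exact hp (Sum.inr (Sum.inl (Sum.inl ⟨w, hw⟩)))
  · intro w hw
    exact hp (Sum.inr (Sum.inl (Sum.inr ⟨w, hw⟩)))
  · intro w k hw hk hk0
    exact hp (Sum.inr (Sum.inr ⟨(w, k), hw, hk, hk0⟩))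

end Pool.Agent.CBT
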