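import Pool.Agent.Lib.CBT.CDefs

/-!
# CBT.CBall : connected finite sets

For a symmetric relation `r` and a finite set `F` define the balls `B 0 = {c}`, `B (k+1) = B k ∪ {y ∈ F | ∃ x ∈ B k, r x y}`.
If `F` is `ConnFin r` and `B k ≠ F` then `B (k+1) ≠ B k`, so `|B k| ≥ min (k+1) |F|`.

* `hall_of_conn`: if the Hall inequality holds for all nonempty `ConnFin` sets, it holds for all: take a violator `F` of minimal
  cardinality; if it splits as `F' ∪ (F \ F')` with no common neighbours at all (`adj`), then
  `nb F = nb F' ∪ nb (F \ F')` is a disjoint union and one of the parts violates.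
* `dist_conn`: `B (|F| - 1) = F`; each step is a word `(ltr e j)⁻¹ * ltr e i` of norm at most 2.
* `cover_conn`: `C` = a maximal subset of `F` such that the balls `B D (c)`, `c ∈ C`, are pairwise disjoint.  Every `x ∈ F` has
  `B D (x) ∩ B D (c) ≠ ∅` for some `c ∈ C`, hence `x ∈ B (2D) (c)` (symmetry), so `x = ρ w c` with `norm w ≤ 4D`.  Disjoint balls:
  `|C| * min (D+1) |F| ≤ |F|`, so `|C| (D+1) ≤ |F| + (D+1)`.
-/

set_option autoImplicit false

namespace Pool.Agent.CBT

open Set

namespace CBallAux

open Classical in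
/-- The balls of the graph `r` on `F` about `c`. -/
noncomputable def bl (r : E3 → E3 → Prop) (F : Finset E3) (c : E3) : ℕ → Finset E3
  | 0 => {c}
  | k + 1 => bl r F c k ∪ F.filter (fun y => ∃ x ∈ bl r F c k, r x y)

theorem bl_sub {r : E3 → E3 → Prop} {F : Finset E3} {c : E3} (hc : c ∈ F) (k : ℕ) :
    bl r F c k ⊆ F := by
  classical
  induction k with
  | zero =>
    intro x hx
    rw [bl, Finset.mem_singleton] at hx
    rw [hx]; exact hc
  | succ k ih =>
    intro x hx
    rw [bl, Finset.mem_union, Finset.mem_filter] at hx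
    rcases hx with hx | hx
    · exact ih hx
    · exact hx.1

theorem mem_bl {r : E3 → E3 → Prop} {F : Finset E3} {c : E3} (k : ℕ) : c ∈ bl r F c k := by
  classical
  induction k with
  | zero => rw [bl]; exact Finset.mem_singleton_self c
  | succ k ih => rw [bl]; exact Finset.mem_union_left _ ih

theorem card_bl {r : E3 → E3 → Prop} {F : Finset E3} {c : E3} (hF : ConnFin r F) (hc : c ∈ F)
    (k : ℕ) : min (k + 1) F.card ≤ (bl r F c k).card := by
  classical
  induction k with
  | zero =>
    rw [bl, Finset.card_singleton]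
    exact min_le_left _ _
  | succ k ih =>
    by_cases hk : bl r F c k = F
    · have h1 : (bl r F c k).card ≤ (bl r F c (k + 1)).card := by
        apply Finset.card_le_card
        rw [bl]; exact Finset.subset_union_left
      rw [hk] at h1
      exact le_trans (min_le_right _ _) h1
    · obtain ⟨x, hx, y, hyF, hy, hxy⟩ := hF (bl r F c k) (bl_sub hc k) ⟨c, mem_bl k⟩ hk
      have h1 : (bl r F c k).card < (bl r F c (k + 1)).card := by
        apply Finset.card_lt_card
        rw [Finset.ssubset_iff_subset_ne]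
        constructor
        · rw [bl]; exact Finset.subset_union_left
        · intro he
          apply hy
          rw [he, bl, Finset.mem_union, Finset.mem_filter]
          exact Or.inr ⟨hyF, x, hx, hxy⟩
      omega

theorem norm_ltr {m : ℕ} (e : Bool) (i : Fin m) : (ltr e i).norm ≤ 1 := by
  unfold ltr
  split_ifs
  · exact le_of_eq (FreeGroup.norm_of i)
  · rw [FreeGroup.norm_inv_eq]; exact le_of_eq (FreeGroup.norm_of i)

theorem word_bl {m : ℕ} {ρ : FreeGroup (Fin m) →* Iso} {e : Bool} {F : Finset E3} {c : E3}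
    (k : ℕ) : ∀ y ∈ bl (adj ρ e) F c k, ∃ w : FreeGroup (Fin m), w.norm ≤ 2 * k ∧ y = ρ w c := by
  classical
  induction k with
  | zero =>
    intro y hy
    rw [bl, Finset.mem_singleton] at hy
    exact ⟨1, by simp, by simp [hy]⟩
  | succ k ih =>
    intro y hy
    rw [bl, Finset.mem_union, Finset.mem_filter] at hy
    rcases hy with hy | ⟨_, x, hx, i, j, hij⟩
    · obtain ⟨w, hw, hy⟩ := ih y hy
      exact ⟨w, by omega, hy⟩
    · obtain ⟨w, hw, rfl⟩ := ih x hx
      refine ⟨(ltr e j)⁻¹ * ltr e i * w, ?_, ?_⟩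
      · have h1 := FreeGroup.norm_mul_le ((ltr e j)⁻¹ * ltr e i) w
        have h2 := FreeGroup.norm_mul_le ((ltr e j)⁻¹) (ltr e i)
        have h3 : ((ltr e j)⁻¹).norm ≤ 1 := by rw [FreeGroup.norm_inv_eq]; exact norm_ltr e j
        have h4 := norm_ltr e i
        omega
      · have h1 : (ρ (ltr e j))⁻¹ (ρ (ltr e i) (ρ w c)) = y := by
          rw [hij]
          exact (ρ (ltr e j)).symm_apply_apply y
        rw [← h1, map_mul, map_mul, map_inv]
        rfl

end CBallAux

theorem hall_of_conn {m : ℕ} (ρ : FreeGroup (Fin m) →* Iso) (e : Bool) (P Q : Set E3)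
    (h : ∀ F : Finset E3, (∀ x ∈ F, x ∈ P) → F.Nonempty → ConnFin (adj ρ e) F → F.card ≤ (nb ρ e Q F).card) :
    HallC ρ e P Q := by
  classical
  intro F
  induction F using Finset.strongInduction with
  | H F ih =>
    intro hF
    rcases F.eq_empty_or_nonempty with rfl | hne
    · simp
    by_cases hc : ConnFin (adj ρ e) F
    · exact h F hF hne hc
    · unfold ConnFin at hc
      push Not at hc
      obtain ⟨F', hF', hne', hneq, hno⟩ := hc
      have h1 : F' ⊂ F := Finset.ssubset_iff_subset_ne.2 ⟨hF', hneq⟩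
      have h2 : F \ F' ⊂ F := by
        rw [Finset.ssubset_iff_subset_ne]
        refine ⟨Finset.sdiff_subset, fun he => ?_⟩
        obtain ⟨x, hx⟩ := hne'
        have : x ∈ F \ F' := by rw [he]; exact hF' hx
        exact (Finset.mem_sdiff.1 this).2 hx
      have i1 := ih F' h1 (fun x hx => hF x (hF' hx))
      have i2 := ih (F \ F') h2 (fun x hx => hF x (Finset.mem_sdiff.1 hx).1)
      have hcard : F.card = F'.card + (F \ F').card := by
        rw [Finset.card_sdiff_of_subset hF']
        have := Finset.card_le_card hF'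
        omega
      have hdisj : Disjoint (nb ρ e Q F') (nb ρ e Q (F \ F')) := by
        rw [Finset.disjoint_left]
        intro q hq hq'
        unfold nb at hq hq'
        simp only [Finset.mem_filter, Finset.mem_biUnion, Finset.mem_image, Finset.mem_univ,
          true_and] at hq hq'
        obtain ⟨⟨x, hx, i, hxi⟩, _⟩ := hq
        obtain ⟨⟨y, hy, j, hyj⟩, _⟩ := hq'
        exact hno x hx y (Finset.mem_sdiff.1 hy).1 (Finset.mem_sdiff.1 hy).2
          ⟨i, j, hxi.trans hyj.symm⟩
      have hsub : nb ρ e Q F' ∪ nb ρ e Q (F \ F') ⊆ nb ρ e Q F := by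
        intro q hq
        unfold nb at hq ⊢
        simp only [Finset.mem_union, Finset.mem_filter, Finset.mem_biUnion, Finset.mem_image,
          Finset.mem_univ, true_and] at hq ⊢
        rcases hq with ⟨⟨x, hx, i, hxi⟩, h3⟩ | ⟨⟨x, hx, i, hxi⟩, h3⟩
        · exact ⟨⟨x, hF' hx, i, hxi⟩, h3⟩
        · exact ⟨⟨x, (Finset.mem_sdiff.1 hx).1, i, hxi⟩, h3⟩
      have h3 := Finset.card_le_card hsub
      rw [Finset.card_union_of_disjoint hdisj] at h3
      omega

open CBallAux in
theorem dist_conn {m : ℕ} {ρ : FreeGroup (Fin m) →* Iso} {e : Bool} {F : Finset E3} (hF : ConnFin (adj ρ e) F)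
    {c x : E3} (hc : c ∈ F) (hx : x ∈ F) :
    ∃ w : FreeGroup (Fin m), w.norm ≤ 2 * (F.card - 1) ∧ x = ρ w c := by
  have hpos : 0 < F.card := Finset.card_pos.2 ⟨c, hc⟩
  have h1 := card_bl hF hc (F.card - 1)
  have h2 : min (F.card - 1 + 1) F.card = F.card := by
    rw [Nat.sub_add_cancel hpos, min_self]
  rw [h2] at h1
  have h3 : bl (adj ρ e) F c (F.card - 1) = F := Finset.eq_of_subset_of_card_le (bl_sub hc _) h1
  exact word_bl (F.card - 1) x (by rw [h3]; exact hx)

open CBallAux in
theorem cover_conn {m : ℕ} {ρ : FreeGroup (Fin m) →* Iso} {e : Bool} {F : Finset E3} (hF : ConnFin (adj ρ e) F)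
    (D : ℕ) : ∃ C ⊆ F, C.card * (D + 1) ≤ F.card + (D + 1) ∧
      ∀ x ∈ F, ∃ c ∈ C, ∃ w : FreeGroup (Fin m), w.norm ≤ 4 * D ∧ x = ρ w c := by
  classical
  -- the families of centres of disjoint balls
  set 𝒞 : Finset (Finset E3) := F.powerset.filter (fun C =>
    ∀ a ∈ C, ∀ b ∈ C, a ≠ b → Disjoint (bl (adj ρ e) F a D) (bl (adj ρ e) F b D)) with h𝒞
  have hne : 𝒞.Nonempty := ⟨∅, by simp [h𝒞]⟩
  obtain ⟨C, hC, hmax⟩ := Finset.exists_max_image 𝒞 Finset.card hne
  rw [h𝒞, Finset.mem_filter, Finset.mem_powerset] at hC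
  obtain ⟨hCF, hdis⟩ := hC
  refine ⟨C, hCF, ?_, ?_⟩
  · have h1 : (C.biUnion (fun a => bl (adj ρ e) F a D)).card =
        ∑ a ∈ C, (bl (adj ρ e) F a D).card :=
      Finset.card_biUnion (fun a ha b hb hab => hdis a ha b hb hab)
    have h2 : (C.biUnion (fun a => bl (adj ρ e) F a D)).card ≤ F.card := by
      apply Finset.card_le_card
      intro x hx
      rw [Finset.mem_biUnion] at hx
      obtain ⟨a, ha, hxa⟩ := hx
      exact bl_sub (hCF ha) D hxa
    have h3 : C.card * min (D + 1) F.card ≤ ∑ a ∈ C, (bl (adj ρ e) F a D).card := by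
      rw [← smul_eq_mul, ← Finset.sum_const]
      exact Finset.sum_le_sum (fun a ha => card_bl hF (hCF ha) D)
    have h4 : C.card * min (D + 1) F.card ≤ F.card := by omega
    rcases le_total (D + 1) F.card with h5 | h5
    · rw [min_eq_left h5] at h4
      omega
    · rw [min_eq_right h5] at h4
      rcases Nat.eq_zero_or_pos F.card with h6 | h6
      · have h7 : C.card = 0 := by
          have := Finset.card_le_card hCF
          omega
        rw [h7]; omega
      · have h7 : C.card ≤ 1 := by
          by_contra hcon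
          push Not at hcon
          have : 2 * F.card ≤ C.card * F.card := Nat.mul_le_mul_right _ hcon
          omega
        have h8 : C.card * (D + 1) ≤ 1 * (D + 1) := Nat.mul_le_mul_right _ h7
        omega
  · intro x hx
    by_cases hxC : x ∈ C
    · exact ⟨x, hxC, 1, by simp, by simp⟩
    · have h1 : ¬ ∀ c ∈ C, Disjoint (bl (adj ρ e) F x D) (bl (adj ρ e) F c D) := by
        intro hall
        have h2 : insert x C ∈ 𝒞 := by
          rw [h𝒞, Finset.mem_filter, Finset.mem_powerset]
          refine ⟨Finset.insert_subset hx hCF, ?_⟩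
          intro a ha b hb hab
          rw [Finset.mem_insert] at ha hb
          rcases ha with rfl | ha
          · rcases hb with rfl | hb
            · exact absurd rfl hab
            · exact hall b hb
          · rcases hb with rfl | hb
            · exact (hall a ha).symm
            · exact hdis a ha b hb hab
        have h3 := hmax _ h2
        rw [Finset.card_insert_of_notMem hxC] at h3
        omega
      push Not at h1
      obtain ⟨c, hc, hnd⟩ := h1
      rw [Finset.not_disjoint_iff] at hnd
      obtain ⟨z, hz1, hz2⟩ := hnd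
      obtain ⟨w₁, hw₁, hz₁⟩ := word_bl D z hz1
      obtain ⟨w₂, hw₂, hz₂⟩ := word_bl D z hz2
      refine ⟨c, hc, w₁⁻¹ * w₂, ?_, ?_⟩
      · have h3 := FreeGroup.norm_mul_le (w₁⁻¹) w₂
        rw [FreeGroup.norm_inv_eq] at h3
        omega
      · rw [map_mul, map_inv]
        have h3 : (ρ w₁)⁻¹ (ρ w₁ x) = x := (ρ w₁).symm_apply_apply x
        rw [← h3, ← hz₁, hz₂]
        rfl

end Pool.Agent.CBT
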