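import Pool.Agent.Lib.CBT.CExpand
import Pool.Agent.Lib.CBT.CBall

/-!
# CBT.CCount : large connected sets expand

Let `F` be a nonempty `ConnFin (adj ρ e)` set of points of `vert v e`, `siz N ≤ |F|` where the slabs used so far are `S k`, `k ≤ N`, with
`Thin ρ R (rad k) (S k)`, `R` a bound for the norms on both sides.  Then `|F| ≤ |nb ρ e (s.R (!e)) F|`.

Proof.  By `dist_conn` `F` is in one orbit, by `expand` (degrees `≥ 3`: `Cover`) `|nb (vert (!e)) F| ≥ 2|F|+1`.  A removed neighbour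
`y ∈ vert (!e) \ s.R (!e)` lies in `s.U (!e) i` for a unique `i`; its partner `x' = ρ (ltr (!e) i) y` lies in `s.U e i`, `y = ρ (ltr e i) x'`, and
`y ∈ S k` or `x' ∈ S k` for some `k < N + 1`.  Fix `k`, put `D + 1 = 24 * 2^k`, `C` from `cover_conn`.  Every `y ∈ nb F` is `ρ w c`, `c ∈ C`,
`norm w ≤ 4D + 1`, and its partner is `ρ w' c`, `norm w' ≤ 4D + 2 ≤ 2 rad k`.  By `Thin` there are at most `3|C|` removed `y ∈ S k`, and at
most `3|C|` points `x' ∈ S k` as above, each is the partner of one `y` (`disj`).  So at most `6|C| ≤ 6 + |F|/(4 * 2^k)` removed points for `k`; the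
sum over `k ≤ N` is at most `6(N+1) + |F|/2`, and `2|F| + 1 - 6(N+1) - |F|/2 ≥ |F|` when `|F| ≥ 12(N+1)`.
The lemma is stated for a bare state with the fields that are used (it will be applied to the NEW state, for which `hall` is not yet
known).
-/

set_option autoImplicit false

namespace Pool.Agent.CBT

open Set

theorem ccount_norm_ltr_le {m : ℕ} (e : Bool) (i : Fin m) : (ltr e i).norm ≤ 1 := by
  unfold ltr
  cases e
  · simp [FreeGroup.norm_inv_eq, FreeGroup.norm_of]
  · simp [FreeGroup.norm_of]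

/-- The degrees of the full graph are at least three. -/
theorem ccount_three_le_deg {m : ℕ} {ρ : FreeGroup (Fin m) →* Iso} {v : E3} (hc : Cover ρ v) (e : Bool) {x : E3}
    (hx : x ∈ vert v e) : 3 ≤ {i : Fin m | ρ (ltr e i) x ∈ vert v (!e)}.ncard := by
  cases e
  · have h := hc.bwd x hx
    have heq : {i : Fin m | ρ (ltr false i) x ∈ vert v (!false)} = {i : Fin m | (ρ (FreeGroup.of i))⁻¹ x ∈ src} := by
      ext i
      simp [ltr, vert]
    rw [heq]; exact h
  · have h := hc.fwd x hx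
    have heq : {i : Fin m | ρ (ltr true i) x ∈ vert v (!true)} = {i : Fin m | ρ (FreeGroup.of i) x ∈ tgt v} := by
      ext i
      simp [ltr, vert]
    rw [heq]; exact h

open Classical in
/-- The arithmetic of the count. -/
theorem ccount_arith (N f : ℕ) (c : ℕ → ℕ) (hc : ∀ k ≤ N, c k * (24 * 2 ^ k) ≤ f + 24 * 2 ^ k) (hf : 12 * (N + 1) ≤ f) :
    ∑ k ∈ Finset.range (N + 1), 6 * c k ≤ f + 1 := by
  have h1 : ∀ k ∈ Finset.range (N + 1), ((6 * c k : ℕ) : ℝ) ≤ 6 + (f : ℝ) / 4 * (1 / 2) ^ k := by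
    intro k hk
    have hk' : k ≤ N := by simpa [Nat.lt_succ_iff] using hk
    have h := hc k hk'
    have h' : (c k : ℝ) * (24 * 2 ^ k) ≤ f + 24 * 2 ^ k := by exact_mod_cast h
    have hp : (0 : ℝ) < 2 ^ k := by positivity
    have h3 : (1 / 2 : ℝ) ^ k = 1 / 2 ^ k := by rw [div_pow, one_pow]
    rw [h3]
    push_cast
    have h4 : (6 : ℝ) + (f : ℝ) / 4 * (1 / 2 ^ k) = (24 * 2 ^ k + f) / (4 * 2 ^ k) := by
      field_simp
      ring
    rw [h4, le_div_iff₀ (by positivity)]
    nlinarith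
  have h2 : (((∑ k ∈ Finset.range (N + 1), 6 * c k : ℕ)) : ℝ) ≤ 6 * (N + 1) + (f : ℝ) / 2 := by
    rw [Nat.cast_sum]
    calc ∑ k ∈ Finset.range (N + 1), ((6 * c k : ℕ) : ℝ)
        ≤ ∑ k ∈ Finset.range (N + 1), (6 + (f : ℝ) / 4 * (1 / 2) ^ k) := Finset.sum_le_sum h1
      _ = 6 * (N + 1) + (f : ℝ) / 4 * ∑ k ∈ Finset.range (N + 1), (1 / 2 : ℝ) ^ k := by
          rw [Finset.sum_add_distrib, ← Finset.mul_sum]
          simp
          ring
      _ ≤ 6 * (N + 1) + (f : ℝ) / 4 * 2 := by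
          have hg : ∑ k ∈ Finset.range (N + 1), (1 / 2 : ℝ) ^ k ≤ 2 := by
            have := sum_geometric_two_le (N + 1)
            simpa using this
          have hf0 : (0 : ℝ) ≤ (f : ℝ) / 4 := by positivity
          nlinarith
      _ = 6 * (N + 1) + (f : ℝ) / 2 := by ring
  have h3 : (12 * (N + 1) : ℝ) ≤ f := by exact_mod_cast hf
  have h4 : (((∑ k ∈ Finset.range (N + 1), 6 * c k : ℕ)) : ℝ) ≤ ((f + 1 : ℕ) : ℝ) := by
    push_cast at h2 ⊢
    linarith
  exact_mod_cast h4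

theorem count_large {m : ℕ} {ρ : FreeGroup (Fin m) →* Iso} {v : E3} (hf : FreeAct ρ) (hc : Cover ρ v) {R : ℝ}
    (hR : ∀ e, ∀ x ∈ vert v e, ‖x‖ ≤ R) {S : ℕ → Set E3} {N : ℕ} (hS : ∀ k ≤ N, Thin ρ R (rad k) (S k))
    (s : St m) (cov : ∀ e, ∀ x ∈ vert v e, x ∉ s.R e → ∃ i, x ∈ s.U e i)
    (disj : ∀ e i j, i ≠ j → Disjoint (s.U e i) (s.U e j))
    (img : ∀ e i, s.U (!e) i = ρ (ltr e i) '' s.U e i)
    (slab : ∀ e i, ∀ x ∈ s.U e i, ∃ k < N + 1, x ∈ S k ∨ ρ (ltr e i) x ∈ S k)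
    (e : Bool) (F : Finset E3) (hF : ∀ x ∈ F, x ∈ vert v e) (hne : F.Nonempty) (hconn : ConnFin (adj ρ e) F)
    (hbig : siz N ≤ F.card) : F.card ≤ (nb ρ e (s.R (!e)) F).card := by
  classical
  obtain ⟨x₀, hx₀⟩ := hne
  -- expansion in the full graph
  have hexp : 2 * F.card + 1 ≤ (nb ρ e (vert v (!e)) F).card := by
    refine expand hf e (vert v (!e)) F ⟨x₀, hx₀⟩ x₀ ?_ ?_
    · intro x hx
      obtain ⟨w, -, hw⟩ := dist_conn hconn hx₀ hx
      exact ⟨w, hw⟩
    · intro x hx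
      exact ccount_three_le_deg hc e (hF x hx)
  -- the covers
  have hcov : ∀ k, ∃ C ⊆ F, C.card * (24 * 2 ^ k) ≤ F.card + 24 * 2 ^ k ∧
      ∀ x ∈ F, ∃ c ∈ C, ∃ w : FreeGroup (Fin m), w.norm ≤ 4 * (24 * 2 ^ k - 1) ∧ x = ρ w c := by
    intro k
    have h1 : 1 ≤ 24 * 2 ^ k := by
      have : 0 < 2 ^ k := by positivity
      omega
    have h := cover_conn (ρ := ρ) hconn (24 * 2 ^ k - 1)
    rwa [Nat.sub_add_cancel h1] at h
  choose C hCF hCc hCw using hcov
  -- the finite sets of words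
  have hfin : ∀ (k : ℕ) (c : E3), {w : FreeGroup (Fin m) | w.norm ≤ 2 * rad k ∧ ρ w c ∈ S k}.Finite := fun k c =>
    (finite_words m (2 * rad k)).subset fun w hw => hw.1
  set P : ℕ → Finset E3 := fun k => (C k).biUnion fun c => (hfin k c).toFinset.image fun w => ρ w c with hP
  have hPcard : ∀ k ≤ N, (P k).card ≤ 3 * (C k).card := by
    intro k hk
    calc (P k).card ≤ ∑ c ∈ C k, ((hfin k c).toFinset.image fun w => ρ w c).card := Finset.card_biUnion_le
      _ ≤ ∑ c ∈ C k, 3 := by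
          refine Finset.sum_le_sum fun c hcC => ?_
          refine Finset.card_image_le.trans ?_
          rw [← Set.ncard_eq_toFinset_card _ (hfin k c)]
          exact hS k hk c (hR e c (hF c (hCF k hcC)))
      _ = 3 * (C k).card := by rw [Finset.sum_const, smul_eq_mul, mul_comm]
  -- membership in `P`
  have hPmem : ∀ (k : ℕ) (x : E3), x ∈ F → ∀ u : FreeGroup (Fin m), u.norm ≤ 2 → ρ u x ∈ S k → ρ u x ∈ P k := by
    intro k x hx u hu hus
    obtain ⟨c, hcC, w, hw, rfl⟩ := hCw k x hx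
    simp only [hP, Finset.mem_biUnion, Finset.mem_image, Set.Finite.mem_toFinset, Set.mem_ofPred_eq]
    refine ⟨c, hcC, u * w, ⟨?_, ?_⟩, ?_⟩
    · refine (FreeGroup.norm_mul_le u w).trans ?_
      have h1 : 1 ≤ 2 ^ k := Nat.one_le_two_pow
      unfold rad
      omega
    · rw [map_mul]; exact hus
    · rw [map_mul]; rfl
  -- the partner function
  set g : E3 → E3 := fun x' => if h : ∃ i, x' ∈ s.U e i then ρ (ltr e h.choose) x' else x' with hg
  have hgval : ∀ (i : Fin m) (x' : E3), x' ∈ s.U e i → g x' = ρ (ltr e i) x' := by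
    intro i x' hx'
    have hex : ∃ i, x' ∈ s.U e i := ⟨i, hx'⟩
    have : hex.choose = i := by
      by_contra hcon
      exact (Set.disjoint_left.1 (disj e _ _ hcon)) hex.choose_spec hx'
    simp only [hg, dif_pos hex, this]
  -- the removed neighbours
  set Rem : Finset E3 := (nb ρ e (vert v (!e)) F).filter (· ∉ s.R (!e)) with hRem
  have hRemsub : Rem ⊆ (Finset.range (N + 1)).biUnion fun k => P k ∪ (P k).image g := by
    intro y hy
    rw [hRem, Finset.mem_filter] at hy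
    obtain ⟨hynb, hyR⟩ := hy
    rw [nb, Finset.mem_filter, Finset.mem_biUnion] at hynb
    obtain ⟨⟨x, hxF, hxy⟩, hyv⟩ := hynb
    rw [Finset.mem_image] at hxy
    obtain ⟨j, -, rfl⟩ := hxy
    obtain ⟨i, hi⟩ := cov (!e) _ hyv hyR
    rw [img e i] at hi
    obtain ⟨x', hx'U, hx'y⟩ := hi
    obtain ⟨k, hk, hks⟩ := slab e i x' hx'U
    rw [Finset.mem_biUnion]
    refine ⟨k, Finset.mem_range.2 hk, ?_⟩
    rw [Finset.mem_union]
    rcases hks with hks | hks
    · right
      rw [Finset.mem_image]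
      refine ⟨x', ?_, ?_⟩
      · have hx'eq : x' = ρ ((ltr e i)⁻¹ * ltr e j) x := by
          rw [map_mul, map_inv]
          change x' = (ρ (ltr e i))⁻¹ (ρ (ltr e j) x)
          rw [← hx'y]
          exact ((ρ (ltr e i)).symm_apply_apply x').symm
        rw [hx'eq]
        refine hPmem k x hxF _ ?_ (hx'eq ▸ hks)
        refine (FreeGroup.norm_mul_le _ _).trans ?_
        rw [FreeGroup.norm_inv_eq]
        have h1 := ccount_norm_ltr_le e i
        have h2 := ccount_norm_ltr_le e j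
        omega
      · rw [hgval i x' hx'U, hx'y]
    · left
      rw [hx'y] at hks
      exact hPmem k x hxF _ ((ccount_norm_ltr_le e j).trans (by norm_num)) hks
  have hRemcard : Rem.card ≤ F.card + 1 := by
    refine (Finset.card_le_card hRemsub).trans ?_
    refine Finset.card_biUnion_le.trans ?_
    refine le_trans (Finset.sum_le_sum fun k hk => ?_) (ccount_arith N F.card (fun k => (C k).card) (fun k _ => hCc k) hbig)
    have hk' : k ≤ N := by simpa [Nat.lt_succ_iff] using hk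
    refine (Finset.card_union_le _ _).trans ?_
    have h1 := hPcard k hk'
    have h2 : ((P k).image g).card ≤ (P k).card := Finset.card_image_le
    omega
  -- conclusion
  have hsub : nb ρ e (vert v (!e)) F \ Rem ⊆ nb ρ e (s.R (!e)) F := by
    intro y hy
    rw [Finset.mem_sdiff, hRem, Finset.mem_filter] at hy
    obtain ⟨hy1, hy2⟩ := hy
    have hy3 : y ∈ s.R (!e) := by
      by_contra hcon
      exact hy2 ⟨hy1, hcon⟩
    rw [nb, Finset.mem_filter] at hy1 ⊢
    exact ⟨hy1.1, hy3⟩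
  have h1 := Finset.card_le_card hsub
  have h2 := Finset.le_card_sdiff Rem (nb ρ e (vert v (!e)) F)
  omega

end Pool.Agent.CBT
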