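import Pool.Agent.Lib.CBT.Defs

/-!
# CBT.CDefs : definitions for PART C (the matching)

The two sides of the bipartite graph are indexed by `e : Bool`: side `true` is the source ball, side `false` the target.
The letter `ltr e i` goes from side `e` to side `!e`: `ltr true i = g_i`, `ltr false i = g_i⁻¹`.
-/

set_option autoImplicit false

namespace Pool.Agent.CBT

open Set

/-- The letters of sign `e`. -/
def ltr {m : ℕ} (e : Bool) (i : Fin m) : FreeGroup (Fin m) :=
  if e then FreeGroup.of i else (FreeGroup.of i)⁻¹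

/-- The two vertex sets. -/
def vert (v : E3) : Bool → Set E3
  | true => src
  | false => tgt v

/-- The action is free. -/
def FreeAct {m : ℕ} (ρ : FreeGroup (Fin m) →* Iso) : Prop := ∀ (w : FreeGroup (Fin m)) (x : E3), ρ w x = x → w = 1

open Classical in
/-- The neighbours in `Q` of a finite set `F` of points of side `e`. -/
noncomputable def nb {m : ℕ} (ρ : FreeGroup (Fin m) →* Iso) (e : Bool) (Q : Set E3) (F : Finset E3) : Finset E3 :=
  (F.biUnion fun x => Finset.univ.image fun i => ρ (ltr e i) x).filter (· ∈ Q)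

/-- The one-sided Hall condition for the points of `P` (side `e`) and their neighbours in `Q`. -/
def HallC {m : ℕ} (ρ : FreeGroup (Fin m) →* Iso) (e : Bool) (P Q : Set E3) : Prop :=
  ∀ F : Finset E3, (∀ x ∈ F, x ∈ P) → F.card ≤ (nb ρ e Q F).card

/-- Two points of side `e` with a common neighbour. -/
def adj {m : ℕ} (ρ : FreeGroup (Fin m) →* Iso) (e : Bool) (x y : E3) : Prop :=
  ∃ i j, ρ (ltr e i) x = ρ (ltr e j) y

/-- A finite set without a nontrivial splitting. -/
def ConnFin (r : E3 → E3 → Prop) (F : Finset E3) : Prop :=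
  ∀ F' ⊆ F, F'.Nonempty → F' ≠ F → ∃ x ∈ F', ∃ y ∈ F, y ∉ F' ∧ r x y

/-- The radius of separation at stage `n`. -/
def rad (n : ℕ) : ℕ := 64 * 2 ^ n

/-- The size of the local tests at stage `n`. -/
def siz (n : ℕ) : ℕ := 12 * (n + 1)

/-- `S` is a thin slab: in every word ball of radius `2 r` about a point of norm at most `R` there are at most three words
which send the point to `S`. -/
def Thin {m : ℕ} (ρ : FreeGroup (Fin m) →* Iso) (R : ℝ) (r : ℕ) (S : Set E3) : Prop :=
  ∀ x : E3, ‖x‖ ≤ R → {w : FreeGroup (Fin m) | w.norm ≤ 2 * r ∧ ρ w x ∈ S}.ncard ≤ 3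

/-- `E` is determined by finitely many admissible basic sets. -/
def TameS {m : ℕ} (ρ : FreeGroup (Fin m) →* Iso) (n v : E3) (E : Set E3) : Prop :=
  ∃ F : Set Basic, F.Finite ∧ F ⊆ Adm ρ n v ∧ DetBy F univ E

/-- A state of the construction: residual vertices and decided labels, on both sides. -/
structure St (m : ℕ) where
  /-- residual points of the two sides -/
  R : Bool → Set E3
  /-- `U e i`: the points of side `e` which are matched through the letter `ltr e i` -/
  U : Bool → Fin m → Set E3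

/-- The invariants of a state, when the slabs `S k`, `k < N`, have been used. -/
structure Inv {m : ℕ} (ρ : FreeGroup (Fin m) →* Iso) (n v : E3) (S : ℕ → Set E3) (N : ℕ) (s : St m) : Prop where
  sub : ∀ e, s.R e ⊆ vert v e
  cov : ∀ e, ∀ x ∈ vert v e, x ∉ s.R e → ∃ i, x ∈ s.U e i
  usub : ∀ e i, s.U e i ⊆ vert v e \ s.R e
  disj : ∀ e i j, i ≠ j → Disjoint (s.U e i) (s.U e j)
  img : ∀ e i, s.U (!e) i = ρ (ltr e i) '' s.U e i
  hall : ∀ e, HallC ρ e (s.R e) (s.R (!e))
  slab : ∀ e i, ∀ x ∈ s.U e i, ∃ k < N, x ∈ S k ∨ ρ (ltr e i) x ∈ S k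
  tameR : ∀ e, TameS ρ n v (s.R e)
  tameU : ∀ e i, TameS ρ n v (s.U e i)

/-- `t` extends `s`. -/
def St.Le {m : ℕ} (s t : St m) : Prop := (∀ e, t.R e ⊆ s.R e) ∧ ∀ e i, s.U e i ⊆ t.U e i

theorem finite_words (m r : ℕ) : {w : FreeGroup (Fin m) | w.norm ≤ r}.Finite := by
  have h := List.finite_length_le (Fin m × Bool) r
  refine (h.preimage (f := FreeGroup.toWord) FreeGroup.toWord_injective.injOn).subset ?_
  intro w hw
  exact hw

end Pool.Agent.CBT
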