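import Pool.Agent.Lib.CBT.CDefs

/-!
# CBT.CExpand : expansion in the free group

`expand_word`: `F` a finite nonempty set of words, `I w` a set of at least three indices for `w ∈ F`; then the set of words
`ltr e i * w` (`w ∈ F`, `i ∈ I w`) has at least `2|F|+1` elements.  Induction on `|F|`: remove `w ∈ F` of maximal norm
(`FreeGroup.norm` = length of the reduced word).  At most one letter of sign `e` cancels the first letter of `w`
(`ltr e i` with `first letter of w = (ltr e i)⁻¹`), the other words `ltr e i * w` have norm `norm w + 1`; such a word is not of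
the form `ltr e j * w'` with `w' ∈ F`, `w' ≠ w`: `w' = (ltr e j)⁻¹ * ltr e i * w` has norm `norm w + 2` if `j ≠ i`, and is `w` if
`j = i`.  So at least two words are lost.
(Useful: `FreeGroup.toWord`, `FreeGroup.norm`, reduced words `FreeGroup.IsReduced`/`FreeGroup.reduce`.)

`expand`: the version for points of one orbit of a free action.
-/

set_option autoImplicit false

namespace Pool.Agent.CBT

open Set

namespace CExpandAux

theorem ltr_eq {m : ℕ} (e : Bool) (i : Fin m) : ltr e i = FreeGroup.mk [(i, e)] := by
  cases e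
  · rfl
  · rfl

theorem ltr_inv_eq {m : ℕ} (e : Bool) (i : Fin m) : (ltr e i)⁻¹ = FreeGroup.mk [(i, !e)] := by
  rw [ltr_eq, FreeGroup.inv_mk]
  rfl

theorem ltr_inj {m : ℕ} (e : Bool) {i j : Fin m} (h : ltr e i = ltr e j) : i = j := by
  rw [ltr_eq, ltr_eq] at h
  have h' := congrArg FreeGroup.toWord h
  rw [FreeGroup.toWord_mk, FreeGroup.toWord_mk, FreeGroup.reduce_singleton, FreeGroup.reduce_singleton] at h'
  simpa using h'

/-- The letter `i` of sign `e` does not cancel the first letter of `w`. -/
def NC {m : ℕ} (e : Bool) (w : FreeGroup (Fin m)) (i : Fin m) : Prop := w.toWord.head? ≠ some (i, !e)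

theorem not_NC_unique {m : ℕ} {e : Bool} {w : FreeGroup (Fin m)} {i j : Fin m} (hi : ¬ NC e w i) (hj : ¬ NC e w j) :
    i = j := by
  unfold NC at hi hj
  push Not at hi hj
  rw [hi] at hj
  simpa using hj

theorem toWord_cons {m : ℕ} {e : Bool} {w : FreeGroup (Fin m)} {i : Fin m} (h : NC e w i) :
    FreeGroup.IsReduced ((i, e) :: w.toWord) := by
  have hr : FreeGroup.IsReduced w.toWord := FreeGroup.isReduced_toWord
  unfold NC at h
  cases hw : w.toWord with
  | nil => exact FreeGroup.IsReduced.singleton
  | cons a l =>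
    rw [hw] at hr h
    rw [FreeGroup.isReduced_cons_cons]
    refine ⟨?_, hr⟩
    intro h1
    simp only [List.head?_cons, ne_eq, Option.some.injEq] at h
    by_contra h2
    apply h
    have h3 : a.2 = !e := by
      revert h2
      cases a.2 <;> cases e <;> simp
    ext1
    · exact h1.symm
    · exact h3

theorem norm_two {m : ℕ} {e : Bool} {w : FreeGroup (Fin m)} {i j : Fin m} (h : NC e w i) (hij : j ≠ i) :
    ((ltr e j)⁻¹ * (ltr e i * w)).norm = w.norm + 2 := by
  have h1 : FreeGroup.IsReduced ((j, !e) :: (i, e) :: w.toWord) := by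
    rw [FreeGroup.isReduced_cons_cons]
    exact ⟨fun h => absurd h hij, toWord_cons h⟩
  have h2 : (ltr e j)⁻¹ * (ltr e i * w) = FreeGroup.mk ((j, !e) :: (i, e) :: w.toWord) := by
    rw [ltr_inv_eq, ltr_eq]
    conv_lhs => rw [← FreeGroup.mk_toWord (x := w)]
    rw [FreeGroup.mul_mk, FreeGroup.mul_mk]
    rfl
  rw [h2, FreeGroup.norm, FreeGroup.toWord_mk, h1.reduce_eq, FreeGroup.norm]
  rfl

end CExpandAux

open CExpandAux

open Classical in
theorem expand_word {m : ℕ} (e : Bool) (F : Finset (FreeGroup (Fin m))) (hne : F.Nonempty)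
    (I : FreeGroup (Fin m) → Finset (Fin m)) (hI : ∀ w ∈ F, 3 ≤ (I w).card) :
    2 * F.card + 1 ≤ (F.biUnion fun w => (I w).image fun i => ltr e i * w).card := by
  have hinj : ∀ w : FreeGroup (Fin m), Function.Injective fun i => ltr e i * w := by
    intro w i j h
    exact ltr_inj e (mul_right_cancel h)
  induction hn : F.card using Nat.strong_induction_on generalizing F with
  | _ n ih =>
    subst hn
    obtain ⟨w, hw, hmax⟩ := F.exists_max_image (fun w => w.norm) hne
    rcases (F.erase w).eq_empty_or_nonempty with h0 | h0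
    · have hF : F = {w} := by
        rw [Finset.erase_eq_empty_iff] at h0
        rcases h0 with h0 | h0
        · exact absurd h0 hne.ne_empty
        · exact h0
      subst hF
      rw [Finset.singleton_biUnion, Finset.card_image_of_injective _ (hinj w), Finset.card_singleton]
      exact hI w (Finset.mem_singleton_self w)
    · have hc : (F.erase w).card + 1 = F.card := Finset.card_erase_add_one hw
      have h1 := ih (F.erase w).card (by omega) (F.erase w) h0
        (fun u hu => hI u (Finset.mem_of_mem_erase hu)) rfl
      set A := (F.erase w).biUnion fun w => (I w).image fun i => ltr e i * w with hA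
      set B := ((I w).filter fun i => NC e w i).image fun i => ltr e i * w with hB
      have hdis : Disjoint A B := by
        rw [Finset.disjoint_left]
        intro u huA huB
        rw [hA, Finset.mem_biUnion] at huA
        obtain ⟨w', hw', hu'⟩ := huA
        rw [Finset.mem_image] at hu'
        obtain ⟨j, -, hj⟩ := hu'
        rw [hB, Finset.mem_image] at huB
        obtain ⟨i, hi, hiu⟩ := huB
        have hi2 := (Finset.mem_filter.mp hi).2
        have h3 : w' = (ltr e j)⁻¹ * (ltr e i * w) := by
          have : ltr e i * w = ltr e j * w' := hiu.trans hj.symm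
          rw [this, inv_mul_cancel_left]
        by_cases hji : j = i
        · subst hji
          rw [inv_mul_cancel_left] at h3
          exact (Finset.ne_of_mem_erase hw') h3
        · have h4 := norm_two hi2 hji
          have h5 := hmax w' (Finset.mem_of_mem_erase hw')
          rw [h3, h4] at h5
          omega
      have hBcard : 2 ≤ B.card := by
        rw [hB, Finset.card_image_of_injective _ (hinj w)]
        have h3 : ((I w).filter fun i => ¬ NC e w i).card ≤ 1 := by
          rw [Finset.card_le_one]
          intro a ha b hb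
          exact not_NC_unique (Finset.mem_filter.mp ha).2 (Finset.mem_filter.mp hb).2
        have h4 := Finset.card_filter_add_card_filter_not (s := I w) (fun i => NC e w i)
        have h5 := hI w hw
        omega
      have hsub : A ∪ B ⊆ F.biUnion fun w => (I w).image fun i => ltr e i * w := by
        apply Finset.union_subset
        · exact Finset.biUnion_subset_biUnion_of_subset_left _ (Finset.erase_subset w F)
        · intro u hu
          rw [hB, Finset.mem_image] at hu
          obtain ⟨i, hi, hiu⟩ := hu
          rw [Finset.mem_biUnion]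
          exact ⟨w, hw, Finset.mem_image.mpr ⟨i, (Finset.mem_filter.mp hi).1, hiu⟩⟩
      have h6 := Finset.card_le_card hsub
      rw [Finset.card_union_of_disjoint hdis] at h6
      omega

theorem expand {m : ℕ} {ρ : FreeGroup (Fin m) →* Iso} (hf : FreeAct ρ) (e : Bool) (Q : Set E3) (F : Finset E3)
    (hne : F.Nonempty) (x₀ : E3) (horb : ∀ x ∈ F, ∃ w, x = ρ w x₀)
    (hdeg : ∀ x ∈ F, 3 ≤ {i : Fin m | ρ (ltr e i) x ∈ Q}.ncard) : 2 * F.card + 1 ≤ (nb ρ e Q F).card := by
  classical
  have mulapp : ∀ (a b : FreeGroup (Fin m)) (x : E3), ρ (a * b) x = ρ a (ρ b x) := by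
    intro a b x
    rw [map_mul]
    rfl
  have hinj : Function.Injective fun w => ρ w x₀ := by
    intro a b h
    have h1 : ρ (b⁻¹ * a) x₀ = x₀ := by
      have h2 : ρ a x₀ = ρ b x₀ := h
      rw [mulapp, h2, ← mulapp, inv_mul_cancel, map_one]
      rfl
    have h3 := hf _ _ h1
    exact (inv_mul_eq_one.mp h3).symm
  choose! W hW using horb
  set G : Finset (FreeGroup (Fin m)) := F.image W with hG
  have hGF : G.card = F.card := by
    rw [hG, Finset.card_image_of_injOn]
    intro x hx y hy h
    rw [hW x hx, hW y hy]
    exact congrArg (fun w => ρ w x₀) h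
  have hGne : G.Nonempty := hne.image W
  let I : FreeGroup (Fin m) → Finset (Fin m) := fun w => Finset.univ.filter fun i => ρ (ltr e i) (ρ w x₀) ∈ Q
  have hI : ∀ w ∈ G, 3 ≤ (I w).card := by
    intro w hw
    rw [hG, Finset.mem_image] at hw
    obtain ⟨x, hx, rfl⟩ := hw
    have h := hdeg x hx
    rw [Set.ncard_eq_toFinset_card'] at h
    convert h using 2
    ext i
    simp only [I, Finset.mem_filter, Finset.mem_univ, true_and, Set.mem_toFinset, Set.mem_ofPred_eq]
    rw [← hW x hx]
  have h1 := expand_word e G hGne I hI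
  rw [hGF] at h1
  refine h1.trans ?_
  refine Finset.card_le_card_of_injOn (fun w => ρ w x₀) ?_ hinj.injOn
  intro u hu
  rw [Finset.mem_coe, Finset.mem_biUnion] at hu
  obtain ⟨w, hw, hu⟩ := hu
  rw [Finset.mem_image] at hu
  obtain ⟨i, hi, rfl⟩ := hu
  rw [hG, Finset.mem_image] at hw
  obtain ⟨x, hx, rfl⟩ := hw
  have hi' := (Finset.mem_filter.mp hi).2
  have h2 : ρ (ltr e i * W x) x₀ = ρ (ltr e i) x := by
    rw [mulapp, ← hW x hx]
  rw [Finset.mem_coe, nb, Finset.mem_filter]
  simp only
  rw [h2]
  refine ⟨?_, ?_⟩
  · rw [Finset.mem_biUnion]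
    exact ⟨x, hx, Finset.mem_image.mpr ⟨i, Finset.mem_univ i, rfl⟩⟩
  · rw [hW x hx]
    exact hi'

end Pool.Agent.CBT
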