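import Pool.Agent.Lib.CBT.CDefs

/-!
# CBT.CFree : the action is free

Let `w ≠ 1` and `ρ w x = x`.  Put `u = w * w`: `u ≠ 1` (`IsMulTorsionFree (FreeGroup _)`), `ρ u x = x`, and the linear part `B` of `ρ u` is the
square of a linear isometry, so `det B = 1`.  An orthogonal `B` of `ℝ³` with `det B = 1` has a nonzero fixed vector:
`det (B - 1) = det (B - B Bᵀ) = det B * det (1 - Bᵀ) = det (1 - B) = - det (B - 1)`.  With `B a = a`, `a ≠ 0`: `ρ u (x + t a) = x + t a` for
every real `t`, hence `ρ (u^k) (x + t a) = x + t a`, and the set of `GP.g1` for the four distinct words `1, u, u², u³`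
contains `x` and `x + a`: contradiction.
-/

set_option autoImplicit false

namespace Pool.Agent.CBT

open Set

namespace CFreeAux

theorem det_adj (f : E3 →ₗ[ℝ] E3) : LinearMap.det (LinearMap.adjoint f) = LinearMap.det f := by
  have b := EuclideanSpace.basisFun (Fin 3) ℝ
  rw [← LinearMap.det_toMatrix b.toBasis, ← LinearMap.det_toMatrix b.toBasis f,
    LinearMap.toMatrix_adjoint, Matrix.det_conjTranspose]
  simp

theorem exists_fixed (f : E3 →ₗ[ℝ] E3) (h1 : f * LinearMap.adjoint f = 1)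
    (h2 : LinearMap.det f = 1) : ∃ a : E3, a ≠ 0 ∧ f a = a := by
  have e : f - 1 = (-1 : ℝ) • (f * LinearMap.adjoint (f - 1)) := by
    have e2 : LinearMap.adjoint (f - 1) = LinearMap.adjoint f - 1 := by
      rw [map_sub]
      congr 1
      exact star_one _
    rw [e2, mul_sub, h1, mul_one, neg_one_smul, neg_sub]
  have h3 : LinearMap.det (f - 1) = 0 := by
    have h4 : LinearMap.det (f - 1) = - LinearMap.det (f - 1) := by
      conv_lhs => rw [e]
      rw [LinearMap.det_smul, map_mul, h2, det_adj, finrank_euclideanSpace_fin]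
      ring
    linarith
  have h5 := LinearMap.bot_lt_ker_of_det_eq_zero h3
  obtain ⟨a, ha, ha0⟩ := Submodule.exists_mem_ne_zero_of_ne_bot h5.ne'
  refine ⟨a, ha0, ?_⟩
  rw [LinearMap.mem_ker, LinearMap.sub_apply, sub_eq_zero] at ha
  exact ha

theorem exists_fixed_sq (A : E3 ≃ₗᵢ[ℝ] E3) : ∃ a : E3, a ≠ 0 ∧ A (A a) = a := by
  set g : E3 →ₗ[ℝ] E3 := (A.toLinearEquiv : E3 →ₗ[ℝ] E3) with hg
  have hga : ∀ x, g x = A x := fun x => rfl
  have hadj : ∀ x, LinearMap.adjoint g x = A.symm x := by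
    intro x
    have := LinearIsometryEquiv.adjoint_toLinearMap_eq_symm A
    exact congrArg (fun f => f x) this
  have hgg : g * LinearMap.adjoint g = 1 := by
    ext1 x
    show g (LinearMap.adjoint g x) = x
    rw [hadj, hga, A.apply_symm_apply]
  have hdet : LinearMap.det g * LinearMap.det g = 1 := by
    have := congrArg LinearMap.det hgg
    rwa [map_mul, det_adj, map_one] at this
  obtain ⟨a, ha0, ha⟩ := exists_fixed (g * g) (by
    have e : LinearMap.adjoint (g * g) = LinearMap.adjoint g * LinearMap.adjoint g := star_mul g g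
    rw [e, mul_assoc, ← mul_assoc g (LinearMap.adjoint g), hgg, one_mul, hgg]) (by
    rw [map_mul, hdet])
  exact ⟨a, ha0, ha⟩

end CFreeAux

open CFreeAux in
theorem freeAct_of_gp {m : ℕ} {ρ : FreeGroup (Fin m) →* Iso} {n : E3} (h : GP ρ n) : FreeAct ρ := by
  intro w x hwx
  by_contra hw
  obtain ⟨a, ha0, ha⟩ := exists_fixed_sq (ρ w).linearIsometryEquiv
  set u := w * w with hu
  have hu1 : u ≠ 1 := by
    intro h1
    apply hw
    have h2 : w ^ 2 = 1 ^ 2 := by rw [one_pow, sq]; exact h1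
    exact (pow_left_injective two_ne_zero h2)
  have hux : ρ u x = x := by
    rw [hu, map_mul]
    show ρ w (ρ w x) = x
    rw [hwx, hwx]
  have huy : ρ u (a +ᵥ x) = a +ᵥ x := by
    rw [hu, map_mul]
    show ρ w (ρ w (a +ᵥ x)) = a +ᵥ x
    rw [AffineIsometryEquiv.map_vadd, AffineIsometryEquiv.map_vadd, hwx, ha, hwx]
  have hpow : ∀ y : E3, ρ u y = y → ∀ k : ℕ, ρ (u ^ k) y = y := by
    intro y hy k
    induction k with
    | zero => rw [pow_zero, map_one]; rfl
    | succ k ih =>
      rw [pow_succ, map_mul]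
      show ρ (u ^ k) (ρ u y) = y
      rw [hy, ih]
  have hinj : Function.Injective (fun i : Fin 4 => u ^ (i : ℕ)) := by
    intro i j hij
    have h3 : Function.Injective (fun n : ℕ => u ^ n) := by
      rw [injective_pow_iff_not_isOfFinOrder]
      exact not_isOfFinOrder_of_isMulTorsionFree hu1
    exact Fin.ext (h3 hij)
  have hsub := h.g1 _ hinj
  have hx : x ∈ {y : E3 | ∀ i j : Fin 4, inner ℝ n (ρ (u ^ (i : ℕ)) y) =
      inner ℝ n (ρ (u ^ (j : ℕ)) y)} := by
    intro i j
    rw [hpow x hux, hpow x hux]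
  have hy : a +ᵥ x ∈ {y : E3 | ∀ i j : Fin 4, inner ℝ n (ρ (u ^ (i : ℕ)) y) =
      inner ℝ n (ρ (u ^ (j : ℕ)) y)} := by
    intro i j
    rw [hpow _ huy, hpow _ huy]
  have h4 : a +ᵥ x = x := hsub hy hx
  apply ha0
  have h5 : a + x = x := h4
  exact add_eq_right.1 h5

end Pool.Agent.CBT
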