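import Pool.Agent.Lib.CBT.CDefs

/-!
# CBT.CHall : two-sided Hall condition gives a perfect matching along edges

`Finset.all_card_le_biUnion_card_iff_exists_injective` for the family `x : P ↦ nb ρ e Q {x}` gives an injection `P → Q` along edges
(letters of sign `e`), the same for `Q → P` (letters of sign `!e`; `ltr (!e) i = (ltr e i)⁻¹`), then
`Function.Embedding.schroeder_bernstein_of_rel`.
-/

set_option autoImplicit false

namespace Pool.Agent.CBT

open Set

namespace CHallAux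

theorem ltr_not {m : ℕ} (e : Bool) (i : Fin m) : ltr (!e) i = (ltr e i)⁻¹ := by
  cases e <;> simp [ltr]

theorem hall_inj {m : ℕ} {ρ : FreeGroup (Fin m) →* Iso} {e : Bool} {P Q : Set E3}
    (h1 : HallC ρ e P Q) :
    ∃ f : P → Q, Function.Injective f ∧ ∀ x : P, ∃ i, ρ (ltr e i) (x : E3) = (f x : E3) := by
  classical
  have hH : ∀ s : Finset P, s.card ≤ (s.biUnion fun x => nb ρ e Q {(x : E3)}).card := by
    intro s
    have h2 := h1 (s.map (Function.Embedding.subtype _)) (by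
      intro x hx
      rw [Finset.mem_map] at hx
      obtain ⟨y, _, rfl⟩ := hx
      exact y.2)
    rw [Finset.card_map] at h2
    refine h2.trans (Finset.card_le_card ?_)
    intro y hy
    unfold nb at hy
    rw [Finset.mem_filter, Finset.mem_biUnion] at hy
    obtain ⟨⟨x, hx, hxy⟩, hyQ⟩ := hy
    rw [Finset.mem_map] at hx
    obtain ⟨z, hz, rfl⟩ := hx
    rw [Finset.mem_biUnion]
    refine ⟨z, hz, ?_⟩
    unfold nb
    rw [Finset.mem_filter, Finset.mem_biUnion]
    exact ⟨⟨_, Finset.mem_singleton_self _, hxy⟩, hyQ⟩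
  obtain ⟨f, hf, hfm⟩ := (Finset.all_card_le_biUnion_card_iff_exists_injective
    (fun x : P => nb ρ e Q {(x : E3)})).1 hH
  have hm : ∀ x : P, (∃ i, ρ (ltr e i) (x : E3) = f x) ∧ f x ∈ Q := by
    intro x
    have h3 := hfm x
    unfold nb at h3
    rw [Finset.mem_filter, Finset.singleton_biUnion, Finset.mem_image] at h3
    obtain ⟨⟨i, _, hi⟩, hQ⟩ := h3
    exact ⟨⟨i, hi⟩, hQ⟩
  refine ⟨fun x => ⟨f x, (hm x).2⟩, ?_, fun x => (hm x).1⟩
  intro x y hxy
  exact hf (congrArg Subtype.val hxy)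

end CHallAux

theorem hall_bij {m : ℕ} {ρ : FreeGroup (Fin m) →* Iso} {e : Bool} {P Q : Set E3} (h1 : HallC ρ e P Q)
    (h2 : HallC ρ (!e) Q P) :
    ∃ φ : P → Q, Function.Bijective φ ∧ ∀ x : P, ∃ i, ρ (ltr e i) (x : E3) = (φ x : E3) := by
  obtain ⟨f, hf, hfe⟩ := CHallAux.hall_inj h1
  obtain ⟨g, hg, hge⟩ := CHallAux.hall_inj h2
  refine Function.Embedding.schroeder_bernstein_of_rel hf hg
    (fun (x : P) (y : Q) => ∃ i, ρ (ltr e i) (x : E3) = (y : E3)) hfe ?_
  intro y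
  obtain ⟨i, hi⟩ := hge y
  refine ⟨i, ?_⟩
  rw [← hi, CHallAux.ltr_not]
  have h3 : (ρ (ltr e i) * ρ (ltr e i)⁻¹) (y : E3) = (y : E3) := by
    rw [← map_mul, mul_inv_cancel, map_one]
    rfl
  exact h3

end Pool.Agent.CBT
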