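import Pool.Agent.Lib.CBT.CDefs

/-!
# CBT.CKT : splitting a thin slab into separated sets

`KT ρ S r T` = the points of `S` whose pattern of slab points in the word ball of radius `r` is `T`.
`KT_sep`: if `x` and `ρ w x` are in `KT T`, `w ≠ 1`, `norm w ≤ r`, then `w ∈ T` (pattern of `x`), so `ρ (w w) x = ρ w (ρ w x) ∈ S` (pattern of `ρ w x`);
`ρ w⁻¹ (ρ w x) = x ∈ S` gives `w⁻¹ ∈ T` (pattern of `ρ w x`), so `ρ w⁻¹ x ∈ S`.  The four words `w⁻¹, 1, w, w*w` are distinct (torsion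
free) of norm `≤ 2r`: contradiction with `Thin`.
-/

set_option autoImplicit false

namespace Pool.Agent.CBT

open Set

/-- The points of `S` with pattern `T`. -/
def KT {m : ℕ} (ρ : FreeGroup (Fin m) →* Iso) (S : Set E3) (r : ℕ) (T : Set (FreeGroup (Fin m))) : Set E3 :=
  {x | x ∈ S ∧ ∀ w : FreeGroup (Fin m), w.norm ≤ r → w ≠ 1 → (ρ w x ∈ S ↔ w ∈ T)}

theorem KT_sep {m : ℕ} {ρ : FreeGroup (Fin m) →* Iso} {R : ℝ} {r : ℕ} {S : Set E3} (hS : Thin ρ R r S)
    {T : Set (FreeGroup (Fin m))} {x : E3} (hxR : ‖x‖ ≤ R) (hx : x ∈ KT ρ S r T) {w : FreeGroup (Fin m)}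
    (hw : w.norm ≤ r) (hwx : ρ w x ∈ KT ρ S r T) : w = 1 := by
  classical
  by_contra hne
  have hinv : w⁻¹.norm ≤ r := by rwa [FreeGroup.norm_inv_eq]
  have hne' : w⁻¹ ≠ 1 := inv_ne_one.2 hne
  have hmul : ∀ (a b : FreeGroup (Fin m)) (y : E3), ρ a (ρ b y) = ρ (a * b) y := by
    intro a b y
    rw [map_mul]
    rfl
  have h1 : w ∈ T := (hx.2 w hw hne).1 hwx.1
  have h2 : ρ (w * w) x ∈ S := by
    have := (hwx.2 w hw hne).2 h1
    rwa [hmul] at this
  have h3 : w⁻¹ ∈ T := by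
    refine (hwx.2 w⁻¹ hinv hne').1 ?_
    rw [hmul, inv_mul_cancel, map_one]
    exact hx.1
  have h4 : ρ w⁻¹ x ∈ S := (hx.2 w⁻¹ hinv hne').2 h3
  have hpow : ∀ k : ℕ, k ≠ 0 → w ^ k ≠ 1 := by
    intro k hk h
    exact hne (pow_left_injective hk (by simp only [h, one_pow]))
  have e2 : w * w ≠ 1 := by
    have := hpow 2 (by norm_num)
    rwa [pow_two] at this
  have e3 : w * w * w ≠ 1 := by
    have := hpow 3 (by norm_num)
    rwa [pow_succ, pow_two] at this
  have hsub : (({w⁻¹, 1, w, w * w} : Finset (FreeGroup (Fin m))) : Set (FreeGroup (Fin m))) ⊆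
      {w : FreeGroup (Fin m) | w.norm ≤ 2 * r ∧ ρ w x ∈ S} := by
    intro u hu
    simp only [Finset.coe_insert, Finset.coe_singleton, mem_insert_iff, mem_singleton_iff] at hu
    rcases hu with rfl | rfl | rfl | rfl
    · exact ⟨by omega, h4⟩
    · refine ⟨by rw [FreeGroup.norm_one]; omega, ?_⟩
      rw [map_one]
      exact hx.1
    · exact ⟨by omega, hwx.1⟩
    · refine ⟨?_, h2⟩
      have := FreeGroup.norm_mul_le w w
      omega
  have hfin : {w : FreeGroup (Fin m) | w.norm ≤ 2 * r ∧ ρ w x ∈ S}.Finite :=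
    (finite_words m (2 * r)).subset fun u hu => hu.1
  have hcard := Set.ncard_le_ncard hsub hfin
  rw [Set.ncard_coe_finset] at hcard
  have h4' : ({w⁻¹, 1, w, w * w} : Finset (FreeGroup (Fin m))).card = 4 := by
    rw [Finset.card_insert_of_notMem, Finset.card_insert_of_notMem, Finset.card_insert_of_notMem,
      Finset.card_singleton]
    · simp only [Finset.mem_singleton]
      intro h
      exact hne (by simpa using h)
    · simp only [Finset.mem_insert, Finset.mem_singleton, not_or]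
      exact ⟨fun h => hne h.symm, fun h => e2 h.symm⟩
    · simp only [Finset.mem_insert, Finset.mem_singleton, not_or]
      refine ⟨hne', fun h => e2 ?_, fun h => e3 ?_⟩
      · nth_rewrite 1 [← h]
        simp
      · rw [← h]
        simp
  have := hS x hxR
  omega

theorem KT_cover {m : ℕ} (ρ : FreeGroup (Fin m) →* Iso) {S : Set E3} (r : ℕ) {x : E3} (hx : x ∈ S) :
    ∃ T ⊆ {w : FreeGroup (Fin m) | w.norm ≤ r}, x ∈ KT ρ S r T := by
  refine ⟨{w | w.norm ≤ r ∧ ρ w x ∈ S}, fun w hw => hw.1, hx, fun w hw _ => ?_⟩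
  constructor
  · exact fun h => ⟨hw, h⟩
  · exact fun h => h.2

end Pool.Agent.CBT
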