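import Pool.Agent.Lib.CBT.CDefs

/-!
# CBT.CLevel : thin slabs

* `Bad1 = {c | ∃ x, ∃ w : Fin 4 → words injective, ∀ i, ⟨n, ρ (w i) x⟩ = c}` is countable: for each of the countably many `w` there
  is at most one such `x` (`GP.g1`), hence at most one `c`.  `badLevel ρ n v` is countable (countably many `w, w'`, and `u, u' ∈ {0,v}`).
* Choose `c ∈ (a,b)` outside both.  The set `W` of words of norm `≤ 2r` is finite.  For an injective `w : Fin 4 → W` the continuous
  function `x ↦ max_i |⟨n, ρ (w i) x⟩ - c|` has no zero on the compact ball `‖x‖ ≤ R`, so it is `≥ ε` there for a common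
  `ε > 0`.  Choose `cl ∈ (c-ε, c) ∩ (a,b)`, `cu ∈ (c, c+ε) ∩ (a,b)` outside `badLevel`.  Then no `x` in the ball has four distinct words in `W`
  with `⟨n, ρ w x⟩ ∈ [cl, cu]`; so `ncard ≤ 3`.
-/

set_option autoImplicit false

namespace Pool.Agent.CBT

open Set

namespace CLevelAux

theorem countable_words (m : ℕ) : Countable (FreeGroup (Fin m)) :=
  FreeGroup.toWord_injective.countable

theorem countable_badLevel {m : ℕ} (ρ : FreeGroup (Fin m) →* Iso) (n v : E3) :
    (badLevel ρ n v).Countable := by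
  have := countable_words m
  have h : badLevel ρ n v ⊆ Set.range fun p : FreeGroup (Fin m) × FreeGroup (Fin m) × Bool × Bool =>
      inner ℝ n (ρ p.1 (if p.2.2.1 then 0 else v) + ρ p.2.1 (if p.2.2.2 then 0 else v)) / 2 := by
    rintro c ⟨w, w', u, u', hu, hu', rfl⟩
    rcases hu with rfl | rfl <;> rcases hu' with rfl | rfl
    · exact ⟨(w, w', true, true), by simp⟩
    · exact ⟨(w, w', true, false), by simp⟩
    · exact ⟨(w, w', false, true), by simp⟩
    · exact ⟨(w, w', false, false), by simp⟩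
  exact (Set.countable_range _).mono h

theorem countable_bad1 {m : ℕ} {ρ : FreeGroup (Fin m) →* Iso} {n : E3} (h : GP ρ n) :
    {c : ℝ | ∃ w : Fin 4 → FreeGroup (Fin m), Function.Injective w ∧
      ∃ x : E3, ∀ i, inner ℝ n (ρ (w i) x) = c}.Countable := by
  have := countable_words m
  have h1 : {c : ℝ | ∃ w : Fin 4 → FreeGroup (Fin m), Function.Injective w ∧
      ∃ x : E3, ∀ i, inner ℝ n (ρ (w i) x) = c} =
      ⋃ w : Fin 4 → FreeGroup (Fin m), {c : ℝ | Function.Injective w ∧
        ∃ x : E3, ∀ i, inner ℝ n (ρ (w i) x) = c} := by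
    ext c
    simp
  rw [h1]
  refine Set.countable_iUnion fun w => Set.Subsingleton.countable ?_
  rintro c ⟨hw, x, hx⟩ c' ⟨-, x', hx'⟩
  have h2 : x = x' := h.g1 w hw (fun i j => by rw [hx i, hx j]) (fun i j => by rw [hx' i, hx' j])
  rw [← hx 0, ← hx' 0, h2]

theorem four_of_ncard {α : Type*} {T : Set α} (hT : T.Finite) (h : 3 < T.ncard) :
    ∃ w : Fin 4 → α, Function.Injective w ∧ ∀ i, w i ∈ T := by
  rw [Set.ncard_eq_toFinset_card T hT] at h
  obtain ⟨F, hF, hFc⟩ := Finset.exists_subset_card_eq (s := hT.toFinset) (n := 4) (by omega)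
  have e := (Finset.equivFinOfCardEq hFc).symm
  refine ⟨fun i => (e i : α), ?_, ?_⟩
  · intro i j hij
    exact e.injective (Subtype.ext hij)
  · intro i
    exact hT.mem_toFinset.1 (hF (e i).2)

end CLevelAux

open CLevelAux

theorem exists_slab {m : ℕ} {ρ : FreeGroup (Fin m) →* Iso} {n : E3} (h : GP ρ n) (v : E3) (R : ℝ) (r : ℕ)
    {a b : ℝ} (hab : a < b) : ∃ cl cu : ℝ, a < cl ∧ cl < cu ∧ cu < b ∧ cl ∉ badLevel ρ n v ∧ cu ∉ badLevel ρ n v ∧
      Thin ρ R r {x | inner ℝ n x ∈ Ico cl cu} := by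
  obtain ⟨c, hc, hac, hcb⟩ := ((countable_bad1 h).dense_compl ℝ).exists_between hab
  have hdense : Dense (badLevel ρ n v)ᶜ := (countable_badLevel ρ n v).dense_compl ℝ
  -- the four tuples of short words
  set 𝒲 : Set (Fin 4 → FreeGroup (Fin m)) := {w | (∀ i, (w i).norm ≤ 2 * r)} with h𝒲
  have h𝒲fin : 𝒲.Finite := by
    have h1 := Set.Finite.pi' (ι := Fin 4) (fun _ => finite_words m (2 * r))
    exact h1
  set f : (Fin 4 → FreeGroup (Fin m)) → E3 → ℝ := fun w x =>
    ∑ i, |inner ℝ n (ρ (w i) x) - c| with hf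
  have hfc : ∀ w, Continuous (f w) := by
    intro w
    refine continuous_finsetSum _ fun i _ => ?_
    exact ((continuous_const.inner (ρ (w i)).continuous).sub continuous_const).abs
  have hev : ∀ w ∈ 𝒲, ∀ᶠ ε in nhdsWithin (0 : ℝ) (Ioi 0), Function.Injective w →
      ∀ x ∈ Metric.closedBall (0 : E3) R, ε ≤ f w x := by
    intro w _
    by_cases hw : Function.Injective w
    · rcases (Metric.closedBall (0 : E3) R).eq_empty_or_nonempty with he | hne
      · refine Filter.Eventually.of_forall fun ε _ x hx => ?_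
        rw [he] at hx
        exact absurd hx (Set.notMem_empty x)
      · obtain ⟨x0, hx0, hmin⟩ := (isCompact_closedBall (0 : E3) R).exists_isMinOn hne
          (hfc w).continuousOn
        have hpos : 0 < f w x0 := by
          have h0 : 0 ≤ f w x0 := Finset.sum_nonneg fun i _ => abs_nonneg _
          rcases h0.lt_or_eq with h1 | h1
          · exact h1
          · exfalso
            apply hc
            refine ⟨w, hw, x0, fun i => ?_⟩
            have h2 := (Finset.sum_eq_zero_iff_of_nonneg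
              (fun i _ => abs_nonneg (inner ℝ n (ρ (w i) x0) - c))).1 h1.symm i (Finset.mem_univ i)
            have h3 := abs_eq_zero.1 h2
            linarith
        filter_upwards [Ioo_mem_nhdsGT hpos] with ε hε _ x hx
        exact hε.2.le.trans (hmin hx)
    · exact Filter.Eventually.of_forall fun ε hw' => absurd hw' hw
  have hev2 := (Filter.eventually_all_finite h𝒲fin).2 hev
  obtain ⟨ε, hε, hε0⟩ := (hev2.and self_mem_nhdsWithin).exists
  have hε0' : (0 : ℝ) < ε := hε0
  obtain ⟨cl, hcl, hcl1, hcl2⟩ := hdense.exists_between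
    (show max a (c - ε / 4) < c from max_lt hac (by linarith))
  obtain ⟨cu, hcu, hcu1, hcu2⟩ := hdense.exists_between
    (show c < min b (c + ε / 4) from lt_min hcb (by linarith))
  refine ⟨cl, cu, (le_max_left _ _).trans_lt hcl1, hcl2.trans hcu1,
    hcu2.trans_le (min_le_left _ _), hcl, hcu, ?_⟩
  intro x hx
  by_contra hcon
  push Not at hcon
  have hTfin : {w : FreeGroup (Fin m) | w.norm ≤ 2 * r ∧
      ρ w x ∈ {x | inner ℝ n x ∈ Ico cl cu}}.Finite :=
    (finite_words m (2 * r)).subset fun w hw => hw.1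
  obtain ⟨w, hw, hwT⟩ := four_of_ncard hTfin hcon
  have h1 := hε w (fun i => (hwT i).1) hw x (by
    rw [mem_closedBall_zero_iff]
    exact hx)
  have h2 : f w x < ∑ _i : Fin 4, ε / 4 := by
    refine Finset.sum_lt_sum_of_nonempty Finset.univ_nonempty fun i _ => ?_
    have h3 : inner ℝ n (ρ (w i) x) ∈ Ico cl cu := (hwT i).2
    have h4 : c - ε / 4 < cl := (le_max_right _ _).trans_lt hcl1
    have h5 : cu < c + ε / 4 := hcu2.trans_le (min_le_right _ _)
    rw [abs_lt]
    constructor
    · linarith [h3.1]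
    · linarith [h3.2]
  rw [Finset.sum_const, Finset.card_univ, Fintype.card_fin, nsmul_eq_mul] at h2
  push_cast at h2
  linarith

end Pool.Agent.CBT
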