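import Pool.Agent.Lib.CBT.CStep
import Pool.Agent.Lib.CBT.CKT
import Pool.Agent.Lib.CBT.CLevel

/-!
# CBT.CStage : one stage, and the initial state

`exists_stage`: monotonicity of the invariants in `N` (`slab`), then finitely many uses of `exists_step`: for both sides `e` and all subsets
`T` of the finite set of words of norm `≤ rad N`, with `K = KT ρ (S N) (rad N) T` (tame by `TameS.of_pattern`, separated by `KT_sep`, and
`KT_cover`).
`inv_init`: `R = vert v`, `U = ∅`; the Hall condition: `hall_of_conn` and `expand` (degrees `≥ 3`), `2|F|+1 ≥ |F|`.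
-/

set_option autoImplicit false

namespace Pool.Agent.CBT

open Set

namespace CStageAux

theorem one_app {m : ℕ} (ρ : FreeGroup (Fin m) →* Iso) (x : E3) : ρ 1 x = x := by
  rw [map_one]; rfl

theorem tame_KT {m : ℕ} {ρ : FreeGroup (Fin m) →* Iso} {n v : E3} {S : Set E3} (r : ℕ)
    (hS : TameS ρ n v S) (T : Set (FreeGroup (Fin m))) : TameS ρ n v (KT ρ S r T) := by
  refine TameS.of_pattern (ι := Unit) r (fun _ => S) (fun _ => hS) fun x y hxy => ?_
  have h1 : ∀ w : FreeGroup (Fin m), w.norm ≤ r → (ρ w x ∈ S ↔ ρ w y ∈ S) := fun w hw =>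
    hxy () w hw
  have h2 : x ∈ S ↔ y ∈ S := by
    have := h1 1 (by simp)
    rwa [one_app, one_app] at this
  constructor
  · rintro ⟨ha, hb⟩
    exact ⟨h2.1 ha, fun w hw hne => (h1 w hw).symm.trans (hb w hw hne)⟩
  · rintro ⟨ha, hb⟩
    exact ⟨h2.2 ha, fun w hw hne => (h1 w hw).trans (hb w hw hne)⟩

theorem le_refl {m : ℕ} (s : St m) : s.Le s := ⟨fun _ => Subset.rfl, fun _ _ => Subset.rfl⟩

theorem le_trans {m : ℕ} {s t u : St m} (h : s.Le t) (h' : t.Le u) : s.Le u :=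
  ⟨fun e => (h'.1 e).trans (h.1 e), fun e i => (h.2 e i).trans (h'.2 e i)⟩

theorem inv_succ {m : ℕ} {ρ : FreeGroup (Fin m) →* Iso} {n v : E3} {S : ℕ → Set E3} {N : ℕ}
    {s : St m} (hs : Inv ρ n v S N s) : Inv ρ n v S (N + 1) s :=
  { hs with
    slab := fun e i x hx => by
      obtain ⟨k, hk, h⟩ := hs.slab e i x hx
      exact ⟨k, hk.trans (Nat.lt_succ_self N), h⟩ }

end CStageAux

open CStageAux

theorem exists_stage {m : ℕ} {ρ : FreeGroup (Fin m) →* Iso} {n v : E3} (hf : FreeAct ρ) (hc : Cover ρ v) {R : ℝ}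
    (hR : ∀ e, ∀ x ∈ vert v e, ‖x‖ ≤ R) {S : ℕ → Set E3} {N : ℕ} (hS : ∀ k ≤ N, Thin ρ R (rad k) (S k))
    (hSt : TameS ρ n v (S N)) {s : St m} (hs : Inv ρ n v S N s) :
    ∃ t : St m, Inv ρ n v S (N + 1) t ∧ s.Le t ∧ ∀ e, ∀ x ∈ S N, x ∉ t.R e := by
  have key : ∀ 𝒯 : Set (Set (FreeGroup (Fin m)) × Bool), 𝒯.Finite →
      ∃ t : St m, Inv ρ n v S (N + 1) t ∧ s.Le t ∧
        ∀ q ∈ 𝒯, ∀ x ∈ KT ρ (S N) (rad N) q.1, x ∉ t.R q.2 := by
    intro 𝒯 h𝒯
    induction 𝒯, h𝒯 using Set.Finite.induction_on with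
    | empty => exact ⟨s, inv_succ hs, le_refl s, fun q hq => absurd hq (notMem_empty q)⟩
    | insert _ _ ih =>
      rename_i q 𝒯' _ _
      obtain ⟨t, ht1, ht2, ht3⟩ := ih
      obtain ⟨u, hu1, hu2, hu3⟩ := exists_step hf hc hR hS ht1 (K := KT ρ (S N) (rad N) q.1)
        (fun x hx => hx.1) (tame_KT (rad N) hSt q.1)
        (fun x hx hxR w hw hwx => KT_sep (hS N le_rfl) hxR hx hw hwx) q.2
      refine ⟨u, hu1, le_trans ht2 hu2, ?_⟩
      intro q' hq' x hx
      rcases mem_insert_iff.1 hq' with rfl | hq'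
      · exact hu3 x hx
      · exact fun hxu => ht3 q' hq' x hx (hu2.1 q'.2 hxu)
  have hfin : ({T : Set (FreeGroup (Fin m)) | T ⊆ {w : FreeGroup (Fin m) | w.norm ≤ rad N}} ×ˢ
      (univ : Set Bool)).Finite := ((finite_words m (rad N)).finite_subsets).prod finite_univ
  obtain ⟨t, ht1, ht2, ht3⟩ := key _ hfin
  refine ⟨t, ht1, ht2, fun e x hx => ?_⟩
  obtain ⟨T, hT, hxT⟩ := KT_cover ρ (rad N) hx
  exact ht3 (T, e) ⟨hT, mem_univ _⟩ x hxT

theorem inv_init {m : ℕ} {ρ : FreeGroup (Fin m) →* Iso} {n v : E3} (hf : FreeAct ρ) (hc : Cover ρ v)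
    (S : ℕ → Set E3) : Inv ρ n v S 0 ⟨vert v, fun _ _ => ∅⟩ := by
  have hall : ∀ e, HallC ρ e (vert v e) (vert v (!e)) := by
    intro e
    refine hall_of_conn ρ e _ _ fun F hF hne hcon => ?_
    obtain ⟨x₀, hx₀⟩ := hne
    have horb : ∀ x ∈ F, ∃ w, x = ρ w x₀ := by
      intro x hx
      obtain ⟨w, _, hw⟩ := dist_conn hcon hx₀ hx
      exact ⟨w, hw⟩
    have hdeg : ∀ x ∈ F, 3 ≤ {i : Fin m | ρ (ltr e i) x ∈ vert v (!e)}.ncard := by
      intro x hx
      have h := hF x hx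
      cases e
      · have h2 := hc.bwd x h
        have h3 : {i : Fin m | ρ (ltr false i) x ∈ vert v (!false)} =
            {i : Fin m | (ρ (FreeGroup.of i))⁻¹ x ∈ src} := by
          ext i
          simp only [mem_ofPred_eq, ltr, Bool.false_eq_true, if_false, Bool.not_false, map_inv]
          rfl
        rw [h3]
        exact h2
      · have h2 := hc.fwd x h
        exact h2
    have h := expand hf e (vert v (!e)) F ⟨x₀, hx₀⟩ x₀ horb hdeg
    omega
  exact
    { sub := fun _ => Subset.rfl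
      cov := fun _ _ hx hx' => absurd hx hx'
      usub := fun _ _ => empty_subset _
      disj := fun _ _ _ _ => disjoint_bot_left
      img := fun _ _ => (image_empty _).symm
      hall := hall
      slab := fun _ _ x hx => absurd hx (notMem_empty x)
      tameR := fun e => tame_vert e
      tameU := fun _ _ => tame_empty }

end Pool.Agent.CBT
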