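import Pool.Agent.Lib.CBT.CDefs

/-!
# CBT.CTame : closure properties of tame sets

* `TameS.of_det`: if `E` is determined (for all pairs of points of `ℝ³`) by finitely many tame sets then `E` is tame (union of the finite
  families).
* `TameS.preimage`: `{x | ρ u x ∈ E}`: replace `half ((ρ w)⁻¹ n) (c - ⟨n, ρ w 0⟩)` (the set `⟨n, ρ w x⟩ < c`) by the datum of the word `w * u`,
  and `ball ((ρ w)⁻¹ p)` (the set `‖ρ w x - p‖ ≤ 1`) by that of `w * u`.
* `tame_vert`: `src = (ball 0).set`, `tgt v = (ball 0).set ∪ (ball v).set` (word `1`).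
* `tame_slab`: `{x | ⟨n,x⟩ ∈ Ico cl cu}` from the two half spaces with word `1`.
* `of_pattern`: index by `ι ×` (words of norm `≤ r`), finite by `finite_words` (in `CDefs`).
-/

set_option autoImplicit false

namespace Pool.Agent.CBT

open Set

variable {m : ℕ} {ρ : FreeGroup (Fin m) →* Iso} {n v : E3}

theorem TameS.of_det {ι : Type} [Finite ι] (P : ι → Set E3) (hP : ∀ i, TameS ρ n v (P i)) {E : Set E3}
    (h : ∀ x y : E3, (∀ i, x ∈ P i ↔ y ∈ P i) → (x ∈ E ↔ y ∈ E)) : TameS ρ n v E := by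
  choose F hF1 hF2 hF3 using hP
  refine ⟨⋃ i, F i, Set.finite_iUnion hF1, iUnion_subset hF2, fun x _ y _ hxy => h x y fun i => ?_⟩
  exact hF3 i x (mem_univ _) y (mem_univ _) fun P hP => hxy P (mem_iUnion.2 ⟨i, hP⟩)

theorem tame_empty : TameS ρ n v (∅ : Set E3) :=
  ⟨∅, Set.finite_empty, empty_subset _, fun _ _ _ _ _ => Iff.rfl⟩

theorem TameS.compl {E : Set E3} (h : TameS ρ n v E) : TameS ρ n v Eᶜ := by
  refine TameS.of_det (ι := Unit) (fun _ => E) (fun _ => h) fun x y hxy => ?_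
  exact not_congr (hxy ())

theorem TameS.union {E F : Set E3} (h : TameS ρ n v E) (h' : TameS ρ n v F) : TameS ρ n v (E ∪ F) := by
  refine TameS.of_det (ι := Bool) (fun b => if b then E else F) (fun b => by cases b <;> assumption)
    fun x y hxy => ?_
  exact or_congr (hxy true) (hxy false)

theorem TameS.inter {E F : Set E3} (h : TameS ρ n v E) (h' : TameS ρ n v F) : TameS ρ n v (E ∩ F) := by
  refine TameS.of_det (ι := Bool) (fun b => if b then E else F) (fun b => by cases b <;> assumption)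
    fun x y hxy => ?_
  exact and_congr (hxy true) (hxy false)

theorem TameS.diff {E F : Set E3} (h : TameS ρ n v E) (h' : TameS ρ n v F) : TameS ρ n v (E \ F) :=
  h.inter h'.compl

theorem iso_apply (g : Iso) (x : E3) : g x = g.linearIsometryEquiv x + g 0 := by
  have h := g.map_vadd (0 : E3) x
  simpa using h

theorem mem_half_iff (w : FreeGroup (Fin m)) (c : ℝ) (x : E3) :
    x ∈ (Basic.half ((ρ w).linearIsometryEquiv.symm n) (c - inner ℝ n (ρ w 0))).set ↔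
      inner ℝ n (ρ w x) < c := by
  have h1 : inner ℝ ((ρ w).linearIsometryEquiv.symm n) x =
      inner ℝ n ((ρ w).linearIsometryEquiv x) := by
    rw [← LinearIsometryEquiv.inner_map_map (ρ w).linearIsometryEquiv,
      LinearIsometryEquiv.apply_symm_apply]
  have h2 : inner ℝ n (ρ w x) = inner ℝ n ((ρ w).linearIsometryEquiv x) + inner ℝ n (ρ w 0) := by
    rw [iso_apply (ρ w) x, inner_add_right]
  change inner ℝ ((ρ w).linearIsometryEquiv.symm n) x < c - inner ℝ n (ρ w 0) ↔ _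
  rw [h1, h2, lt_sub_iff_add_lt]

theorem mem_ball_iff (w : FreeGroup (Fin m)) (p x : E3) :
    x ∈ (Basic.ball ((ρ w)⁻¹ p)).set ↔ ‖ρ w x - p‖ ≤ 1 := by
  change ‖x - (ρ w)⁻¹ p‖ ≤ 1 ↔ _
  have h : p = ρ w ((ρ w)⁻¹ p) := by
    change p = (ρ w * (ρ w)⁻¹) p
    rw [mul_inv_cancel]
    rfl
  have h2 : ‖ρ w x - p‖ = ‖x - (ρ w)⁻¹ p‖ := by
    nth_rewrite 1 [h]
    rw [← dist_eq_norm, ← dist_eq_norm, (ρ w).dist_map]
  rw [h2]

theorem TameS.preimage {E : Set E3} (h : TameS ρ n v E) (u : FreeGroup (Fin m)) :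
    TameS ρ n v {x | ρ u x ∈ E} := by
  obtain ⟨F, hF1, hF2, hF3⟩ := h
  have hmul : ∀ (a b : FreeGroup (Fin m)) (y : E3), ρ a (ρ b y) = ρ (a * b) y := by
    intro a b y
    rw [map_mul]
    rfl
  have key : ∀ P : F, ∃ P' ∈ Adm ρ n v, ∀ x, x ∈ P'.set ↔ ρ u x ∈ (P : Basic).set := by
    rintro ⟨P, hP⟩
    rcases hF2 hP with ⟨w, c, hc, rfl⟩ | ⟨w, p, hp, rfl⟩
    · refine ⟨Basic.half ((ρ (w * u)).linearIsometryEquiv.symm n) (c - inner ℝ n (ρ (w * u) 0)),
        Or.inl ⟨w * u, c, hc, rfl⟩, fun x => ?_⟩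
      rw [mem_half_iff, mem_half_iff, hmul]
    · refine ⟨Basic.ball ((ρ (w * u))⁻¹ p), Or.inr ⟨w * u, p, hp, rfl⟩, fun x => ?_⟩
      rw [mem_ball_iff, mem_ball_iff, hmul]
  choose g hg1 hg2 using key
  have : Finite F := hF1.to_subtype
  refine ⟨range g, finite_range g, range_subset_iff.2 hg1, fun x _ y _ hxy => ?_⟩
  refine hF3 (ρ u x) (mem_univ _) (ρ u y) (mem_univ _) fun P hP => ?_
  rw [← hg2 ⟨P, hP⟩ x, ← hg2 ⟨P, hP⟩ y]
  exact hxy _ ⟨⟨P, hP⟩, rfl⟩

theorem TameS.image {E : Set E3} (h : TameS ρ n v E) (u : FreeGroup (Fin m)) :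
    TameS ρ n v (ρ u '' E) := by
  have : ρ u '' E = {x | ρ u⁻¹ x ∈ E} := by
    ext x
    simp only [mem_image]
    constructor
    · rintro ⟨y, hy, rfl⟩
      change ρ u⁻¹ (ρ u y) ∈ E
      rw [map_inv]
      change ((ρ u)⁻¹ * ρ u) y ∈ E
      rw [inv_mul_cancel]
      exact hy
    · intro hx
      refine ⟨ρ u⁻¹ x, hx, ?_⟩
      rw [map_inv]
      change (ρ u * (ρ u)⁻¹) x = x
      rw [mul_inv_cancel]
      rfl
  rw [this]
  exact h.preimage _

theorem tame_ball (u : E3) (hu : u = 0 ∨ u = v) : TameS ρ n v (Metric.closedBall u 1) := by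
  refine ⟨{Basic.ball ((ρ 1)⁻¹ u)}, Set.finite_singleton _,
    singleton_subset_iff.2 (Or.inr ⟨1, u, hu, rfl⟩), fun x _ y _ hxy => ?_⟩
  have h := hxy _ rfl
  rw [mem_ball_iff, mem_ball_iff, map_one] at h
  rw [mem_closedBall_iff_norm, mem_closedBall_iff_norm]
  exact h

theorem tame_vert (e : Bool) : TameS ρ n v (vert v e) := by
  cases e
  · exact (tame_ball 0 (Or.inl rfl)).union (tame_ball v (Or.inr rfl))
  · exact tame_ball 0 (Or.inl rfl)

theorem tame_slab {cl cu : ℝ} (h1 : cl ∉ badLevel ρ n v) (h2 : cu ∉ badLevel ρ n v) :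
    TameS ρ n v {x | inner ℝ n x ∈ Ico cl cu} := by
  refine ⟨{Basic.half ((ρ 1).linearIsometryEquiv.symm n) (cl - inner ℝ n (ρ 1 0)),
    Basic.half ((ρ 1).linearIsometryEquiv.symm n) (cu - inner ℝ n (ρ 1 0))}, by simp, ?_,
    fun x _ y _ hxy => ?_⟩
  · rintro P (rfl | rfl)
    · exact Or.inl ⟨1, cl, h1, rfl⟩
    · exact Or.inl ⟨1, cu, h2, rfl⟩
  · have e1 := hxy _ (Or.inl rfl)
    have e2 := hxy _ (Or.inr rfl)
    rw [mem_half_iff, mem_half_iff, map_one] at e1 e2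
    change (inner ℝ n x < cl ↔ inner ℝ n y < cl) at e1
    change (inner ℝ n x < cu ↔ inner ℝ n y < cu) at e2
    change (cl ≤ inner ℝ n x ∧ inner ℝ n x < cu) ↔ (cl ≤ inner ℝ n y ∧ inner ℝ n y < cu)
    rw [← not_lt, ← not_lt, e1, e2]

/-- A set defined by the pattern of finitely many tame sets on a word ball. -/
theorem TameS.of_pattern {ι : Type} [Finite ι] (r : ℕ)
    (P : ι → Set E3) (hP : ∀ i, TameS ρ n v (P i)) {E : Set E3}
    (h : ∀ x y : E3, (∀ i, ∀ w : FreeGroup (Fin m), w.norm ≤ r → (ρ w x ∈ P i ↔ ρ w y ∈ P i)) →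
      (x ∈ E ↔ y ∈ E)) : TameS ρ n v E := by
  have : Finite {w : FreeGroup (Fin m) // w.norm ≤ r} := (finite_words m r).to_subtype
  refine TameS.of_det (ι := ι × {w : FreeGroup (Fin m) // w.norm ≤ r})
    (fun q => {x | ρ q.2.1 x ∈ P q.1}) (fun q => (hP q.1).preimage _) fun x y hxy => ?_
  exact h x y fun i w hw => hxy (i, ⟨w, hw⟩)

end Pool.Agent.CBT
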