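import Pool.Agent.Lib.CBT.CHall

/-!
# CBT.CTest : the local Hall test

`Test ρ r N e P Q i x` (for `x ∈ P` on side `e`, candidate partner `ρ (ltr e i) x ∈ Q`): after removing `x` from `P` and the partner from
`Q`, the Hall inequalities hold on both sides for all sets of at most `N` words in the word ball of radius `r` about `x`.

* `Test_local`: the test depends only on the pattern of `P`, `Q` on words of norm `≤ r + 1`.
* `exists_test`: if both Hall conditions hold and `x ∈ P` there is `i` passing the test: take a perfect matching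
  `φ : P → Q` (`hall_bij`), `ρ (ltr e i) x = φ x`.  For a set `Φ` of words `w ≠ 1` with `ρ w x ∈ P`: the points `φ (ρ w x)` are
  distinct, different from `φ x`, in `Q`, and neighbours; they are `ρ (ltr e j * w) x`, and distinct points come from distinct
  words.  Other side: `φ⁻¹`.
* `Test_use`/`Test_use'`: for a finite set `F` of points of `P \ {x}` (resp. of `Q \ {partner}`), `|F| ≤ N`, all of the form `ρ w x` with
  `norm w ≤ r`, the Hall inequality `|F| ≤ |nb F \ {partner}|` (resp. `|F| ≤ |nb F \ {x}|`).  (`Φ = {w | norm w ≤ r, ρ w x ∈ F}`, free action.)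
-/

set_option autoImplicit false

namespace Pool.Agent.CBT

open Set

open Classical in
/-- Words which are neighbours of a finite set of words. -/
noncomputable def nbW {m : ℕ} (e : Bool) (Φ : Finset (FreeGroup (Fin m))) : Finset (FreeGroup (Fin m)) :=
  Φ.biUnion fun w => Finset.univ.image fun i => ltr e i * w

open Classical in
/-- The local Hall test. -/
def Test {m : ℕ} (ρ : FreeGroup (Fin m) →* Iso) (r N : ℕ) (e : Bool) (P Q : Set E3) (i : Fin m) (x : E3) : Prop :=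
  ρ (ltr e i) x ∈ Q ∧
  (∀ Φ : Finset (FreeGroup (Fin m)), (∀ w ∈ Φ, w.norm ≤ r ∧ ρ w x ∈ P ∧ w ≠ 1) → Φ.card ≤ N →
    Φ.card ≤ ((nbW e Φ).filter fun w => ρ w x ∈ Q ∧ w ≠ ltr e i).card) ∧
  (∀ Φ : Finset (FreeGroup (Fin m)), (∀ w ∈ Φ, w.norm ≤ r ∧ ρ w x ∈ Q ∧ w ≠ ltr e i) → Φ.card ≤ N →
    Φ.card ≤ ((nbW (!e) Φ).filter fun w => ρ w x ∈ P ∧ w ≠ 1).card)

namespace CTest

lemma ltr_not {m : ℕ} (e : Bool) (i : Fin m) : ltr (!e) i = (ltr e i)⁻¹ := by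
  cases e <;> simp [ltr]

lemma norm_ltr {m : ℕ} (e : Bool) (i : Fin m) : (ltr e i).norm ≤ 1 := by
  cases e <;> simp [ltr]

lemma mul_app {m : ℕ} (ρ : FreeGroup (Fin m) →* Iso) (a b : FreeGroup (Fin m)) (x : E3) :
    ρ (a * b) x = ρ a (ρ b x) := by
  rw [map_mul]; rfl

lemma one_app {m : ℕ} (ρ : FreeGroup (Fin m) →* Iso) (x : E3) : ρ 1 x = x := by
  rw [map_one]; rfl

lemma free_inj {m : ℕ} {ρ : FreeGroup (Fin m) →* Iso} (hf : FreeAct ρ) {w w' : FreeGroup (Fin m)}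
    {x : E3} (h : ρ w x = ρ w' x) : w = w' := by
  have h1 : ρ (w'⁻¹ * w) x = x := by
    rw [mul_app, h, ← mul_app, inv_mul_cancel, one_app]
  have h2 := hf _ _ h1
  rwa [inv_mul_eq_one, eq_comm] at h2

lemma mem_nbW {m : ℕ} {e : Bool} {Φ : Finset (FreeGroup (Fin m))} {w : FreeGroup (Fin m)} :
    w ∈ nbW e Φ ↔ ∃ w' ∈ Φ, ∃ i, ltr e i * w' = w := by
  unfold nbW
  simp

lemma filt_local {m : ℕ} (ρ : FreeGroup (Fin m) →* Iso) {r : ℕ} (e : Bool) (Q : Set E3) {x y : E3}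
    (u0 : FreeGroup (Fin m)) (hQ : ∀ w : FreeGroup (Fin m), w.norm ≤ r + 1 → (ρ w x ∈ Q ↔ ρ w y ∈ Q))
    (Φ : Finset (FreeGroup (Fin m))) (hΦ : ∀ w ∈ Φ, w.norm ≤ r) (p q : FreeGroup (Fin m) → Prop)
    {ip : DecidablePred p} {iq : DecidablePred q} (hp : ∀ w, p w ↔ (ρ w x ∈ Q ∧ w ≠ u0))
    (hq : ∀ w, q w ↔ (ρ w y ∈ Q ∧ w ≠ u0)) :
    (nbW e Φ).filter p = (nbW e Φ).filter q := by
  apply Finset.filter_congr
  intro w hw
  obtain ⟨w', hw', i, rfl⟩ := mem_nbW.1 hw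
  have h1 : (ltr e i * w').norm ≤ r + 1 := by
    have h2 := FreeGroup.norm_mul_le (ltr e i) w'
    have h3 := norm_ltr e i
    have h4 := hΦ w' hw'
    omega
  rw [hp, hq, hQ _ h1]

lemma local_aux {m : ℕ} (ρ : FreeGroup (Fin m) →* Iso) (r N : ℕ) (e : Bool) (P Q : Set E3) (i : Fin m)
    {x y : E3} (hP : ∀ w : FreeGroup (Fin m), w.norm ≤ r + 1 → (ρ w x ∈ P ↔ ρ w y ∈ P))
    (hQ : ∀ w : FreeGroup (Fin m), w.norm ≤ r + 1 → (ρ w x ∈ Q ↔ ρ w y ∈ Q))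
    (h : Test ρ r N e P Q i x) : Test ρ r N e P Q i y := by
  obtain ⟨h1, h2, h3⟩ := h
  refine ⟨?_, ?_, ?_⟩
  · refine (hQ _ ?_).1 h1
    have := norm_ltr e i
    omega
  · intro Φ hΦ hN
    have h4 := h2 Φ (fun w hw => by
      obtain ⟨a, b, c⟩ := hΦ w hw
      exact ⟨a, (hP w (by omega)).2 b, c⟩) hN
    refine le_trans h4 (le_of_eq (congrArg Finset.card ?_))
    exact filt_local ρ e Q (ltr e i) hQ Φ (fun w hw => (hΦ w hw).1) _ _ (fun _ => Iff.rfl)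
      (fun _ => Iff.rfl)
  · intro Φ hΦ hN
    have h4 := h3 Φ (fun w hw => by
      obtain ⟨a, b, c⟩ := hΦ w hw
      exact ⟨a, (hQ w (by omega)).2 b, c⟩) hN
    refine le_trans h4 (le_of_eq (congrArg Finset.card ?_))
    exact filt_local ρ (!e) P 1 hP Φ (fun w hw => (hΦ w hw).1) _ _ (fun _ => Iff.rfl)
      (fun _ => Iff.rfl)

open Classical in
lemma ex_aux {m : ℕ} {ρ : FreeGroup (Fin m) →* Iso} (hf : FreeAct ρ) {e : Bool} {P Q : Set E3}
    (φ : P → Q) (hi : Function.Injective φ) (hφ : ∀ x : P, ∃ i, ρ (ltr e i) (x : E3) = (φ x : E3))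
    (x : E3) (v0 u0 : FreeGroup (Fin m)) (hv : ρ v0 x ∈ P) (hu : (φ ⟨ρ v0 x, hv⟩ : E3) = ρ u0 x)
    (Φ : Finset (FreeGroup (Fin m))) (hΦ : ∀ w ∈ Φ, ρ w x ∈ P ∧ w ≠ v0) :
    Φ.card ≤ ((nbW e Φ).filter fun w => ρ w x ∈ Q ∧ w ≠ u0).card := by
  choose j hj using hφ
  have hS : ∀ w (hw : w ∈ Φ), ρ (ltr e (j ⟨ρ w x, (hΦ w hw).1⟩) * w) x
      = φ ⟨ρ w x, (hΦ w hw).1⟩ := by
    intro w hw
    rw [mul_app]
    exact hj ⟨ρ w x, (hΦ w hw).1⟩
  apply Finset.card_le_card_of_injOn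
    (fun w => if hw : w ∈ Φ then ltr e (j ⟨ρ w x, (hΦ w hw).1⟩) * w else 1)
  · intro w hw
    have hw' : w ∈ Φ := hw
    simp only [dif_pos hw']
    rw [Finset.mem_coe, Finset.mem_filter, mem_nbW]
    refine ⟨⟨w, hw', _, rfl⟩, ?_, ?_⟩
    · rw [hS w hw']
      exact (φ _).2
    · intro hc
      have h1 := hS w hw'
      rw [hc, ← hu] at h1
      have h2 := hi (Subtype.ext h1)
      have h3 : ρ v0 x = ρ w x := congrArg Subtype.val h2
      exact (hΦ w hw').2 (free_inj hf h3).symm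
  · intro w hw w' hw' hww
    have hw1 : w ∈ Φ := hw
    have hw2 : w' ∈ Φ := hw'
    simp only [dif_pos hw1, dif_pos hw2] at hww
    have h1 := hS w hw1
    rw [hww, hS w' hw2] at h1
    have h2 := hi (Subtype.ext h1)
    have h3 : ρ w' x = ρ w x := congrArg Subtype.val h2
    exact (free_inj hf h3).symm

open Classical in
lemma use_aux {m : ℕ} {ρ : FreeGroup (Fin m) →* Iso} (hf : FreeAct ρ) {r N : ℕ} {e : Bool}
    {P Q : Set E3} {x : E3} (v0 u0 : FreeGroup (Fin m))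
    (h : ∀ Φ : Finset (FreeGroup (Fin m)), (∀ w ∈ Φ, w.norm ≤ r ∧ ρ w x ∈ P ∧ w ≠ v0) → Φ.card ≤ N →
      Φ.card ≤ ((nbW e Φ).filter fun w => ρ w x ∈ Q ∧ w ≠ u0).card)
    (F : Finset E3) (hF : ∀ y ∈ F, y ∈ P ∧ y ≠ ρ v0 x)
    (hN : F.card ≤ N) (hr : ∀ y ∈ F, ∃ w : FreeGroup (Fin m), w.norm ≤ r ∧ y = ρ w x) :
    F.card ≤ ((nb ρ e Q F).erase (ρ u0 x)).card := by
  choose! g hg1 hg2 using hr
  have hinj : Set.InjOn g F := by
    intro a ha b hb hab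
    rw [hg2 a ha, hg2 b hb, hab]
  have hc : (F.image g).card = F.card := Finset.card_image_of_injOn hinj
  have h1 := h (F.image g) (by
    intro w hw
    obtain ⟨y, hy, rfl⟩ := Finset.mem_image.1 hw
    refine ⟨hg1 y hy, ?_, ?_⟩
    · rw [← hg2 y hy]; exact (hF y hy).1
    · intro hc
      apply (hF y hy).2
      rw [hg2 y hy, hc]) (by rw [hc]; exact hN)
  rw [hc] at h1
  refine le_trans h1 ?_
  apply Finset.card_le_card_of_injOn (fun w => ρ w x)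
  · intro w hw
    rw [Finset.mem_coe, Finset.mem_filter, mem_nbW] at hw
    obtain ⟨⟨w', hw', i, rfl⟩, hQ, hne⟩ := hw
    obtain ⟨y, hy, rfl⟩ := Finset.mem_image.1 hw'
    rw [Finset.mem_coe, Finset.mem_erase]
    refine ⟨fun hc => hne (free_inj hf hc), ?_⟩
    unfold nb
    rw [Finset.mem_filter, Finset.mem_biUnion]
    refine ⟨⟨y, hy, ?_⟩, hQ⟩
    rw [Finset.mem_image]
    refine ⟨i, Finset.mem_univ _, ?_⟩
    show ρ (ltr e i) y = ρ (ltr e i * g y) x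
    rw [mul_app, ← hg2 y hy]
  · intro w _ w' _ hww
    exact free_inj hf hww

end CTest

theorem Test_local {m : ℕ} (ρ : FreeGroup (Fin m) →* Iso) (r N : ℕ) (e : Bool) (P Q : Set E3) (i : Fin m)
    {x y : E3} (hP : ∀ w : FreeGroup (Fin m), w.norm ≤ r + 1 → (ρ w x ∈ P ↔ ρ w y ∈ P))
    (hQ : ∀ w : FreeGroup (Fin m), w.norm ≤ r + 1 → (ρ w x ∈ Q ↔ ρ w y ∈ Q)) :
    Test ρ r N e P Q i x ↔ Test ρ r N e P Q i y := by
  constructor
  · exact CTest.local_aux ρ r N e P Q i hP hQ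
  · exact CTest.local_aux ρ r N e P Q i (fun w hw => (hP w hw).symm) (fun w hw => (hQ w hw).symm)

theorem exists_test {m : ℕ} {ρ : FreeGroup (Fin m) →* Iso} (hf : FreeAct ρ) (r N : ℕ) {e : Bool} {P Q : Set E3}
    (h1 : HallC ρ e P Q) (h2 : HallC ρ (!e) Q P) {x : E3} (hx : x ∈ P) : ∃ i, Test ρ r N e P Q i x := by
  obtain ⟨φ, hφ, hφ2⟩ := hall_bij h1 h2
  obtain ⟨i, hi⟩ := hφ2 ⟨x, hx⟩
  have hi' : ρ (ltr e i) x = (φ ⟨x, hx⟩ : E3) := hi
  have hQ : ρ (ltr e i) x ∈ Q := by rw [hi']; exact (φ _).2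
  refine ⟨i, hQ, ?_, ?_⟩
  · intro Φ hΦ _
    refine CTest.ex_aux hf φ hφ.1 hφ2 x 1 (ltr e i) (by rw [CTest.one_app]; exact hx) ?_ Φ
      (fun w hw => (hΦ w hw).2)
    rw [hi']
    congr 2
    exact Subtype.ext (CTest.one_app ρ x)
  · intro Φ hΦ _
    let E := Equiv.ofBijective φ hφ
    have hψ : ∀ y : Q, ∃ j, ρ (ltr (!e) j) (y : E3) = (E.symm y : E3) := by
      intro y
      obtain ⟨j, hj⟩ := hφ2 (E.symm y)
      refine ⟨j, ?_⟩
      have h3 : φ (E.symm y) = y := E.apply_symm_apply y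
      rw [h3] at hj
      rw [← hj, CTest.ltr_not, ← CTest.mul_app, inv_mul_cancel, CTest.one_app]
    refine CTest.ex_aux hf (fun y => E.symm y) E.symm.injective hψ x (ltr e i) 1 hQ ?_ Φ
      (fun w hw => (hΦ w hw).2)
    rw [CTest.one_app]
    have h4 : (⟨ρ (ltr e i) x, hQ⟩ : Q) = E ⟨x, hx⟩ := Subtype.ext hi'
    show ((E.symm ⟨ρ (ltr e i) x, hQ⟩ : P) : E3) = x
    rw [h4, E.symm_apply_apply]

open Classical in
theorem Test_use {m : ℕ} {ρ : FreeGroup (Fin m) →* Iso} (hf : FreeAct ρ) {r N : ℕ} {e : Bool} {P Q : Set E3}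
    {i : Fin m} {x : E3} (h : Test ρ r N e P Q i x) (F : Finset E3) (hF : ∀ y ∈ F, y ∈ P ∧ y ≠ x)
    (hN : F.card ≤ N) (hr : ∀ y ∈ F, ∃ w : FreeGroup (Fin m), w.norm ≤ r ∧ y = ρ w x) :
    F.card ≤ ((nb ρ e Q F).erase (ρ (ltr e i) x)).card := by
  refine CTest.use_aux hf 1 (ltr e i) h.2.1 F ?_ hN hr
  intro y hy
  rw [CTest.one_app]
  exact hF y hy

open Classical in
theorem Test_use' {m : ℕ} {ρ : FreeGroup (Fin m) →* Iso} (hf : FreeAct ρ) {r N : ℕ} {e : Bool} {P Q : Set E3}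
    {i : Fin m} {x : E3} (h : Test ρ r N e P Q i x) (F : Finset E3) (hF : ∀ y ∈ F, y ∈ Q ∧ y ≠ ρ (ltr e i) x)
    (hN : F.card ≤ N) (hr : ∀ y ∈ F, ∃ w : FreeGroup (Fin m), w.norm ≤ r ∧ y = ρ w x) :
    F.card ≤ ((nb ρ (!e) P F).erase x).card := by
  have h1 := CTest.use_aux hf (ltr e i) 1 h.2.2 F hF hN hr
  rwa [CTest.one_app] at h1

end Pool.Agent.CBT
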