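import Pool.Agent.Lib.CBT.CCount
import Pool.Agent.Lib.CBT.CTest
import Pool.Agent.Lib.CBT.CTame

/-!
# CBT.CStep : one step of the construction

Stage `N`, slab `S N`, a tame set `K ⊆ S N` which is separated at word distance `rad N` (inside the norm ball `R`), a side `e`.
Let `s` satisfy `Inv ρ n v S (N+1)`.  Every `x ∈ s.R e ∩ K` is matched with `ρ (ltr e (σ x)) x`, where `σ x` is the least index passing
`Test ρ (rad N) (siz N) e (s.R e) (s.R (!e)) · x` (`exists_test`).  With `K_i = {x ∈ s.R e ∩ K | σ x = i}`: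
`t.R e = s.R e \ K`, `t.R (!e) = s.R (!e) \ ⋃ i, ρ (ltr e i) '' K_i`, `t.U e i = s.U e i ∪ K_i`, `t.U (!e) i = s.U (!e) i ∪ ρ (ltr e i) '' K_i`.

* `sub, cov, usub, img, slab` (`x ∈ K ⊆ S N`): immediate.  `disj` on the side `!e`: if `ρ (ltr e i) x = ρ (ltr e j) x'` with `x, x' ∈ K`, then
  `x' = ρ w x` with `norm w ≤ 2 ≤ rad N`, so `w = 1`, `x = x'`, and `i = j` by freeness; new against old: the new ones were in
  `s.R (!e)`.
* tame: `K_i` is defined by the pattern of `s.R e, s.R (!e)` and `K` on words of norm `≤ rad N + 1` (`Test_local`, `TameS.of_pattern`).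
* `hall`: use `hall_of_conn`; let `F` be nonempty, `ConnFin`.
  If `siz N ≤ |F|`: `count_large` for the new state `t`.
  If `|F| < siz N`, side `e` (`F ⊆ t.R e = s.R e \ K`): let `Z` be the set of `x ∈ s.R e ∩ K` whose partner is in `nb (s.R (!e)) F`.  If
  `Z = ∅`, `nb (t.R (!e)) F = nb (s.R (!e)) F`.  If `x ∈ Z`: by `dist_conn` every `z ∈ F` is `ρ w x` with `norm w ≤ 2(|F|-1) + 2 ≤ rad N`, every
  `x' ∈ Z` is `ρ w x` with `norm w ≤ 2(|F|-1) + 4 ≤ rad N`, so `x' = x` and `nb (t.R (!e)) F = (nb (s.R (!e)) F).erase (partner of x)`; `Test_use`.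
  Side `!e` (`F ⊆ t.R (!e)`): `Z` = the `x ∈ s.R e ∩ K` lying in `nb ρ (!e) (s.R e) F`; same argument, `Test_use'` (the partner of `x` is not in `F`).
-/

set_option autoImplicit false

namespace Pool.Agent.CBT

open Set

namespace CStep

variable {m : ℕ} {ρ : FreeGroup (Fin m) →* Iso} {n v : E3}

lemma mul_app (ρ : FreeGroup (Fin m) →* Iso) (a b : FreeGroup (Fin m)) (x : E3) :
    ρ (a * b) x = ρ a (ρ b x) := by
  rw [map_mul]; rfl

lemma one_app (ρ : FreeGroup (Fin m) →* Iso) (x : E3) : ρ 1 x = x := by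
  rw [map_one]; rfl

lemma inv_app (ρ : FreeGroup (Fin m) →* Iso) (a : FreeGroup (Fin m)) (x : E3) :
    ρ a⁻¹ (ρ a x) = x := by
  rw [← mul_app, inv_mul_cancel, one_app]

lemma ltr_not (e : Bool) (i : Fin m) : ltr (!e) i = (ltr e i)⁻¹ := by
  cases e <;> simp [ltr]

lemma not_app (ρ : FreeGroup (Fin m) →* Iso) (e : Bool) (i : Fin m) (x : E3) :
    ρ (ltr (!e) i) (ρ (ltr e i) x) = x := by
  rw [ltr_not, inv_app]

lemma mem_nb {e : Bool} {Q : Set E3} {F : Finset E3} {y : E3} :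
    y ∈ nb ρ e Q F ↔ y ∈ Q ∧ ∃ x ∈ F, ∃ i, ρ (ltr e i) x = y := by
  classical
  unfold nb
  rw [Finset.mem_filter, Finset.mem_biUnion]
  constructor
  · rintro ⟨⟨x, hx, h⟩, hQ⟩
    obtain ⟨i, _, hi⟩ := Finset.mem_image.1 h
    exact ⟨hQ, x, hx, i, hi⟩
  · rintro ⟨hQ, x, hx, i, hi⟩
    exact ⟨⟨x, hx, Finset.mem_image.2 ⟨i, Finset.mem_univ _, hi⟩⟩, hQ⟩

/-- the least index passing the test is `i` -/
def KK (ρ : FreeGroup (Fin m) →* Iso) (N : ℕ) (e : Bool) (A B K : Set E3) (i : Fin m) : Set E3 :=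
  {x | x ∈ A ∧ x ∈ K ∧ Test ρ (rad N) (siz N) e A B i x ∧
    ∀ j < i, ¬ Test ρ (rad N) (siz N) e A B j x}

lemma KK_tame {N : ℕ} {e : Bool} {A B K : Set E3} (hA : TameS ρ n v A) (hB : TameS ρ n v B)
    (hK : TameS ρ n v K) (i : Fin m) : TameS ρ n v (KK ρ N e A B K i) := by
  refine TameS.of_pattern (ι := Fin 3) (rad N + 1) ![A, B, K] (fun k => ?_) fun x y hxy => ?_
  · fin_cases k
    · exact hA
    · exact hB
    · exact hK
  · have h0 : (1 : FreeGroup (Fin m)).norm ≤ rad N + 1 := by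
      rw [FreeGroup.norm_one]
      omega
    have hA' : ∀ w : FreeGroup (Fin m), w.norm ≤ rad N + 1 → (ρ w x ∈ A ↔ ρ w y ∈ A) :=
      fun w hw => hxy 0 w hw
    have hB' : ∀ w : FreeGroup (Fin m), w.norm ≤ rad N + 1 → (ρ w x ∈ B ↔ ρ w y ∈ B) :=
      fun w hw => hxy 1 w hw
    have hK' : ∀ w : FreeGroup (Fin m), w.norm ≤ rad N + 1 → (ρ w x ∈ K ↔ ρ w y ∈ K) :=
      fun w hw => hxy 2 w hw
    have e1 := hA' 1 h0
    have e3 := hK' 1 h0
    rw [one_app, one_app] at e1 e3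
    have e4 : ∀ j, Test ρ (rad N) (siz N) e A B j x ↔ Test ρ (rad N) (siz N) e A B j y :=
      fun j => Test_local ρ (rad N) (siz N) e A B j hA' hB'
    unfold KK
    simp only [mem_ofPred_eq]
    rw [e1, e3, e4 i]
    simp only [e4]

lemma KK_exists {N : ℕ} {e : Bool} {A B K : Set E3} (hf : FreeAct ρ) (h1 : HallC ρ e A B)
    (h2 : HallC ρ (!e) B A) {x : E3} (hx : x ∈ A) (hxK : x ∈ K) : ∃ i, x ∈ KK ρ N e A B K i := by
  have hne : {i : Fin m | Test ρ (rad N) (siz N) e A B i x}.Nonempty :=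
    exists_test hf (rad N) (siz N) h1 h2 hx
  refine ⟨wellFounded_lt.min _ hne, hx, hxK, wellFounded_lt.min_mem _ hne, fun j hj hT => ?_⟩
  have hT' : j ∈ {i : Fin m | Test ρ (rad N) (siz N) e A B i x} := hT
  exact wellFounded_lt.not_lt_min _ hT' hj

lemma KK_unique {N : ℕ} {e : Bool} {A B K : Set E3} {i j : Fin m} {x : E3}
    (hi : x ∈ KK ρ N e A B K i) (hj : x ∈ KK ρ N e A B K j) : i = j := by
  rcases lt_trichotomy i j with h | h | h
  · exact absurd hi.2.2.1 (hj.2.2.2 i h)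
  · exact h
  · exact absurd hj.2.2.1 (hi.2.2.2 j h)

lemma two_le_rad (N : ℕ) : 24 * (N + 1) ≤ rad N := by
  unfold rad
  have : N + 1 ≤ 2 ^ N := Nat.lt_two_pow_self
  omega

/-- Small sets on the side `e`. -/
lemma small_e {N : ℕ} {e : Bool} {A B K : Set E3} {R : ℝ} (hf : FreeAct ρ) (hAR : ∀ x ∈ A, ‖x‖ ≤ R)
    (hK : ∀ x ∈ K, ‖x‖ ≤ R → ∀ w : FreeGroup (Fin m), w.norm ≤ rad N → ρ w x ∈ K → w = 1)
    (h1 : HallC ρ e A B) (F : Finset E3) (hF : ∀ x ∈ F, x ∈ A \ K) (hc : ConnFin (adj ρ e) F)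
    (hs : F.card < siz N) :
    F.card ≤ (nb ρ e (B \ ⋃ i, ρ (ltr e i) '' KK ρ N e A B K i) F).card := by
  classical
  by_cases h : ∃ i, ∃ x ∈ KK ρ N e A B K i, ρ (ltr e i) x ∈ nb ρ e B F
  · obtain ⟨i, x, hx, hy⟩ := h
    obtain ⟨hyB, z, hz, k, hk⟩ := mem_nb.1 hy
    have hnl := @ccount_norm_ltr_le m
    have hrad := two_le_rad N
    have hsiz : siz N = 12 * (N + 1) := rfl
    have hzx : z = ρ ((ltr e k)⁻¹ * ltr e i) x := by
      rw [mul_app, ← hk, inv_app]
    -- all points of `F` are near `x`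
    have hnear : ∀ z' ∈ F, ∃ w : FreeGroup (Fin m), w.norm ≤ 2 * (F.card - 1) + 2 ∧ z' = ρ w x := by
      intro z' hz'
      obtain ⟨w, hw, hw'⟩ := dist_conn hc hz hz'
      refine ⟨w * ((ltr e k)⁻¹ * ltr e i), ?_, ?_⟩
      · have a1 := FreeGroup.norm_mul_le w ((ltr e k)⁻¹ * ltr e i)
        have a2 := FreeGroup.norm_mul_le (ltr e k)⁻¹ (ltr e i)
        have a3 := hnl e i
        have a4 := hnl e k
        rw [FreeGroup.norm_inv_eq] at a2
        omega
      · rw [mul_app, ← hzx]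
        exact hw'
    have hT := Test_use hf hx.2.2.1 F (fun y hy => ⟨(hF y hy).1, fun h => (hF y hy).2 (h ▸ hx.2.1)⟩)
      hs.le (fun y hy => by
        obtain ⟨w, hw, hw'⟩ := hnear y hy
        exact ⟨w, by omega, hw'⟩)
    refine hT.trans (Finset.card_le_card fun q hq => ?_)
    obtain ⟨hqy, hq⟩ := Finset.mem_erase.1 hq
    obtain ⟨hqB, z2, hz2, k2, hk2⟩ := mem_nb.1 hq
    refine mem_nb.2 ⟨⟨hqB, fun hqY => hqy ?_⟩, z2, hz2, k2, hk2⟩
    obtain ⟨j, x', hx', hq'⟩ := mem_iUnion.1 hqY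
    obtain ⟨w, hw, hw'⟩ := hnear z2 hz2
    have hx'' : x' = ρ ((ltr e j)⁻¹ * (ltr e k2 * w)) x := by
      rw [mul_app, mul_app, ← hw', hk2, ← hq', inv_app]
    have hw1 : (ltr e j)⁻¹ * (ltr e k2 * w) = 1 := by
      refine hK x hx.2.1 (hAR x hx.1) _ ?_ (hx'' ▸ hx'.2.1)
      have a1 := FreeGroup.norm_mul_le (ltr e j)⁻¹ (ltr e k2 * w)
      have a2 := FreeGroup.norm_mul_le (ltr e k2) w
      have a3 := hnl e j
      have a4 := hnl e k2
      rw [FreeGroup.norm_inv_eq] at a1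
      omega
    rw [hw1, one_app] at hx''
    subst hx''
    rw [← hq', KK_unique hx' hx]
  · have : nb ρ e B F ⊆ nb ρ e (B \ ⋃ i, ρ (ltr e i) '' KK ρ N e A B K i) F := by
      intro q hq
      obtain ⟨hqB, z2, hz2, k2, hk2⟩ := mem_nb.1 hq
      refine mem_nb.2 ⟨⟨hqB, fun hqY => h ?_⟩, z2, hz2, k2, hk2⟩
      obtain ⟨j, x', hx', hq'⟩ := mem_iUnion.1 hqY
      exact ⟨j, x', hx', by rw [hq']; exact hq⟩
    exact (h1 F fun x hx => (hF x hx).1).trans (Finset.card_le_card this)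

/-- Small sets on the other side. -/
lemma small_ne {N : ℕ} {e : Bool} {A B K : Set E3} {R : ℝ} (hf : FreeAct ρ) (hAR : ∀ x ∈ A, ‖x‖ ≤ R)
    (hK : ∀ x ∈ K, ‖x‖ ≤ R → ∀ w : FreeGroup (Fin m), w.norm ≤ rad N → ρ w x ∈ K → w = 1)
    (h1 : HallC ρ e A B) (h2 : HallC ρ (!e) B A) (F : Finset E3)
    (hF : ∀ x ∈ F, x ∈ B \ ⋃ i, ρ (ltr e i) '' KK ρ N e A B K i)
    (hc : ConnFin (adj ρ (!e)) F) (hs : F.card < siz N) :
    F.card ≤ (nb ρ (!e) (A \ K) F).card := by
  classical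
  by_cases h : ∃ x ∈ K, x ∈ nb ρ (!e) A F
  · obtain ⟨x, hxK, hy⟩ := h
    obtain ⟨hxA, z, hz, k, hk⟩ := mem_nb.1 hy
    obtain ⟨i, hx⟩ := KK_exists (N := N) hf h1 h2 hxA hxK
    have hnl := @ccount_norm_ltr_le m
    have hrad := two_le_rad N
    have hsiz : siz N = 12 * (N + 1) := rfl
    have hzx : z = ρ (ltr (!e) k)⁻¹ x := by
      rw [← hk, inv_app]
    have hnear : ∀ z' ∈ F, ∃ w : FreeGroup (Fin m), w.norm ≤ 2 * (F.card - 1) + 1 ∧ z' = ρ w x := by
      intro z' hz'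
      obtain ⟨w, hw, hw'⟩ := dist_conn hc hz hz'
      refine ⟨w * (ltr (!e) k)⁻¹, ?_, ?_⟩
      · have a1 := FreeGroup.norm_mul_le w (ltr (!e) k)⁻¹
        have a4 := hnl (!e) k
        rw [FreeGroup.norm_inv_eq] at a1
        omega
      · rw [mul_app, ← hzx]
        exact hw'
    have hT := Test_use' hf hx.2.2.1 F (fun y hy => ⟨(hF y hy).1, fun h => (hF y hy).2
      (mem_iUnion.2 ⟨i, x, hx, h.symm⟩)⟩) hs.le (fun y hy => by
        obtain ⟨w, hw, hw'⟩ := hnear y hy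
        exact ⟨w, by omega, hw'⟩)
    refine hT.trans (Finset.card_le_card fun q hq => ?_)
    obtain ⟨hqx, hq⟩ := Finset.mem_erase.1 hq
    obtain ⟨hqA, z2, hz2, k2, hk2⟩ := mem_nb.1 hq
    refine mem_nb.2 ⟨⟨hqA, fun hqK => hqx ?_⟩, z2, hz2, k2, hk2⟩
    obtain ⟨w, hw, hw'⟩ := hnear z2 hz2
    have hq'' : q = ρ (ltr (!e) k2 * w) x := by
      rw [mul_app, ← hw', hk2]
    have hw1 : ltr (!e) k2 * w = 1 := by
      refine hK x hxK (hAR x hxA) _ ?_ (hq'' ▸ hqK)
      have a2 := FreeGroup.norm_mul_le (ltr (!e) k2) w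
      have a4 := hnl (!e) k2
      omega
    rw [hq'', hw1, one_app]
  · have : nb ρ (!e) A F ⊆ nb ρ (!e) (A \ K) F := by
      intro q hq
      obtain ⟨hqA, z2, hz2, k2, hk2⟩ := mem_nb.1 hq
      exact mem_nb.2 ⟨⟨hqA, fun hqK => h ⟨q, hqK, hq⟩⟩, z2, hz2, k2, hk2⟩
    exact (h2 F fun x hx => (hF x hx).1).trans (Finset.card_le_card this)

end CStep

open CStep in
theorem exists_step {m : ℕ} {ρ : FreeGroup (Fin m) →* Iso} {n v : E3} (hf : FreeAct ρ) (hc : Cover ρ v) {R : ℝ}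
    (hR : ∀ e, ∀ x ∈ vert v e, ‖x‖ ≤ R) {S : ℕ → Set E3} {N : ℕ} (hS : ∀ k ≤ N, Thin ρ R (rad k) (S k))
    {s : St m} (hs : Inv ρ n v S (N + 1) s) {K : Set E3} (hKS : K ⊆ S N) (hKt : TameS ρ n v K)
    (hK : ∀ x ∈ K, ‖x‖ ≤ R → ∀ w : FreeGroup (Fin m), w.norm ≤ rad N → ρ w x ∈ K → w = 1) (e : Bool) :
    ∃ t : St m, Inv ρ n v S (N + 1) t ∧ s.Le t ∧ ∀ x ∈ K, x ∉ t.R e := by
  classical
  have hnl := @ccount_norm_ltr_le m
  have hrad := two_le_rad N
  set A := s.R e with hAdef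
  set B := s.R (!e) with hBdef
  have hAB : HallC ρ e A B := hs.hall e
  have hBA : HallC ρ (!e) B A := by
    have := hs.hall (!e)
    rwa [Bool.not_not] at this
  have hAR : ∀ x ∈ A, ‖x‖ ≤ R := fun x hx => hR e x (hs.sub e hx)
  set k : Fin m → Set E3 := KK ρ N e A B K with hk
  set Y : Set E3 := ⋃ i, ρ (ltr e i) '' k i with hY
  have hee : ∀ b : Bool, b = e ∨ b = !e := by
    intro b
    cases b <;> cases e <;> simp
  have hne : (!e) ≠ e := by cases e <;> simp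
  let t : St m :=
    { R := fun b => if b = e then A \ K else B \ Y
      U := fun b i => if b = e then s.U e i ∪ k i else s.U (!e) i ∪ ρ (ltr e i) '' k i }
  have tR : t.R e = A \ K := if_pos rfl
  have tR' : t.R (!e) = B \ Y := if_neg hne
  have tU : ∀ i, t.U e i = s.U e i ∪ k i := fun i => if_pos rfl
  have tU' : ∀ i, t.U (!e) i = s.U (!e) i ∪ ρ (ltr e i) '' k i := fun i => if_neg hne
  have kex : ∀ x ∈ A, x ∈ K → ∃ i, x ∈ k i := fun x hx hxK => KK_exists hf hAB hBA hx hxK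
  have kB : ∀ i, ∀ x ∈ k i, ρ (ltr e i) x ∈ B := fun i x hx => hx.2.2.1.1
  have kinj : ∀ i j x x', x ∈ k i → x' ∈ k j → ρ (ltr e i) x = ρ (ltr e j) x' → x = x' ∧ i = j := by
    intro i j x x' hx hx' h
    have hxx : x' = ρ ((ltr e j)⁻¹ * ltr e i) x := by
      rw [mul_app, h, inv_app]
    have h1 : (ltr e j)⁻¹ * ltr e i = 1 := by
      refine hK x hx.2.1 (hAR x hx.1) _ ?_ (hxx ▸ hx'.2.1)
      have a1 := FreeGroup.norm_mul_le (ltr e j)⁻¹ (ltr e i)
      have a3 := hnl e i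
      have a4 := hnl e j
      rw [FreeGroup.norm_inv_eq] at a1
      omega
    rw [h1, one_app] at hxx
    subst hxx
    exact ⟨rfl, KK_unique hx hx'⟩
  have cov : ∀ b, ∀ x ∈ vert v b, x ∉ t.R b → ∃ i, x ∈ t.U b i := by
    intro b x hx hxt
    rcases hee b with rfl | rfl
    · rw [tR] at hxt
      by_cases hxA : x ∈ A
      · obtain ⟨i, hi⟩ := kex x hxA (by_contra fun h => hxt ⟨hxA, h⟩)
        exact ⟨i, by rw [tU]; exact Or.inr hi⟩
      · obtain ⟨i, hi⟩ := hs.cov _ x hx hxA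
        exact ⟨i, by rw [tU]; exact Or.inl hi⟩
    · rw [tR'] at hxt
      by_cases hxB : x ∈ B
      · have hxY : x ∈ Y := by_contra fun h => hxt ⟨hxB, h⟩
        obtain ⟨i, hi⟩ := mem_iUnion.1 hxY
        exact ⟨i, by rw [tU']; exact Or.inr hi⟩
      · obtain ⟨i, hi⟩ := hs.cov _ x hx hxB
        exact ⟨i, by rw [tU']; exact Or.inl hi⟩
  have disj : ∀ b i j, i ≠ j → Disjoint (t.U b i) (t.U b j) := by
    intro b i j hij
    rcases hee b with rfl | rfl
    · rw [tU, tU, Set.disjoint_left]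
      rintro x (hx | hx) (hx' | hx')
      · exact Set.disjoint_left.1 (hs.disj _ i j hij) hx hx'
      · exact (hs.usub _ i hx).2 hx'.1
      · exact (hs.usub _ j hx').2 hx.1
      · exact hij (KK_unique hx hx')
    · rw [tU', tU', Set.disjoint_left]
      rintro x (hx | hx) (hx' | hx')
      · exact Set.disjoint_left.1 (hs.disj _ i j hij) hx hx'
      · obtain ⟨y, hy, rfl⟩ := hx'
        exact (hs.usub _ i hx).2 (kB j y hy)
      · obtain ⟨y, hy, rfl⟩ := hx
        exact (hs.usub _ j hx').2 (kB i y hy)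
      · obtain ⟨y, hy, rfl⟩ := hx
        obtain ⟨y', hy', h⟩ := hx'
        exact hij (kinj i j y y' hy hy' h.symm).2
  have img : ∀ b i, t.U (!b) i = ρ (ltr b i) '' t.U b i := by
    intro b i
    rcases hee b with rfl | rfl
    · rw [tU, tU', image_union, hs.img]
    · rw [tU', Bool.not_not, tU, image_union, ← hs.img, Bool.not_not, image_image]
      congr 1
      simp only [not_app, image_id']
  have slab : ∀ b i, ∀ x ∈ t.U b i, ∃ q < N + 1, x ∈ S q ∨ ρ (ltr b i) x ∈ S q := by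
    intro b i x hx
    rcases hee b with rfl | rfl
    · rw [tU] at hx
      rcases hx with hx | hx
      · exact hs.slab _ i x hx
      · exact ⟨N, Nat.lt_succ_self N, Or.inl (hKS hx.2.1)⟩
    · rw [tU'] at hx
      rcases hx with hx | hx
      · exact hs.slab _ i x hx
      · obtain ⟨y, hy, rfl⟩ := hx
        exact ⟨N, Nat.lt_succ_self N, Or.inr (by rw [not_app]; exact hKS hy.2.1)⟩
  have hsub : ∀ b, t.R b ⊆ s.R b := by
    intro b
    rcases hee b with rfl | rfl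
    · rw [tR]
      exact sdiff_subset
    · rw [tR']
      exact sdiff_subset
  have hkt : ∀ i, TameS ρ n v (k i) := fun i => KK_tame (hs.tameR e) (hs.tameR (!e)) hKt i
  refine ⟨t, ⟨fun b => (hsub b).trans (hs.sub b), cov, ?_, disj, img, ?_, slab, ?_, ?_⟩,
    ⟨hsub, ?_⟩, ?_⟩
  · -- usub
    intro b i x hx
    rcases hee b with rfl | rfl
    · rw [tU] at hx
      rw [tR]
      rcases hx with hx | hx
      · have h := hs.usub _ i hx
        exact ⟨h.1, fun h' => h.2 h'.1⟩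
      · exact ⟨hs.sub _ hx.1, fun h' => h'.2 hx.2.1⟩
    · rw [tU'] at hx
      rw [tR']
      rcases hx with hx | hx
      · have h := hs.usub _ i hx
        exact ⟨h.1, fun h' => h.2 h'.1⟩
      · refine ⟨?_, fun h' => h'.2 (mem_iUnion.2 ⟨i, hx⟩)⟩
        obtain ⟨y, hy, rfl⟩ := hx
        exact hs.sub _ (kB i y hy)
  · -- hall
    intro b
    refine hall_of_conn ρ b _ _ fun F hF hFne hFc => ?_
    by_cases hbig : siz N ≤ F.card
    · exact count_large hf hc hR hS t cov disj img slab b F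
        (fun x hx => hs.sub b (hsub b (hF x hx))) hFne hFc hbig
    · push Not at hbig
      rcases hee b with rfl | rfl
      · rw [tR] at hF
        rw [tR']
        exact small_e hf hAR hK hAB F hF hFc hbig
      · rw [tR'] at hF
        rw [Bool.not_not, tR]
        exact small_ne hf hAR hK hAB hBA F hF hFc hbig
  · -- tameR
    intro b
    rcases hee b with rfl | rfl
    · rw [tR]
      exact (hs.tameR _).diff hKt
    · rw [tR']
      refine (hs.tameR _).diff ?_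
      refine TameS.of_det (fun i : Fin m => ρ (ltr e i) '' k i) (fun i => (hkt i).image _)
        fun x y hxy => ?_
      rw [hY, mem_iUnion, mem_iUnion]
      exact exists_congr hxy
  · -- tameU
    intro b i
    rcases hee b with rfl | rfl
    · rw [tU]
      exact (hs.tameU _ i).union (hkt i)
    · rw [tU']
      exact (hs.tameU _ i).union ((hkt i).image _)
  · -- extension
    intro b i
    rcases hee b with rfl | rfl
    · rw [tU]
      exact subset_union_left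
    · rw [tU']
      exact subset_union_left
  · intro x hx
    rw [tR]
    exact fun h => h.2 hx

end Pool.Agent.CBT
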