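import Pool.Agent.Lib.CBT.Defs

/-!
# CBT.Mono : half spaces and outsides of balls are monotone in slices

In a slice `co b · 0 = s`: `y - x = (y1-x1) b1 + (y2-x2) b2`.
* half space: `⟨a,y⟩ - ⟨a,x⟩ = (y1-x1)⟨a,b1⟩ + (y2-x2)⟨a,b2⟩ ≤ 0` when `θi ⟨b i, a⟩ ≤ 0` and `θi (yi-xi) > 0`.
* ball: in the half open quadrant about `p` in the direction `θ`, moving in the direction of `θ` stays in the quadrant and
  `‖y-p‖² = (s-p0)² + (y1-p1)² + (y2-p2)²` grows.
-/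

set_option autoImplicit false

namespace Pool.Agent.CBT

open Set Metric

/-- half open half line in direction `θ` -/
def quad (θ r : ℝ) : Prop := (θ = 1 ∧ 0 ≤ r) ∨ (θ = -1 ∧ r < 0)

namespace MonoAux

lemma inner_sub_eq (b : Frame) (a x y : E3) :
    inner ℝ a y - inner ℝ a x = (co b y 0 - co b x 0) * inner ℝ (b 0) a +
      (co b y 1 - co b x 1) * inner ℝ (b 1) a + (co b y 2 - co b x 2) * inner ℝ (b 2) a := by
  have h := b.sum_inner_mul_inner a (y - x)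
  rw [Fin.sum_univ_three] at h
  simp only [inner_sub_right] at h
  rw [← h]
  unfold co
  rw [real_inner_comm a (b 0), real_inner_comm a (b 1), real_inner_comm a (b 2)]
  ring

lemma norm_sq_eq (b : Frame) (p y : E3) :
    ‖y - p‖ ^ 2 = (co b y 0 - co b p 0) ^ 2 + (co b y 1 - co b p 1) ^ 2 +
      (co b y 2 - co b p 2) ^ 2 := by
  have h := b.sum_inner_mul_inner (y - p) (y - p)
  rw [Fin.sum_univ_three, real_inner_self_eq_norm_sq] at h
  rw [← h, real_inner_comm (b 0) (y - p), real_inner_comm (b 1) (y - p),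
    real_inner_comm (b 2) (y - p)]
  simp only [inner_sub_right]
  unfold co
  ring

lemma mul_nonpos_of {θ d e : ℝ} (h : θ = 1 ∨ θ = -1) (he : θ * e ≤ 0) (hd : 0 < θ * d) :
    d * e ≤ 0 := by
  rcases h with rfl | rfl
  · nlinarith
  · nlinarith

lemma quad_step {θ p x y : ℝ} (q : quad θ (x - p)) (h : 0 < θ * (y - x)) :
    (x - p) ^ 2 ≤ (y - p) ^ 2 ∧ quad θ (y - p) := by
  rcases q with ⟨rfl, hr⟩ | ⟨rfl, hr⟩
  · have hyx : x < y := by linarith
    refine ⟨?_, Or.inl ⟨rfl, by linarith⟩⟩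
    exact pow_le_pow_left₀ hr (by linarith) 2
  · have hyx : y < x := by linarith
    refine ⟨?_, Or.inr ⟨rfl, by linarith⟩⟩
    nlinarith

end MonoAux

open MonoAux

theorem mono_half (b : Frame) (a : E3) (c : ℝ) {θ1 θ2 : ℝ} (h1 : θ1 = 1 ∨ θ1 = -1) (h2 : θ2 = 1 ∨ θ2 = -1)
    (ha1 : θ1 * inner ℝ (b 1) a ≤ 0) (ha2 : θ2 * inner ℝ (b 2) a ≤ 0) {x y : E3}
    (hx : x ∈ (Basic.half a c).set) (h0 : co b y 0 = co b x 0) (hy1 : 0 < θ1 * (co b y 1 - co b x 1))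
    (hy2 : 0 < θ2 * (co b y 2 - co b x 2)) : y ∈ (Basic.half a c).set := by
  have hx' : inner ℝ a x < c := hx
  show inner ℝ a y < c
  have e := inner_sub_eq b a x y
  have e1 := mul_nonpos_of h1 ha1 hy1
  have e2 := mul_nonpos_of h2 ha2 hy2
  rw [h0, sub_self, zero_mul] at e
  linarith

theorem mono_ball (b : Frame) (p : E3) {θ1 θ2 : ℝ} (h1 : θ1 = 1 ∨ θ1 = -1) (h2 : θ2 = 1 ∨ θ2 = -1)
    {x y : E3} (hx : x ∉ (Basic.ball p).set) (q1 : quad θ1 (co b x 1 - co b p 1))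
    (q2 : quad θ2 (co b x 2 - co b p 2)) (h0 : co b y 0 = co b x 0)
    (hy1 : 0 < θ1 * (co b y 1 - co b x 1)) (hy2 : 0 < θ2 * (co b y 2 - co b x 2)) :
    y ∉ (Basic.ball p).set ∧ quad θ1 (co b y 1 - co b p 1) ∧ quad θ2 (co b y 2 - co b p 2) := by
  have _ := h1
  have _ := h2
  obtain ⟨s1, t1⟩ := quad_step q1 hy1
  obtain ⟨s2, t2⟩ := quad_step q2 hy2
  refine ⟨?_, t1, t2⟩
  have hx' : 1 < ‖x - p‖ := not_le.1 hx
  intro hy
  have hy' : ‖y - p‖ ≤ 1 := hy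
  have ex := norm_sq_eq b p x
  have ey := norm_sq_eq b p y
  rw [h0] at ey
  have hn := norm_nonneg (y - p)
  nlinarith

end Pool.Agent.CBT
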