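import Pool.Agent.Lib.CBT.Slab
import Pool.Agent.Lib.CBT.Mono

/-!
# CBT.CellSep : cell unions and cellwise basic sets are separated

`k : ℝ → ℕ` measurable (slab index of the height `s`), `J : ℕ → ℕ` (scale of the slab), cells of `x`: `cell b (J (k s)) x`.

* `sep_cellUnion`: `{x | (k s, cell) ∈ T}` is Borel (countable union over `(k,q) ∈ T` of Borel sets) and `CellMono` for `θ = (1,1)`.
* `sep_cellBasic`: let `P : ℕ → ℤ × ℤ → Basic`.  `G = {x | x ∈ (P (k s) (cell)).set}`.  By `sep_of_det` it is a Boolean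
  combination of the sets (`θ ∈ {1,-1}²`):
  `H_θ = {x | P(cell) = half a c for some a c with θ1 ⟨b 1,a⟩ ≤ 0, θ2 ⟨b 2,a⟩ ≤ 0, and x ∈ half a c}` (CellMono θ, `mono_half`),
  `N_θ = {x | P(cell) = ball p for some p, x ∉ ball p, quad θ1 (x1 - p1), quad θ2 (x2 - p2)}` (CellMono θ, `mono_ball`),
  `T_ball = {x | P(cell) is a ball}` (cell union): indeed `x ∈ G` iff `x` is in some `H_θ`, or `x ∈ T_ball` and in no `N_θ`.
  Measurability: countable unions over `(k,q)` of Borel sets.
-/

set_option autoImplicit false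

namespace Pool.Agent.CBT

open Set Metric

namespace CellSepAux

/-- slab index and cell of a point -/
noncomputable def idx (b : Frame) (k : ℝ → ℕ) (J : ℕ → ℕ) (x : E3) : ℕ × ℤ × ℤ :=
  (k (co b x 0), cell b (J (k (co b x 0))) x)

theorem measurable_co (b : Frame) (i : Fin 3) : Measurable (fun x : E3 => co b x i) := by
  unfold co
  exact (continuous_const.inner continuous_id).measurable

theorem measurable_idx (b : Frame) {k : ℝ → ℕ} (hk : Measurable k) (J : ℕ → ℕ) :
    Measurable (idx b k J) := by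
  have h0 : Measurable (fun x : E3 => k (co b x 0)) := hk.comp (measurable_co b 0)
  have h1 : Measurable (fun x : E3 => side (J (k (co b x 0)))) := by
    have h2 : Measurable (fun n : ℕ => side (J n)) := measurable_of_countable _
    exact h2.comp h0
  refine h0.prodMk (Measurable.prodMk ?_ ?_)
  · exact ((measurable_co b 1).div h1).floor
  · exact ((measurable_co b 2).div h1).floor

theorem measurableSet_idx (b : Frame) {k : ℝ → ℕ} (hk : Measurable k) (J : ℕ → ℕ)
    (R : ℕ × ℤ × ℤ → Set E3) (hR : ∀ z, MeasurableSet (R z)) :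
    MeasurableSet {x | x ∈ R (idx b k J x)} := by
  have h : {x | x ∈ R (idx b k J x)} = ⋃ z, (idx b k J ⁻¹' {z} ∩ R z) := by
    ext x
    simp only [Set.mem_ofPred_eq, Set.mem_iUnion, Set.mem_inter_iff, Set.mem_preimage,
      Set.mem_singleton_iff]
    constructor
    · intro hx
      exact ⟨_, rfl, hx⟩
    · rintro ⟨z, hz, hx⟩
      rw [hz]
      exact hx
  rw [h]
  exact MeasurableSet.iUnion fun z =>
    ((measurable_idx b hk J) (measurableSet_singleton z)).inter (hR z)

theorem sep_idx (b : Frame) {k : ℝ → ℕ} (hk : Measurable k) (J : ℕ → ℕ) {X : Set E3}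
    (hX : Bornology.IsBounded X) (R : ℕ × ℤ × ℤ → Set E3) (hR : ∀ z, MeasurableSet (R z))
    {θ1 θ2 : ℝ} (h1 : θ1 = 1 ∨ θ1 = -1) (h2 : θ2 = 1 ∨ θ2 = -1)
    (h : ∀ z, ∀ x ∈ R z, ∀ y : E3, co b y 0 = co b x 0 → 0 < θ1 * (co b y 1 - co b x 1) →
      0 < θ2 * (co b y 2 - co b x 2) → y ∈ R z) :
    Sep X {x | x ∈ R (idx b k J x)} := by
  refine sep_cellMono b (fun s => J (k s)) ?_ hX
    (measurableSet_idx b hk J R hR).baireMeasurableSet h1 h2 ?_
  · have h3 : Measurable J := measurable_of_countable _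
    exact h3.comp hk
  · intro x _ hx y _ hs hc hy1 hy2
    have h3 : idx b k J y = idx b k J x := by
      unfold idx
      rw [hs]
      exact Prod.ext rfl hc
    show y ∈ R (idx b k J y)
    rw [h3]
    exact h _ x hx y hs hy1 hy2

/-- the half spaces which are monotone in the direction of the quadrant -/
def HB (b : Frame) (θ1 θ2 : ℝ) : Basic → Set E3
  | .half a c => {x | (θ1 * inner ℝ (b 1) a ≤ 0 ∧ θ2 * inner ℝ (b 2) a ≤ 0) ∧ inner ℝ a x < c}
  | .ball _ => ∅

/-- the parts of the outside of the balls which are monotone in the direction of the quadrant -/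
def NB (b : Frame) (θ1 θ2 : ℝ) : Basic → Set E3
  | .half _ _ => ∅
  | .ball p => {x | ¬ ‖x - p‖ ≤ 1 ∧ quad θ1 (co b x 1 - co b p 1) ∧ quad θ2 (co b x 2 - co b p 2)}

/-- is it a ball -/
def IsB : Basic → Prop
  | .half _ _ => False
  | .ball _ => True

theorem measurableSet_HB (b : Frame) (θ1 θ2 : ℝ) (P : Basic) : MeasurableSet (HB b θ1 θ2 P) := by
  cases P with
  | half a c =>
    have h : Measurable (fun x : E3 => (inner ℝ a x : ℝ)) :=
      (continuous_const.inner continuous_id).measurable
    exact (MeasurableSet.const _).inter (measurableSet_lt h measurable_const)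
  | ball p => exact MeasurableSet.empty

theorem measurableSet_quad {f : E3 → ℝ} (hf : Measurable f) (θ : ℝ) :
    MeasurableSet {x | quad θ (f x)} := by
  unfold quad
  exact ((MeasurableSet.const _).inter (measurableSet_le measurable_const hf)).union
    ((MeasurableSet.const _).inter (measurableSet_lt hf measurable_const))

theorem measurableSet_NB (b : Frame) (θ1 θ2 : ℝ) (P : Basic) : MeasurableSet (NB b θ1 θ2 P) := by
  cases P with
  | half a c => exact MeasurableSet.empty
  | ball p =>
    have h : Measurable (fun x : E3 => ‖x - p‖) := (continuous_id.sub continuous_const).norm.measurable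
    exact (measurableSet_le h measurable_const).compl.inter
      ((measurableSet_quad ((measurable_co b 1).sub measurable_const) θ1).inter
        (measurableSet_quad ((measurable_co b 2).sub measurable_const) θ2))

/-- signs -/
noncomputable def sg (u : Bool) : ℝ := if u = true then 1 else -1

theorem sg_or (u : Bool) : sg u = 1 ∨ sg u = -1 := by
  cases u <;> simp [sg]

theorem exists_sg_mul (r : ℝ) : ∃ u, sg u * r ≤ 0 := by
  rcases le_total 0 r with h | h
  · refine ⟨false, ?_⟩
    simp only [sg, Bool.false_eq_true, if_false]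
    linarith
  · refine ⟨true, ?_⟩
    simp only [sg, if_true]
    linarith

theorem exists_sg_quad (r : ℝ) : ∃ u, quad (sg u) r := by
  rcases le_or_gt 0 r with h | h
  · refine ⟨true, Or.inl ⟨?_, h⟩⟩
    simp [sg]
  · refine ⟨false, Or.inr ⟨?_, h⟩⟩
    simp [sg]

theorem mem_set_iff (b : Frame) (P : Basic) (x : E3) :
    x ∈ P.set ↔ (∃ u v, x ∈ HB b (sg u) (sg v) P) ∨ (IsB P ∧ ∀ u v, x ∉ NB b (sg u) (sg v) P) := by
  cases P with
  | half a c =>
    constructor
    · intro hx
      obtain ⟨u, hu⟩ := exists_sg_mul (inner ℝ (b 1) a)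
      obtain ⟨v, hv⟩ := exists_sg_mul (inner ℝ (b 2) a)
      exact Or.inl ⟨u, v, ⟨hu, hv⟩, hx⟩
    · rintro (⟨u, v, -, h⟩ | ⟨h, -⟩)
      · exact h
      · exact h.elim
  | ball p =>
    constructor
    · intro hx
      exact Or.inr ⟨trivial, fun u v h => h.1 hx⟩
    · rintro (⟨u, v, h⟩ | ⟨-, h⟩)
      · exact h.elim
      · by_contra hx
        obtain ⟨u, hu⟩ := exists_sg_quad (co b x 1 - co b p 1)
        obtain ⟨v, hv⟩ := exists_sg_quad (co b x 2 - co b p 2)
        exact h u v ⟨hx, hu, hv⟩

/-- the family of separated sets -/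
def Fam (b : Frame) (k : ℝ → ℕ) (J : ℕ → ℕ) (P : ℕ → ℤ × ℤ → Basic) :
    Option (Bool × Bool × Bool) → Set E3
  | none => {x | IsB (P (idx b k J x).1 (idx b k J x).2)}
  | some (true, u, v) => {x | x ∈ HB b (sg u) (sg v) (P (idx b k J x).1 (idx b k J x).2)}
  | some (false, u, v) => {x | x ∈ NB b (sg u) (sg v) (P (idx b k J x).1 (idx b k J x).2)}

end CellSepAux

open CellSepAux

theorem sep_cellUnion (b : Frame) (k : ℝ → ℕ) (hk : Measurable k) (J : ℕ → ℕ) {X : Set E3}
    (hX : Bornology.IsBounded X) (T : Set (ℕ × ℤ × ℤ)) :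
    Sep X {x | (k (co b x 0), cell b (J (k (co b x 0))) x) ∈ T} := by
  exact sep_idx b hk J hX (fun z => {_x : E3 | z ∈ T}) (fun z => MeasurableSet.const _)
    (Or.inl rfl) (Or.inl rfl) (fun z x hx y _ _ _ => hx)

theorem sep_cellBasic (b : Frame) (k : ℝ → ℕ) (hk : Measurable k) (J : ℕ → ℕ) {X : Set E3}
    (hX : Bornology.IsBounded X) (P : ℕ → ℤ × ℤ → Basic) :
    Sep X {x | x ∈ (P (k (co b x 0)) (cell b (J (k (co b x 0))) x)).set} := by
  refine sep_of_det hX (Fam b k J P) ?_ ?_
  · rintro (_ | ⟨t, u, v⟩)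
    · exact sep_cellUnion b k hk J hX {z | IsB (P z.1 z.2)}
    · cases t with
      | true =>
        refine sep_idx b hk J hX (fun z => HB b (sg u) (sg v) (P z.1 z.2))
          (fun z => measurableSet_HB b _ _ _) (sg_or u) (sg_or v) ?_
        rintro z x hx y hs hy1 hy2
        revert hx
        cases P z.1 z.2 with
        | half a c =>
          rintro ⟨hab, hx⟩
          exact ⟨hab, mono_half b a c (sg_or u) (sg_or v) hab.1 hab.2 hx hs hy1 hy2⟩
        | ball p => exact fun h => h.elim
      | false =>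
        refine sep_idx b hk J hX (fun z => NB b (sg u) (sg v) (P z.1 z.2))
          (fun z => measurableSet_NB b _ _ _) (sg_or u) (sg_or v) ?_
        rintro z x hx y hs hy1 hy2
        revert hx
        cases P z.1 z.2 with
        | half a c => exact fun h => h.elim
        | ball p =>
          rintro ⟨hx, q1, q2⟩
          exact mono_ball b p (sg_or u) (sg_or v) hx q1 q2 hs hy1 hy2
  · intro x _ y _ h
    show x ∈ (P (idx b k J x).1 (idx b k J x).2).set ↔ y ∈ (P (idx b k J y).1 (idx b k J y).2).set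
    rw [mem_set_iff b, mem_set_iff b]
    have h0 : IsB (P (idx b k J x).1 (idx b k J x).2) ↔ IsB (P (idx b k J y).1 (idx b k J y).2) :=
      h none
    have h1 : ∀ u v, x ∈ HB b (sg u) (sg v) (P (idx b k J x).1 (idx b k J x).2) ↔
        y ∈ HB b (sg u) (sg v) (P (idx b k J y).1 (idx b k J y).2) := fun u v => h (some (true, u, v))
    have h2 : ∀ u v, x ∈ NB b (sg u) (sg v) (P (idx b k J x).1 (idx b k J x).2) ↔
        y ∈ NB b (sg u) (sg v) (P (idx b k J y).1 (idx b k J y).2) := fun u v => h (some (false, u, v))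
    simp only [h0, h1, h2]

end Pool.Agent.CBT
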