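import Pool.Agent.Lib.CBT.Defs

/-!
# CBT.Conn : elementary closure properties of `Conn`

`Conn X f g` (see `Defs`): labels `l : E3 → κ` (κ finite, classes Baire measurable), continuous paths
`p i : ℝ → E3`, end points `f, g` on `X`, injective on `X` at every time `t ∈ [0,1]`.

Sketches.
* `congr`, `mono`: same data.
* `symm`: replace `p i t` by `p i (1 - t)`.
* `left` / `right`: constant paths `fun _ => p i 0` (resp. `p i 1`).
* `trans`: labels `x ↦ (l x, l' x)` in `κ × κ'` (the fibre over `(i,j)` is an intersection of two Baire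
  measurable sets) and the paths
  `c (i,j) t = p i (min (2 t) 1) + (p' j (max (2 t - 1) 0) - p' j 0)`, which are always continuous; for
  `x ∈ X` one has `p i 1 = g x = p' j 0`, so at time `t ≤ 1/2` this is `p i (2t)` and for `t ≥ 1/2` it is
  `p' j (2t-1)`.
* `add`: add the path `(1-t) • a + t • b` to every path (injectivity is not affected by a common translation).
* `conn_cst`: one label (`Unit`), path `(1-t) • a + t • b`.
-/

set_option autoImplicit false

namespace Pool.Agent.CBT

open Set Metric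

theorem Conn.congr {X : Set E3} {f g f' g' : E3 → E3} (h : Conn X f g) (hf : ∀ x ∈ X, f x = f' x)
    (hg : ∀ x ∈ X, g x = g' x) : Conn X f' g' := by
  obtain ⟨κ, hκ, l, p, h1, h2, h3, h4⟩ := h
  exact ⟨κ, hκ, l, p, h1, h2, fun x hx => ⟨(h3 x hx).1.trans (hf x hx), (h3 x hx).2.trans (hg x hx)⟩,
    h4⟩

theorem Conn.mono {X X' : Set E3} {f g : E3 → E3} (h : Conn X f g) (hX : X' ⊆ X) : Conn X' f g := by
  obtain ⟨κ, hκ, l, p, h1, h2, h3, h4⟩ := h
  exact ⟨κ, hκ, l, p, h1, h2, fun x hx => h3 x (hX hx), fun t ht => (h4 t ht).mono hX⟩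

theorem Conn.symm {X : Set E3} {f g : E3 → E3} (h : Conn X f g) : Conn X g f := by
  obtain ⟨κ, hκ, l, p, h1, h2, h3, h4⟩ := h
  refine ⟨κ, hκ, l, fun i t => p i (1 - t), h1, fun i => (h2 i).comp (continuous_const.sub continuous_id),
    fun x hx => ?_, fun t ht => ?_⟩
  · simp only [sub_zero, sub_self]
    exact ⟨(h3 x hx).2, (h3 x hx).1⟩
  · exact h4 (1 - t) ⟨by linarith [ht.2], by linarith [ht.1]⟩

theorem Conn.left {X : Set E3} {f g : E3 → E3} (h : Conn X f g) : Conn X f f := by
  obtain ⟨κ, hκ, l, p, h1, h2, h3, h4⟩ := h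
  exact ⟨κ, hκ, l, fun i _ => p i 0, h1, fun i => continuous_const,
    fun x hx => ⟨(h3 x hx).1, (h3 x hx).1⟩, fun _ _ => h4 0 ⟨le_rfl, zero_le_one⟩⟩

theorem Conn.right {X : Set E3} {f g : E3 → E3} (h : Conn X f g) : Conn X g g := by
  obtain ⟨κ, hκ, l, p, h1, h2, h3, h4⟩ := h
  exact ⟨κ, hκ, l, fun i _ => p i 1, h1, fun i => continuous_const,
    fun x hx => ⟨(h3 x hx).2, (h3 x hx).2⟩, fun _ _ => h4 1 ⟨zero_le_one, le_rfl⟩⟩

theorem Conn.trans {X : Set E3} {f g k : E3 → E3} (h : Conn X f g) (h' : Conn X g k) : Conn X f k := by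
  obtain ⟨κ, hκ, l, p, h1, h2, h3, h4⟩ := h
  obtain ⟨κ', hκ', l', p', h1', h2', h3', h4'⟩ := h'
  refine ⟨κ × κ', inferInstance, fun x => (l x, l' x),
    fun i t => p i.1 (min (2 * t) 1) + (p' i.2 (max (2 * t - 1) 0) - p' i.2 0), ?_, ?_, ?_, ?_⟩
  · rintro ⟨i, j⟩
    have e : (fun x => (l x, l' x)) ⁻¹' {(i, j)} = l ⁻¹' {i} ∩ l' ⁻¹' {j} := by
      ext x
      simp
    rw [e]
    exact (h1 i).inter (h1' j)
  · rintro ⟨i, j⟩
    have c1 : Continuous fun t : ℝ => p i (min (2 * t) 1) := (h2 i).comp (by fun_prop)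
    have c2 : Continuous fun t : ℝ => p' j (max (2 * t - 1) 0) := (h2' j).comp (by fun_prop)
    exact c1.add (c2.sub continuous_const)
  · intro x hx
    have e0 := (h3 x hx).1
    have e1 := (h3 x hx).2
    have e2 := (h3' x hx).1
    have e3 := (h3' x hx).2
    constructor
    · have a1 : min (2 * (0 : ℝ)) 1 = 0 := by norm_num
      have a2 : max (2 * (0 : ℝ) - 1) 0 = 0 := by norm_num
      simp only [a1, a2, sub_self, add_zero]
      exact e0
    · have a1 : min (2 * (1 : ℝ)) 1 = 1 := by norm_num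
      have a2 : max (2 * (1 : ℝ) - 1) 0 = 1 := by norm_num
      simp only [a1, a2]
      rw [e1, e2, e3]
      abel
  · intro t ht
    rcases le_total t (1 / 2) with hle | hle
    · have a1 : min (2 * t) 1 = 2 * t := min_eq_left (by linarith)
      have a2 : max (2 * t - 1) 0 = 0 := max_eq_right (by linarith)
      simp only [a1, a2, sub_self, add_zero]
      exact h4 (2 * t) ⟨by linarith [ht.1], by linarith⟩
    · have a1 : min (2 * t) 1 = 1 := min_eq_right (by linarith)
      have a2 : max (2 * t - 1) 0 = 2 * t - 1 := max_eq_left (by linarith)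
      simp only [a1, a2]
      refine (h4' (2 * t - 1) ⟨by linarith, by linarith [ht.2]⟩).congr fun x hx => ?_
      simp only
      rw [(h3 x hx).2, (h3' x hx).1]
      abel

theorem Conn.add {X : Set E3} {f g : E3 → E3} (h : Conn X f g) (a b : E3) :
    Conn X (fun x => f x + a) (fun x => g x + b) := by
  obtain ⟨κ, hκ, l, p, h1, h2, h3, h4⟩ := h
  refine ⟨κ, hκ, l, fun i t => p i t + ((1 - t) • a + t • b), h1, fun i => ?_, fun x hx => ?_,
    fun t ht => ?_⟩
  · have := h2 i
    fun_prop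
  · simp only [sub_zero, one_smul, zero_smul, add_zero, sub_self, zero_add]
    exact ⟨by rw [(h3 x hx).1], by rw [(h3 x hx).2]⟩
  · intro x hx y hy hxy
    apply h4 t ht hx hy
    have h5 : x + p (l x) t + ((1 - t) • a + t • b) = y + p (l y) t + ((1 - t) • a + t • b) := by
      rw [add_assoc, add_assoc]
      exact hxy
    exact add_right_cancel h5

theorem conn_cst (X : Set E3) (a b : E3) : Conn X (cst a) (cst b) := by
  refine ⟨Unit, inferInstance, fun _ => (), fun _ t => (1 - t) • a + t • b, fun i => ?_, fun i => ?_,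
    fun x hx => ?_, fun t ht => ?_⟩
  · have e : (fun _ : E3 => ()) ⁻¹' {i} = univ := by
      ext x
      simp
    rw [e]
    exact isOpen_univ.baireMeasurableSet
  · fun_prop
  · simp [cst]
  · intro x _ y _ hxy
    exact add_right_cancel hxy

end Pool.Agent.CBT
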