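import Pool.Agent.Lib.CBT.Cay

/-!
# CBT.Cov : the covering condition

Directions: the tetrahedral vectors `s_a`; for every `x` of norm at most one there is `a` with
`‖x + s_a / 6‖ ≤ 95 / 100`. The translation of index `i` is `s_a / 6 + c v` with `a = i / 3 % 4`,
`c = i / 12`.
-/

set_option autoImplicit false

namespace Pool.Agent.CBT

open Set Metric

/-- signs of the tetrahedral vectors -/
private noncomputable def tet (a : ℕ) : E3 :=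
  if a = 0 then !₂[1, 1, 1] else if a = 1 then !₂[1, -1, -1] else
    if a = 2 then !₂[-1, 1, -1] else !₂[-1, -1, 1]

private theorem inner_tet (x : E3) :
    inner ℝ x (tet 0) = x 0 + x 1 + x 2 ∧ inner ℝ x (tet 1) = x 0 - x 1 - x 2 ∧
    inner ℝ x (tet 2) = - x 0 + x 1 - x 2 ∧ inner ℝ x (tet 3) = - x 0 - x 1 + x 2 := by
  refine ⟨?_, ?_, ?_, ?_⟩ <;>
    simp [tet, PiLp.inner_apply, Fin.sum_univ_three] <;> ring

private theorem norm_tet {a : ℕ} (_ha : a < 4) : ‖tet a‖ ^ 2 = 3 := by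
  rw [EuclideanSpace.norm_sq_eq]
  unfold tet
  split_ifs <;> simp [Fin.sum_univ_three] <;> norm_num

private theorem norm_sq3 (x : E3) : ‖x‖ ^ 2 = x 0 ^ 2 + x 1 ^ 2 + x 2 ^ 2 := by
  rw [EuclideanSpace.norm_sq_eq, Fin.sum_univ_three]
  simp

private theorem sq_le_of {a b c m r : ℝ} (ha : m ≤ a) (hb : m ≤ b) (hc : m ≤ c)
    (h1 : m + a + b + c = 0) (h2 : m ^ 2 + a ^ 2 + b ^ 2 + c ^ 2 = 4 * r ^ 2) :
    r ^ 2 ≤ 3 * m ^ 2 ∧ m ≤ 0 := by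
  have h3 : 0 ≤ (a - m) * (b - m) := mul_nonneg (by linarith) (by linarith)
  have h4 : 0 ≤ (a - m) * (c - m) := mul_nonneg (by linarith) (by linarith)
  have h5 : 0 ≤ (b - m) * (c - m) := mul_nonneg (by linarith) (by linarith)
  have h6 : c = - m - a - b := by linarith
  subst h6
  constructor
  · nlinarith
  · linarith

private theorem exists_tet (x : E3) : ∃ a : ℕ, a < 4 ∧
    ‖x‖ ^ 2 ≤ 3 * (inner ℝ x (tet a) : ℝ) ^ 2 ∧ (inner ℝ x (tet a) : ℝ) ≤ 0 := by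
  obtain ⟨e0, e1, e2, e3⟩ := inner_tet x
  have hn := norm_sq3 x
  have key : ∀ a b c m : ℝ, m ≤ a → m ≤ b → m ≤ c → m + a + b + c = 0 →
      m ^ 2 + a ^ 2 + b ^ 2 + c ^ 2 = 4 * ‖x‖ ^ 2 → ‖x‖ ^ 2 ≤ 3 * m ^ 2 ∧ m ≤ 0 :=
    fun a b c m h1 h2 h3 h4 h5 => sq_le_of h1 h2 h3 h4 h5
  set y0 : ℝ := inner ℝ x (tet 0) with hy0
  set y1 : ℝ := inner ℝ x (tet 1) with hy1
  set y2 : ℝ := inner ℝ x (tet 2) with hy2
  set y3 : ℝ := inner ℝ x (tet 3) with hy3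
  have hs : y0 + y1 + y2 + y3 = 0 := by rw [e0, e1, e2, e3]; ring
  have hq : y0 ^ 2 + y1 ^ 2 + y2 ^ 2 + y3 ^ 2 = 4 * ‖x‖ ^ 2 := by
    rw [e0, e1, e2, e3, hn]; ring
  have c0 : y0 ≤ y1 → y0 ≤ y2 → y0 ≤ y3 → ∃ a : ℕ, a < 4 ∧
      ‖x‖ ^ 2 ≤ 3 * (inner ℝ x (tet a) : ℝ) ^ 2 ∧ (inner ℝ x (tet a) : ℝ) ≤ 0 :=
    fun a b c => ⟨0, by norm_num, key y1 y2 y3 y0 a b c hs hq⟩
  have c1 : y1 ≤ y0 → y1 ≤ y2 → y1 ≤ y3 → ∃ a : ℕ, a < 4 ∧
      ‖x‖ ^ 2 ≤ 3 * (inner ℝ x (tet a) : ℝ) ^ 2 ∧ (inner ℝ x (tet a) : ℝ) ≤ 0 :=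
    fun a b c => ⟨1, by norm_num, key y0 y2 y3 y1 a b c (by linarith) (by linarith)⟩
  have c2 : y2 ≤ y0 → y2 ≤ y1 → y2 ≤ y3 → ∃ a : ℕ, a < 4 ∧
      ‖x‖ ^ 2 ≤ 3 * (inner ℝ x (tet a) : ℝ) ^ 2 ∧ (inner ℝ x (tet a) : ℝ) ≤ 0 :=
    fun a b c => ⟨2, by norm_num, key y0 y1 y3 y2 a b c (by linarith) (by linarith)⟩
  have c3 : y3 ≤ y0 → y3 ≤ y1 → y3 ≤ y2 → ∃ a : ℕ, a < 4 ∧
      ‖x‖ ^ 2 ≤ 3 * (inner ℝ x (tet a) : ℝ) ^ 2 ∧ (inner ℝ x (tet a) : ℝ) ≤ 0 :=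
    fun a b c => ⟨3, by norm_num, key y0 y1 y2 y3 a b c (by linarith) (by linarith)⟩
  rcases le_total y0 y1 with a1 | a1 <;> rcases le_total y2 y3 with a2 | a2
  · rcases le_total y0 y2 with a3 | a3
    · exact c0 a1 a3 (a3.trans a2)
    · exact c2 a3 (a3.trans a1) a2
  · rcases le_total y0 y3 with a3 | a3
    · exact c0 a1 (a3.trans a2) a3
    · exact c3 a3 (a3.trans a1) a2
  · rcases le_total y1 y2 with a3 | a3
    · exact c1 a1 a3 (a3.trans a2)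
    · exact c2 (a3.trans a1) a3 a2
  · rcases le_total y1 y3 with a3 | a3
    · exact c1 a1 (a3.trans a2) a3
    · exact c3 (a3.trans a1) a3 a2

private theorem exists_close (x : E3) (hx : ‖x‖ ≤ 1) : ∃ a : ℕ, a < 4 ∧
    ‖x + (1 / 6 : ℝ) • tet a‖ ≤ 95 / 100 := by
  obtain ⟨a, ha, h1, h2⟩ := exists_tet x
  refine ⟨a, ha, ?_⟩
  have h3 : ‖x + (1 / 6 : ℝ) • tet a‖ ^ 2 = ‖x‖ ^ 2 + (1 / 3) * inner ℝ x (tet a) + 1 / 12 := by
    rw [norm_add_sq_real, norm_smul, mul_pow, norm_tet ha, inner_smul_right]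
    norm_num
    ring
  have h0 : 0 ≤ ‖x‖ := norm_nonneg x
  have h4 : (57 / 100) * ‖x‖ ≤ - (inner ℝ x (tet a) : ℝ) := by
    apply le_of_sq_le_sq _ (by linarith)
    nlinarith
  have h5 : ‖x + (1 / 6 : ℝ) • tet a‖ ^ 2 ≤ (95 / 100) ^ 2 := by
    rw [h3]
    nlinarith
  exact le_of_sq_le_sq h5 (by norm_num)

/-- the translation of index `i` -/
private noncomputable def Tr (v : E3) (i : ℕ) : E3 :=
  (1 / 6 : ℝ) • tet (i / 3 % 4) + (((i / 12 : ℕ) : ℝ)) • v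

private theorem Tr_idx (v : E3) {a r c : ℕ} (ha : a < 4) (hr : r < 3) :
    Tr v (3 * a + r + 12 * c) = (1 / 6 : ℝ) • tet a + ((c : ℕ) : ℝ) • v := by
  have h1 : (3 * a + r + 12 * c) / 3 % 4 = a := by omega
  have h2 : (3 * a + r + 12 * c) / 12 = c := by omega
  rw [Tr, h1, h2]

private theorem three_le (S : Set (Fin 24)) (k : ℕ) (hk : k + 3 ≤ 24)
    (h : ∀ i : Fin 24, k ≤ i.val → i.val < k + 3 → i ∈ S) : 3 ≤ S.ncard := by
  have h1 : ((Finset.univ.image (fun r : Fin 3 => (⟨k + r.val, by omega⟩ : Fin 24))) :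
      Finset (Fin 24)).card = 3 := by
    rw [Finset.card_image_of_injective]
    · simp
    · intro a b hab
      simp only [Fin.mk.injEq] at hab
      exact Fin.ext (by omega)
  rw [← h1, ← Set.ncard_coe_finset]
  apply Set.ncard_le_ncard _ (Set.toFinite S)
  intro i hi
  simp only [Finset.coe_image, Finset.coe_univ, Set.image_univ, Set.mem_range] at hi
  obtain ⟨r, rfl⟩ := hi
  exact h _ (by simp) (by simp)

theorem exists_cover (v : E3) : ∃ (T : Fin 24 → E3) (ε : ℝ), 0 < ε ∧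
    ∀ (ω τ : Fin 24 → E3) (ρ : FreeGroup (Fin 24) →* Iso), (∀ i, ‖ω i‖ < ε ∧ ‖τ i - T i‖ < ε) →
      (∀ i x, ρ (FreeGroup.of i) x = mot (ω i) (τ i) x) → Cover ρ v := by
  refine ⟨fun i => Tr v i.val, 1 / 200, by norm_num, ?_⟩
  intro ω τ ρ hε hρ
  constructor
  · intro x hx
    have hx1 : ‖x‖ ≤ 1 := by simpa [src] using hx
    obtain ⟨a, ha, hxa⟩ := exists_close x hx1
    refine three_le _ (3 * a) (by omega) fun i h1 h2 => ?_
    rw [Set.mem_ofPred_eq, tgt]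
    left
    rw [mem_closedBall_zero_iff, hρ i x]
    obtain ⟨r, hr⟩ : ∃ r, i.val = 3 * a + r + 12 * 0 := ⟨i.val - 3 * a, by omega⟩
    have hT : Tr v i.val = (1 / 6 : ℝ) • tet a := by
      rw [hr, Tr_idx v ha (by omega)]
      simp
    obtain ⟨e1, e2⟩ := hε i
    simp only [hT] at e2
    have e3 := norm_cay_sub (ω i) x
    have e4 : mot (ω i) (τ i) x = (Matrix.toEuclideanLin (cay (ω i)) x - x) +
        ((τ i - (1 / 6 : ℝ) • tet a) + (x + (1 / 6 : ℝ) • tet a)) := by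
      simp only [mot]; abel
    rw [e4]
    have e5 : 4 * ‖ω i‖ * ‖x‖ ≤ 4 * (1 / 200) * 1 := by
      have := norm_nonneg (ω i)
      have := norm_nonneg x
      nlinarith
    calc _ ≤ ‖Matrix.toEuclideanLin (cay (ω i)) x - x‖ +
          (‖τ i - (1 / 6 : ℝ) • tet a‖ + ‖x + (1 / 6 : ℝ) • tet a‖) :=
          (norm_add_le _ _).trans (by gcongr; exact norm_add_le _ _)
      _ ≤ 1 := by linarith
  · intro y hy
    obtain ⟨c, hc, hyc⟩ : ∃ c : ℕ, c < 2 ∧ ‖y - (c : ℝ) • v‖ ≤ 1 := by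
      rcases hy with hy | hy
      · exact ⟨0, by norm_num, by simpa using hy⟩
      · exact ⟨1, by norm_num, by simpa [dist_eq_norm] using hy⟩
    obtain ⟨a, ha, hxa⟩ := exists_close (-(y - (c : ℝ) • v)) (by rwa [norm_neg])
    refine three_le _ (3 * a + 12 * c) (by omega) fun i h1 h2 => ?_
    rw [Set.mem_ofPred_eq, src, mem_closedBall_zero_iff]
    obtain ⟨r, hr⟩ : ∃ r, i.val = 3 * a + r + 12 * c := ⟨i.val - 3 * a - 12 * c, by omega⟩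
    have hT : Tr v i.val = (1 / 6 : ℝ) • tet a + ((c : ℕ) : ℝ) • v := by
      rw [hr, Tr_idx v ha (by omega)]
    obtain ⟨e1, e2⟩ := hε i
    simp only [hT] at e2
    set z := (ρ (FreeGroup.of i))⁻¹ y with hz
    have e3 : ρ (FreeGroup.of i) z = y := by
      rw [hz]
      exact (ρ (FreeGroup.of i)).apply_symm_apply y
    have e4 : Matrix.toEuclideanLin (cay (ω i)) z = y - τ i := by
      rw [hρ, mot] at e3
      rw [← e3]; abel
    rw [← norm_cay (ω i) z, e4]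
    have e5 : y - τ i = -(-(y - (c : ℝ) • v) + (1 / 6 : ℝ) • tet a) -
        (τ i - ((1 / 6 : ℝ) • tet a + ((c : ℕ) : ℝ) • v)) := by abel
    rw [e5]
    calc _ ≤ ‖-(-(y - (c : ℝ) • v) + (1 / 6 : ℝ) • tet a)‖ +
          ‖τ i - ((1 / 6 : ℝ) • tet a + ((c : ℕ) : ℝ) • v)‖ := norm_sub_le _ _
      _ ≤ 1 := by rw [norm_neg]; linarith

end Pool.Agent.CBT
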