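import Mathlib

/-!
# Continuous Banach-Tarski with Baire pieces: definitions (MP_3999f7_lc, frozen S14589)

Paper proof: `/team-store/P3999f7_proof.txt`.
-/

set_option autoImplicit false

namespace Pool.Agent.CBT

open Set Metric

/-- Euclidean three space. -/
abbrev E3 := EuclideanSpace ℝ (Fin 3)

/-- The group of isometries of three space. -/
abbrev Iso := E3 ≃ᵃⁱ[ℝ] E3

/-! ## Part A: moves by translations -/

/-- `Conn X f g`: the configuration `x + f x` of the points of `X` can be moved to the configuration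
`x + g x`: finitely many pieces with the property of Baire, each piece moves by a continuous path of
translations, and no two points of `X` ever collide. -/
def Conn (X : Set E3) (f g : E3 → E3) : Prop :=
  ∃ (κ : Type) (_ : Finite κ) (l : E3 → κ) (p : κ → ℝ → E3),
    (∀ i, BaireMeasurableSet (l ⁻¹' {i})) ∧
    (∀ i, Continuous (p i)) ∧
    (∀ x ∈ X, p (l x) 0 = f x ∧ p (l x) 1 = g x) ∧
    (∀ t ∈ Icc (0 : ℝ) 1, InjOn (fun x => x + p (l x) t) X)

/-- The constant configuration. -/
def cst (c : E3) : E3 → E3 := fun _ => c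

open Classical in
/-- The configuration which is `f` on `E` and `g` off `E`. -/
noncomputable def pw (E : Set E3) (f g : E3 → E3) : E3 → E3 := fun x => if x ∈ E then f x else g x

/-- `E` can be separated from the rest of `X`: for every far vector `C` the part `X ∩ E` can be moved
to `X ∩ E + C` and `X \ E` returns to its place. -/
def Sep (X E : Set E3) : Prop :=
  ∃ L : ℝ, ∀ C : E3, L ≤ ‖C‖ → Conn X (cst 0) (pw E (cst C) (cst 0))

/-- `E` can be separated from its complement inside every bounded set. -/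
def Expl (E : Set E3) : Prop := ∀ X : Set E3, Bornology.IsBounded X → Sep X E

/-! ## Frames, basic sets, cells -/

/-- An orthonormal frame `(b 0, b 1, b 2)`; the coordinates are `s = co b x 0`, `x1`, `x2`. -/
abbrev Frame := OrthonormalBasis (Fin 3) ℝ E3

/-- The `i`-th coordinate in the frame `b`. -/
noncomputable def co (b : Frame) (x : E3) (i : Fin 3) : ℝ := inner ℝ (b i) x

/-- Basic sets: open half spaces and closed unit balls. -/
inductive Basic : Type
  | half (a : E3) (c : ℝ) : Basic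
  | ball (p : E3) : Basic

/-- The set described by a basic datum. -/
def Basic.set : Basic → Set E3
  | .half a c => {x | inner ℝ a x < c}
  | .ball p => {x | ‖x - p‖ ≤ 1}

/-- The defining function of the boundary surface. -/
noncomputable def Basic.fn : Basic → E3 → ℝ
  | .half a c => fun x => inner ℝ a x - c
  | .ball p => fun x => ‖x - p‖ - 1

/-- The scales `(2/3) 7^(-j)`. -/
noncomputable def side (j : ℕ) : ℝ := 2 / 3 * (1 / 7) ^ j

/-- The index of the square of side `side j` which contains `(x1, x2)`. -/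
noncomputable def cell (b : Frame) (j : ℕ) (x : E3) : ℤ × ℤ :=
  (⌊co b x 1 / side j⌋, ⌊co b x 2 / side j⌋)

open Classical in
/-- `E` is good on the slab `{s ∈ I}` at the scale `j`: in each cell `E` is a Boolean function of two
basic sets. -/
def GoodInt (b : Frame) (E : Set E3) (I : Set ℝ) (j : ℕ) : Prop :=
  ∀ q : ℤ × ℤ, ∃ (P₁ P₂ : Basic) (Φ : Bool → Bool → Bool), ∀ x : E3, co b x 0 ∈ I → cell b j x = q →
    (x ∈ E ↔ Φ (decide (x ∈ P₁.set)) (decide (x ∈ P₂.set)) = true)

/-- `E ∩ D` is determined by membership in the basic sets of the family `F`. -/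
def DetBy (F : Set Basic) (D E : Set E3) : Prop :=
  ∀ x ∈ D, ∀ y ∈ D, (∀ P ∈ F, x ∈ P.set ↔ y ∈ P.set) → (x ∈ E ↔ y ∈ E)

/-! ## Part B: the group -/

/-- The skew symmetric matrix of the cross product. -/
def skew (w : E3) : Matrix (Fin 3) (Fin 3) ℝ :=
  !![0, -w 2, w 1; w 2, 0, -w 0; -w 1, w 0, 0]

/-- The Cayley rotation with parameter `w`. -/
noncomputable def cay (w : E3) : Matrix (Fin 3) (Fin 3) ℝ :=
  1 + (2 / (1 + ‖w‖ ^ 2)) • (skew w + skew w * skew w)

/-- The rigid motion with rotation part `cay w` and translation part `u`. -/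
noncomputable def mot (w u : E3) : E3 → E3 := fun x => Matrix.toEuclideanLin (cay w) x + u

/-- General position of an action `ρ` of a free group and a unit vector `n`. -/
structure GP {m : ℕ} (ρ : FreeGroup (Fin m) →* Iso) (n : E3) : Prop where
  norm_n : ‖n‖ = 1
  g1 : ∀ w : Fin 4 → FreeGroup (Fin m), Function.Injective w →
    {x : E3 | ∀ i j, inner ℝ n (ρ (w i) x) = inner ℝ n (ρ (w j) x)}.Subsingleton
  g2 : ∀ w : Fin 3 → FreeGroup (Fin m), Function.Injective w →
    LinearIndependent ℝ (fun i => (ρ (w i)).linearIsometryEquiv.symm n)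

/-! ## Part C: the matching -/

/-- The unit ball. -/
def src : Set E3 := closedBall 0 1

/-- The target: two unit balls. -/
def tgt (v : E3) : Set E3 := closedBall 0 1 ∪ closedBall v 1

/-- All degrees of the bipartite graph are at least three. -/
structure Cover {m : ℕ} (ρ : FreeGroup (Fin m) →* Iso) (v : E3) : Prop where
  fwd : ∀ x ∈ src, 3 ≤ {i : Fin m | ρ (FreeGroup.of i) x ∈ tgt v}.ncard
  bwd : ∀ y ∈ tgt v, 3 ≤ {i : Fin m | (ρ (FreeGroup.of i))⁻¹ y ∈ src}.ncard

/-- Bad levels for the planes: levels of radical planes of the balls. -/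
def badLevel {m : ℕ} (ρ : FreeGroup (Fin m) →* Iso) (n v : E3) : Set ℝ :=
  {c | ∃ (w w' : FreeGroup (Fin m)) (u u' : E3), (u = 0 ∨ u = v) ∧ (u' = 0 ∨ u' = v) ∧
    c = inner ℝ n (ρ w u + ρ w' u') / 2}

/-- Admissible basic sets: images of the balls and of planes `s = c` with `c` not bad. -/
def Adm {m : ℕ} (ρ : FreeGroup (Fin m) →* Iso) (n v : E3) : Set Basic :=
  {P | (∃ (w : FreeGroup (Fin m)) (c : ℝ), c ∉ badLevel ρ n v ∧
      P = Basic.half ((ρ w).linearIsometryEquiv.symm n) (c - inner ℝ n (ρ w 0))) ∨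
    ∃ (w : FreeGroup (Fin m)) (u : E3), (u = 0 ∨ u = v) ∧ P = Basic.ball ((ρ w)⁻¹ u)}

/-- The output of the matching part. -/
structure Matched {m : ℕ} (ρ : FreeGroup (Fin m) →* Iso) (n v : E3) (U : Fin m → Set E3) : Prop where
  cover : (⋃ i, U i) = src
  disj : Pairwise (fun i j => Disjoint (U i) (U j))
  cover' : (⋃ i, ρ (FreeGroup.of i) '' U i) = tgt v
  disj' : Pairwise (fun i j => Disjoint (ρ (FreeGroup.of i) '' U i) (ρ (FreeGroup.of j) '' U j))
  tame : ∃ (α β : ℕ → ℝ) (F : ℕ → Set Basic),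
    (∀ k, (F k).Finite ∧ F k ⊆ Adm ρ n v) ∧ Dense (⋃ k, Ioo (α k) (β k)) ∧
    ∀ k i, DetBy (F k) {x | inner ℝ n x ∈ Ioo (α k) (β k)} (U i)

/-! ## The conclusion -/

/-- The conclusion of the frozen statement for the vector `v`. -/
def Concl (v : E3) : Prop :=
    ∃ (m : ℕ) (A : Fin m → Set (EuclideanSpace ℝ (Fin 3)))
      (R : Fin m → ℝ → Matrix (Fin 3) (Fin 3) ℝ)
      (τ : Fin m → ℝ → EuclideanSpace ℝ (Fin 3)),
      (⋃ i, A i) = Metric.closedBall (0 : EuclideanSpace ℝ (Fin 3)) 1 ∧
      Pairwise (fun i j => Disjoint (A i) (A j)) ∧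
      (∀ i, ∃ U : Set (EuclideanSpace ℝ (Fin 3)), IsOpen U ∧ IsMeagre (symmDiff (A i) U)) ∧
      (∀ i, ContinuousOn (R i) (Set.Icc (0 : ℝ) 1) ∧ ContinuousOn (τ i) (Set.Icc (0 : ℝ) 1)) ∧
      (∀ i, ∀ t ∈ Set.Icc (0 : ℝ) 1, R i t ∈ Matrix.specialOrthogonalGroup (Fin 3) ℝ) ∧
      (∀ i, R i 0 = 1 ∧ τ i 0 = 0) ∧
      (∀ t ∈ Set.Icc (0 : ℝ) 1, Pairwise (fun i j =>
        Disjoint ((fun x => Matrix.toEuclideanLin (R i t) x + τ i t) '' A i)
                 ((fun x => Matrix.toEuclideanLin (R j t) x + τ j t) '' A j))) ∧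
      (⋃ i, (fun x => Matrix.toEuclideanLin (R i 1) x + τ i 1) '' A i)
        = Metric.closedBall (0 : EuclideanSpace ℝ (Fin 3)) 1 ∪ Metric.closedBall v 1

end Pool.Agent.CBT
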