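import Pool.Agent.Lib.CBT.Algebra

/-!
# CBT.Explode : exploding a finite partition

`X = ⋃ i, U i` (disjoint, bounded, all `U i` in `Expl`).  For all large `lam` the part `U i` can be moved to
`U i + lam (i+1) e0` simultaneously (`e0 = EuclideanSpace.single 0 1`).

Proof.  Let `R` bound `X`, `lam > 2R` and beyond the (finitely many) thresholds.  Induction on `k ≤ m`: configuration
`c_k`: `x ∈ U i` is at `lam (i+1) e0` if `i < k`, at `0` otherwise.  Step `k → k+1`:
(1) `conn_far`: the moving part is `X1 = ⋃ i ≥ k, U i` (a Baire measurable set relative to `X`, by `Sep.exists_bm`), its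
piece `U k` goes from `0` to `-lam e0` (hypothesis `Expl (U k)` restricted to `X1`); the parked pieces are at
`⟨e0, ·⟩ ≥ lam - R > R`, everything of `X1` has `⟨e0, ·⟩ ≤ R` before and after.
(2) three uses of `conn_path` for the piece `U k`: `-lam e0 → -lam e0 + lam e1 → lam (k+1) e0 + lam e1 → lam (k+1) e0`
(the others have `⟨e1,·⟩ ∈ [-R,R]`, `⟨e0,·⟩` in `[-R,R]` or in `[lam (i+1) - R, lam (i+1) + R]`, `i < k`).
-/

set_option autoImplicit false

namespace Pool.Agent.CBT

open Set Metric

namespace ExplodeAux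

/-- the vector `a e0 + b e1` -/
noncomputable def vv (a b : ℝ) : E3 :=
  EuclideanSpace.single (0 : Fin 3) a + EuclideanSpace.single (1 : Fin 3) b

lemma vv_zero_right (a : ℝ) : vv a 0 = EuclideanSpace.single (0 : Fin 3) a := by
  unfold vv
  ext i
  simp

lemma vv_apply0 (a b : ℝ) : vv a b 0 = a := by
  unfold vv; simp

lemma vv_apply1 (a b : ℝ) : vv a b 1 = b := by
  unfold vv; simp

lemma norm_vv0 (a : ℝ) : ‖vv a 0‖ = |a| := by
  rw [vv_zero_right]; simp

lemma inner_e0 (x : E3) : inner ℝ (vv 1 0) x = x 0 := by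
  rw [vv_zero_right, EuclideanSpace.inner_single_left]; simp

lemma apply_le (x : E3) (i : Fin 3) : |x i| ≤ ‖x‖ := by
  have := PiLp.norm_apply_le x i
  simpa using this

lemma cont_vv {a b : ℝ → ℝ} (ha : Continuous a) (hb : Continuous b) :
    Continuous (fun t => vv (a t) (b t)) := by
  have h : (fun t => vv (a t) (b t)) = fun t => (a t) • vv 1 0 + (b t) • vv 0 1 := by
    funext t
    unfold vv
    ext i
    fin_cases i <;> simp
  rw [h]
  fun_prop

lemma vv1_ne_zero : vv 1 0 ≠ 0 := by
  intro h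
  have := congrArg (fun v : E3 => v 0) h
  simp [vv_apply0] at this

open Classical in
/-- one step of the induction -/
lemma step {X u W : Set E3} {c : E3 → E3} {R lam : ℝ} {k : ℕ}
    (hX : Bornology.IsBounded X) (hR : ∀ x ∈ X, ‖x‖ ≤ R) (hR0 : 0 ≤ R) (hlam : 2 * R < lam)
    (hu : BaireMeasurableSet u) (hW : BaireMeasurableSet W)
    (huW : ∀ x ∈ X, x ∈ u → x ∉ W)
    (hsep : Conn (X ∩ Wᶜ) (cst 0) (pw u (cst (vv (-lam) 0)) (cst 0)))
    (hc0 : ∀ x ∈ X, x ∉ W → c x = 0)
    (hc1 : ∀ x ∈ X, x ∈ W → ∃ i : ℕ, i < k ∧ c x = vv (lam * (i + 1)) 0)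
    (h : Conn X c c) :
    Conn X c (pw u (cst (vv (lam * (k + 1)) 0)) c) := by
  have hlam0 : 0 < lam := by linarith
  have hx : ∀ x ∈ X, ∀ i : Fin 3, |x i| ≤ R := fun x hx i => le_trans (apply_le x i) (hR x hx)
  -- coordinates of `y + c y`
  have hy0 : ∀ y ∈ X, -R ≤ (y + c y) 0 ∧ (y + c y) 0 ≤ R + lam * k := by
    intro y hy
    have h1 := hx y hy 0
    rw [abs_le] at h1
    have hk0 : 0 ≤ lam * k := by positivity
    by_cases hyW : y ∈ W
    · obtain ⟨i, hi, hci⟩ := hc1 y hy hyW
      rw [hci, PiLp.add_apply, vv_apply0]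
      have h2 : (0:ℝ) ≤ i := Nat.cast_nonneg i
      have h3 : (i : ℝ) + 1 ≤ k := by exact_mod_cast hi
      have h4 : lam * (i + 1) ≤ lam * k := mul_le_mul_of_nonneg_left h3 hlam0.le
      have h5 : 0 ≤ lam * (i + 1) := by positivity
      constructor <;> linarith [h1.1, h1.2]
    · rw [hc0 y hy hyW, add_zero]
      constructor <;> linarith [h1.1, h1.2]
  have hy1 : ∀ y ∈ X, (y + c y) 1 ≤ R := by
    intro y hy
    have h1 := hx y hy 1
    rw [abs_le] at h1
    by_cases hyW : y ∈ W
    · obtain ⟨i, hi, hci⟩ := hc1 y hy hyW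
      rw [hci, PiLp.add_apply, vv_apply1]
      linarith [h1.2]
    · rw [hc0 y hy hyW, add_zero]
      linarith [h1.2]
  -- phase 1
  have s1 : Conn X c (pw u (cst (vv (-lam) 0)) c) := by
    have hfar := conn_far hX hW.compl vv1_ne_zero R (f := cst 0)
      (g := pw u (cst (vv (-lam) 0)) (cst 0)) (h := c) hsep
      (h.mono (fun x hx => hx.1)) ?_ ?_ ?_
    · refine hfar.congr ?_ ?_
      · intro x hxX
        unfold pw
        by_cases hxW : x ∈ W
        · rw [if_neg (fun hn => hn hxW)]
        · rw [if_pos (show x ∈ Wᶜ from hxW), hc0 x hxX hxW]; rfl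
      · intro x hxX
        unfold pw
        by_cases hxW : x ∈ W
        · rw [if_neg (fun hn : x ∈ Wᶜ => hn hxW)]
          rw [if_neg (fun hn => huW x hxX hn hxW)]
        · rw [if_pos (show x ∈ Wᶜ from hxW)]
          by_cases hxu : x ∈ u
          · rw [if_pos hxu, if_pos hxu]
          · rw [if_neg hxu, if_neg hxu, hc0 x hxX hxW]; rfl
    · intro x hx'
      rw [inner_e0]
      have h1 := hx x hx'.1 0
      rw [abs_le] at h1
      have : (x + cst 0 x) = x := by unfold cst; rw [add_zero]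
      rw [this]; exact h1.2
    · intro x hx'
      rw [inner_e0, PiLp.add_apply]
      have h1 := hx x hx'.1 0
      rw [abs_le] at h1
      unfold pw
      by_cases hxu : x ∈ u
      · rw [if_pos hxu]
        unfold cst
        rw [vv_apply0]; linarith [h1.2]
      · rw [if_neg hxu]
        unfold cst
        have : (0 : E3) 0 = 0 := rfl
        rw [this]; linarith [h1.2]
    · intro x hx'
      have hxW : x ∈ W := by
        by_contra hn
        exact hx'.2 hn
      obtain ⟨i, hi, hci⟩ := hc1 x hx'.1 hxW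
      rw [inner_e0, hci, PiLp.add_apply, vv_apply0]
      have h1 := hx x hx'.1 0
      rw [abs_le] at h1
      have h2 : (0:ℝ) ≤ i := Nat.cast_nonneg i
      have h5 : lam ≤ lam * (i + 1) := by nlinarith
      linarith [h1.1]
  have h2 : Conn (X \ u) c c := h.mono (fun x hx => hx.1)
  -- phase 2
  have s2 : Conn X (pw u (cst (vv (-lam) 0)) c) (pw u (cst (vv (-lam) lam)) c) := by
    have hp := conn_path hu h2 (fun t => vv (-lam) (t * lam))
      (cont_vv continuous_const (by fun_prop)) ?_
    · simp only [zero_mul, one_mul] at hp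
      exact hp
    · intro t ht x hx' y hy' hne
      have e := congrArg (fun v : E3 => v 0) hne
      simp only [] at e
      rw [PiLp.add_apply, vv_apply0] at e
      have h1 := hx x hx'.1 0
      rw [abs_le] at h1
      have h3 := hy0 y hy'.1
      linarith [h1.2, h3.1]
  have s3 : Conn X (pw u (cst (vv (-lam) lam)) c) (pw u (cst (vv (lam * (k + 1)) lam)) c) := by
    have hp := conn_path hu h2 (fun t => vv ((1 - t) * (-lam) + t * (lam * (k + 1))) lam)
      (cont_vv (by fun_prop) continuous_const) ?_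
    · have e0 : vv ((1 - (0:ℝ)) * (-lam) + 0 * (lam * (k + 1))) lam = vv (-lam) lam := by
        congr 1; ring
      have e1 : vv ((1 - (1:ℝ)) * (-lam) + 1 * (lam * (k + 1))) lam =
          vv (lam * (k + 1)) lam := by
        congr 1; ring
      simp only [e0, e1] at hp
      exact hp
    · intro t ht x hx' y hy' hne
      have e := congrArg (fun v : E3 => v 1) hne
      simp only [] at e
      rw [PiLp.add_apply, vv_apply1] at e
      have h1 := hx x hx'.1 1
      rw [abs_le] at h1
      have h3 := hy1 y hy'.1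
      linarith [h1.1, h3]
  have s4 : Conn X (pw u (cst (vv (lam * (k + 1)) lam)) c)
      (pw u (cst (vv (lam * (k + 1)) 0)) c) := by
    have hp := conn_path hu h2 (fun t => vv (lam * (k + 1)) ((1 - t) * lam))
      (cont_vv continuous_const (by fun_prop)) ?_
    · have e0 : vv (lam * (k + 1)) ((1 - (0:ℝ)) * lam) = vv (lam * (k + 1)) lam := by
        congr 1; ring
      have e1 : vv (lam * (k + 1)) ((1 - (1:ℝ)) * lam) = vv (lam * (k + 1)) 0 := by
        congr 1; ring
      simp only [e0, e1] at hp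
      exact hp
    · intro t ht x hx' y hy' hne
      have e := congrArg (fun v : E3 => v 0) hne
      simp only [] at e
      rw [PiLp.add_apply, vv_apply0] at e
      have h1 := hx x hx'.1 0
      rw [abs_le] at h1
      have h3 := hy0 y hy'.1
      have h4 : lam * (k + 1) = lam * k + lam := by ring
      rw [h4] at e
      linarith [h1.1, h3.2]
  exact ((s1.trans s2).trans s3).trans s4

end ExplodeAux

open Classical ExplodeAux in
theorem explode {m : ℕ} (U : Fin m → Set E3) (hd : Pairwise (fun i j => Disjoint (U i) (U j)))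
    (hE : ∀ i, Expl (U i)) (hb : Bornology.IsBounded (⋃ i, U i)) :
    ∃ L : ℝ, ∀ lam : ℝ, L ≤ lam → ∀ f : E3 → E3,
      (∀ i, ∀ x ∈ U i, f x = EuclideanSpace.single (0 : Fin 3) (lam * ((i : ℕ) + 1 : ℝ))) →
      Conn (⋃ i, U i) (cst 0) f := by
  obtain ⟨X, hX⟩ : ∃ X, X = ⋃ i, U i := ⟨_, rfl⟩
  rw [← hX] at hb ⊢
  have hUX : ∀ i, U i ⊆ X := fun i => by rw [hX]; exact subset_iUnion U i
  obtain ⟨R0, hR0⟩ := hb.exists_norm_le
  obtain ⟨R, hRdef⟩ : ∃ R, R = max R0 0 := ⟨_, rfl⟩
  have hRnn : 0 ≤ R := by rw [hRdef]; exact le_max_right _ _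
  have hR : ∀ x ∈ X, ‖x‖ ≤ R := fun x hx => by
    rw [hRdef]; exact le_trans (hR0 x hx) (le_max_left _ _)
  -- Baire measurable versions
  have hbm : ∀ i, ∃ E' : Set E3, BaireMeasurableSet E' ∧ ∀ x ∈ X, x ∈ U i ↔ x ∈ E' :=
    fun i => (hE i X hb).exists_bm
  choose V hVm hV using hbm
  -- thresholds
  have hth : ∀ k : Fin m, ∃ L : ℝ, ∀ C : E3, L ≤ ‖C‖ →
      Conn (X ∩ (⋃ i : Fin m, ⋃ _ : i < k, V i)ᶜ) (cst 0) (pw (U k) (cst C) (cst 0)) :=
    fun k => hE k _ (hb.subset inter_subset_left)
  choose L hL using hth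
  obtain ⟨L0, hL0⟩ : ∃ L0 : ℝ, ∀ k, L k ≤ L0 := by
    refine ⟨∑ k, |L k|, fun k => le_trans (le_abs_self _) ?_⟩
    exact Finset.single_le_sum (f := fun k => |L k|) (fun _ _ => abs_nonneg _) (Finset.mem_univ k)
  refine ⟨max L0 (2 * R + 1), ?_⟩
  intro lam hlam f hf
  have hlam1 : L0 ≤ lam := le_trans (le_max_left _ _) hlam
  have hlam2 : 2 * R < lam := by
    have := le_trans (le_max_right _ _) hlam
    linarith
  have hlam0 : 0 < lam := by linarith
  -- the configurations
  have hind : ∀ k : ℕ, k ≤ m → Conn X (cst 0)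
      (pw (⋃ i : Fin m, ⋃ _ : (i : ℕ) < k, V i) f (cst 0)) := by
    intro k
    induction k with
    | zero =>
      intro _
      refine (conn_cst X 0 0).congr (fun _ _ => rfl) ?_
      intro x _
      unfold pw
      rw [if_neg]
      intro h
      simp at h
    | succ k ih =>
      intro hk
      have hk' : k < m := hk
      obtain ⟨κ, hκ⟩ : ∃ κ : Fin m, κ = ⟨k, hk'⟩ := ⟨_, rfl⟩
      have hκv : (κ : ℕ) = k := by rw [hκ]
      have ih' := ih (by omega)
      obtain ⟨W, hW⟩ : ∃ W, W = ⋃ i : Fin m, ⋃ _ : (i : ℕ) < k, V i := ⟨_, rfl⟩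
      rw [← hW] at ih'
      have hWm : BaireMeasurableSet W := by
        rw [hW]
        exact BaireMeasurableSet.iUnion (fun i => BaireMeasurableSet.iUnion (fun _ => hVm i))
      have hWeq : W = ⋃ i : Fin m, ⋃ _ : i < κ, V i := by
        rw [hW, ← hκv]
        rfl
      have hmemW : ∀ x, x ∈ W ↔ ∃ i : Fin m, (i : ℕ) < k ∧ x ∈ V i := by
        intro x; rw [hW]; simp
      -- the set `V κ` on `X`
      have huW : ∀ x ∈ X, x ∈ V κ → x ∉ W := by
        intro x hx hxκ hxW
        obtain ⟨i, hi, hxi⟩ := (hmemW x).1 hxW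
        have h1 := (hV i x hx).2 hxi
        have h2 := (hV κ x hx).2 hxκ
        have hne : i ≠ κ := by
          intro h; rw [h, hκv] at hi; omega
        exact Set.disjoint_left.1 (hd hne) h1 h2
      have hsep : Conn (X ∩ Wᶜ) (cst 0) (pw (V κ) (cst (vv (-lam) 0)) (cst 0)) := by
        have h1 := hL κ (vv (-lam) 0) (by
          rw [norm_vv0, abs_neg, abs_of_pos hlam0]; exact le_trans (hL0 κ) hlam1)
        rw [← hWeq] at h1
        refine h1.congr (fun _ _ => rfl) ?_
        intro x hx
        unfold pw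
        by_cases hxu : x ∈ U κ
        · rw [if_pos hxu, if_pos ((hV κ x hx.1).1 hxu)]
        · rw [if_neg hxu, if_neg (fun h => hxu ((hV κ x hx.1).2 h))]
      have hst := step (k := k) (c := pw W f (cst 0)) hb hR hRnn hlam2 (hVm κ) hWm huW hsep
        (fun x _ hxW => by unfold pw; rw [if_neg hxW]; rfl)
        (fun x hx hxW => by
          obtain ⟨i, hi, hxi⟩ := (hmemW x).1 hxW
          refine ⟨i, hi, ?_⟩
          unfold pw
          rw [if_pos hxW, hf i x ((hV i x hx).2 hxi), vv_zero_right])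
        ih'.right
      refine (ih'.trans hst).congr (fun _ _ => rfl) ?_
      intro x hx
      have hmemW1 : x ∈ (⋃ i : Fin m, ⋃ _ : (i : ℕ) < k + 1, V i) ↔ x ∈ W ∨ x ∈ V κ := by
        rw [hmemW]
        simp only [mem_iUnion, exists_prop]
        constructor
        · rintro ⟨i, hi, hxi⟩
          by_cases h : (i : ℕ) < k
          · exact Or.inl ⟨i, h, hxi⟩
          · right
            have : i = κ := by
              apply Fin.ext; rw [hκv]; omega
            rw [← this]; exact hxi
        · rintro (⟨i, hi, hxi⟩ | hxκ)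
          · exact ⟨i, by omega, hxi⟩
          · exact ⟨κ, by rw [hκv]; omega, hxκ⟩
      by_cases hxκ : x ∈ V κ
      · have e1 : pw (V κ) (cst (vv (lam * (k + 1)) 0)) (pw W f (cst 0)) x =
            vv (lam * (k + 1)) 0 := by
          unfold pw; rw [if_pos hxκ]; rfl
        have e2 : pw (⋃ i : Fin m, ⋃ _ : (i : ℕ) < k + 1, V i) f (cst 0) x = f x := by
          unfold pw; rw [if_pos (hmemW1.2 (Or.inr hxκ))]
        rw [e1, e2, hf κ x ((hV κ x hx).2 hxκ), hκv, vv_zero_right]
      · have e1 : pw (V κ) (cst (vv (lam * (k + 1)) 0)) (pw W f (cst 0)) x =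
            pw W f (cst 0) x := by
          conv_lhs => unfold pw
          rw [if_neg hxκ]
          rfl
        rw [e1]
        by_cases hxW : x ∈ W
        · have e2 : pw (⋃ i : Fin m, ⋃ _ : (i : ℕ) < k + 1, V i) f (cst 0) x = f x := by
            unfold pw; rw [if_pos (hmemW1.2 (Or.inl hxW))]
          have e3 : pw W f (cst 0) x = f x := by unfold pw; rw [if_pos hxW]
          rw [e2, e3]
        · have hn : x ∉ (⋃ i : Fin m, ⋃ _ : (i : ℕ) < k + 1, V i) := by
            rw [hmemW1]; rintro (h | h)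
            · exact hxW h
            · exact hxκ h
          have e2 : pw (⋃ i : Fin m, ⋃ _ : (i : ℕ) < k + 1, V i) f (cst 0) x = 0 := by
            unfold pw; rw [if_neg hn]; rfl
          have e3 : pw W f (cst 0) x = 0 := by unfold pw; rw [if_neg hxW]; rfl
          rw [e2, e3]
  refine (hind m le_rfl).congr (fun _ _ => rfl) ?_
  intro x hx
  have hx' : ∃ i, x ∈ U i := by rw [hX] at hx; exact mem_iUnion.1 hx
  obtain ⟨i, hi⟩ := hx'
  unfold pw
  rw [if_pos]
  simp only [mem_iUnion, exists_prop]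
  exact ⟨i, i.2, (hV i x hx).1 hi⟩

end Pool.Agent.CBT
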