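import Pool.Agent.Lib.CBT.Conn

/-!
# CBT.Far : far pieces do not disturb

`conn_far`: the part `X ∩ E` moves from the configuration `f` to `g` (both in the half space
`⟨e, ·⟩ ≤ a`), the part `X \ E` waits in the configuration `h` in the half space `⟨e, ·⟩ > a`.
Proof: a direct path in three phases.
phase 1: `X \ E` is pushed by `T • e`, `T` from `0` to `T1` (with `a + T1 ‖e‖^2 > M`), `X ∩ E` rests at `f`;
phase 2: `X ∩ E` moves by the paths of `h1`; phase 3: push back.
-/

set_option autoImplicit false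

namespace Pool.Agent.CBT

open Set Metric

namespace FarAux

/-- time for the paths of `X ∩ E` -/
noncomputable def ph (t : ℝ) : ℝ := max 0 (min 1 (3 * t - 1))

/-- time for the push -/
noncomputable def ps (t : ℝ) : ℝ := min 1 (min (3 * t) (3 - 3 * t))

theorem ph_mem (t : ℝ) : ph t ∈ Icc (0 : ℝ) 1 :=
  ⟨le_max_left _ _, max_le zero_le_one (min_le_left _ _)⟩

theorem ph_cont : Continuous ph := by
  unfold ph
  fun_prop

theorem ps_cont : Continuous ps := by
  unfold ps
  fun_prop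

theorem ph_low {t : ℝ} (h : t ≤ 1 / 3) : ph t = 0 := by
  unfold ph
  rw [max_eq_left]
  exact (min_le_right _ _).trans (by linarith)

theorem ph_high {t : ℝ} (h : 2 / 3 ≤ t) : ph t = 1 := by
  unfold ph
  rw [min_eq_left (by linarith), max_eq_right zero_le_one]

theorem ps_nonneg {t : ℝ} (h : t ∈ Icc (0 : ℝ) 1) : 0 ≤ ps t := by
  unfold ps
  refine le_min zero_le_one (le_min ?_ ?_)
  · linarith [h.1]
  · linarith [h.2]

theorem ps_mid {t : ℝ} (h1 : 1 / 3 ≤ t) (h2 : t ≤ 2 / 3) : ps t = 1 := by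
  unfold ps
  rw [min_eq_left]
  refine le_min ?_ ?_ <;> linarith

end FarAux

open FarAux

theorem conn_far {X E : Set E3} (hX : Bornology.IsBounded X) (hE : BaireMeasurableSet E) {e : E3}
    (he : e ≠ 0) (a : ℝ) {f g h : E3 → E3} (h1 : Conn (X ∩ E) f g) (h2 : Conn (X \ E) h h)
    (hf : ∀ x ∈ X ∩ E, inner ℝ e (x + f x) ≤ a) (hg : ∀ x ∈ X ∩ E, inner ℝ e (x + g x) ≤ a)
    (hh : ∀ x ∈ X \ E, a < inner ℝ e (x + h x)) : Conn X (pw E f h) (pw E g h) := by
  classical
  obtain ⟨κ, hκ, l, p, hl, hp, hfg, hinj⟩ := h1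
  obtain ⟨κ', hκ', l', p', hl', hp', hfg', hinj'⟩ := h2
  obtain ⟨R, hR⟩ := hX.exists_norm_le
  -- the bound
  have hB : ∃ B : ℝ, ∀ i, ∀ s ∈ Icc (0 : ℝ) 1, ‖p i s‖ ≤ B := by
    have hi : ∀ i, ∃ B : ℝ, ∀ s ∈ Icc (0 : ℝ) 1, ‖p i s‖ ≤ B := fun i =>
      isCompact_Icc.exists_bound_of_continuousOn (hp i).continuousOn
    choose B hB using hi
    haveI := Fintype.ofFinite κ
    refine ⟨∑ i, |B i|, fun i s hs => ?_⟩
    refine ((hB i s hs).trans (le_abs_self _)).trans ?_
    exact Finset.single_le_sum (f := fun i => |B i|) (fun i _ => abs_nonneg _) (Finset.mem_univ i)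
  obtain ⟨B, hB⟩ := hB
  have hen : 0 < ‖e‖ ^ 2 := by
    have := norm_pos_iff.mpr he
    positivity
  set M : ℝ := ‖e‖ * (R + B) with hM
  set T : ℝ := (|M - a| + 1) / ‖e‖ ^ 2 with hT
  have hT0 : 0 ≤ T := by positivity
  have hTM : M < a + T * ‖e‖ ^ 2 := by
    rw [hT, div_mul_cancel₀ _ hen.ne']
    have := le_abs_self (M - a)
    linarith
  have hbd : ∀ x ∈ X ∩ E, ∀ s ∈ Icc (0 : ℝ) 1, inner ℝ e (x + p (l x) s) ≤ M := by
    intro x hx s hs
    refine (real_inner_le_norm _ _).trans ?_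
    rw [hM]
    refine mul_le_mul_of_nonneg_left ?_ (norm_nonneg _)
    exact (norm_add_le _ _).trans (add_le_add (hR x hx.1) (hB _ s hs))
  refine ⟨κ ⊕ κ', inferInstance, fun x => if x ∈ E then Sum.inl (l x) else Sum.inr (l' x),
    fun i t => Sum.elim (fun i => p i (ph t)) (fun j => p' j 0 + (ps t * T) • e) i, ?_, ?_, ?_, ?_⟩
  · rintro (i | j)
    · have : (fun x => if x ∈ E then (Sum.inl (l x) : κ ⊕ κ') else Sum.inr (l' x)) ⁻¹' {Sum.inl i} =
          E ∩ l ⁻¹' {i} := by
        ext x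
        by_cases hx : x ∈ E <;> simp [hx]
      rw [this]
      exact hE.inter (hl i)
    · have : (fun x => if x ∈ E then (Sum.inl (l x) : κ ⊕ κ') else Sum.inr (l' x)) ⁻¹' {Sum.inr j} =
          Eᶜ ∩ l' ⁻¹' {j} := by
        ext x
        by_cases hx : x ∈ E <;> simp [hx]
      rw [this]
      exact hE.compl.inter (hl' j)
  · rintro (i | j)
    · exact (hp i).comp ph_cont
    · show Continuous fun t => p' j 0 + (ps t * T) • e
      exact continuous_const.add ((ps_cont.mul continuous_const).smul continuous_const)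
  · intro x hx
    have e0 : ph 0 = 0 := ph_low (by norm_num)
    have e1 : ph 1 = 1 := ph_high (by norm_num)
    have e2 : ps 0 = 0 := by simp [ps]
    have e3 : ps 1 = 0 := by simp [ps]
    by_cases hxE : x ∈ E
    · obtain ⟨q1, q2⟩ := hfg x ⟨hx, hxE⟩
      simp only [hxE, if_true, Sum.elim_inl, e0, e1, pw]
      exact ⟨q1, q2⟩
    · obtain ⟨q1, q2⟩ := hfg' x ⟨hx, hxE⟩
      simp only [hxE, if_false, Sum.elim_inr, e2, e3, pw, zero_mul, zero_smul, add_zero]
      exact ⟨q1, q1⟩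
  · intro t ht
    -- mixed pairs
    have hmix : ∀ x ∈ X ∩ E, ∀ y ∈ X \ E,
        x + p (l x) (ph t) ≠ y + (p' (l' y) 0 + (ps t * T) • e) := by
      intro x hx y hy hxy
      have hy1 : p' (l' y) 0 = h y := (hfg' y hy).1
      have h3 : inner ℝ e (x + p (l x) (ph t)) = inner ℝ e (y + h y) + ps t * T * ‖e‖ ^ 2 := by
        rw [hxy, hy1, ← add_assoc, inner_add_right _ (y + h y), inner_smul_right,
          real_inner_self_eq_norm_sq]
      have h4 := hh y hy
      have h5 : 0 ≤ ps t * T * ‖e‖ ^ 2 := mul_nonneg (mul_nonneg (ps_nonneg ht) hT0) hen.le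
      rcases le_or_gt t (1 / 3) with h6 | h6
      · rw [ph_low h6, (hfg x hx).1] at h3
        have := hf x hx
        linarith
      · rcases le_or_gt t (2 / 3) with h7 | h7
        · rw [ps_mid h6.le h7, one_mul] at h3
          have := hbd x hx (ph t) (ph_mem t)
          linarith
        · rw [ph_high h7.le, (hfg x hx).2] at h3
          have := hg x hx
          linarith
    intro x hx y hy hxy
    simp only at hxy
    by_cases hxE : x ∈ E
    · by_cases hyE : y ∈ E
      · simp only [hxE, hyE, if_true, Sum.elim_inl] at hxy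
        exact hinj (ph t) (ph_mem t) ⟨hx, hxE⟩ ⟨hy, hyE⟩ hxy
      · simp only [hxE, hyE, if_true, if_false, Sum.elim_inl, Sum.elim_inr] at hxy
        exact absurd hxy (hmix x ⟨hx, hxE⟩ y ⟨hy, hyE⟩)
    · by_cases hyE : y ∈ E
      · simp only [hxE, hyE, if_true, if_false, Sum.elim_inl, Sum.elim_inr] at hxy
        exact absurd hxy.symm (hmix y ⟨hy, hyE⟩ x ⟨hx, hxE⟩)
      · simp only [hxE, hyE, if_false, Sum.elim_inr] at hxy
        rw [← add_assoc, ← add_assoc] at hxy
        exact hinj' 0 ⟨le_rfl, zero_le_one⟩ ⟨hx, hxE⟩ ⟨hy, hyE⟩ (add_right_cancel hxy)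

end Pool.Agent.CBT
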