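import Pool.Agent.Lib.CBT.BGP
import Pool.Agent.Lib.CBT.BGen

/-!
# CBT.Group : the generic free group (output of PART B)
-/

set_option autoImplicit false

namespace Pool.Agent.CBT

open Set Metric

theorem exists_gp (m : ℕ) (T : Fin m → E3) (ε : ℝ) (hε : 0 < ε) :
    ∃ (ω τ : Fin m → E3) (n : E3) (ρ : FreeGroup (Fin m) →* Iso), GP ρ n ∧
      (∀ i, ‖ω i‖ < ε ∧ ‖τ i - T i‖ < ε) ∧ ∀ i x, ρ (FreeGroup.of i) x = mot (ω i) (τ i) x := by
  have hU : IsOpen {p : Par m | (∀ i, ‖p.1 i‖ < ε ∧ ‖p.2.1 i - T i‖ < ε) ∧ p.2.2 ≠ 0} := by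
    have h1 : IsOpen {p : Par m | ∀ i, ‖p.1 i‖ < ε ∧ ‖p.2.1 i - T i‖ < ε} := by
      have : {p : Par m | ∀ i, ‖p.1 i‖ < ε ∧ ‖p.2.1 i - T i‖ < ε} =
          ⋂ i, ({p : Par m | ‖p.1 i‖ < ε} ∩ {p : Par m | ‖p.2.1 i - T i‖ < ε}) := by
        ext p
        simp
      rw [this]
      refine isOpen_iInter_of_finite fun i => ?_
      refine (isOpen_lt (by fun_prop) continuous_const).inter
        (isOpen_lt (by fun_prop) continuous_const)
    have h2 : IsOpen {p : Par m | p.2.2 ≠ 0} := isOpen_ne_fun (by fun_prop) continuous_const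
    exact h1.inter h2
  have hne : {p : Par m | (∀ i, ‖p.1 i‖ < ε ∧ ‖p.2.1 i - T i‖ < ε) ∧ p.2.2 ≠ 0}.Nonempty := by
    refine ⟨(fun _ => 0, T, EuclideanSpace.single (0 : Fin 3) (1 : ℝ)), ?_, ?_⟩
    · intro i
      simp [hε]
    · intro h
      have := congrArg (fun q : E3 => q 0) h
      simp at this
  obtain ⟨p, ⟨hp1, hp2⟩, hp⟩ := exists_gen hU hne
  obtain ⟨ρ, hρ1, hρ2⟩ := exists_rho p
  exact ⟨p.1, p.2.1, _, ρ, gp_of_gen hp hp2 hρ2, hp1, hρ1⟩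

end Pool.Agent.CBT
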