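import Pool.Agent.Lib.CBT.Defs

/-!
# CBT.Inv : invariance under isometries

`Sep.image`: let `g` have linear part `A = g.linearIsometryEquiv`.  Given `C` far, apply `Sep X E` to `A⁻¹ C` (same norm)
and transport: labels `l ∘ g⁻¹` (Baire measurable classes: preimage under the homeomorphism `g⁻¹`, see
`BaireMeasurableSet.preimage`), paths `A (p i t)`.  If `y = g x` then `y + A (p (l x) t) = g (x + p (l x) t)`, so
injectivity is transported, and the end point is `A (A⁻¹ C) = C` on `g '' E` (for `x ∈ X`, `g x ∈ g '' E ↔ x ∈ E`).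
`Expl.image`: a bounded `Y` is `g '' (g⁻¹ '' Y)`.
-/

set_option autoImplicit false

namespace Pool.Agent.CBT

open Set Metric

namespace InvAux

lemma map_add_vec (g : Iso) (x v : E3) : g x + g.linearIsometryEquiv v = g (x + v) := by
  have h := g.map_vadd x v
  rw [vadd_eq_add, vadd_eq_add] at h
  rw [add_comm x v, h, add_comm]

end InvAux

open InvAux

theorem Sep.image {X E : Set E3} (h : Sep X E) (g : Iso) : Sep (g '' X) (g '' E) := by
  classical
  obtain ⟨L, hL⟩ := h
  refine ⟨L, fun C hC => ?_⟩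
  set A := g.linearIsometryEquiv with hA
  obtain ⟨κ, hκ, l, p, hB, hc, he, hi⟩ := hL (A.symm C) (by rwa [LinearIsometryEquiv.norm_map])
  refine ⟨κ, hκ, fun y => l (g.symm y), fun i t => A (p i t), fun i => ?_, fun i => ?_, ?_, ?_⟩
  · have e : (fun y => l (g.symm y)) ⁻¹' {i} = g.symm ⁻¹' (l ⁻¹' {i}) := rfl
    rw [e]
    exact (hB i).preimage g.symm.continuous g.symm.toHomeomorph.isOpenMap
  · exact A.continuous.comp (hc i)
  · rintro _ ⟨x, hx, rfl⟩
    obtain ⟨h0, h1⟩ := he x hx
    simp only [AffineIsometryEquiv.symm_apply_apply]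
    refine ⟨?_, ?_⟩
    · rw [h0]
      unfold cst
      exact A.map_zero
    · rw [h1]
      unfold pw cst
      have hmem : g x ∈ g '' E ↔ x ∈ E := g.injective.mem_set_image
      by_cases hxE : x ∈ E
      · rw [if_pos hxE, if_pos (hmem.2 hxE)]
        exact A.apply_symm_apply C
      · rw [if_neg hxE, if_neg (fun h => hxE (hmem.1 h))]
        exact A.map_zero
  · intro t ht
    rintro _ ⟨x, hx, rfl⟩ _ ⟨x', hx', rfl⟩ hxx
    simp only [AffineIsometryEquiv.symm_apply_apply] at hxx
    rw [hA, map_add_vec, map_add_vec] at hxx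
    have h2 := hi t ht hx hx' (g.injective hxx)
    rw [h2]

theorem Expl.image {E : Set E3} (h : Expl E) (g : Iso) : Expl (g '' E) := by
  intro Y hY
  have hb : Bornology.IsBounded (g.symm '' Y) := by
    rw [Metric.isBounded_iff] at hY ⊢
    obtain ⟨C, hC⟩ := hY
    refine ⟨C, ?_⟩
    rintro _ ⟨x, hx, rfl⟩ _ ⟨y, hy, rfl⟩
    rw [g.symm.dist_map]
    exact hC hx hy
  have h1 := (h _ hb).image g
  have e : g '' (g.symm '' Y) = Y := by
    rw [Set.image_image]
    simp
  rwa [e] at h1

end Pool.Agent.CBT
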