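import Pool.Agent.Lib.CBT.CStage
import Pool.Agent.Lib.CBT.CFree

/-!
# CBT.Match : THEOREM C (output of PART C)

* `R = ‖v‖ + 1` bounds both sides.  Enumerate the pairs of rationals `a < b` (`ℕ → ℚ × ℚ` surjective on them) and take for `k` the slab
  `S k = {x | ⟨n,x⟩ ∈ Ico (cl k) (cu k)}` of `exists_slab` with `r = rad k` inside the `k`-th interval; `J k = Ioo (cl k) (cu k)`, dense union.
* States `s 0 = ⟨vert v, ∅⟩`, `s (k+1)` from `exists_stage` (dependent choice; `Inv ρ n v S k (s k)`, `(s k).Le (s (k+1))`,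
  no residual point in `S k` for `s (k+1)`).
* Limit: `R∞ e = ⋂ k, (s k).R e`.  Hall condition for `R∞`: for a finite `F ⊆ R∞ e` the finite sets `nb ((s k).R (!e)) F` decrease, so they are
  eventually constant, equal to `nb (R∞ (!e)) F`.  `hall_bij` gives `φ : R∞ true ≃ R∞ false` along edges; choose labels `λ x` for `x ∈ R∞ true`.
* `U i = (⋃ k, (s k).U true i) ∪ {x ∈ R∞ true | λ x = i}`.  Partition of `src`: every `x ∈ src` is either in `R∞ true` or in some
  `(s k).U true i`; disjointness from `disj` at the maximum of two stages, and `usub`.  The images: `ρ (of i) '' (s k).U true i = (s k).U false i`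
  (`img`), so the same argument on the side `false`, and `φ` is a bijection (`φ x = ρ (of (λ x)) x`).
* `tame`: `F k` from `tameU` of the state `s (k+1)` (finite union over `i`); on `{⟨n,x⟩ ∈ J k} ⊆ S k` one has `x ∈ U i ↔ x ∈ (s (k+1)).U true i`, as
  no point of `S k` is in `(s (k+1)).R true ⊇ R∞ true`, and the label is unique.
-/

set_option autoImplicit false

namespace Pool.Agent.CBT

open Set Metric

namespace MatchAux

theorem ltr_true {m : ℕ} (i : Fin m) : ltr true i = FreeGroup.of i := rfl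

/-- a decreasing sequence of sets is eventually constant on a finite set -/
theorem exists_stable {α : Type*} {P : ℕ → Set α} (hP : ∀ k l, k ≤ l → P l ⊆ P k) (F : Finset α) :
    ∃ K, ∀ y ∈ F, y ∈ P K → ∀ k, y ∈ P k := by
  classical
  have h : ∀ y : α, ∃ k, y ∈ P k → ∀ l, y ∈ P l := by
    intro y
    by_cases hy : ∀ l, y ∈ P l
    · exact ⟨0, fun _ => hy⟩
    · push Not at hy
      obtain ⟨l, hl⟩ := hy
      exact ⟨l, fun h => absurd h hl⟩
  choose κ hκ using h
  refine ⟨F.sup κ, fun y hy hyK => hκ y (hP _ _ (Finset.le_sup hy) hyK)⟩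

theorem mem_nb {m : ℕ} {ρ : FreeGroup (Fin m) →* Iso} {e : Bool} {Q : Set E3} {F : Finset E3} {y : E3} :
    y ∈ nb ρ e Q F ↔ y ∈ nb ρ e univ F ∧ y ∈ Q := by
  unfold nb
  simp only [Finset.mem_filter, Set.mem_univ, and_true]

theorem hall_lim {m : ℕ} {ρ : FreeGroup (Fin m) →* Iso} {e : Bool} {P Q : ℕ → Set E3}
    (hQ : ∀ k l, k ≤ l → Q l ⊆ Q k) (h : ∀ k, HallC ρ e (P k) (Q k)) :
    HallC ρ e (⋂ k, P k) (⋂ k, Q k) := by
  classical
  intro F hF
  obtain ⟨K, hK⟩ := exists_stable hQ (nb ρ e univ F)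
  refine (h K F fun x hx => Set.mem_iInter.1 (hF x hx) K).trans ?_
  apply Finset.card_le_card
  intro y hy
  rw [mem_nb] at hy ⊢
  exact ⟨hy.1, Set.mem_iInter.2 (hK y hy.1 hy.2)⟩

theorem norm_vert (v : E3) : ∀ e, ∀ x ∈ vert v e, ‖x‖ ≤ ‖v‖ + 1 := by
  intro e x hx
  have hv := norm_nonneg v
  have h0 : ∀ y : E3, y ∈ closedBall (0 : E3) 1 → ‖y‖ ≤ ‖v‖ + 1 := by
    intro y hy
    rw [mem_closedBall, dist_zero_right] at hy
    linarith
  cases e with
  | true => exact h0 x hx
  | false =>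
    rcases hx with hx | hx
    · exact h0 x hx
    · rw [mem_closedBall, dist_eq_norm] at hx
      have h1 : ‖x‖ ≤ ‖x - v‖ + ‖v‖ := by
        have := norm_add_le (x - v) v
        rwa [sub_add_cancel] at this
      linarith

/-- the rational intervals -/
theorem exists_intervals : ∃ a b : ℕ → ℝ, (∀ k, a k < b k) ∧
    ∀ x ε : ℝ, 0 < ε → ∃ k, x - ε < a k ∧ b k < x + ε := by
  obtain ⟨q, hq⟩ := exists_surjective_nat (ℚ × ℚ)
  classical
  refine ⟨fun k => if ((q k).1 : ℝ) < (q k).2 then ((q k).1 : ℝ) else 0,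
    fun k => if ((q k).1 : ℝ) < (q k).2 then ((q k).2 : ℝ) else 1, fun k => ?_, fun x ε hε => ?_⟩
  · show (if ((q k).1 : ℝ) < (q k).2 then ((q k).1 : ℝ) else 0) <
      (if ((q k).1 : ℝ) < (q k).2 then ((q k).2 : ℝ) else 1)
    split_ifs with h
    · exact h
    · exact one_pos
  · obtain ⟨r1, h1, h2⟩ := exists_rat_btwn (show x - ε < x by linarith)
    obtain ⟨r2, h3, h4⟩ := exists_rat_btwn (show x < x + ε by linarith)
    obtain ⟨k, hk⟩ := hq (r1, r2)
    refine ⟨k, ?_, ?_⟩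
    · show x - ε < (if ((q k).1 : ℝ) < (q k).2 then ((q k).1 : ℝ) else 0)
      rw [hk, if_pos (show ((r1 : ℚ) : ℝ) < r2 by linarith)]
      exact h1
    · show (if ((q k).1 : ℝ) < (q k).2 then ((q k).2 : ℝ) else 1) < x + ε
      rw [hk, if_pos (show ((r1 : ℚ) : ℝ) < r2 by linarith)]
      exact h4

/-- the sequence of slabs and states -/
theorem exists_seq {m : ℕ} {ρ : FreeGroup (Fin m) →* Iso} {n v : E3} (h : GP ρ n) (hc : Cover ρ v) :
    ∃ (cl cu : ℕ → ℝ) (s : ℕ → St m), (∀ k, cl k < cu k) ∧ Dense (⋃ k, Ioo (cl k) (cu k)) ∧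
      (∀ k, Inv ρ n v (fun k => {x | inner ℝ n x ∈ Ico (cl k) (cu k)}) k (s k)) ∧
      (∀ k, (s k).Le (s (k + 1))) ∧
      ∀ k e (x : E3), inner ℝ n x ∈ Ico (cl k) (cu k) → x ∉ (s (k + 1)).R e := by
  obtain ⟨a, b, hab, hdense⟩ := exists_intervals
  have hsl := fun k => exists_slab h v (‖v‖ + 1) (rad k) (hab k)
  choose cl cu h1 h2 h3 h4 h5 h6 using hsl
  have hf : FreeAct ρ := freeAct_of_gp h
  set S : ℕ → Set E3 := fun k => {x | inner ℝ n x ∈ Ico (cl k) (cu k)} with hS
  have key : ∀ (N : ℕ) (s : {s : St m // Inv ρ n v S N s}),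
      ∃ t : {t : St m // Inv ρ n v S (N + 1) t}, s.1.Le t.1 ∧ ∀ e, ∀ x ∈ S N, x ∉ t.1.R e := by
    rintro N ⟨s, hs⟩
    obtain ⟨t, ht1, ht2, ht3⟩ := exists_stage hf hc (norm_vert v) (fun k _ => h6 k)
      (tame_slab (h4 N) (h5 N)) hs
    exact ⟨⟨t, ht1⟩, ht2, ht3⟩
  choose f hf1 hf2 using key
  let sq : (N : ℕ) → {s : St m // Inv ρ n v S N s} :=
    fun N => Nat.rec ⟨⟨vert v, fun _ _ => ∅⟩, inv_init hf hc S⟩ (fun N s => f N s) N
  have hsq : ∀ N, sq (N + 1) = f N (sq N) := fun N => rfl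
  refine ⟨cl, cu, fun k => (sq k).1, h2, ?_, fun k => (sq k).2, fun k => ?_, fun k e x hx => ?_⟩
  · intro x
    rw [Metric.mem_closure_iff]
    intro ε hε
    obtain ⟨k, hk1, hk2⟩ := hdense x ε hε
    refine ⟨(cl k + cu k) / 2, Set.mem_iUnion.2 ⟨k, ?_, ?_⟩, ?_⟩
    · have := h2 k
      linarith
    · have := h2 k
      linarith
    · rw [Real.dist_eq, abs_lt]
      have e1 := h1 k
      have e2 := h2 k
      have e3 := h3 k
      constructor <;> linarith
  · show (sq k).1.Le (sq (k + 1)).1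
    rw [hsq]
    exact hf1 k (sq k)
  · show x ∉ (sq (k + 1)).1.R e
    rw [hsq]
    exact hf2 k (sq k) e x hx

end MatchAux

open MatchAux

theorem exists_matched {m : ℕ} {ρ : FreeGroup (Fin m) →* Iso} {n v : E3} (h : GP ρ n) (hc : Cover ρ v) :
    ∃ U : Fin m → Set E3, Matched ρ n v U := by
  classical
  obtain ⟨cl, cu, s, hcl, hdense, hinv, hle, hres⟩ := exists_seq h hc
  -- monotonicity
  have hRm : ∀ e k l, k ≤ l → (s l).R e ⊆ (s k).R e := by
    intro e k l hkl
    induction l, hkl using Nat.le_induction with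
    | base => exact subset_rfl
    | succ l _ ih => exact ((hle l).1 e).trans ih
  have hUm : ∀ e i k l, k ≤ l → (s k).U e i ⊆ (s l).U e i := by
    intro e i k l hkl
    induction l, hkl using Nat.le_induction with
    | base => exact subset_rfl
    | succ l _ ih => exact ih.trans ((hle l).2 e i)
  -- the residual sets and the last matching
  have hH : ∀ e, HallC ρ e (⋂ k, (s k).R e) (⋂ k, (s k).R (!e)) := fun e =>
    hall_lim (hRm (!e)) fun k => (hinv k).hall e
  obtain ⟨φ, hφ, hlab⟩ := hall_bij (hH true) (hH false)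
  choose lab hlab using hlab
  have hRinf : ∀ e x, x ∈ (⋂ k, (s k).R e) → ∀ k, x ∈ (s k).R e := fun e x hx k =>
    Set.mem_iInter.1 hx k
  -- labels at different stages agree
  have hUU : ∀ e i j k l x, x ∈ (s k).U e i → x ∈ (s l).U e j → i = j := by
    intro e i j k l x h1 h2
    by_contra hij
    have h3 := hUm e i k (max k l) (le_max_left _ _) h1
    have h4 := hUm e j l (max k l) (le_max_right _ _) h2
    exact Set.disjoint_left.1 ((hinv (max k l)).disj e i j hij) h3 h4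
  have hUR : ∀ e i k x, x ∈ (s k).U e i → x ∉ (⋂ k, (s k).R e) := by
    intro e i k x h1 h2
    exact ((hinv k).usub e i h1).2 (hRinf e x h2 k)
  have himg : ∀ k i x, x ∈ (s k).U true i → ρ (FreeGroup.of i) x ∈ (s k).U false i := by
    intro k i x hx
    have h1 : (s k).U false i = ρ (ltr true i) '' (s k).U true i := (hinv k).img true i
    rw [h1]
    exact ⟨x, hx, rfl⟩
  have hlab' : ∀ x : (⋂ k, (s k).R true : Set E3),
      ρ (FreeGroup.of (lab x)) (x : E3) = (φ x : E3) := fun x => hlab x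
  refine ⟨fun i => (⋃ k, (s k).U true i) ∪
    {x | ∃ hx : x ∈ (⋂ k, (s k).R true), lab ⟨x, hx⟩ = i}, ?_⟩
  constructor
  · -- cover
    ext x
    constructor
    · intro hx
      obtain ⟨i, hx⟩ := Set.mem_iUnion.1 hx
      rcases hx with hx | ⟨hx, -⟩
      · obtain ⟨k, hx⟩ := Set.mem_iUnion.1 hx
        exact ((hinv k).usub true i hx).1
      · exact (hinv 0).sub true (hRinf true x hx 0)
    · intro hx
      by_cases hR : x ∈ (⋂ k, (s k).R true)
      · exact Set.mem_iUnion.2 ⟨lab ⟨x, hR⟩, Or.inr ⟨hR, rfl⟩⟩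
      · have hR' := hR
        rw [Set.mem_iInter] at hR'
        push Not at hR'
        obtain ⟨k, hk⟩ := hR'
        obtain ⟨i, hi⟩ := (hinv k).cov true x hx hk
        exact Set.mem_iUnion.2 ⟨i, Or.inl (Set.mem_iUnion.2 ⟨k, hi⟩)⟩
  · -- disjoint
    intro i j hij
    show Disjoint _ _
    rw [Set.disjoint_left]
    intro x hx hy
    rcases hx with hx | ⟨hx, hi⟩
    · obtain ⟨k, hx⟩ := Set.mem_iUnion.1 hx
      rcases hy with hy | ⟨hy, -⟩
      · obtain ⟨l, hy⟩ := Set.mem_iUnion.1 hy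
        exact hij (hUU true i j k l x hx hy)
      · exact hUR true i k x hx hy
    · rcases hy with hy | ⟨hy, hj⟩
      · obtain ⟨l, hy⟩ := Set.mem_iUnion.1 hy
        exact hUR true j l x hy hx
      · exact hij (hi.symm.trans hj)
  · -- cover of the target
    ext y
    constructor
    · intro hy
      obtain ⟨i, x, hx, rfl⟩ := Set.mem_iUnion.1 hy
      rcases hx with hx | ⟨hx, hi⟩
      · obtain ⟨k, hx⟩ := Set.mem_iUnion.1 hx
        exact ((hinv k).usub false i (himg k i x hx)).1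
      · have h1 := hlab' ⟨x, hx⟩
        rw [hi] at h1
        rw [h1]
        exact (hinv 0).sub false (hRinf false _ (φ ⟨x, hx⟩).2 0)
    · intro hy
      by_cases hR : y ∈ (⋂ k, (s k).R false)
      · obtain ⟨x, hx⟩ := hφ.2 ⟨y, hR⟩
        refine Set.mem_iUnion.2 ⟨lab x, x, Or.inr ⟨x.2, rfl⟩, ?_⟩
        rw [hlab' x, hx]
      · have hR' := hR
        rw [Set.mem_iInter] at hR'
        push Not at hR'
        obtain ⟨k, hk⟩ := hR'
        obtain ⟨i, hi⟩ := (hinv k).cov false y hy hk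
        have h1 : (s k).U false i = ρ (ltr true i) '' (s k).U true i := (hinv k).img true i
        rw [h1] at hi
        obtain ⟨x, hx, hxy⟩ := hi
        exact Set.mem_iUnion.2 ⟨i, x, Or.inl (Set.mem_iUnion.2 ⟨k, hx⟩), hxy⟩
  · -- disjoint images
    intro i j hij
    show Disjoint _ _
    rw [Set.disjoint_left]
    rintro y ⟨x, hx, rfl⟩ ⟨x', hx', hxy⟩
    rcases hx with hx | ⟨hx, hi⟩
    · obtain ⟨k, hx⟩ := Set.mem_iUnion.1 hx
      rcases hx' with hx' | ⟨hx', hj⟩
      · obtain ⟨l, hx'⟩ := Set.mem_iUnion.1 hx'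
        have h2 := himg l j x' hx'
        rw [hxy] at h2
        exact hij (hUU false i j k l _ (himg k i x hx) h2)
      · have h1 := hlab' ⟨x', hx'⟩
        rw [hj] at h1
        refine hUR false i k _ (himg k i x hx) ?_
        rw [← hxy, h1]
        exact (φ ⟨x', hx'⟩).2
    · have h1 := hlab' ⟨x, hx⟩
      rw [hi] at h1
      rcases hx' with hx' | ⟨hx', hj⟩
      · obtain ⟨l, hx'⟩ := Set.mem_iUnion.1 hx'
        refine hUR false j l _ (himg l j x' hx') ?_
        rw [hxy, h1]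
        exact (φ ⟨x, hx⟩).2
      · have h2 := hlab' ⟨x', hx'⟩
        rw [hj] at h2
        have h3 : φ ⟨x, hx⟩ = φ ⟨x', hx'⟩ := by
          apply Subtype.ext
          rw [← h1, ← h2]
          exact hxy.symm
        have h4 := hφ.1 h3
        apply hij
        rw [← hi, ← hj, h4]
  · -- tame
    have ht : ∀ k i, ∃ F : Set Basic, F.Finite ∧ F ⊆ Adm ρ n v ∧ DetBy F univ ((s (k + 1)).U true i) :=
      fun k i => (hinv (k + 1)).tameU true i
    choose F hF1 hF2 hF3 using ht
    refine ⟨cl, cu, fun k => ⋃ i, F k i, fun k => ⟨Set.finite_iUnion (hF1 k), Set.iUnion_subset (hF2 k)⟩,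
      hdense, ?_⟩
    intro k i
    have hkey : ∀ x : E3, inner ℝ n x ∈ Ioo (cl k) (cu k) →
        (x ∈ ((⋃ k, (s k).U true i) ∪ {x | ∃ hx : x ∈ (⋂ k, (s k).R true), lab ⟨x, hx⟩ = i}) ↔
          x ∈ (s (k + 1)).U true i) := by
      intro x hx
      have hxR : x ∉ (s (k + 1)).R true := hres k true x ⟨hx.1.le, hx.2⟩
      constructor
      · rintro (hx1 | ⟨hx1, -⟩)
        · obtain ⟨l, hx1⟩ := Set.mem_iUnion.1 hx1
          obtain ⟨j, hj⟩ := (hinv (k + 1)).cov true x ((hinv l).usub true i hx1).1 hxR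
          have h1 := hUU true i j l (k + 1) x hx1 hj
          rw [h1]
          exact hj
        · exact absurd (hRinf true x hx1 (k + 1)) hxR
      · intro hx1
        exact Or.inl (Set.mem_iUnion.2 ⟨k + 1, hx1⟩)
    intro x hx y hy hxy
    rw [hkey x hx, hkey y hy]
    exact hF3 k i x trivial y trivial fun P hP => hxy P (Set.mem_iUnion.2 ⟨i, hP⟩)

end Pool.Agent.CBT
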