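import Pool.Agent.Lib.CBT.Defs

/-!
# CBT.Select : countably many good intervals

From the pointwise hypothesis choose, for every pair of rationals `(a, b')` such that `Ioo a b'` is good at some scale, that
scale; enumerate (`ℚ × ℚ` is countable; the other pairs get the empty interval `Ioo 0 0`, trivially good).  Every
point of `D` lies in one of them (density of the rationals; a subset of a good interval is good at the same scale), so the
union is open and contains the dense set `D`.  `k s` = least index `i` with `s ∈ Ioo (α i) (β i)` (`0` if there is none) is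
measurable.
-/

set_option autoImplicit false

namespace Pool.Agent.CBT

open Set Metric

theorem GoodInt.mono {b : Frame} {E : Set E3} {I I' : Set ℝ} {j : ℕ} (h : GoodInt b E I j) (hI : I' ⊆ I) :
    GoodInt b E I' j := by
  intro q
  obtain ⟨P₁, P₂, Φ, hΦ⟩ := h q
  exact ⟨P₁, P₂, Φ, fun x hx hq => hΦ x (hI hx) hq⟩

theorem exists_select (b : Frame) (E : Set E3) (D : Set ℝ)
    (h : ∀ s ∈ D, ∃ (α β : ℝ) (j : ℕ), α < s ∧ s < β ∧ GoodInt b E (Ioo α β) j) :
    ∃ (α β : ℕ → ℝ) (J : ℕ → ℕ) (k : ℝ → ℕ), Measurable k ∧ (D ⊆ ⋃ i, Ioo (α i) (β i)) ∧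
      (∀ i, GoodInt b E (Ioo (α i) (β i)) (J i)) ∧
      ∀ s ∈ ⋃ i, Ioo (α i) (β i), s ∈ Ioo (α (k s)) (β (k s)) := by
  classical
  obtain ⟨e, he⟩ := exists_surjective_nat (ℚ × ℚ)
  have hch : ∀ i : ℕ, ∃ (a c : ℝ) (j : ℕ), GoodInt b E (Ioo a c) j ∧
      ((∃ j', GoodInt b E (Ioo ((e i).1 : ℝ) ((e i).2 : ℝ)) j') → a = (e i).1 ∧ c = (e i).2) := by
    intro i
    by_cases hi : ∃ j', GoodInt b E (Ioo ((e i).1 : ℝ) ((e i).2 : ℝ)) j'
    · obtain ⟨j', hj'⟩ := hi
      exact ⟨(e i).1, (e i).2, j', hj', fun _ => ⟨rfl, rfl⟩⟩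
    · refine ⟨0, 0, 0, ?_, fun h' => absurd h' hi⟩
      intro q
      refine ⟨Basic.ball 0, Basic.ball 0, fun _ _ => true, fun x hx _ => ?_⟩
      rw [Ioo_self] at hx
      exact absurd hx (notMem_empty _)
  choose α β J hJ hαβ using hch
  have hex : ∀ s : ℝ, ∃ i : ℕ, s ∈ Ioo (α i) (β i) ∨ s ∉ ⋃ i, Ioo (α i) (β i) := by
    intro s
    by_cases hs : s ∈ ⋃ i, Ioo (α i) (β i)
    · obtain ⟨i, hi⟩ := mem_iUnion.mp hs
      exact ⟨i, Or.inl hi⟩
    · exact ⟨0, Or.inr hs⟩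
  refine ⟨α, β, J, fun s => Nat.find (hex s), ?_, ?_, hJ, ?_⟩
  · refine measurable_find hex fun i => ?_
    have h1 : MeasurableSet (⋃ i, Ioo (α i) (β i)) := MeasurableSet.iUnion fun i => measurableSet_Ioo
    exact measurableSet_Ioo.union h1.compl
  · intro s hs
    obtain ⟨a, c, j, has, hsc, hg⟩ := h s hs
    obtain ⟨p, hp1, hp2⟩ := exists_rat_btwn has
    obtain ⟨q, hq1, hq2⟩ := exists_rat_btwn hsc
    obtain ⟨i, hi⟩ := he (p, q)
    have hg' : GoodInt b E (Ioo ((e i).1 : ℝ) ((e i).2 : ℝ)) j := by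
      rw [hi]
      exact hg.mono (Ioo_subset_Ioo hp1.le hq2.le)
    obtain ⟨h1, h2⟩ := hαβ i ⟨j, hg'⟩
    rw [mem_iUnion]
    refine ⟨i, ?_⟩
    rw [h1, h2, hi]
    exact ⟨hp2, hq1⟩
  · intro s hs
    have h1 := Nat.find_spec (hex s)
    rcases h1 with h1 | h1
    · exact h1
    · exact absurd hs h1

end Pool.Agent.CBT
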