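import Mathlib

/-!
# CBT.Hamel : a discontinuous additive function with small values at `3/2`

Take a nonzero `ℚ`-linear `f : ℝ → ℚ` which vanishes at `1` (so on `ℚ`); take `y` with `f y = 3 / 2` and add rational
numbers to `y`.
-/

set_option autoImplicit false

namespace Pool.Agent.CBT

open Filter Topology

theorem exists_hamel (L : ℝ) : ∃ (f : ℝ →+ ℚ) (u : ℕ → ℝ), Tendsto u atTop (𝓝 0) ∧ L < u 0 ∧
    ∀ q, f (u q) = 3 / 2 := by
  have hp : Submodule.span ℚ {(1 : ℝ)} < ⊤ := by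
    rw [lt_top_iff_ne_top]
    intro h
    have h1 : √2 ∈ Submodule.span ℚ {(1 : ℝ)} := h ▸ Submodule.mem_top
    rw [Submodule.mem_span_singleton] at h1
    obtain ⟨a, ha⟩ := h1
    exact irrational_sqrt_two ⟨a, by rw [← ha, Rat.smul_def, mul_one]⟩
  obtain ⟨f, hf0, hf⟩ := Submodule.exists_le_ker_of_lt_top _ hp
  obtain ⟨x, hx⟩ : ∃ x, f x ≠ 0 := by
    by_contra hcon
    push Not at hcon
    exact hf0 (LinearMap.ext hcon)
  have hf1 : f (1 : ℝ) = 0 := hf (Submodule.mem_span_singleton_self _)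
  have hfq : ∀ c : ℚ, f (c : ℝ) = 0 := by
    intro c
    have : (c : ℝ) = c • (1 : ℝ) := by rw [Rat.smul_def, mul_one]
    rw [this, map_smul, hf1, smul_zero]
  set y : ℝ := (3 / 2 / f x) • x with hy
  have hfy : f y = 3 / 2 := by
    rw [hy, map_smul, smul_eq_mul, div_mul_cancel₀ _ hx]
  have hc : ∀ q : ℕ, ∃ c : ℚ, (q = 0 → L < y + c) ∧ (q ≠ 0 → |y + c| < 1 / ((q : ℝ) + 1)) := by
    intro q
    rcases Nat.eq_zero_or_pos q with rfl | hq
    · obtain ⟨c, hc⟩ := exists_rat_gt (L - y)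
      exact ⟨c, fun _ => by linarith, fun h => absurd rfl h⟩
    · have hpos : (0 : ℝ) < 1 / ((q : ℝ) + 1) := by positivity
      obtain ⟨c, hc1, hc2⟩ := exists_rat_btwn (show -y - 1 / ((q : ℝ) + 1) < -y + 1 / ((q : ℝ) + 1) by
        linarith)
      exact ⟨c, fun h => by omega, fun _ => abs_lt.mpr ⟨by linarith, by linarith⟩⟩
  choose c hc0 hc1 using hc
  refine ⟨f.toAddMonoidHom, fun q => y + c q, ?_, hc0 0 rfl, fun q => ?_⟩
  · refine squeeze_zero_norm' ?_ tendsto_one_div_add_atTop_nhds_zero_nat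
    filter_upwards [eventually_ge_atTop 1] with q hq
    rw [Real.norm_eq_abs]
    exact (hc1 q (by omega)).le
  · show f (y + c q) = 3 / 2
    rw [map_add, hfy, hfq, add_zero]

end Pool.Agent.CBT
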