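import Mathlib

/-!
# CBT.Stair : the staircase path

Given `u q → 0` we need continuous `d1, d2` on the real line with `d1 0 = d2 0 = 0`, `d1 1 = d2 1 = u 0`, and for
`0 < t ≤ 1` one of the coordinates is resting at a corner: going from `t = 1` down to `t = 0` the point moves
`(u 0, u 0) → (u 0, u 1) → (u 1, u 1) → (u 1, u 2) → ...`.

Construction.  With `y = 1/t - 1`, the coordinate with offset `c` (`c = 0, 1`) is
`u 0 + ∑ i, (u (i+1) - u i) * clamp (y - (2 i + c))`.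
-/

set_option autoImplicit false

namespace Pool.Agent.CBT

open Set Filter Topology

/-- The clamp function. -/
noncomputable def stClamp (x : ℝ) : ℝ := max 0 (min 1 x)

theorem stClamp_cont : Continuous stClamp := by
  unfold stClamp; fun_prop

theorem stClamp_zero {x : ℝ} (h : x ≤ 0) : stClamp x = 0 := by
  unfold stClamp
  rw [max_eq_left]
  exact (min_le_right _ _).trans h

theorem stClamp_one {x : ℝ} (h : 1 ≤ x) : stClamp x = 1 := by
  unfold stClamp
  rw [min_eq_left h]; norm_num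

theorem stClamp_nonneg (x : ℝ) : 0 ≤ stClamp x := le_max_left _ _

theorem stClamp_le (x : ℝ) : stClamp x ≤ 1 := by
  unfold stClamp
  exact max_le (by norm_num) (min_le_left _ _)

/-- Finite sums approximating the coordinates. -/
noncomputable def stSum (u : ℕ → ℝ) (c : ℝ) (N : ℕ) (y : ℝ) : ℝ :=
  u 0 + ∑ i ∈ Finset.range N, (u (i + 1) - u i) * stClamp (y - (2 * i + c))

theorem stSum_cont (u : ℕ → ℝ) (c : ℝ) (N : ℕ) : Continuous (stSum u c N) := by
  unfold stSum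
  refine continuous_const.add (continuous_finsetSum _ fun i _ => ?_)
  exact continuous_const.mul (stClamp_cont.comp (by fun_prop))

/-- The sum does not depend on `N` when `N` is large. -/
theorem stSum_eq (u : ℕ → ℝ) {c : ℝ} (hc : 0 ≤ c) {N M : ℕ} {y : ℝ} (hNM : N ≤ M) (hy : y ≤ N) :
    stSum u c N y = stSum u c M y := by
  unfold stSum
  congr 1
  refine Finset.sum_subset (Finset.range_subset_range.2 hNM) fun i _ hi => ?_
  rw [Finset.mem_range, not_lt] at hi
  have : (N : ℝ) ≤ i := by exact_mod_cast hi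
  have hi0 : (0 : ℝ) ≤ i := Nat.cast_nonneg i
  rw [stClamp_zero (by linarith), mul_zero]

/-- The coordinate. -/
noncomputable def stL (u : ℕ → ℝ) (c : ℝ) (y : ℝ) : ℝ := stSum u c (⌈y⌉₊) y

theorem stL_eq (u : ℕ → ℝ) {c : ℝ} (hc : 0 ≤ c) {N : ℕ} {y : ℝ} (hy : y ≤ N) :
    stL u c y = stSum u c N y := by
  unfold stL
  exact stSum_eq u hc (Nat.ceil_le.2 hy) (Nat.le_ceil y)

theorem stL_cont (u : ℕ → ℝ) {c : ℝ} (hc : 0 ≤ c) : Continuous (stL u c) := by
  rw [continuous_iff_continuousAt]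
  intro y
  obtain ⟨N, hN⟩ := exists_nat_gt y
  have : stL u c =ᶠ[𝓝 y] stSum u c N := by
    filter_upwards [Iio_mem_nhds hN] with z hz
    exact stL_eq u hc (le_of_lt hz)
  exact ((stSum_cont u c N).continuousAt).congr this.symm

/-- Evaluation of the coordinate. -/
theorem stL_val (u : ℕ → ℝ) {c : ℝ} (hc : 0 ≤ c) {q : ℕ} {y : ℝ}
    (h1 : ∀ i : ℕ, i < q → 1 ≤ y - (2 * i + c)) (h2 : ∀ i : ℕ, q < i → y - (2 * i + c) ≤ 0) :
    stL u c y = u q + (u (q + 1) - u q) * stClamp (y - (2 * q + c)) := by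
  obtain ⟨N, hN⟩ := exists_nat_gt (max y (q + 1))
  have hy : y ≤ N := (le_max_left _ _).trans hN.le
  have hq : q + 1 ≤ N := by
    have := (le_max_right y ((q : ℝ) + 1)).trans hN.le
    exact_mod_cast this
  rw [stL_eq u hc hy]
  unfold stSum
  rw [← Finset.sum_subset (Finset.range_subset_range.2 hq), Finset.sum_range_succ]
  · have : ∑ i ∈ Finset.range q, (u (i + 1) - u i) * stClamp (y - (2 * i + c)) = u q - u 0 := by
      rw [← Finset.sum_range_sub]
      refine Finset.sum_congr rfl fun i hi => ?_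
      rw [stClamp_one (h1 i (Finset.mem_range.1 hi)), mul_one]
    rw [this]; ring
  · intro i _ hi
    rw [Finset.mem_range, not_lt] at hi
    rw [stClamp_zero (h2 i (by omega)), mul_zero]

theorem stL_mem (u : ℕ → ℝ) {c : ℝ} (hc : 0 ≤ c) {q : ℕ} {y : ℝ}
    (h1 : ∀ i : ℕ, i < q → 1 ≤ y - (2 * i + c)) (h2 : ∀ i : ℕ, q < i → y - (2 * i + c) ≤ 0) :
    stL u c y ∈ uIcc (u (q + 1)) (u q) := by
  rw [stL_val u hc h1 h2, uIcc_comm]
  have h0 := stClamp_nonneg (y - (2 * q + c))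
  have h1 := stClamp_le (y - (2 * q + c))
  set θ := stClamp (y - (2 * q + c))
  rcases le_total (u q) (u (q + 1)) with h | h
  · rw [uIcc_of_le h]
    constructor <;> nlinarith
  · rw [uIcc_of_ge h]
    constructor <;> nlinarith

/-- The dichotomy in the variable `y`. -/
theorem stL_dich (u : ℕ → ℝ) {y : ℝ} (hy : 0 ≤ y) :
    (stL u 1 y = u ⌊y / 2⌋₊ ∧ stL u 0 y ∈ uIcc (u (⌊y / 2⌋₊ + 1)) (u ⌊y / 2⌋₊)) ∨
    (stL u 0 y = u (⌊y / 2⌋₊ + 1) ∧ stL u 1 y ∈ uIcc (u (⌊y / 2⌋₊ + 1)) (u ⌊y / 2⌋₊)) := by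
  set q := ⌊y / 2⌋₊ with hq
  have hle : (q : ℝ) ≤ y / 2 := Nat.floor_le (by positivity)
  have hlt : y / 2 < q + 1 := Nat.lt_floor_add_one _
  have a0 : ∀ i : ℕ, i < q → 1 ≤ y - (2 * i + (0 : ℝ)) := by
    intro i hi
    have : (i : ℝ) + 1 ≤ q := by exact_mod_cast hi
    linarith
  have a1 : ∀ i : ℕ, i < q → 1 ≤ y - (2 * i + (1 : ℝ)) := by
    intro i hi
    have : (i : ℝ) + 1 ≤ q := by exact_mod_cast hi
    linarith
  have b0 : ∀ i : ℕ, q < i → y - (2 * i + (0 : ℝ)) ≤ 0 := by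
    intro i hi
    have : (q : ℝ) + 1 ≤ i := by exact_mod_cast hi
    linarith
  have b1 : ∀ i : ℕ, q < i → y - (2 * i + (1 : ℝ)) ≤ 0 := by
    intro i hi
    have : (q : ℝ) + 1 ≤ i := by exact_mod_cast hi
    linarith
  rcases le_total y (2 * q + 1) with h | h
  · left
    refine ⟨?_, stL_mem u le_rfl a0 b0⟩
    rw [stL_val u zero_le_one a1 b1, stClamp_zero (by linarith), mul_zero, add_zero]
  · right
    refine ⟨?_, stL_mem u zero_le_one a1 b1⟩
    rw [stL_val u le_rfl a0 b0, stClamp_one (by linarith), mul_one]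
    ring

theorem stL_mem' (u : ℕ → ℝ) {y : ℝ} (hy : 0 ≤ y) {c : ℝ} (hc : c = 0 ∨ c = 1) :
    stL u c y ∈ uIcc (u (⌊y / 2⌋₊ + 1)) (u ⌊y / 2⌋₊) := by
  rcases stL_dich u hy with ⟨h1, h2⟩ | ⟨h1, h2⟩ <;> rcases hc with rfl | rfl
  · exact h2
  · rw [h1]; exact right_mem_uIcc
  · rw [h1]; exact left_mem_uIcc
  · exact h2

open Classical in
/-- The coordinate as a function of `t`. -/
noncomputable def stD (u : ℕ → ℝ) (c : ℝ) (t : ℝ) : ℝ := if t ≤ 0 then 0 else stL u c (1 / t - 1)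

theorem stD_cont (u : ℕ → ℝ) (hu : Tendsto u atTop (𝓝 0)) {c : ℝ} (hc : c = 0 ∨ c = 1) :
    Continuous (stD u c) := by
  have hc0 : 0 ≤ c := by rcases hc with rfl | rfl <;> norm_num
  rw [continuous_iff_continuousAt]
  intro t
  rcases lt_trichotomy t 0 with h | rfl | h
  · have : stD u c =ᶠ[𝓝 t] fun _ => 0 := by
      filter_upwards [Iio_mem_nhds h] with z hz
      unfold stD; rw [if_pos (le_of_lt hz)]
    exact continuousAt_const.congr this.symm
  · rw [Metric.continuousAt_iff]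
    intro ε hε
    obtain ⟨N, hN⟩ := (Metric.tendsto_atTop.1 hu) ε hε
    refine ⟨1 / (2 * N + 1), by positivity, fun t ht => ?_⟩
    have e0 : stD u c 0 = 0 := by unfold stD; rw [if_pos le_rfl]
    rw [e0, Real.dist_eq, sub_zero]
    rw [Real.dist_eq, sub_zero] at ht
    by_cases h : t ≤ 0
    · unfold stD; rw [if_pos h, abs_zero]; exact hε
    · unfold stD; rw [if_neg h]
      push Not at h
      have ht' : t < 1 / (2 * N + 1) := (le_abs_self t).trans_lt ht
      have hy : 2 * (N : ℝ) + 1 < 1 / t := by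
        rw [lt_div_iff₀ h]
        rw [lt_div_iff₀ (by positivity)] at ht'
        linarith
      have hy0 : 0 ≤ 1 / t - 1 := by
        have : (0 : ℝ) ≤ N := Nat.cast_nonneg N
        linarith
      have hq : N ≤ ⌊(1 / t - 1) / 2⌋₊ := by
        apply Nat.le_floor
        linarith
      have hm := stL_mem' u hy0 hc
      have h1 := hN _ hq
      have h2 := hN _ (hq.trans (Nat.le_succ _))
      rw [Real.dist_eq, sub_zero, abs_lt] at h1 h2
      rw [mem_uIcc] at hm
      rw [abs_lt]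
      rcases hm with hm | hm
      · exact ⟨h2.1.trans_le hm.1, hm.2.trans_lt h1.2⟩
      · exact ⟨h1.1.trans_le hm.1, hm.2.trans_lt h2.2⟩
  · have : stD u c =ᶠ[𝓝 t] fun t => stL u c (1 / t - 1) := by
      filter_upwards [Ioi_mem_nhds h] with z hz
      unfold stD; rw [if_neg (not_le.2 hz)]
    refine ContinuousAt.congr ?_ this.symm
    refine ContinuousAt.comp (g := stL u c) (stL_cont u hc0).continuousAt ?_
    exact (continuousAt_const.div continuousAt_id h.ne').sub continuousAt_const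

theorem exists_stair (u : ℕ → ℝ) (hu : Tendsto u atTop (𝓝 0)) :
    ∃ d1 d2 : ℝ → ℝ, Continuous d1 ∧ Continuous d2 ∧ d1 0 = 0 ∧ d2 0 = 0 ∧ d1 1 = u 0 ∧ d2 1 = u 0 ∧
      ∀ t ∈ Ioc (0 : ℝ) 1, ∃ q : ℕ,
        (d1 t = u q ∧ d2 t ∈ uIcc (u (q + 1)) (u q)) ∨ (d2 t = u (q + 1) ∧ d1 t ∈ uIcc (u (q + 1)) (u q)) := by
  refine ⟨stD u 1, stD u 0, stD_cont u hu (Or.inr rfl), stD_cont u hu (Or.inl rfl), ?_, ?_, ?_, ?_, ?_⟩
  · unfold stD; rw [if_pos le_rfl]
  · unfold stD; rw [if_pos le_rfl]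
  · unfold stD; rw [if_neg (by norm_num)]
    have := stL_eq u zero_le_one (N := 0) (y := 1 / 1 - 1) (by norm_num)
    rw [this]; simp [stSum]
  · unfold stD; rw [if_neg (by norm_num)]
    have := stL_eq u (le_refl (0 : ℝ)) (N := 0) (y := 1 / 1 - 1) (by norm_num)
    rw [this]; simp [stSum]
  · intro t ht
    have hy : 0 ≤ 1 / t - 1 := by
      have : 1 ≤ 1 / t := by rw [le_div_iff₀ ht.1]; linarith [ht.2]
      linarith
    refine ⟨⌊(1 / t - 1) / 2⌋₊, ?_⟩
    unfold stD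
    rw [if_neg (not_le.2 ht.1), if_neg (not_le.2 ht.1)]
    exact stL_dich u hy

end Pool.Agent.CBT
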