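import Pool.Agent.Lib.CBT.Algebra
import Pool.Agent.Lib.CBT.Stair
import Pool.Agent.Lib.CBT.Hamel

/-!
# CBT.Wilson : a bounded meager set can be cut arbitrarily (Wilson's theorem)

All subsets of a meager set are meager, hence Baire measurable (`IsMeagre.mono`, `IsMeagre.baireMeasurableSet`).  So on the
meager set `X` every set `E` may be replaced by `X ∩ E`, which is Baire measurable.  Use coordinates `x 0, x 1` of
`EuclideanSpace`; `f, u` from `exists_hamel (4R+4)` (`R` bounds `X`).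
* `A a = {x | ⌊f (x 0)⌋ % 3 = a}`, `a = 0,1,2`: `Sep X (A a)` by `sep_of_dir` with direction `e1` (`x + t e1 = y` implies
  `x 0 = y 0`).  `B b = {x | ⌊f (x 1)⌋ % 3 = b}`: direction `e0`.
* By `sep_local` (twice, with the covers `A a`, `B b`) it is enough to separate `E` in `Z = X ∩ A a ∩ B b`.  Use
  `sep_of_path` with `d t = (d1 t, d2 t, 0)`, `d1, d2` from `exists_stair u`; `d 0 = 0`, `‖d 1‖ ≥ u 0 > 2R`.
  At `t = 0`: `x ≠ y` as one is in `E`.  At `t > 0`: if `x + d t = y` with `x, y ∈ Z`, then `f (y i) = f (x i) + f (d_i t)`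
  and `⌊f (y i)⌋ ≡ ⌊f (x i)⌋ mod 3` for `i = 0, 1`; but `f (d_i t) = 3/2` for one of them, and
  `⌊r + 3/2⌋ - ⌊r⌋ ∈ {1, 2}`: contradiction.
-/

set_option autoImplicit false

namespace Pool.Agent.CBT

open Set Metric

theorem wil_bm {X : Set E3} (hm : IsMeagre X) (E : Set E3) : BaireMeasurableSet (X ∩ E) :=
  (hm.mono inter_subset_left).baireMeasurableSet

/-- Separation along a straight direction in a meager set. -/
theorem wil_dir {X : Set E3} (hX : Bornology.IsBounded X) (hm : IsMeagre X) (P : Set E3) {u : E3}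
    (hu : u ≠ 0) (sep : ∀ t : ℝ, 0 < t → ∀ x ∈ X ∩ P, ∀ y ∈ X \ P, x + t • u ≠ y) : Sep X P := by
  refine Sep.congr (sep_of_dir (E := X ∩ P) hX (wil_bm hm P) hu ?_) ?_
  · rintro t ht x ⟨hx, _, hxP⟩ y ⟨hy, hyP⟩
    exact sep t ht x ⟨hx, hxP⟩ y ⟨hy, fun h => hyP ⟨hy, h⟩⟩
  · intro x hx
    exact ⟨fun h => h.2, fun h => ⟨hx, h⟩⟩

/-- The residue class sets. -/
def wilA (f : ℝ →+ ℚ) (i : Fin 3) (a : Fin 3) : Set E3 := {x | ⌊f (x i)⌋ % 3 = (a : ℤ)}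

theorem wil_cover (f : ℝ →+ ℚ) (i : Fin 3) (x : E3) : x ∈ ⋃ a, wilA f i a := by
  have h0 : 0 ≤ ⌊f (x i)⌋ % 3 := Int.emod_nonneg _ (by norm_num)
  have h3 : ⌊f (x i)⌋ % 3 < 3 := Int.emod_lt_of_pos _ (by norm_num)
  rw [mem_iUnion]
  refine ⟨⟨(⌊f (x i)⌋ % 3).toNat, by omega⟩, ?_⟩
  show ⌊f (x i)⌋ % 3 = (((⌊f (x i)⌋ % 3).toNat : ℕ) : ℤ)
  rw [Int.toNat_of_nonneg h0]

theorem wil_sepA {X : Set E3} (hX : Bornology.IsBounded X) (hm : IsMeagre X) (f : ℝ →+ ℚ) (i j : Fin 3)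
    (hij : i ≠ j) (a : Fin 3) : Sep X (wilA f i a) := by
  refine wil_dir hX hm _ (u := EuclideanSpace.single j 1) ?_ ?_
  · intro h
    have := congrArg (fun z : E3 => z j) h
    simp at this
  · rintro t _ x ⟨_, hx⟩ y ⟨_, hy⟩ rfl
    apply hy
    have : (x + t • EuclideanSpace.single j (1 : ℝ) : E3) i = x i := by
      simp [hij]
    show ⌊f ((x + t • EuclideanSpace.single j (1 : ℝ) : E3) i)⌋ % 3 = _
    rw [this]; exact hx

theorem wil_floor (r : ℚ) (h : ⌊r + 3 / 2⌋ % 3 = ⌊r⌋ % 3) : False := by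
  have h1 : ⌊r⌋ + 1 ≤ ⌊r + 3 / 2⌋ := by
    rw [Int.le_floor]; push_cast; linarith [Int.floor_le r]
  have h2 : ⌊r + 3 / 2⌋ < ⌊r⌋ + 3 := by
    rw [Int.floor_lt]; push_cast; linarith [Int.lt_floor_add_one r]
  omega

theorem sep_of_meagre {X : Set E3} (hX : Bornology.IsBounded X) (hm : IsMeagre X) (E : Set E3) :
    Sep X E := by
  obtain ⟨R, hR⟩ := hX.exists_norm_le
  obtain ⟨f, u, hu, hu0, hf⟩ := exists_hamel (4 * |R| + 4)
  obtain ⟨d1, d2, c1, c2, z1, z2, o1, o2, hd⟩ := exists_stair u hu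
  refine sep_local hX (wilA f 0) (wil_sepA hX hm f 0 1 (by decide)) (fun x _ => wil_cover f 0 x) ?_
  intro a
  have hX1 : Bornology.IsBounded (X ∩ wilA f 0 a) := hX.subset inter_subset_left
  have hm1 : IsMeagre (X ∩ wilA f 0 a) := hm.mono inter_subset_left
  refine sep_local hX1 (wilA f 1) (wil_sepA hX1 hm1 f 1 0 (by decide)) (fun x _ => wil_cover f 1 x) ?_
  intro b
  set Z := X ∩ wilA f 0 a ∩ wilA f 1 b with hZ
  have hmZ : IsMeagre Z := hm1.mono inter_subset_left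
  have hRZ : ∀ x ∈ Z, ‖x‖ ≤ R := fun x hx => hR x hx.1.1
  refine Sep.congr (E := Z ∩ E) ?_ (fun x hx => ⟨fun h => h.2, fun h => ⟨hx, h⟩⟩)
  refine sep_of_path (wil_bm hmZ E) R hRZ
    (fun t => d1 t • EuclideanSpace.single 0 (1 : ℝ) + d2 t • EuclideanSpace.single 1 (1 : ℝ)) ?_ ?_ ?_ ?_
  · exact (c1.smul continuous_const).add (c2.smul continuous_const)
  · simp [z1, z2]
  · have h1 : ‖(d1 1 • EuclideanSpace.single 0 (1 : ℝ) + d2 1 • EuclideanSpace.single 1 (1 : ℝ) : E3) 0‖ ≤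
        ‖(d1 1 • EuclideanSpace.single 0 (1 : ℝ) + d2 1 • EuclideanSpace.single 1 (1 : ℝ) : E3)‖ :=
      PiLp.norm_apply_le _ 0
    have h2 : (d1 1 • EuclideanSpace.single 0 (1 : ℝ) + d2 1 • EuclideanSpace.single 1 (1 : ℝ) : E3) 0 = u 0 := by
      simp [o1]
    rw [h2, Real.norm_eq_abs] at h1
    have h3 := le_abs_self (u 0)
    have h4 := le_abs_self R
    have h5 := abs_nonneg R
    linarith
  · rintro t ⟨ht0, ht1⟩ x ⟨hxZ, _, hxE⟩ y ⟨hyZ, hyE⟩ hxy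
    rcases ht0.eq_or_lt with rfl | ht
    · simp only [z1, z2, zero_smul, add_zero] at hxy
      exact hyE ⟨hyZ, hxy ▸ hxE⟩
    · have e0 : y 0 = x 0 + d1 t := by rw [← hxy]; simp
      have e1 : y 1 = x 1 + d2 t := by rw [← hxy]; simp
      have k0 : ⌊f (y 0)⌋ % 3 = ⌊f (x 0)⌋ % 3 := (show _ = (a : ℤ) from hyZ.1.2).trans hxZ.1.2.symm
      have k1 : ⌊f (y 1)⌋ % 3 = ⌊f (x 1)⌋ % 3 := (show _ = (b : ℤ) from hyZ.2).trans hxZ.2.symm
      rw [e0, map_add] at k0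
      rw [e1, map_add] at k1
      obtain ⟨q, ⟨h, _⟩ | ⟨h, _⟩⟩ := hd t ⟨ht, ht1⟩
      · rw [h, hf] at k0; exact wil_floor _ k0
      · rw [h, hf] at k1; exact wil_floor _ k1

end Pool.Agent.CBT
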