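import Pool.Agent.Lib.CBT.CellSep
import Pool.Agent.Lib.CBT.Select
import Pool.Agent.Lib.CBT.Wilson

/-!
# CBT.Good : sets with a dense set of good heights are explodable

Let `α, β, J, k` be as in `exists_select`, `O = ⋃ i, Ioo (α i) (β i)` (open, dense), `X` bounded.
* `S = {x | co b x 0 ∈ O}` is open, and `Sep X S` by `sep_of_dir` with `u = b 1` (keeps the height).
* `X ∩ Sᶜ` is meager: `Sᶜ` is closed with empty interior (move the point in the direction `b 0`), so every `E` is separated
  there: `sep_of_meagre`.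
* On `X ∩ S`: choose `P₁ P₂ : ℕ → ℤ × ℤ → Basic`, `Φ : ℕ → ℤ × ℤ → (Bool → Bool → Bool)` from goodness.  `E` is on `X ∩ S` determined
  (`sep_of_det`, index type `Bool ⊕ (Bool → Bool → Bool)` for instance) by the two sets of `sep_cellBasic` and the 16 sets
  `{x | Φ (k s) (cell) = φ}` (`sep_cellUnion`).
* `sep_local` with the cover `S, Sᶜ`.
-/

set_option autoImplicit false

namespace Pool.Agent.CBT

open Set Metric

theorem gd_co_add (b : Frame) (x : E3) (t : ℝ) : co b (x + t • b 1) 0 = co b x 0 := by
  unfold co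
  rw [inner_add_right, inner_smul_right]
  have : inner ℝ (b 0) (b 1) = (0 : ℝ) := b.orthonormal.2 (by decide)
  rw [this]; ring

theorem gd_ne (b : Frame) (i : Fin 3) : b i ≠ 0 := b.orthonormal.ne_zero i

theorem gd_cont (b : Frame) (i : Fin 3) : Continuous (fun x => co b x i) := by
  unfold co; fun_prop

theorem gd_open (b : Frame) : IsOpenMap (fun x => co b x 0) := by
  have hs : Function.Surjective (innerSL ℝ (b 0) : E3 →L[ℝ] ℝ) := by
    intro c
    refine ⟨c • b 0, ?_⟩
    rw [map_smul, innerSL_apply_apply, real_inner_self_eq_norm_sq, b.orthonormal.1 0]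
    simp
  exact ContinuousLinearMap.isOpenMap _ hs

theorem expl_of_good (b : Frame) (E : Set E3) (D : Set ℝ) (hD : Dense D)
    (h : ∀ s ∈ D, ∃ (α β : ℝ) (j : ℕ), α < s ∧ s < β ∧ GoodInt b E (Ioo α β) j) : Expl E := by
  classical
  intro X hX
  obtain ⟨α, β, J, k, hk, hDO, hgood, hkO⟩ := exists_select b E D h
  set O : Set ℝ := ⋃ i, Ioo (α i) (β i) with hO
  have hOo : IsOpen O := isOpen_iUnion fun i => isOpen_Ioo
  have hOd : Dense O := hD.mono hDO
  set S : Set E3 := (fun x => co b x 0) ⁻¹' O with hS
  have hSo : IsOpen S := hOo.preimage (gd_cont b 0)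
  have hSd : Dense S := hOd.preimage (gd_open b)
  have hsS : Sep X S := by
    refine sep_of_dir hX hSo.baireMeasurableSet (gd_ne b 1) ?_
    rintro t _ x ⟨_, hx⟩ y ⟨_, hy⟩ rfl
    apply hy
    show co b (x + t • b 1) 0 ∈ O
    rw [gd_co_add]; exact hx
  refine sep_local (ι := Bool) hX (fun c => if c then S else Sᶜ) ?_ ?_ ?_
  · intro c
    cases c
    · simpa using hsS.compl
    · simpa using hsS
  · intro x _
    rw [mem_iUnion]
    by_cases hx : x ∈ S
    · exact ⟨true, by simpa using hx⟩
    · exact ⟨false, by simpa using hx⟩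
  · intro c
    cases c
    · have hm : IsMeagre (X ∩ Sᶜ) := by
        have h1 : IsMeagre Sᶜ := by
          rw [IsMeagre, compl_compl]
          exact residual_of_dense_open hSo hSd
        exact h1.mono inter_subset_right
      have := sep_of_meagre (hX.subset inter_subset_left) hm E
      simpa using this
    · simp only [if_true]
      choose P₁ P₂ Φ hΦ using hgood
      have hXS : Bornology.IsBounded (X ∩ S) := hX.subset inter_subset_left
      refine sep_of_det (ι := Bool ⊕ (Bool → Bool → Bool)) hXS
        (fun i => match i with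
          | Sum.inl true => {x | x ∈ (P₁ (k (co b x 0)) (cell b (J (k (co b x 0))) x)).set}
          | Sum.inl false => {x | x ∈ (P₂ (k (co b x 0)) (cell b (J (k (co b x 0))) x)).set}
          | Sum.inr φ => {x | (k (co b x 0), cell b (J (k (co b x 0))) x) ∈
              {z : ℕ × ℤ × ℤ | Φ z.1 z.2 = φ}}) ?_ ?_
      · rintro ((_ | _) | φ)
        · exact sep_cellBasic b k hk J hXS P₂
        · exact sep_cellBasic b k hk J hXS P₁
        · exact sep_cellUnion b k hk J hXS _
      · rintro x ⟨_, hx⟩ y ⟨_, hy⟩ hxy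
        have h1 := hxy (Sum.inl true)
        have h2 := hxy (Sum.inl false)
        have h3 := (hxy (Sum.inr (Φ (k (co b x 0)) (cell b (J (k (co b x 0))) x)))).1 rfl
        have ex := hΦ (k (co b x 0)) (cell b (J (k (co b x 0))) x) x (hkO _ hx) rfl
        have ey := hΦ (k (co b y 0)) (cell b (J (k (co b y 0))) y) y (hkO _ hy) rfl
        simp only [Set.mem_ofPred_eq] at h1 h2 h3
        rw [ex, ey, h3]
        simp only [h1, h2]

end Pool.Agent.CBT
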