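import Pool.Agent.Lib.CBT.Defs

/-!
# CBT.Near : a height without triple points is good

Let `K = {x | ‖x‖ ≤ 3, co b x 0 = s}`, compact.  For each of the finitely many triples of distinct elements of `F` the
continuous function `max |P₁.fn x| |P₂.fn x| |P₃.fn x|` is positive on `K`; so there are `ε > 0`, `η > 0` such that for every `x` with
`‖x‖ ≤ 3`, `|co b x 0 - s| ≤ η` at most two elements `P` of `F` have `|P.fn x| < ε` (compactness; for instance the set
`{x | ‖x‖ ≤ 3, |co b x 0 - s| ≤ 1/n}` with a triple `≤ 1/n` is a decreasing sequence of compact sets with empty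
intersection).  All `P.fn` are Lipschitz with a common constant `M` (`half a c`: `‖a‖`, `ball p`: `1`).  Choose `j` and the
interval `Ioo α' β' ⊆ Ioo α β`, `|· - s| < η`, so small that cell pieces
`{x | co b x 0 ∈ Ioo α' β', cell b j x = q}` have diameter `< min (ε/M) 1`.
Fix `q`.  If the cell piece contains no point of `E`: `Φ = false`.  Otherwise it contains a point `z` with `‖z‖ ≤ 1`, the cell
piece is in `‖x‖ ≤ 2`.  The `P ∈ F` with `|P.fn z| ≥ ε` have constant membership on the cell piece (`P.fn` does not change sign: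
`half`: `x ∈ set ↔ fn x < 0`; `ball`: `x ∈ set ↔ fn x ≤ 0`); the others are at most two, `P₁, P₂` (repeat or use a dummy).  So by
`DetBy` membership in `E` depends only on the memberships in `P₁, P₂`: define `Φ` by
`Φ u w = true` iff some `x` of the cell piece has these memberships and lies in `E`.
-/

set_option autoImplicit false

namespace Pool.Agent.CBT

open Set Metric Filter Topology

theorem near_fn_cont (P : Basic) : Continuous P.fn := by
  cases P with
  | half a c => exact (continuous_const.inner continuous_id).sub continuous_const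
  | ball p => exact ((continuous_id.sub continuous_const).norm).sub continuous_const

theorem near_co_cont (b : Frame) (i : Fin 3) : Continuous (fun x : E3 => co b x i) :=
  continuous_const.inner continuous_id

theorem near_fn_lip (P : Basic) : ∃ M : ℝ, 0 < M ∧ ∀ x y : E3, |P.fn x - P.fn y| ≤ M * ‖x - y‖ := by
  cases P with
  | half a c =>
    refine ⟨‖a‖ + 1, by positivity, fun x y => ?_⟩
    have h1 : Basic.fn (.half a c) x - Basic.fn (.half a c) y = inner ℝ a (x - y) := by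
      simp only [Basic.fn, inner_sub_right]; ring
    rw [h1]
    calc |inner ℝ a (x - y)| ≤ ‖a‖ * ‖x - y‖ := abs_real_inner_le_norm _ _
      _ ≤ (‖a‖ + 1) * ‖x - y‖ := by
        apply mul_le_mul_of_nonneg_right _ (norm_nonneg _); linarith
  | ball p =>
    refine ⟨1, one_pos, fun x y => ?_⟩
    have h1 : Basic.fn (.ball p) x - Basic.fn (.ball p) y = ‖x - p‖ - ‖y - p‖ := by
      simp only [Basic.fn]; ring
    rw [h1, one_mul]
    have h2 := abs_norm_sub_norm_le (x - p) (y - p)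
    rwa [sub_sub_sub_cancel_right] at h2

theorem near_mem_of_neg (P : Basic) (x : E3) (h : P.fn x < 0) : x ∈ P.set := by
  cases P with
  | half a c => simp only [Basic.fn] at h; simp only [Basic.set, Set.mem_ofPred_eq]; linarith
  | ball p => simp only [Basic.fn] at h; simp only [Basic.set, Set.mem_ofPred_eq]; linarith

theorem near_notMem_of_pos (P : Basic) (x : E3) (h : 0 < P.fn x) : x ∉ P.set := by
  cases P with
  | half a c => simp only [Basic.fn] at h; simp only [Basic.set, Set.mem_ofPred_eq]; linarith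
  | ball p => simp only [Basic.fn] at h; simp only [Basic.set, Set.mem_ofPred_eq]; linarith

/-- one triple -/
theorem near_triple (b : Frame) (s : ℝ) (P₁ P₂ P₃ : Basic)
    (hgen : ∀ x, co b x 0 = s → ¬ (P₁.fn x = 0 ∧ P₂.fn x = 0 ∧ P₃.fn x = 0)) :
    ∀ᶠ δ in 𝓝[>] (0 : ℝ), ∀ x : E3, ‖x‖ ≤ 3 → |co b x 0 - s| < δ →
      δ ≤ |P₁.fn x| ∨ δ ≤ |P₂.fn x| ∨ δ ≤ |P₃.fn x| := by
  let g : E3 → ℝ := fun x => |co b x 0 - s| + |P₁.fn x| + |P₂.fn x| + |P₃.fn x|
  have hg : Continuous g :=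
    (((((near_co_cont b 0).sub continuous_const).abs).add (near_fn_cont P₁).abs).add
      (near_fn_cont P₂).abs).add (near_fn_cont P₃).abs
  have hK : IsCompact (closedBall (0 : E3) 3) := isCompact_closedBall 0 3
  have hne : (closedBall (0 : E3) 3).Nonempty := ⟨0, by simp⟩
  obtain ⟨x0, -, hx0⟩ := hK.exists_isMinOn hne hg.continuousOn
  have hpos : 0 < g x0 := by
    have h0 : 0 ≤ g x0 := by positivity
    rcases h0.lt_or_eq with h | h
    · exact h
    · exfalso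
      have a0 := abs_nonneg (co b x0 0 - s)
      have a1 := abs_nonneg (P₁.fn x0)
      have a2 := abs_nonneg (P₂.fn x0)
      have a3 := abs_nonneg (P₃.fn x0)
      have hh : |co b x0 0 - s| + |P₁.fn x0| + |P₂.fn x0| + |P₃.fn x0| = 0 := h.symm
      have b0 : co b x0 0 - s = 0 := abs_eq_zero.mp (by linarith)
      have b1 : P₁.fn x0 = 0 := abs_eq_zero.mp (by linarith)
      have b2 : P₂.fn x0 = 0 := abs_eq_zero.mp (by linarith)
      have b3 : P₃.fn x0 = 0 := abs_eq_zero.mp (by linarith)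
      exact hgen x0 (by linarith) ⟨b1, b2, b3⟩
  have hev : ∀ᶠ δ in 𝓝[>] (0 : ℝ), δ < g x0 / 4 :=
    mem_nhdsWithin_of_mem_nhds (Iio_mem_nhds (by positivity))
  filter_upwards [hev] with δ hδ x hx hc
  by_contra hcon
  push Not at hcon
  obtain ⟨c1, c2, c3⟩ := hcon
  have h1 : g x0 ≤ g x := hx0 (by simpa using hx)
  have h2 : g x = |co b x 0 - s| + |P₁.fn x| + |P₂.fn x| + |P₃.fn x| := rfl
  linarith

theorem near_delta (b : Frame) (F : Set Basic) (hF : F.Finite) (s : ℝ)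
    (hgen : ∀ P₁ ∈ F, ∀ P₂ ∈ F, ∀ P₃ ∈ F, P₁ ≠ P₂ → P₁ ≠ P₃ → P₂ ≠ P₃ → ∀ x, co b x 0 = s →
      ¬ (P₁.fn x = 0 ∧ P₂.fn x = 0 ∧ P₃.fn x = 0)) :
    ∃ δ : ℝ, 0 < δ ∧ ∀ P₁ ∈ F, ∀ P₂ ∈ F, ∀ P₃ ∈ F, P₁ ≠ P₂ → P₁ ≠ P₃ → P₂ ≠ P₃ →
      ∀ x : E3, ‖x‖ ≤ 3 → |co b x 0 - s| < δ →
      δ ≤ |P₁.fn x| ∨ δ ≤ |P₂.fn x| ∨ δ ≤ |P₃.fn x| := by
  have hev : ∀ᶠ δ in 𝓝[>] (0 : ℝ), ∀ P₁ ∈ F, ∀ P₂ ∈ F, ∀ P₃ ∈ F, P₁ ≠ P₂ → P₁ ≠ P₃ → P₂ ≠ P₃ →
      ∀ x : E3, ‖x‖ ≤ 3 → |co b x 0 - s| < δ →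
      δ ≤ |P₁.fn x| ∨ δ ≤ |P₂.fn x| ∨ δ ≤ |P₃.fn x| := by
    rw [eventually_all_finite hF]
    intro P₁ h1
    rw [eventually_all_finite hF]
    intro P₂ h2
    rw [eventually_all_finite hF]
    intro P₃ h3
    by_cases c1 : P₁ ≠ P₂
    · by_cases c2 : P₁ ≠ P₃
      · by_cases c3 : P₂ ≠ P₃
        · filter_upwards [near_triple b s P₁ P₂ P₃ (hgen P₁ h1 P₂ h2 P₃ h3 c1 c2 c3)] with δ hδ _ _ _
          exact hδ
        · exact Eventually.of_forall (fun δ _ _ h => absurd h c3)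
      · exact Eventually.of_forall (fun δ _ h => absurd h c2)
    · exact Eventually.of_forall (fun δ h => absurd h c1)
  obtain ⟨δ, hδ, hpos⟩ := (hev.and self_mem_nhdsWithin).exists
  exact ⟨δ, hpos, hδ⟩

theorem near_rad (F : Set Basic) (hF : F.Finite) (δ : ℝ) (hδ : 0 < δ) :
    ∃ d : ℝ, 0 < d ∧ d ≤ 1 ∧ ∀ P ∈ F, ∀ x y : E3, ‖x - y‖ < d → |P.fn x - P.fn y| < δ := by
  have hev : ∀ᶠ d in 𝓝[>] (0 : ℝ), ∀ P ∈ F, ∀ x y : E3, ‖x - y‖ < d → |P.fn x - P.fn y| < δ := by
    rw [eventually_all_finite hF]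
    intro P _
    obtain ⟨M, hM, hL⟩ := near_fn_lip P
    have h1 : ∀ᶠ d in 𝓝[>] (0 : ℝ), d < δ / M :=
      mem_nhdsWithin_of_mem_nhds (Iio_mem_nhds (by positivity))
    filter_upwards [h1] with d hd x y hxy
    calc |P.fn x - P.fn y| ≤ M * ‖x - y‖ := hL x y
      _ < M * (δ / M) := mul_lt_mul_of_pos_left (hxy.trans hd) hM
      _ = δ := by field_simp
  have h2 : ∀ᶠ d in 𝓝[>] (0 : ℝ), d < 1 :=
    mem_nhdsWithin_of_mem_nhds (Iio_mem_nhds one_pos)
  obtain ⟨d, ⟨hd1, hd2⟩, hpos⟩ := ((hev.and h2).and self_mem_nhdsWithin).exists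
  exact ⟨d, hpos, hd2.le, hd1⟩

theorem near_norm_le (b : Frame) (v : E3) :
    ‖v‖ ≤ |co b v 0| + |co b v 1| + |co b v 2| := by
  have h : v = ∑ i, co b v i • b i := by
    have := b.sum_repr v
    conv_lhs => rw [← this]
    refine Finset.sum_congr rfl fun i _ => ?_
    rw [b.repr_apply_apply]
    rfl
  calc ‖v‖ = ‖∑ i, co b v i • b i‖ := by rw [← h]
    _ ≤ ∑ i, ‖co b v i • b i‖ := norm_sum_le _ _
    _ = ∑ i, |co b v i| := by
      refine Finset.sum_congr rfl fun i _ => ?_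
      rw [norm_smul, b.norm_eq_one, mul_one, Real.norm_eq_abs]
    _ = |co b v 0| + |co b v 1| + |co b v 2| := by rw [Fin.sum_univ_three]

theorem near_co_sub (b : Frame) (x z : E3) (i : Fin 3) : co b (x - z) i = co b x i - co b z i := by
  simp only [co, inner_sub_right]

theorem near_floor (u v σ : ℝ) (hσ : 0 < σ) (h : ⌊u / σ⌋ = ⌊v / σ⌋) : |u - v| ≤ σ := by
  have h1 := Int.abs_sub_lt_one_of_floor_eq_floor h
  have h2 : u - v = (u / σ - v / σ) * σ := by field_simp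
  rw [h2, abs_mul, abs_of_pos hσ]
  calc |u / σ - v / σ| * σ ≤ 1 * σ := mul_le_mul_of_nonneg_right h1.le hσ.le
    _ = σ := one_mul σ

theorem near_side (d : ℝ) (hd : 0 < d) : ∃ j : ℕ, side j < d := by
  have h : Tendsto (fun j : ℕ => (2 / 3 : ℝ) * (1 / 7) ^ j) atTop (𝓝 (2 / 3 * 0)) :=
    (tendsto_pow_atTop_nhds_zero_of_lt_one (by norm_num) (by norm_num)).const_mul _
  rw [mul_zero] at h
  obtain ⟨j, hj⟩ := (h.eventually (Iio_mem_nhds hd)).exists
  exact ⟨j, hj⟩

theorem near_two (F : Set Basic) (p : Basic → Prop)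
    (h : ∀ P₁ ∈ F, ∀ P₂ ∈ F, ∀ P₃ ∈ F, P₁ ≠ P₂ → P₁ ≠ P₃ → P₂ ≠ P₃ → ¬ (p P₁ ∧ p P₂ ∧ p P₃)) :
    ∃ P₁ P₂ : Basic, ∀ P ∈ F, p P → P = P₁ ∨ P = P₂ := by
  by_cases h1 : ∃ P₁ ∈ F, p P₁
  · obtain ⟨P₁, hP₁, hp₁⟩ := h1
    by_cases h2 : ∃ P₂ ∈ F, p P₂ ∧ P₁ ≠ P₂
    · obtain ⟨P₂, hP₂, hp₂, hne⟩ := h2
      refine ⟨P₁, P₂, fun P hP hp => ?_⟩
      by_contra hcon
      push Not at hcon
      exact h P₁ hP₁ P₂ hP₂ P hP hne (Ne.symm hcon.1) (Ne.symm hcon.2) ⟨hp₁, hp₂, hp⟩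
    · refine ⟨P₁, P₁, fun P hP hp => ?_⟩
      by_contra hcon
      push Not at hcon
      exact h2 ⟨P, hP, hp, Ne.symm hcon.1⟩
  · refine ⟨.ball 0, .ball 0, fun P hP hp => absurd ⟨P, hP, hp⟩ h1⟩

theorem good_near (b : Frame) (F : Set Basic) (hF : F.Finite) (E : Set E3) (hE : E ⊆ closedBall 0 1)
    (α β : ℝ) (hdet : DetBy F {x | co b x 0 ∈ Ioo α β} E) (s : ℝ) (hs : s ∈ Ioo α β)
    (hgen : ∀ P₁ ∈ F, ∀ P₂ ∈ F, ∀ P₃ ∈ F, P₁ ≠ P₂ → P₁ ≠ P₃ → P₂ ≠ P₃ → ∀ x, co b x 0 = s →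
      ¬ (P₁.fn x = 0 ∧ P₂.fn x = 0 ∧ P₃.fn x = 0)) :
    ∃ (α' β' : ℝ) (j : ℕ), α' < s ∧ s < β' ∧ GoodInt b E (Ioo α' β') j := by
  classical
  obtain ⟨δ, hδ, hδ3⟩ := near_delta b F hF s hgen
  obtain ⟨d, hd, hd1, hdL⟩ := near_rad F hF δ hδ
  obtain ⟨j, hj⟩ := near_side (d / 4) (by positivity)
  obtain ⟨hs1, hs2⟩ := hs
  let h : ℝ := min δ d / 4
  have hh : 0 < h := by
    have : 0 < min δ d := lt_min hδ hd
    positivity
  have hhδ : h ≤ δ / 4 := by
    have := min_le_left δ d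
    change min δ d / 4 ≤ δ / 4
    linarith
  have hhd : h ≤ d / 4 := by
    have := min_le_right δ d
    change min δ d / 4 ≤ d / 4
    linarith
  have hside : 0 < side j := by unfold side; positivity
  refine ⟨max α (s - h), min β (s + h), j, max_lt hs1 (by linarith), lt_min hs2 (by linarith), ?_⟩
  intro q
  by_cases hz : ∃ z, co b z 0 ∈ Ioo (max α (s - h)) (min β (s + h)) ∧ cell b j z = q ∧ z ∈ E
  · obtain ⟨z, hz0, hzq, hzE⟩ := hz
    -- facts on the piece
    have key : ∀ x, co b x 0 ∈ Ioo (max α (s - h)) (min β (s + h)) →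
        co b x 0 ∈ Ioo α β ∧ |co b x 0 - s| < h := by
      intro x hx
      have e1 := le_max_left α (s - h)
      have e2 := le_max_right α (s - h)
      have e3 := min_le_left β (s + h)
      have e4 := min_le_right β (s + h)
      refine ⟨⟨by linarith [hx.1], by linarith [hx.2]⟩, ?_⟩
      rw [abs_lt]
      exact ⟨by linarith [hx.1], by linarith [hx.2]⟩
    have dist : ∀ x, co b x 0 ∈ Ioo (max α (s - h)) (min β (s + h)) → cell b j x = q →
        ‖x - z‖ < d := by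
      intro x hx hq
      have e0 := (key x hx).2
      have e0' := (key z hz0).2
      have hcell : cell b j x = cell b j z := hq.trans hzq.symm
      have c1 : ⌊co b x 1 / side j⌋ = ⌊co b z 1 / side j⌋ := congrArg Prod.fst hcell
      have c2 : ⌊co b x 2 / side j⌋ = ⌊co b z 2 / side j⌋ := congrArg Prod.snd hcell
      have d1 := near_floor _ _ _ hside c1
      have d2 := near_floor _ _ _ hside c2
      have d0 : |co b x 0 - co b z 0| < 2 * h := by
        rw [abs_lt] at e0 e0' ⊢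
        exact ⟨by linarith [e0.1, e0'.2], by linarith [e0.2, e0'.1]⟩
      have hn := near_norm_le b (x - z)
      rw [near_co_sub, near_co_sub, near_co_sub] at hn
      linarith
    have hznorm : ‖z‖ ≤ 1 := by simpa using hE hzE
    obtain ⟨P₁, P₂, hP⟩ := near_two F (fun P => |P.fn z| < δ) (by
      intro Q₁ h1 Q₂ h2 Q₃ h3 n12 n13 n23 hc
      have hzs : |co b z 0 - s| < δ := by
        have := (key z hz0).2
        linarith
      rcases hδ3 Q₁ h1 Q₂ h2 Q₃ h3 n12 n13 n23 z (by linarith) hzs with hh1 | hh1 | hh1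
      · exact absurd hc.1 (not_lt.mpr hh1)
      · exact absurd hc.2.1 (not_lt.mpr hh1)
      · exact absurd hc.2.2 (not_lt.mpr hh1))
    have hconst : ∀ P ∈ F, ¬ |P.fn z| < δ → ∀ x y,
        co b x 0 ∈ Ioo (max α (s - h)) (min β (s + h)) → cell b j x = q →
        co b y 0 ∈ Ioo (max α (s - h)) (min β (s + h)) → cell b j y = q →
        (x ∈ P.set ↔ y ∈ P.set) := by
      intro P hPF hPz x y hx hxq hy hyq
      have hx' := hdL P hPF x z (dist x hx hxq)
      have hy' := hdL P hPF y z (dist y hy hyq)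
      rw [not_lt, le_abs] at hPz
      rw [abs_lt] at hx' hy'
      rcases hPz with hp | hp
      · have hxp : 0 < P.fn x := by linarith [hx'.1]
        have hyp : 0 < P.fn y := by linarith [hy'.1]
        exact ⟨fun hh => absurd hh (near_notMem_of_pos P x hxp),
          fun hh => absurd hh (near_notMem_of_pos P y hyp)⟩
      · have hxp : P.fn x < 0 := by linarith [hx'.2]
        have hyp : P.fn y < 0 := by linarith [hy'.2]
        exact ⟨fun _ => near_mem_of_neg P y hyp, fun _ => near_mem_of_neg P x hxp⟩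
    refine ⟨P₁, P₂, fun u w => decide (∃ y, co b y 0 ∈ Ioo (max α (s - h)) (min β (s + h)) ∧
      cell b j y = q ∧ decide (y ∈ P₁.set) = u ∧ decide (y ∈ P₂.set) = w ∧ y ∈ E), ?_⟩
    intro x hx hxq
    rw [decide_eq_true_eq]
    constructor
    · intro hxE
      exact ⟨x, hx, hxq, rfl, rfl, hxE⟩
    · rintro ⟨y, hy, hyq, h1, h2, hyE⟩
      refine (hdet x (key x hx).1 y (key y hy).1 ?_).mpr hyE
      intro P hPF
      by_cases hPz : |P.fn z| < δ
      · rcases hP P hPF hPz with rfl | rfl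
        · rw [decide_eq_decide] at h1
          exact h1.symm
        · rw [decide_eq_decide] at h2
          exact h2.symm
      · exact hconst P hPF hPz x y hx hxq hy hyq
  · refine ⟨.ball 0, .ball 0, fun _ _ => false, ?_⟩
    intro x hx hxq
    constructor
    · intro hxE
      exact absurd ⟨x, hx, hxq, hxE⟩ hz
    · intro hc
      exact absurd hc (by simp)

end Pool.Agent.CBT
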