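import Pool.Agent.Lib.CBT.Triple
import Pool.Agent.Lib.CBT.Near
import Pool.Agent.Lib.CBT.Good

/-!
# CBT.Tame : the pieces of the matching are explodable

`b` : a frame with `b 0 = n` (`Orthonormal.exists_orthonormalBasis_extension_of_card_eq` or similar).  For each `k` the set
`Z k` of heights of triple points of distinct members of `F k` is finite (`finite_triple`).  `D = ⋃ k, Ioo (α k) (β k) \ Z k` is
dense (a nonempty open set minus a finite set), and at `s ∈ D` use `good_near`.  Conclude by `expl_of_good`.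
-/

set_option autoImplicit false

namespace Pool.Agent.CBT

open Set Metric

theorem exists_frame (n : E3) (hn : ‖n‖ = 1) : ∃ b : Frame, b 0 = n := by
  have hv : Orthonormal ℝ (({0} : Set (Fin 3)).restrict fun _ => n) := by
    constructor
    · intro i
      exact hn
    · intro i j hij
      exact absurd (Subsingleton.elim i j) hij
  obtain ⟨b, hb⟩ := hv.exists_orthonormalBasis_extension_of_card_eq
    (by rw [finrank_euclideanSpace])
  exact ⟨b, hb 0 rfl⟩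

theorem expl_of_matched {m : ℕ} {ρ : FreeGroup (Fin m) →* Iso} {n v : E3} (h : GP ρ n)
    {U : Fin m → Set E3} (hU : Matched ρ n v U) (i : Fin m) : Expl (U i) := by
  obtain ⟨b, hb⟩ := exists_frame n h.norm_n
  obtain ⟨α, β, F, hF, hdense, hdet⟩ := hU.tame
  have hco : ∀ x : E3, co b x 0 = inner ℝ n x := fun x => by rw [co, hb]
  -- heights of triple points
  set Z : ℕ → Set ℝ := fun k => {s | ∃ P₁ ∈ F k, ∃ P₂ ∈ F k, ∃ P₃ ∈ F k, P₁ ≠ P₂ ∧ P₁ ≠ P₃ ∧ P₂ ≠ P₃ ∧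
    ∃ x, co b x 0 = s ∧ P₁.fn x = 0 ∧ P₂.fn x = 0 ∧ P₃.fn x = 0} with hZ
  have hZfin : ∀ k, (Z k).Finite := by
    intro k
    have h1 : Z k ⊆ ⋃ P₁ ∈ F k, ⋃ P₂ ∈ F k, ⋃ P₃ ∈ F k, (fun x => co b x 0) ''
        {x | (P₁ ≠ P₂ ∧ P₁ ≠ P₃ ∧ P₂ ≠ P₃) ∧ (P₁.fn x = 0 ∧ P₂.fn x = 0 ∧ P₃.fn x = 0)} := by
      rintro s ⟨P₁, h1, P₂, h2, P₃, h3, h12, h13, h23, x, hx, h4⟩
      simp only [mem_iUnion]
      exact ⟨P₁, h1, P₂, h2, P₃, h3, x, ⟨⟨h12, h13, h23⟩, h4⟩, hx⟩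
    refine Set.Finite.subset ?_ h1
    refine (hF k).1.biUnion fun P₁ h1 => (hF k).1.biUnion fun P₂ h2 =>
      (hF k).1.biUnion fun P₃ h3 => Set.Finite.image _ ?_
    by_cases h4 : P₁ ≠ P₂ ∧ P₁ ≠ P₃ ∧ P₂ ≠ P₃
    · refine (finite_triple h ((hF k).2 h1) ((hF k).2 h2) ((hF k).2 h3) h4.1 h4.2.1 h4.2.2).subset ?_
      rintro x ⟨-, hx⟩
      exact hx
    · convert Set.finite_empty
      ext x
      simp only [mem_setOf_eq, mem_empty_iff_false, iff_false, not_and]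
      intro h5
      exact absurd h5 h4
  refine expl_of_good b (U i) (⋃ k, Ioo (α k) (β k) \ Z k) ?_ ?_
  · rw [dense_iff_inter_open]
    intro V hV hVne
    obtain ⟨s, hsV, hs⟩ := hdense.inter_open_nonempty V hV hVne
    obtain ⟨k, hk⟩ := mem_iUnion.mp hs
    have hinf : (V ∩ Ioo (α k) (β k)).Infinite :=
      (hV.inter isOpen_Ioo).mem_nhds ⟨hsV, hk⟩ |> infinite_of_mem_nhds s
    obtain ⟨t, ht, htZ⟩ := hinf.exists_notMem_finite (hZfin k)
    exact ⟨t, ht.1, mem_iUnion.mpr ⟨k, ht.2, htZ⟩⟩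
  · intro s hs
    obtain ⟨k, hk, hkZ⟩ := mem_iUnion.mp hs
    refine good_near b (F k) (hF k).1 (U i) ?_ (α k) (β k) ?_ s hk ?_
    · have h1 : (⋃ i, U i) = closedBall 0 1 := hU.cover
      rw [← h1]
      exact subset_iUnion U i
    · have h1 := hdet k i
      simp only [hco]
      exact h1
    · intro P₁ h1 P₂ h2 P₃ h3 h12 h13 h23 x hx h4
      exact hkZ ⟨P₁, h1, P₂, h2, P₃, h3, h12, h13, h23, x, hx, h4⟩

end Pool.Agent.CBT
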