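import Pool.Agent.Lib.CBT.Assemble
import Pool.Agent.Lib.CBT.Inv
import Pool.Agent.Lib.CBT.Tame
import Pool.Agent.Lib.CBT.Cov
import Pool.Agent.Lib.CBT.Group
import Pool.Agent.Lib.CBT.Match

/-!
# CBT.Final : the theorem
-/

set_option autoImplicit false

namespace Pool.Agent.CBT

open Set Metric

theorem concl (v : E3) : Concl v := by
  obtain ⟨T, ε, hε, hcov⟩ := exists_cover v
  obtain ⟨ω, τ, n, ρ, hgp, hsmall, hmot⟩ := exists_gp 24 T ε hε
  have hc : Cover ρ v := hcov ω τ ρ hsmall hmot
  obtain ⟨U, hU⟩ := exists_matched hgp hc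
  have e1 : ∀ i, Expl (U i) := fun i => expl_of_matched hgp hU i
  have himg : ∀ i, mot (ω i) (τ i) '' U i = ρ (FreeGroup.of i) '' U i := fun i =>
    Set.image_congr fun x _ => (hmot i x).symm
  refine assemble v ω τ U hU.cover hU.disj ?_ ?_ e1 ?_
  · simp only [himg]
    exact hU.cover'
  · simp only [himg]
    exact hU.disj'
  · intro i
    rw [himg i]
    exact (e1 i).image _

end Pool.Agent.CBT
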