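import Pool.Agent.Lib.CBT.Defs

/-!
# CBT.Geom : intersections of three surfaces are finite

* `fin_planes`: three linearly independent functionals: at most one point.
* `fin_line_sphere`: the set `⟨a₁,x⟩ = c₁, ⟨a₂,x⟩ = c₂` with `a₁, a₂` independent is empty or a line `x₀ + t d`, `d ≠ 0` (`d` spans the orthogonal
  complement of `a₁, a₂`: dimension one); `‖x₀ + t d - p‖² = 1` is a quadratic equation in `t` with leading
  coefficient `‖d‖² ≠ 0`.
* `fin_radical`: `‖x-p‖ = ‖x-q‖ = 1` implies `⟨q-p, x⟩ = (‖q‖²-‖p‖²)/2`.  If `q - p` and `a` are independent use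
  `fin_line_sphere`.  If `q - p = t a` (`t ≠ 0`) then `t c = (‖q‖²-‖p‖²)/2` for a common point, excluded by `hrad`
  (`inner (q-p) (p+q)/2 = (‖q‖²-‖p‖²)/2`): the set is empty.
* `fin_spheres`: for distinct `p, q, r`: if `q-p, r-p` are independent: `fin_line_sphere`.  If they are dependent, a common
  point would be at distance 1 from three distinct points of a line: impossible (strict convexity, or: a line meets a
  sphere in at most two points).
-/

set_option autoImplicit false

namespace Pool.Agent.CBT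

open Set Metric

namespace GeomAux

theorem radical {p q x : E3} (h1 : ‖x - p‖ = 1) (h2 : ‖x - q‖ = 1) :
    inner ℝ (q - p) x = inner ℝ (q - p) (p + q) / 2 := by
  have e1 : ‖x - p‖ ^ 2 = 1 := by rw [h1]; norm_num
  have e2 : ‖x - q‖ ^ 2 = 1 := by rw [h2]; norm_num
  rw [norm_sub_sq_real] at e1 e2
  have e3 : inner ℝ (q - p) (p + q) = ‖q‖ ^ 2 - ‖p‖ ^ 2 := by
    rw [inner_sub_left, inner_add_right, inner_add_right, real_inner_self_eq_norm_sq,
      real_inner_self_eq_norm_sq, real_inner_comm q p]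
    ring
  rw [e3, inner_sub_left, real_inner_comm x q, real_inner_comm x p]
  linarith

end GeomAux

open GeomAux

theorem fin_planes (a : Fin 3 → E3) (ha : LinearIndependent ℝ a) (c : Fin 3 → ℝ) :
    {x : E3 | ∀ i, inner ℝ (a i) x = c i}.Finite := by
  apply Set.Subsingleton.finite
  intro x hx y hy
  have hspan : Submodule.span ℝ (Set.range a) = ⊤ :=
    ha.span_eq_top_of_card_eq_finrank' (by simp)
  have h : ∀ v ∈ Submodule.span ℝ (Set.range a), inner ℝ v (x - y) = 0 := by
    intro v hv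
    induction hv using Submodule.span_induction with
    | mem v hv =>
      obtain ⟨i, rfl⟩ := hv
      rw [inner_sub_right, hx i, hy i, sub_self]
    | zero => simp
    | add u v _ _ hu hv => rw [inner_add_left, hu, hv, add_zero]
    | smul t u _ hu => rw [real_inner_smul_left, hu, mul_zero]
  have h0 : inner ℝ (x - y) (x - y) = 0 := h (x - y) (by rw [hspan]; trivial)
  rw [inner_self_eq_zero] at h0
  exact sub_eq_zero.mp h0

theorem fin_line_sphere (a₁ a₂ : E3) (ha : LinearIndependent ℝ ![a₁, a₂]) (c₁ c₂ : ℝ) (p : E3) :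
    {x : E3 | inner ℝ a₁ x = c₁ ∧ inner ℝ a₂ x = c₂ ∧ ‖x - p‖ = 1}.Finite := by
  rcases Set.eq_empty_or_nonempty {x : E3 | inner ℝ a₁ x = c₁ ∧ inner ℝ a₂ x = c₂ ∧ ‖x - p‖ = 1}
    with h | ⟨x₀, hx₀⟩
  · rw [h]; exact Set.finite_empty
  let V : Submodule ℝ E3 := Submodule.span ℝ (Set.range ![a₁, a₂])
  have hV : Module.finrank ℝ V = 2 := by
    have := finrank_span_eq_card ha
    simpa using this
  have hVo : Module.finrank ℝ Vᗮ = 1 := by
    have := Submodule.finrank_add_finrank_orthogonal V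
    rw [hV] at this
    simp at this
    omega
  obtain ⟨d, hd0, hd⟩ := finrank_eq_one_iff'.mp hVo
  have hmem : ∀ y : E3, inner ℝ a₁ y = 0 → inner ℝ a₂ y = 0 → y ∈ Vᗮ := by
    intro y h1 h2
    rw [Submodule.mem_orthogonal]
    intro v hv
    induction hv using Submodule.span_induction with
    | mem v hv =>
      obtain ⟨i, rfl⟩ := hv
      fin_cases i
      · exact h1
      · exact h2
    | zero => simp
    | add u v _ _ hu hv => rw [inner_add_left, hu, hv, add_zero]
    | smul t u _ hu => rw [real_inner_smul_left, hu, mul_zero]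
  have hdn : ‖(d : E3)‖ ^ 2 ≠ 0 := by
    have : (d : E3) ≠ 0 := fun h => hd0 (Subtype.ext h)
    positivity
  apply Set.Finite.subset
    (Set.toFinite {x₀, x₀ + (-2 * inner ℝ (x₀ - p) (d : E3) / ‖(d : E3)‖ ^ 2) • (d : E3)})
  intro x hx
  have hy : x - x₀ ∈ Vᗮ := by
    apply hmem
    · rw [inner_sub_right, hx.1, hx₀.1, sub_self]
    · rw [inner_sub_right, hx.2.1, hx₀.2.1, sub_self]
  obtain ⟨t, ht⟩ := hd ⟨x - x₀, hy⟩
  have ht' : t • (d : E3) = x - x₀ := by
    have := congrArg Subtype.val ht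
    simpa using this
  have hxe : x = x₀ + t • (d : E3) := by rw [ht']; abel
  have e1 : ‖x - p‖ ^ 2 = 1 := by rw [hx.2.2]; norm_num
  have e2 : ‖x₀ - p‖ ^ 2 = 1 := by rw [hx₀.2.2]; norm_num
  have e3 : x - p = (x₀ - p) + t • (d : E3) := by rw [hxe]; abel
  rw [e3, norm_add_sq_real, e2, real_inner_smul_right, norm_smul, mul_pow, Real.norm_eq_abs,
    sq_abs] at e1
  have e4 : t * (2 * inner ℝ (x₀ - p) (d : E3) + t * ‖(d : E3)‖ ^ 2) = 0 := by linarith
  rcases mul_eq_zero.mp e4 with h | h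
  · left; rw [hxe, h]; simp
  · right
    have : t = -2 * inner ℝ (x₀ - p) (d : E3) / ‖(d : E3)‖ ^ 2 := by
      rw [eq_div_iff hdn]
      linarith
    rw [hxe, this]
    rfl

theorem fin_radical (a : E3) (ha : a ≠ 0) (c : ℝ) (p q : E3) (hpq : p ≠ q)
    (hrad : ∀ t : ℝ, q - p = t • a → t * c ≠ inner ℝ (q - p) (p + q) / 2) :
    {x : E3 | inner ℝ a x = c ∧ ‖x - p‖ = 1 ∧ ‖x - q‖ = 1}.Finite := by
  by_cases hli : LinearIndependent ℝ ![a, q - p]
  · apply (fin_line_sphere a (q - p) hli c (inner ℝ (q - p) (p + q) / 2) p).subset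
    rintro x ⟨h1, h2, h3⟩
    exact ⟨h1, radical h2 h3, h2⟩
  · rw [LinearIndependent.pair_iff' ha] at hli
    push Not at hli
    obtain ⟨t, ht⟩ := hli
    convert Set.finite_empty
    rw [Set.eq_empty_iff_forall_notMem]
    rintro x ⟨h1, h2, h3⟩
    apply hrad t ht.symm
    have := radical h2 h3
    rw [← this, ← ht, real_inner_smul_left, h1]

theorem fin_spheres (p q r : E3) (h1 : p ≠ q) (h2 : p ≠ r) (h3 : q ≠ r) :
    {x : E3 | ‖x - p‖ = 1 ∧ ‖x - q‖ = 1 ∧ ‖x - r‖ = 1}.Finite := by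
  have hqp : q - p ≠ 0 := sub_ne_zero.mpr (Ne.symm h1)
  by_cases hli : LinearIndependent ℝ ![q - p, r - p]
  · apply (fin_line_sphere (q - p) (r - p) hli (inner ℝ (q - p) (p + q) / 2)
      (inner ℝ (r - p) (p + r) / 2) p).subset
    rintro x ⟨e1, e2, e3⟩
    exact ⟨radical e1 e2, radical e1 e3, e1⟩
  · rw [LinearIndependent.pair_iff' hqp] at hli
    push Not at hli
    obtain ⟨t, ht⟩ := hli
    convert Set.finite_empty
    rw [Set.eq_empty_iff_forall_notMem]
    rintro x ⟨e1, e2, e3⟩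
    have f1 : ‖x - p‖ ^ 2 = 1 := by rw [e1]; norm_num
    have f2 : ‖x - q‖ ^ 2 = 1 := by rw [e2]; norm_num
    have f3 : ‖x - r‖ ^ 2 = 1 := by rw [e3]; norm_num
    have g2 : x - q = (x - p) - (q - p) := by abel
    have g3 : x - r = (x - p) - t • (q - p) := by rw [ht]; abel
    rw [g2, norm_sub_sq_real, f1] at f2
    rw [g3, norm_sub_sq_real, f1, real_inner_smul_right, norm_smul, mul_pow, Real.norm_eq_abs,
      sq_abs] at f3
    have hn : ‖q - p‖ ^ 2 ≠ 0 := by positivity
    have k : t * (t - 1) * ‖q - p‖ ^ 2 = 0 := by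
      have : t * ‖q - p‖ ^ 2 = 2 * t * inner ℝ (x - p) (q - p) := by
        have : ‖q - p‖ ^ 2 = 2 * inner ℝ (x - p) (q - p) := by linarith
        rw [this]; ring
      nlinarith
    rcases mul_eq_zero.mp k with k | k
    · rcases mul_eq_zero.mp k with k | k
      · rw [k, zero_smul] at ht
        exact h2 (sub_eq_zero.mp ht.symm).symm
      · have : t = 1 := by linarith
        rw [this, one_smul] at ht
        exact h3 (sub_left_injective ht)
    · exact hn k

end Pool.Agent.CBT
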