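import Pool.Agent.Lib.CBT.Algebra
import Pool.Agent.Lib.CBT.Stair

/-!
# CBT.Slab : the discrete staircase (key lemma)

`j : ℝ → ℕ` measurable, `δ(s) = side (j s) = (2/3) 7^(-j s)`, coordinates `s = co b x 0`, `x1 = co b x 1`, `x2 = co b x 2`.

* `sep_res1`: `A a = {x | ⌊x1/δ(s)⌋ % 3 = a}` is Borel, and `x + t b2 = y` keeps `s` and `x1`: `sep_of_dir` with `u = b 2`.
  `sep_res2`: the same with `x2` and `u = b 1`.
* `sep_cellMono`: by `sep_local` (covers `A 0, A 1, A 2`, and then the classes in `x2`) it is enough to separate `E` inside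
  `Z = X ∩ A a ∩ B b`.  Let `R` bound `X`, choose `N` with `7^N > 2R`, `u q = 7^N / 7^q`, `d1, d2` from
  `exists_stair u`, path `d t = (θ1 d1 t) b1 + (θ2 d2 t) b2`; `d 0 = 0`, `‖d 1‖ ≥ 7^N > 2R`; `sep_of_path`.
  Let `0 < t ≤ 1`, `x ∈ Z ∩ E`, `y ∈ Z \ E`, `x + d t = y`.  Then `co b y 0 = co b x 0 = s`; put `δ = side (j s)`, `D_i = d_i t > 0`.
  Since `⌊y_i/δ⌋ ≡ ⌊x_i/δ⌋ mod 3`, `D_i/δ` has distance `< 1` from `3ℤ` (for `i = 1,2`).
  Case A: `D_1 = u q`, `u (q+1) ≤ D_2 ≤ u q`.  `u q / δ = (3/2) 7^(N - q + j)`.  If `N + j ≥ q` this is `3/2` times an odd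
  integer, so `≡ 3/2 mod 3`: contradiction.  If `N + j < q`: `u q ≤ 7^(-j-1) = (3/14) δ < δ`, so both `D_i < δ`, and
  `⌊y_i/δ⌋ = ⌊x_i/δ⌋` (congruent mod 3 and differing by at most 1): same cell, and `CellMono` gives `y ∈ E`.
  Case B: `D_2 = u (q+1)`, `u (q+1) ≤ D_1 ≤ u q`.  If `N + j ≥ q + 1` contradiction as before.  If `N + j ≤ q`:
  `D_2 ≤ (3/14) δ`, `D_1 ≤ u q ≤ 7^(-j) = (3/2) δ`; as `D_1/δ` has distance `< 1` from `3ℤ` and is in `(0, 3/2]`, it is `< 1`;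
  same conclusion.
-/

set_option autoImplicit false

namespace Pool.Agent.CBT

open Set Metric

/-- `E` is cellwise monotone (inside `X`) in the direction of the open quadrant `(θ1, θ2)`. -/
def CellMono (b : Frame) (j : ℝ → ℕ) (θ1 θ2 : ℝ) (X E : Set E3) : Prop :=
  ∀ x ∈ X, x ∈ E → ∀ y ∈ X, co b y 0 = co b x 0 → cell b (j (co b x 0)) y = cell b (j (co b x 0)) x →
    0 < θ1 * (co b y 1 - co b x 1) → 0 < θ2 * (co b y 2 - co b x 2) → y ∈ E

namespace SlabAux

theorem side_pos (j : ℕ) : 0 < side j := by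
  unfold side; positivity

theorem measurable_co (b : Frame) (i : Fin 3) : Measurable fun x : E3 => co b x i := by
  have : Continuous fun x : E3 => co b x i := by
    unfold co; fun_prop
  exact this.measurable

theorem measurable_res (b : Frame) (j : ℝ → ℕ) (hj : Measurable j) (i : Fin 3) (a : ℤ) :
    MeasurableSet {x : E3 | ⌊co b x i / side (j (co b x 0))⌋ % 3 = a} := by
  have h1 : Measurable fun x : E3 => co b x i / side (j (co b x 0)) := by
    refine (measurable_co b i).div ?_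
    have h2 : Measurable side := measurable_from_nat
    exact h2.comp (hj.comp (measurable_co b 0))
  have h3 : Measurable fun x : E3 => ⌊co b x i / side (j (co b x 0))⌋ := h1.floor
  exact h3 (MeasurableSet.of_discrete (s := {z : ℤ | z % 3 = a}))

theorem co_add_smul (b : Frame) (x : E3) (t : ℝ) (i k : Fin 3) :
    co b (x + t • b k) i = co b x i + t * (if i = k then 1 else 0) := by
  unfold co
  rw [inner_add_right, inner_smul_right, b.inner_eq_ite]

/-- congruent floors: the difference is near `3ℤ` -/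
theorem near_three {a r : ℝ} (h : ⌊a + r⌋ % 3 = ⌊a⌋ % 3) : ∃ k : ℤ, |r - 3 * k| < 1 := by
  refine ⟨(⌊a + r⌋ - ⌊a⌋) / 3, ?_⟩
  have h1 : 3 * ((⌊a + r⌋ - ⌊a⌋) / 3) = ⌊a + r⌋ - ⌊a⌋ := by omega
  have h2 : (3 : ℝ) * (((⌊a + r⌋ - ⌊a⌋) / 3 : ℤ) : ℝ) = (⌊a + r⌋ : ℝ) - ⌊a⌋ := by
    exact_mod_cast h1
  rw [h2, abs_lt]
  have e1 := Int.floor_le (a + r)
  have e2 := Int.lt_floor_add_one (a + r)
  have e3 := Int.floor_le a
  have e4 := Int.lt_floor_add_one a
  constructor <;> linarith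

theorem floor_eq {a r : ℝ} (h : ⌊a + r⌋ % 3 = ⌊a⌋ % 3) (hr : |r| < 1) : ⌊a + r⌋ = ⌊a⌋ := by
  rw [abs_lt] at hr
  have e1 := Int.floor_le (a + r)
  have e2 := Int.lt_floor_add_one (a + r)
  have e3 := Int.floor_le a
  have e4 := Int.lt_floor_add_one a
  have h1 : (⌊a + r⌋ : ℝ) - ⌊a⌋ < 2 := by linarith
  have h2 : (-2 : ℝ) < (⌊a + r⌋ : ℝ) - ⌊a⌋ := by linarith
  have h3 : ⌊a + r⌋ - ⌊a⌋ < 2 := by exact_mod_cast h1
  have h4 : -2 < ⌊a + r⌋ - ⌊a⌋ := by exact_mod_cast h2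
  omega

theorem not_near {n : ℕ} {k : ℤ} (h : |(3 / 2 : ℝ) * 7 ^ n - 3 * k| < 1) : False := by
  obtain ⟨l, hl⟩ : ∃ l : ℤ, (7 : ℤ) ^ n = 2 * l + 1 := by
    have : Odd ((7 : ℤ) ^ n) := Odd.pow (by decide)
    exact this
  have hl' : (7 : ℝ) ^ n = 2 * l + 1 := by exact_mod_cast hl
  rw [hl', abs_lt] at h
  obtain ⟨h1, h2⟩ := h
  have h3 : (l : ℝ) - k < 0 := by linarith
  have h4 : (-1 : ℝ) < (l : ℝ) - k := by linarith
  have h5 : l - k < 0 := by exact_mod_cast h3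
  have h6 : -1 < l - k := by exact_mod_cast h4
  omega

theorem u_div {N j q : ℕ} (h : q ≤ N + j) :
    (7 : ℝ) ^ N / 7 ^ q / side j = (3 / 2 : ℝ) * 7 ^ (N + j - q) := by
  unfold side
  have h1 : (7 : ℝ) ^ (N + j) = 7 ^ (N + j - q) * 7 ^ q := by
    rw [← pow_add]; congr 1; omega
  rw [one_div, inv_pow]
  have h7 : (7 : ℝ) ^ q ≠ 0 := by positivity
  have h8 : (7 : ℝ) ^ j ≠ 0 := by positivity
  rw [pow_add] at h1
  field_simp
  linear_combination h1

theorem u_le {N j q n : ℕ} (h : N + j + n ≤ q) :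
    (7 : ℝ) ^ N / 7 ^ q ≤ (3 / 2 : ℝ) * (1 / 7) ^ n * side j := by
  unfold side
  have h1 : (7 : ℝ) ^ N / 7 ^ q ≤ (1 / 7) ^ (j + n) := by
    rw [div_le_iff₀ (by positivity), one_div, inv_pow, ← div_eq_inv_mul,
      le_div_iff₀ (by positivity), ← pow_add]
    exact pow_le_pow_right₀ (by norm_num) (by omega)
  calc (7 : ℝ) ^ N / 7 ^ q ≤ (1 / 7) ^ (j + n) := h1
    _ = 3 / 2 * (1 / 7) ^ n * (2 / 3 * (1 / 7) ^ j) := by rw [pow_add]; ring

theorem arith {N j q : ℕ} {D1 D2 : ℝ} {k1 k2 : ℤ} (h1 : |D1 / side j - 3 * k1| < 1)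
    (h2 : |D2 / side j - 3 * k2| < 1)
    (hc : (D1 = 7 ^ N / 7 ^ q ∧ D2 ∈ uIcc ((7 : ℝ) ^ N / 7 ^ (q + 1)) (7 ^ N / 7 ^ q)) ∨
      (D2 = 7 ^ N / 7 ^ (q + 1) ∧ D1 ∈ uIcc ((7 : ℝ) ^ N / 7 ^ (q + 1)) (7 ^ N / 7 ^ q))) :
    0 < D1 ∧ D1 / side j < 1 ∧ 0 < D2 ∧ D2 / side j < 1 := by
  have hs := side_pos j
  have hle : (7 : ℝ) ^ N / 7 ^ (q + 1) ≤ 7 ^ N / 7 ^ q := by
    apply div_le_div_of_nonneg_left (by positivity) (by positivity)
    exact pow_le_pow_right₀ (by norm_num) (by omega)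
  have hu1 : (0 : ℝ) < 7 ^ N / 7 ^ q := by positivity
  have hu2 : (0 : ℝ) < 7 ^ N / 7 ^ (q + 1) := by positivity
  rw [uIcc_of_le hle] at hc
  rcases hc with ⟨hD1, hD2, hD2'⟩ | ⟨hD2, hD1, hD1'⟩
  · rcases le_or_gt q (N + j) with hq | hq
    · exfalso
      rw [hD1, u_div hq] at h1
      exact not_near h1
    · have h3 := u_le (N := N) (j := j) (q := q) (n := 1) (by omega)
      refine ⟨by rw [hD1]; exact hu1, ?_, lt_of_lt_of_le hu2 hD2, ?_⟩
      · rw [div_lt_one hs, hD1]; nlinarith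
      · rw [div_lt_one hs]; nlinarith
  · rcases le_or_gt (q + 1) (N + j) with hq | hq
    · exfalso
      rw [hD2, u_div hq] at h2
      exact not_near h2
    · have h3 := u_le (N := N) (j := j) (q := q + 1) (n := 1) (by omega)
      have h4 := u_le (N := N) (j := j) (q := q) (n := 0) (by omega)
      have h5 : 0 < D1 := lt_of_lt_of_le hu2 hD1
      refine ⟨h5, ?_, by rw [hD2]; exact hu2, ?_⟩
      · have h6 : D1 / side j ≤ 3 / 2 := by
          rw [div_le_iff₀ hs]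
          calc D1 ≤ _ := hD1'
            _ ≤ _ := h4
            _ = 3 / 2 * side j := by ring
        have h7 : 0 < D1 / side j := div_pos h5 hs
        rw [abs_lt] at h1
        have h8 : (k1 : ℝ) < 1 := by linarith [h1.1, h1.2]
        have h9 : (-1 : ℝ) < k1 := by linarith [h1.1, h1.2]
        have h10 : k1 < 1 := by exact_mod_cast h8
        have h11 : -1 < k1 := by exact_mod_cast h9
        have h12 : k1 = 0 := by omega
        rw [h12] at h1
        push_cast at h1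
        linarith [h1.1, h1.2]
      · rw [div_lt_one hs, hD2]; nlinarith

end SlabAux

open SlabAux

theorem sep_res1 (b : Frame) (j : ℝ → ℕ) (hj : Measurable j) {X : Set E3} (hX : Bornology.IsBounded X)
    (a : ℤ) : Sep X {x | ⌊co b x 1 / side (j (co b x 0))⌋ % 3 = a} := by
  refine sep_of_dir hX (measurable_res b j hj 1 a).baireMeasurableSet (u := b 2)
    (b.orthonormal.ne_zero 2) ?_
  rintro t - x ⟨-, hx⟩ y ⟨-, hy⟩ rfl
  apply hy
  rw [mem_ofPred_eq] at hx ⊢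
  rw [co_add_smul, co_add_smul]
  simpa using hx

theorem sep_res2 (b : Frame) (j : ℝ → ℕ) (hj : Measurable j) {X : Set E3} (hX : Bornology.IsBounded X)
    (a : ℤ) : Sep X {x | ⌊co b x 2 / side (j (co b x 0))⌋ % 3 = a} := by
  refine sep_of_dir hX (measurable_res b j hj 2 a).baireMeasurableSet (u := b 1)
    (b.orthonormal.ne_zero 1) ?_
  rintro t - x ⟨-, hx⟩ y ⟨-, hy⟩ rfl
  apply hy
  rw [mem_ofPred_eq] at hx ⊢
  rw [co_add_smul, co_add_smul]
  simpa using hx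

theorem sep_cellMono (b : Frame) (j : ℝ → ℕ) (hj : Measurable j) {X E : Set E3}
    (hX : Bornology.IsBounded X) (hE : BaireMeasurableSet E) {θ1 θ2 : ℝ} (h1 : θ1 = 1 ∨ θ1 = -1)
    (h2 : θ2 = 1 ∨ θ2 = -1) (h : CellMono b j θ1 θ2 X E) : Sep X E := by
  have key : ∀ Z : Set E3, Z ⊆ X → (∀ i : Fin 3, i ≠ 0 → ∀ x ∈ Z, ∀ y ∈ Z,
      ⌊co b x i / side (j (co b x 0))⌋ % 3 = ⌊co b y i / side (j (co b y 0))⌋ % 3) → Sep Z E := by
    intro Z hZX hZ
    obtain ⟨R, hR⟩ := hX.exists_norm_le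
    obtain ⟨N, hN⟩ := pow_unbounded_of_one_lt (2 * R) (by norm_num : (1 : ℝ) < 7)
    have hu : Filter.Tendsto (fun q : ℕ => (7 : ℝ) ^ N / 7 ^ q) Filter.atTop (nhds 0) :=
      (tendsto_pow_atTop_atTop_of_one_lt (by norm_num : (1 : ℝ) < 7)).const_div_atTop _
    obtain ⟨d1, d2, hd1, hd2, h10, h20, h11, h21, hst⟩ := exists_stair _ hu
    have hco : ∀ (x : E3) (t : ℝ) (i : Fin 3),
        co b (x + ((θ1 * d1 t) • b 1 + (θ2 * d2 t) • b 2)) i =
          co b x i + (θ1 * d1 t * (if i = 1 then 1 else 0) + θ2 * d2 t * (if i = 2 then 1 else 0)) := by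
      intro x t i
      unfold co
      rw [inner_add_right, inner_add_right, inner_smul_right, inner_smul_right, b.inner_eq_ite,
        b.inner_eq_ite]
    refine sep_of_path hE R (fun x hx => hR x (hZX hx))
      (fun t => (θ1 * d1 t) • b 1 + (θ2 * d2 t) • b 2) (by fun_prop) (by simp [h10, h20]) ?_ ?_
    · have hn : ‖(θ1 * d1 1) • b 1 + (θ2 * d2 1) • b 2‖ ^ 2 = 7 ^ N * 7 ^ N + 7 ^ N * 7 ^ N := by
        rw [@norm_add_sq ℝ]
        have e1 : inner ℝ ((θ1 * d1 1) • b 1) ((θ2 * d2 1) • b 2) = (0 : ℝ) := by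
          rw [inner_smul_left, inner_smul_right, b.inner_eq_ite]
          simp
        have e2 : ‖b 1‖ = 1 := b.norm_eq_one 1
        have e3 : ‖b 2‖ = 1 := b.norm_eq_one 2
        rw [RCLike.re_to_real, e1, norm_smul, norm_smul, e2, e3, h11, h21]
        rcases h1 with rfl | rfl <;> rcases h2 with rfl | rfl <;> simp <;> ring
      have h7 : (0 : ℝ) < 7 ^ N := by positivity
      change 2 * R < ‖(θ1 * d1 1) • b 1 + (θ2 * d2 1) • b 2‖
      have hn0 := norm_nonneg ((θ1 * d1 1) • b 1 + (θ2 * d2 1) • b 2)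
      nlinarith
    · rintro t ⟨ht0, ht1⟩ x ⟨hxZ, hxE⟩ y ⟨hyZ, hyE⟩ hxy
      rcases eq_or_lt_of_le ht0 with rfl | ht
      · apply hyE
        rw [← hxy]
        simpa [h10, h20] using hxE
      · obtain ⟨q, hq⟩ := hst t ⟨ht, ht1⟩
        have hy0 : co b y 0 = co b x 0 := by
          rw [← hxy, hco]; simp
        have hy1 : co b y 1 = co b x 1 + θ1 * d1 t := by
          rw [← hxy, hco]; simp
        have hy2 : co b y 2 = co b x 2 + θ2 * d2 t := by
          rw [← hxy, hco]; simp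
        have c1 := hZ 1 (by decide) y hyZ x hxZ
        have c2 := hZ 2 (by decide) y hyZ x hxZ
        rw [hy0, hy1, add_div] at c1
        rw [hy0, hy2, add_div] at c2
        obtain ⟨k1, hk1⟩ := near_three c1
        obtain ⟨k2, hk2⟩ := near_three c2
        have hsg : ∀ (θ D : ℝ) (k : ℤ), (θ = 1 ∨ θ = -1) →
            |θ * D / side (j (co b x 0)) - 3 * k| < 1 →
            ∃ k' : ℤ, |D / side (j (co b x 0)) - 3 * k'| < 1 := by
          rintro θ D k (rfl | rfl) hk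
          · exact ⟨k, by simpa using hk⟩
          · refine ⟨-k, ?_⟩
            rw [← abs_neg] at hk
            convert hk using 2
            push_cast
            ring
        obtain ⟨k1', hk1'⟩ := hsg θ1 (d1 t) k1 h1 hk1
        obtain ⟨k2', hk2'⟩ := hsg θ2 (d2 t) k2 h2 hk2
        obtain ⟨p1, s1, p2, s2⟩ := arith hk1' hk2' hq
        have hsp := side_pos (j (co b x 0))
        have habs : ∀ θ D : ℝ, (θ = 1 ∨ θ = -1) → 0 < D → D / side (j (co b x 0)) < 1 →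
            |θ * D / side (j (co b x 0))| < 1 := by
          intro θ D hθ hD hD1
          have h3 : 0 < D / side (j (co b x 0)) := div_pos hD hsp
          rcases hθ with rfl | rfl
          · rw [one_mul, abs_of_pos h3]; exact hD1
          · rw [neg_one_mul, neg_div, abs_neg, abs_of_pos h3]; exact hD1
        have f1 := floor_eq c1 (habs θ1 (d1 t) h1 p1 s1)
        have f2 := floor_eq c2 (habs θ2 (d2 t) h2 p2 s2)
        apply hyE
        refine h x (hZX hxZ) hxE y (hZX hyZ) hy0 ?_ ?_ ?_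
        · unfold cell
          rw [hy1, hy2, add_div, add_div, f1, f2]
        · rw [hy1, add_sub_cancel_left]
          rcases h1 with rfl | rfl
          · linarith
          · linarith
        · rw [hy2, add_sub_cancel_left]
          rcases h2 with rfl | rfl
          · linarith
          · linarith
  -- localisation
  have hcov : ∀ (i : Fin 3) (Y : Set E3),
      Y ⊆ ⋃ a : Fin 3, {x : E3 | ⌊co b x i / side (j (co b x 0))⌋ % 3 = ((a : ℕ) : ℤ)} := by
    intro i Y x _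
    rw [mem_iUnion]
    have h3 : 0 ≤ ⌊co b x i / side (j (co b x 0))⌋ % 3 := Int.emod_nonneg _ (by norm_num)
    have h4 : ⌊co b x i / side (j (co b x 0))⌋ % 3 < 3 := Int.emod_lt_of_pos _ (by norm_num)
    refine ⟨⟨(⌊co b x i / side (j (co b x 0))⌋ % 3).toNat, by omega⟩, ?_⟩
    change ⌊co b x i / side (j (co b x 0))⌋ % 3 =
      ((⌊co b x i / side (j (co b x 0))⌋ % 3).toNat : ℤ)
    omega
  refine sep_local hX _ (fun a : Fin 3 => sep_res1 b j hj hX ((a : ℕ) : ℤ)) (hcov 1 X) ?_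
  intro a
  refine sep_local (hX.subset inter_subset_left) _
    (fun a' : Fin 3 => sep_res2 b j hj (hX.subset inter_subset_left) ((a' : ℕ) : ℤ))
    (hcov 2 _) ?_
  intro a'
  refine key _ (fun x hx => hx.1.1) ?_
  rintro i hi x ⟨⟨-, hx1⟩, hx2⟩ y ⟨⟨-, hy1⟩, hy2⟩
  rw [mem_ofPred_eq] at hx1 hx2 hy1 hy2
  fin_cases i
  · exact absurd rfl hi
  · exact hx1.trans hy1.symm
  · exact hx2.trans hy2.symm

end Pool.Agent.CBT
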