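import Pool.Agent.Lib.CBT.Geom

/-!
# CBT.Triple : general position of the admissible surfaces

For three distinct admissible basic sets the three boundary surfaces have finitely many common points.
Normals: `a_w = (ρ w).linearIsometryEquiv.symm n`, `⟨a_w, x⟩ = ⟨n, ρ w x⟩ - ⟨n, ρ w 0⟩`, so the plane of `half a_w (c - ⟨n, ρ w 0⟩)` is
`{⟨n, ρ w x⟩ = c}`.
* Two planes with the same word: equal (then the data are equal: excluded) or disjoint.  Planes with distinct words: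
  any two of the normals are independent, any three are independent (`GP.g2`; if `m ≥ 1` there is a third word distinct from
  the two given ones; if `m = 0` there is only one word).
* three planes with distinct words: `fin_planes`; two planes and a sphere: `fin_line_sphere`; one plane and two distinct
  spheres: `fin_radical`: centres `p = (ρ w1)⁻¹ u1`, `q = (ρ w2)⁻¹ u2`; if `q - p = t a_w`, `t c' = ⟨q-p, p+q⟩/2` with
  `c' = c - ⟨n, ρ w 0⟩` then `t ≠ 0`, `c' = ⟨a_w, (p+q)/2⟩`, so `c = ⟨n, ρ w ((p+q)/2)⟩ = ⟨n, ρ w p + ρ w q⟩/2` and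
  `ρ w p = ρ (w * w1⁻¹) u1`: `c ∈ badLevel`.  Three distinct spheres: `fin_spheres`.
-/

set_option autoImplicit false

namespace Pool.Agent.CBT

open Set Metric

theorem inner_normal (f : Iso) (n x : E3) :
    inner ℝ (f.linearIsometryEquiv.symm n) x = inner ℝ n (f x) - inner ℝ n (f 0) := by
  have h1 : f x = f.linearIsometryEquiv x + f 0 := by
    have h := f.map_vadd 0 x
    simpa using h
  have h2 : inner ℝ (f.linearIsometryEquiv.symm n) x = inner ℝ n (f.linearIsometryEquiv x) := by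
    rw [← LinearIsometryEquiv.inner_map_map f.linearIsometryEquiv (f.linearIsometryEquiv.symm n) x]
    simp
  rw [h2, h1, inner_add_right]
  ring

/-- A point of the plane of level `c`. -/
theorem half_fn_eq (f : Iso) (n x : E3) (c : ℝ) :
    (Basic.half (f.linearIsometryEquiv.symm n) (c - inner ℝ n (f 0))).fn x = 0 ↔ inner ℝ n (f x) = c := by
  show inner ℝ (f.linearIsometryEquiv.symm n) x - (c - inner ℝ n (f 0)) = 0 ↔ _
  rw [inner_normal]
  constructor <;> intro h <;> linarith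

theorem indep_pair {m : ℕ} {ρ : FreeGroup (Fin m) →* Iso} {n : E3} (h : GP ρ n)
    {w w' : FreeGroup (Fin m)} (hw : w ≠ w') :
    LinearIndependent ℝ ![(ρ w).linearIsometryEquiv.symm n, (ρ w').linearIsometryEquiv.symm n] := by
  have hm : Nonempty (Fin m) := by
    by_contra hne
    rw [not_nonempty_iff] at hne
    exact hw (Subsingleton.elim _ _)
  obtain ⟨w'', hw''⟩ := Infinite.exists_notMem_finset ({w, w'} : Finset (FreeGroup (Fin m)))
  simp only [Finset.mem_insert, Finset.mem_singleton, not_or] at hw''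
  have hinj : Function.Injective ![w, w', w''] := by
    intro i j hij
    fin_cases i <;> fin_cases j <;> simp_all
  have h2 := h.g2 _ hinj
  have h3 := h2.comp (![0, 1] : Fin 2 → Fin 3) (by
    intro i j hij
    fin_cases i <;> fin_cases j <;> simp_all)
  convert h3 using 1
  funext i
  fin_cases i <;> simp

theorem triple_planes {m : ℕ} {ρ : FreeGroup (Fin m) →* Iso} {n : E3} (h : GP ρ n)
    {w₁ w₂ w₃ : FreeGroup (Fin m)} {c₁ c₂ c₃ : ℝ}
    (h12 : Basic.half ((ρ w₁).linearIsometryEquiv.symm n) (c₁ - inner ℝ n (ρ w₁ 0)) ≠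
      Basic.half ((ρ w₂).linearIsometryEquiv.symm n) (c₂ - inner ℝ n (ρ w₂ 0)))
    (h13 : Basic.half ((ρ w₁).linearIsometryEquiv.symm n) (c₁ - inner ℝ n (ρ w₁ 0)) ≠
      Basic.half ((ρ w₃).linearIsometryEquiv.symm n) (c₃ - inner ℝ n (ρ w₃ 0)))
    (h23 : Basic.half ((ρ w₂).linearIsometryEquiv.symm n) (c₂ - inner ℝ n (ρ w₂ 0)) ≠
      Basic.half ((ρ w₃).linearIsometryEquiv.symm n) (c₃ - inner ℝ n (ρ w₃ 0))) :
    {x : E3 | inner ℝ n (ρ w₁ x) = c₁ ∧ inner ℝ n (ρ w₂ x) = c₂ ∧ inner ℝ n (ρ w₃ x) = c₃}.Finite := by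
  by_cases e12 : w₁ = w₂
  · subst e12
    have : c₁ ≠ c₂ := fun hc => h12 (by rw [hc])
    convert Set.finite_empty
    ext x
    simp only [mem_ofPred_eq, mem_empty_iff_false, iff_false]
    rintro ⟨a, b, -⟩
    exact this (a.symm.trans b)
  by_cases e13 : w₁ = w₃
  · subst e13
    have : c₁ ≠ c₃ := fun hc => h13 (by rw [hc])
    convert Set.finite_empty
    ext x
    simp only [mem_ofPred_eq, mem_empty_iff_false, iff_false]
    rintro ⟨a, -, b⟩
    exact this (a.symm.trans b)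
  by_cases e23 : w₂ = w₃
  · subst e23
    have : c₂ ≠ c₃ := fun hc => h23 (by rw [hc])
    convert Set.finite_empty
    ext x
    simp only [mem_ofPred_eq, mem_empty_iff_false, iff_false]
    rintro ⟨-, a, b⟩
    exact this (a.symm.trans b)
  have hinj : Function.Injective ![w₁, w₂, w₃] := by
    intro i j hij
    fin_cases i <;> fin_cases j <;> simp_all
  have hf := fin_planes _ (h.g2 _ hinj)
    ![c₁ - inner ℝ n (ρ w₁ 0), c₂ - inner ℝ n (ρ w₂ 0), c₃ - inner ℝ n (ρ w₃ 0)]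
  refine hf.subset ?_
  rintro x ⟨a, b, c⟩ i
  have key := inner_normal (ρ (![w₁, w₂, w₃] i)) n x
  rw [key]
  fin_cases i
  · simp [a]
  · simp [b]
  · simp [c]

theorem triple_pps {m : ℕ} {ρ : FreeGroup (Fin m) →* Iso} {n : E3} (h : GP ρ n)
    {w₁ w₂ : FreeGroup (Fin m)} {c₁ c₂ : ℝ} (p : E3)
    (h12 : Basic.half ((ρ w₁).linearIsometryEquiv.symm n) (c₁ - inner ℝ n (ρ w₁ 0)) ≠
      Basic.half ((ρ w₂).linearIsometryEquiv.symm n) (c₂ - inner ℝ n (ρ w₂ 0))) :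
    {x : E3 | inner ℝ n (ρ w₁ x) = c₁ ∧ inner ℝ n (ρ w₂ x) = c₂ ∧ ‖x - p‖ = 1}.Finite := by
  by_cases e12 : w₁ = w₂
  · subst e12
    have : c₁ ≠ c₂ := fun hc => h12 (by rw [hc])
    convert Set.finite_empty
    ext x
    simp only [mem_ofPred_eq, mem_empty_iff_false, iff_false]
    rintro ⟨a, b, -⟩
    exact this (a.symm.trans b)
  refine (fin_line_sphere _ _ (indep_pair h e12) (c₁ - inner ℝ n (ρ w₁ 0)) (c₂ - inner ℝ n (ρ w₂ 0)) p).subset ?_
  rintro x ⟨a, b, c⟩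
  refine ⟨?_, ?_, c⟩
  · rw [inner_normal, a]
  · rw [inner_normal, b]

theorem triple_pss {m : ℕ} {ρ : FreeGroup (Fin m) →* Iso} {n v : E3} (h : GP ρ n)
    {w w₁ w₂ : FreeGroup (Fin m)} {c : ℝ} (hc : c ∉ badLevel ρ n v) {u₁ u₂ : E3}
    (hu₁ : u₁ = 0 ∨ u₁ = v) (hu₂ : u₂ = 0 ∨ u₂ = v)
    (hne : (ρ w₁)⁻¹ u₁ ≠ (ρ w₂)⁻¹ u₂) :
    {x : E3 | inner ℝ n (ρ w x) = c ∧ ‖x - (ρ w₁)⁻¹ u₁‖ = 1 ∧ ‖x - (ρ w₂)⁻¹ u₂‖ = 1}.Finite := by
  set p := (ρ w₁)⁻¹ u₁ with hp
  set q := (ρ w₂)⁻¹ u₂ with hq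
  set a := (ρ w).linearIsometryEquiv.symm n with ha
  have hna : a ≠ 0 := by
    intro h0
    have : ‖a‖ = 1 := by rw [ha, LinearIsometryEquiv.norm_map]; exact h.norm_n
    rw [h0, norm_zero] at this
    exact zero_ne_one this
  refine (fin_radical a hna (c - inner ℝ n (ρ w 0)) p q hne ?_).subset ?_
  · intro t ht hc'
    have ht0 : t ≠ 0 := by
      rintro rfl
      rw [zero_smul, sub_eq_zero] at ht
      exact hne ht.symm
    rw [ht, inner_smul_left, RCLike.conj_to_real, mul_div_assoc] at hc'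
    have h1 := mul_left_cancel₀ ht0 hc'
    rw [inner_add_right, ha, inner_normal, inner_normal] at h1
    apply hc
    refine ⟨w * w₁⁻¹, w * w₂⁻¹, u₁, u₂, hu₁, hu₂, ?_⟩
    rw [map_mul, map_mul, map_inv, map_inv, inner_add_right]
    change c = (inner ℝ n (ρ w p) + inner ℝ n (ρ w q)) / 2
    linarith
  · rintro x ⟨b, c', d⟩
    exact ⟨by rw [ha, inner_normal, b], c', d⟩

theorem ball_fn_eq (p x : E3) : (Basic.ball p).fn x = 0 ↔ ‖x - p‖ = 1 := by
  show ‖x - p‖ - 1 = 0 ↔ _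
  exact sub_eq_zero

theorem finite_triple {m : ℕ} {ρ : FreeGroup (Fin m) →* Iso} {n v : E3} (h : GP ρ n) {P₁ P₂ P₃ : Basic}
    (h1 : P₁ ∈ Adm ρ n v) (h2 : P₂ ∈ Adm ρ n v) (h3 : P₃ ∈ Adm ρ n v) (h12 : P₁ ≠ P₂) (h13 : P₁ ≠ P₃)
    (h23 : P₂ ≠ P₃) : {x : E3 | P₁.fn x = 0 ∧ P₂.fn x = 0 ∧ P₃.fn x = 0}.Finite := by
  rcases h1 with ⟨w₁, c₁, hc₁, rfl⟩ | ⟨w₁, u₁, hu₁, rfl⟩ <;>
  rcases h2 with ⟨w₂, c₂, hc₂, rfl⟩ | ⟨w₂, u₂, hu₂, rfl⟩ <;>
  rcases h3 with ⟨w₃, c₃, hc₃, rfl⟩ | ⟨w₃, u₃, hu₃, rfl⟩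
  · simp only [half_fn_eq]
    exact triple_planes h h12 h13 h23
  · simp only [half_fn_eq, ball_fn_eq]
    exact triple_pps h _ h12
  · simp only [half_fn_eq, ball_fn_eq]
    refine (triple_pps h ((ρ w₂)⁻¹ u₂) h13).subset ?_
    rintro x ⟨a, b, c⟩
    exact ⟨a, c, b⟩
  · simp only [half_fn_eq, ball_fn_eq]
    exact triple_pss h hc₁ hu₂ hu₃ (fun e => h23 (by rw [e]))
  · simp only [half_fn_eq, ball_fn_eq]
    refine (triple_pps h ((ρ w₁)⁻¹ u₁) h23).subset ?_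
    rintro x ⟨a, b, c⟩
    exact ⟨b, c, a⟩
  · simp only [half_fn_eq, ball_fn_eq]
    refine (triple_pss (w := w₂) h hc₂ hu₁ hu₃ (fun e => h13 (by rw [e]))).subset ?_
    rintro x ⟨a, b, c⟩
    exact ⟨b, a, c⟩
  · simp only [half_fn_eq, ball_fn_eq]
    refine (triple_pss (w := w₃) h hc₃ hu₁ hu₂ (fun e => h12 (by rw [e]))).subset ?_
    rintro x ⟨a, b, c⟩
    exact ⟨c, a, b⟩
  · simp only [ball_fn_eq]
    exact fin_spheres _ _ _ (fun e => h12 (by rw [e])) (fun e => h13 (by rw [e])) (fun e => h23 (by rw [e]))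

end Pool.Agent.CBT
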